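import Pool.Agent.Lib.MP_25f38e_lc.Defs

/-! AVG module: API of `avg` and `ex` (helper15) -/

set_option linter.unusedSectionVars false

noncomputable section

open scoped Classical
open Finset

namespace Pool.Agent.MLLL

section avg

variable {V W : Type*} {A : Type} [DecidableEq V] [DecidableEq W] [Fintype A]

theorem ov_of_mem {F : Finset V} {h : F → A} {g : V → A} {v : V} (hv : v ∈ F) :
    ov F h g v = h ⟨v, hv⟩ := by simp [ov, hv]

theorem ov_of_not_mem {F : Finset V} {h : F → A} {g : V → A} {v : V} (hv : v ∉ F) :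
    ov F h g v = g v := by simp [ov, hv]

theorem ind_nonneg (P : Prop) : 0 ≤ ind P := by
  unfold ind
  split_ifs
  · exact zero_le_one
  · exact le_refl 0

theorem ind_le_one (P : Prop) : ind P ≤ 1 := by
  unfold ind
  split_ifs
  · exact le_refl 1
  · exact zero_le_one

theorem ind_mono {P Q : Prop} (h : P → Q) : ind P ≤ ind Q := by
  by_cases hP : P
  · have hQ := h hP
    simp [ind, hP, hQ]
  · have : ind P = 0 := by simp [ind, hP]
    rw [this]
    exact ind_nonneg Q

theorem ind_and (P Q : Prop) : ind (P ∧ Q) = ind P * ind Q := by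
  by_cases hP : P <;> by_cases hQ : Q <;> simp [ind, hP, hQ]

theorem avg_empty (Φ : (V → A) → ℝ) (g : V → A) : avg ∅ Φ g = Φ g := by
  have h1 : ∀ h : ((∅ : Finset V) → A), ov ∅ h g = g := by
    intro h
    funext v
    exact ov_of_not_mem (Finset.notMem_empty v)
  unfold avg
  rw [Finset.sum_congr rfl (fun h _ => by rw [h1 h])]
  simp

/-- `avg` is monotone; only the assignments that agree with `g` off `F` matter -/
theorem avg_mono {F : Finset V} {Φ Ψ : (V → A) → ℝ} {g : V → A}
    (h : ∀ g' : V → A, (∀ v, v ∉ F → g' v = g v) → Φ g' ≤ Ψ g') : avg F Φ g ≤ avg F Ψ g := by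
  unfold avg
  apply div_le_div_of_nonneg_right _ (by positivity)
  apply Finset.sum_le_sum
  intro k _
  exact h _ (fun v hv => ov_of_not_mem hv)

theorem avg_congr_fun {F : Finset V} {Φ Ψ : (V → A) → ℝ} {g : V → A}
    (h : ∀ g' : V → A, (∀ v, v ∉ F → g' v = g v) → Φ g' = Ψ g') : avg F Φ g = avg F Ψ g :=
  le_antisymm (avg_mono fun g' hg => (h g' hg).le) (avg_mono fun g' hg => (h g' hg).ge)

theorem avg_nonneg {F : Finset V} {Φ : (V → A) → ℝ} {g : V → A} (h : ∀ g', 0 ≤ Φ g') :
    0 ≤ avg F Φ g := by
  unfold avg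
  exact div_nonneg (Finset.sum_nonneg fun k _ => h _) (by positivity)

theorem avg_card_ne [Nonempty A] (n : ℕ) : (Fintype.card A : ℝ) ^ n ≠ 0 := by
  have : 0 < Fintype.card A := Fintype.card_pos
  positivity

theorem avg_const [Nonempty A] (F : Finset V) (c : ℝ) (g : V → A) :
    avg F (fun _ => c) g = c := by
  unfold avg
  rw [Finset.sum_const, Finset.card_univ, Fintype.card_fun, Fintype.card_coe, nsmul_eq_mul]
  push_cast
  rw [mul_div_assoc, mul_comm, div_mul_cancel₀]
  exact avg_card_ne _

theorem avg_add (F : Finset V) (Φ Ψ : (V → A) → ℝ) (g : V → A) :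
    avg F (fun g' => Φ g' + Ψ g') g = avg F Φ g + avg F Ψ g := by
  unfold avg
  rw [Finset.sum_add_distrib, add_div]

theorem avg_mul_left (F : Finset V) (c : ℝ) (Φ : (V → A) → ℝ) (g : V → A) :
    avg F (fun g' => c * Φ g') g = c * avg F Φ g := by
  unfold avg
  rw [← Finset.mul_sum, mul_div_assoc]

theorem avg_sum {κ : Type*} (F : Finset V) (s : Finset κ) (Φ : κ → (V → A) → ℝ) (g : V → A) :
    avg F (fun g' => ∑ i ∈ s, Φ i g') g = ∑ i ∈ s, avg F (Φ i) g := by
  unfold avg
  rw [Finset.sum_comm, Finset.sum_div]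

/-- one coordinate at a time (outer) -/
theorem avg_insert {u : V} {F : Finset V} (hu : u ∉ F) (Φ : (V → A) → ℝ) (g : V → A) :
    avg (insert u F) Φ g = (∑ a : A, avg F Φ (Function.update g u a)) / Fintype.card A := by
  have key : ∑ h : ({v // v ∈ insert u F} → A), Φ (ov (insert u F) h g)
      = ∑ p : A × (F → A), Φ (ov F p.2 (Function.update g u p.1)) := by
    symm
    apply Finset.sum_nbij'
      (i := fun p : A × (F → A) =>
        (fun v : {v // v ∈ insert u F} => if hv : v.1 ∈ F then p.2 ⟨v.1, hv⟩ else p.1))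
      (j := fun h : ({v // v ∈ insert u F} → A) =>
        (h ⟨u, Finset.mem_insert_self u F⟩,
          fun v : F => h ⟨v.1, Finset.mem_insert_of_mem v.2⟩))
    · intro p _
      exact Finset.mem_univ _
    · intro p _
      exact Finset.mem_univ _
    · rintro ⟨a, h⟩ _
      ext1
      · simp [hu]
      · funext v
        simp
    · intro h _
      funext v
      by_cases hv : v.1 ∈ F
      · simp [hv]
      · have hvu : v.1 = u := (Finset.mem_insert.mp v.2).resolve_right hv
        simp only [hv, dite_false]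
        congr 1
        exact Subtype.ext hvu.symm
    · rintro ⟨a, h⟩ _
      congr 1
      funext v
      by_cases hv : v ∈ F
      · rw [ov_of_mem hv, ov_of_mem (Finset.mem_insert_of_mem hv)]
        simp [hv]
      · rw [ov_of_not_mem hv]
        by_cases hvu : v = u
        · subst hvu
          rw [ov_of_mem (Finset.mem_insert_self v F)]
          simp [hv]
        · rw [ov_of_not_mem (by simp [hv, hvu])]
          simp [hvu]
  unfold avg
  rw [key, Fintype.sum_prod_type, ← Finset.sum_div, Finset.card_insert_of_notMem hu, pow_succ,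
    div_div]

/-- tower property -/
theorem avg_union {F G : Finset V} (h : Disjoint F G) (Φ : (V → A) → ℝ) (g : V → A) :
    avg (F ∪ G) Φ g = avg F (fun g' => avg G Φ g') g := by
  induction F using Finset.induction_on generalizing g with
  | empty => rw [Finset.empty_union, avg_empty]
  | insert u F hu ih =>
    rw [Finset.disjoint_insert_left] at h
    have hu' : u ∉ F ∪ G := by simp [hu, h.1]
    rw [Finset.insert_union, avg_insert hu', avg_insert hu]
    congr 1
    exact Finset.sum_congr rfl fun a _ => ih h.2 _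

/-- the average only depends on the base point through `S \ F` -/
theorem avg_congr {F : Finset V} {S : Set V} {Φ : (V → A) → ℝ} (hΦ : DependsOn Φ S)
    {g g' : V → A} (h : ∀ v ∈ S, v ∉ F → g v = g' v) : avg F Φ g = avg F Φ g' := by
  unfold avg
  congr 1
  apply Finset.sum_congr rfl
  intro k _
  apply hΦ
  intro v hv
  by_cases hF : v ∈ F
  · rw [ov_of_mem hF, ov_of_mem hF]
  · rw [ov_of_not_mem hF, ov_of_not_mem hF]
    exact h v hv hF

theorem avg_sum_const_div [Nonempty A] (c : ℝ) : (∑ _a : A, c) / Fintype.card A = c := by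
  have h := avg_card_ne (A := A) 1
  rw [pow_one] at h
  rw [Finset.sum_const, Finset.card_univ, nsmul_eq_mul]
  field_simp

/-- a coordinate on which `Φ` does not depend -/
theorem avg_insert_of_not_mem [Nonempty A] {u : V} {F : Finset V} {S : Set V} (hu : u ∉ F)
    {Φ : (V → A) → ℝ} (hΦ : DependsOn Φ S) (huS : u ∉ S) (g : V → A) :
    avg (insert u F) Φ g = avg F Φ g := by
  rw [avg_insert hu]
  have h1 : ∀ a : A, avg F Φ (Function.update g u a) = avg F Φ g := by
    intro a
    apply avg_congr hΦ
    intro v hv _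
    have : v ≠ u := fun hvu => huS (hvu ▸ hv)
    rw [Function.update_of_ne this]
  rw [Finset.sum_congr rfl fun a _ => h1 a]
  exact avg_sum_const_div _

/-- coordinates on which `Φ` does not depend can be dropped -/
theorem avg_filter [Nonempty A] {F : Finset V} {S : Set V} {Φ : (V → A) → ℝ}
    (hΦ : DependsOn Φ S) (g : V → A) : avg F Φ g = avg (F.filter (· ∈ S)) Φ g := by
  induction F using Finset.induction_on generalizing g with
  | empty => rw [Finset.filter_empty]
  | insert u F hu ih =>
    by_cases huS : u ∈ S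
    · have hu' : u ∉ F.filter (· ∈ S) := fun h => hu (Finset.mem_filter.mp h).1
      rw [Finset.filter_insert, if_pos huS, avg_insert hu, avg_insert hu']
      congr 1
      exact Finset.sum_congr rfl fun a _ => ih _
    · rw [Finset.filter_insert, if_neg huS, avg_insert_of_not_mem hu hΦ huS, ih]

/-- independence -/
theorem avg_mul [Nonempty A] {F : Finset V} {S T : Set V} {Φ Ψ : (V → A) → ℝ}
    (hΦ : DependsOn Φ S) (hΨ : DependsOn Ψ T) (hd : ∀ v ∈ F, v ∈ S → v ∉ T) (g : V → A) :
    avg F (fun g' => Φ g' * Ψ g') g = avg F Φ g * avg F Ψ g := by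
  induction F using Finset.induction_on generalizing g with
  | empty => simp only [avg_empty]
  | insert u F hu ih =>
    have hd' : ∀ v ∈ F, v ∈ S → v ∉ T := fun v hv => hd v (Finset.mem_insert_of_mem hv)
    rw [avg_insert hu]
    rw [Finset.sum_congr rfl fun a _ => ih hd' (Function.update g u a)]
    by_cases huS : u ∈ S
    · have huT : u ∉ T := hd u (Finset.mem_insert_self u F) huS
      rw [avg_insert_of_not_mem hu hΨ huT, avg_insert hu Φ g]
      have h1 : ∀ a : A, avg F Ψ (Function.update g u a) = avg F Ψ g := by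
        intro a
        apply avg_congr hΨ
        intro v hv _
        have : v ≠ u := fun hvu => huT (hvu ▸ hv)
        rw [Function.update_of_ne this]
      rw [Finset.sum_congr rfl fun a _ => by rw [h1 a], ← Finset.sum_mul]
      ring
    · rw [avg_insert_of_not_mem hu hΦ huS, avg_insert hu Ψ g]
      have h1 : ∀ a : A, avg F Φ (Function.update g u a) = avg F Φ g := by
        intro a
        apply avg_congr hΦ
        intro v hv _
        have : v ≠ u := fun hvu => huS (hvu ▸ hv)
        rw [Function.update_of_ne this]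
      rw [Finset.sum_congr rfl fun a _ => by rw [h1 a], ← Finset.mul_sum]
      ring

/-- injective change of variables -/
theorem avg_comp (e : V → W) {F : Finset V} {S : Set V} (hF : (F : Set V) ⊆ S)
    (he : Set.InjOn e S) {Φ : (V → A) → ℝ} (hΦ : DependsOn Φ S) (τ : W → A) :
    avg (F.image e) (fun τ' => Φ (fun v => τ' (e v))) τ = avg F Φ (fun v => τ (e v)) := by
  induction F using Finset.induction_on generalizing τ with
  | empty => rw [Finset.image_empty, avg_empty, avg_empty]
  | insert u F hu ih =>
    have huS : u ∈ S := hF (by simp)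
    have hFS : (F : Set V) ⊆ S := fun v hv => hF (by
      rw [Finset.mem_coe] at hv ⊢
      exact Finset.mem_insert_of_mem hv)
    have hu' : e u ∉ F.image e := by
      intro h
      obtain ⟨v, hv, hvu⟩ := Finset.mem_image.mp h
      have : v = u := he (hFS hv) huS hvu
      exact hu (this ▸ hv)
    rw [Finset.image_insert, avg_insert hu', avg_insert hu]
    congr 1
    apply Finset.sum_congr rfl
    intro a _
    rw [ih hFS]
    apply avg_congr hΦ
    intro v hv _
    by_cases hvu : v = u
    · subst hvu
      simp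
    · have : e v ≠ e u := fun h => hvu (he hv huS h)
      rw [Function.update_of_ne this, Function.update_of_ne hvu]

variable {L : Type} [Fintype L] [DecidableEq L]

theorem ex_eq_avg (Φ : (L → A) → ℝ) (g : L → A) : ex Φ = avg Finset.univ Φ g := by
  unfold ex avg
  rw [Finset.card_univ]
  congr 1
  apply Finset.sum_nbij'
    (i := fun ω : L → A => (fun v : {v // v ∈ (Finset.univ : Finset L)} => ω v.1))
    (j := fun h : ({v // v ∈ (Finset.univ : Finset L)} → A) => (fun v : L => h ⟨v, Finset.mem_univ v⟩))
  · intro p _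
    exact Finset.mem_univ _
  · intro p _
    exact Finset.mem_univ _
  · intro p _
    rfl
  · intro p _
    rfl
  · intro ω _
    congr 1
    funext v
    rw [ov_of_mem (Finset.mem_univ v)]

/-- a labelled table is uniform on every finite set on which the labels are injective -/
theorem ex_comp [Nonempty A] (ℓ : V → L) {S : Finset V} (hℓ : Set.InjOn ℓ (S : Set V))
    {Φ : (V → A) → ℝ} (hΦ : DependsOn Φ (S : Set V)) (g : V → A) :
    ex (fun ω : L → A => Φ (fun v => ω (ℓ v))) = avg S Φ g := by
  have hdep : DependsOn (fun ω : L → A => Φ (fun v => ω (ℓ v))) (ℓ '' (S : Set V)) := by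
    intro ω ω' h
    apply hΦ
    intro v hv
    exact h (ℓ v) (Set.mem_image_of_mem ℓ hv)
  set ω0 : L → A := fun _ => Classical.arbitrary A with hω0
  rw [ex_eq_avg _ ω0, avg_filter hdep]
  have himg : ∀ T : Set L, T = ℓ '' (S : Set V) →
      (Finset.univ.filter (· ∈ T) : Finset L) = S.image ℓ := by
    intro T hT
    ext l
    simp [hT]
  rw [himg _ rfl, avg_comp ℓ (le_refl _) hℓ hΦ]
  apply avg_congr hΦ
  intro v hv hv'
  exact absurd hv hv'

theorem avg_singleton (l : V) (Φ : (V → A) → ℝ) (g : V → A) :
    avg {l} Φ g = (∑ a : A, Φ (Function.update g l a)) / Fintype.card A := by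
  have h := avg_insert (Finset.notMem_empty l) Φ g
  rw [insert_empty_eq] at h
  rw [h]
  congr 1
  exact Finset.sum_congr rfl fun a _ => avg_empty _ _

/-- resampling one coordinate does not change the expectation -/
theorem ex_update [Nonempty A] (l : L) (Φ : (L → A) → ℝ) :
    ex Φ = ex (fun ω => (∑ a : A, Φ (Function.update ω l a)) / Fintype.card A) := by
  set ω0 : L → A := fun _ => Classical.arbitrary A with hω0
  have hdep : DependsOn (fun ω : L → A => (∑ a : A, Φ (Function.update ω l a)) / Fintype.card A)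
      ({l}ᶜ : Set L) := by
    intro ω ω' h
    have h1 : ∀ a : A, Function.update ω l a = Function.update ω' l a := by
      intro a
      funext v
      by_cases hv : v = l
      · subst hv
        simp
      · rw [Function.update_of_ne hv, Function.update_of_ne hv]
        exact h v hv
    show (∑ a : A, Φ (Function.update ω l a)) / (Fintype.card A : ℝ)
      = (∑ a : A, Φ (Function.update ω' l a)) / (Fintype.card A : ℝ)
    rw [Finset.sum_congr rfl fun a _ => by rw [h1 a]]
  have huniv : (Finset.univ : Finset L) = Finset.univ.erase l ∪ {l} := by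
    ext v
    simp
  have hdisj : Disjoint (Finset.univ.erase l) ({l} : Finset L) := by
    rw [Finset.disjoint_singleton_right]
    exact Finset.notMem_erase l _
  have hfil : ∀ S : Set L, S = {l}ᶜ →
      (Finset.univ.filter (· ∈ S) : Finset L) = Finset.univ.erase l := by
    intro S hS
    ext v
    simp [hS]
  have h1 : ex Φ = avg (Finset.univ.erase l)
      (fun ω => (∑ a : A, Φ (Function.update ω l a)) / Fintype.card A) ω0 := by
    rw [ex_eq_avg _ ω0, huniv, avg_union hdisj]
    simp only [avg_singleton]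
    rw [← huniv]
  have h2 : ex (fun ω : L → A => (∑ a : A, Φ (Function.update ω l a)) / Fintype.card A)
      = avg (Finset.univ.erase l)
      (fun ω => (∑ a : A, Φ (Function.update ω l a)) / Fintype.card A) ω0 := by
    rw [ex_eq_avg _ ω0, avg_filter hdep, hfil _ rfl]
  rw [h1, h2]

theorem ex_mono {Φ Ψ : (L → A) → ℝ} (h : ∀ ω, Φ ω ≤ Ψ ω) : ex Φ ≤ ex Ψ := by
  unfold ex
  apply div_le_div_of_nonneg_right _ (by positivity)
  exact Finset.sum_le_sum fun ω _ => h ω

theorem ex_nonneg {Φ : (L → A) → ℝ} (h : ∀ ω, 0 ≤ Φ ω) : 0 ≤ ex Φ := by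
  unfold ex
  exact div_nonneg (Finset.sum_nonneg fun k _ => h _) (by positivity)

theorem ex_const [Nonempty A] (c : ℝ) : ex (fun _ : L → A => c) = c := by
  rw [ex_eq_avg _ (fun _ => Classical.arbitrary A), avg_const]

theorem ex_add (Φ Ψ : (L → A) → ℝ) : ex (fun ω => Φ ω + Ψ ω) = ex Φ + ex Ψ := by
  unfold ex
  rw [Finset.sum_add_distrib, add_div]

theorem ex_mul_left (c : ℝ) (Φ : (L → A) → ℝ) : ex (fun ω => c * Φ ω) = c * ex Φ := by
  unfold ex
  rw [← Finset.mul_sum, mul_div_assoc]

theorem ex_sum {κ : Type*} (s : Finset κ) (Φ : κ → (L → A) → ℝ) :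
    ex (fun ω => ∑ i ∈ s, Φ i ω) = ∑ i ∈ s, ex (Φ i) := by
  unfold ex
  rw [Finset.sum_comm, Finset.sum_div]

/-- Markov inequality -/
theorem ex_markov {Φ : (L → A) → ℝ} (h : ∀ ω, 0 ≤ Φ ω) {c : ℝ} (hc : 0 < c) :
    ex (fun ω => ind (c ≤ Φ ω)) ≤ ex Φ / c := by
  have h1 : ex (fun ω => ind (c ≤ Φ ω)) ≤ ex (fun ω => c⁻¹ * Φ ω) := by
    apply ex_mono
    intro ω
    by_cases hω : c ≤ Φ ω
    · have : ind (c ≤ Φ ω) = 1 := by simp [ind, hω]
      rw [this]
      calc (1 : ℝ) = c⁻¹ * c := by field_simp
        _ ≤ c⁻¹ * Φ ω := by gcongr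
    · have : ind (c ≤ Φ ω) = 0 := by simp [ind, hω]
      rw [this]
      exact mul_nonneg (inv_nonneg.mpr hc.le) (h ω)
  rw [ex_mul_left] at h1
  rw [div_eq_inv_mul]
  exact h1

/-- union bound -/
theorem ex_exists {κ : Type*} (s : Finset κ) (P : κ → (L → A) → Prop) :
    ex (fun ω => ind (∃ i ∈ s, P i ω)) ≤ ∑ i ∈ s, ex (fun ω => ind (P i ω)) := by
  rw [← ex_sum]
  apply ex_mono
  intro ω
  by_cases h : ∃ i ∈ s, P i ω
  · obtain ⟨i, hi, hP⟩ := h
    calc ind (∃ i ∈ s, P i ω) ≤ 1 := ind_le_one _
      _ = ind (P i ω) := by simp [ind, hP]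
      _ ≤ ∑ i ∈ s, ind (P i ω) :=
        Finset.single_le_sum (f := fun i => ind (P i ω)) (fun j _ => ind_nonneg _) hi
  · have : ind (∃ i ∈ s, P i ω) = 0 := by simp [ind, h]
    rw [this]
    exact Finset.sum_nonneg fun j _ => ind_nonneg _

end avg

end Pool.Agent.MLLL
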