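import Pool.Agent.Lib.MP_25f38e_lc.Pieces

/-! MODULE CLS : the two ways to enter the class `Cls`. (helper8) -/

set_option linter.unusedSectionVars false

noncomputable section

open scoped Classical
open Finset

namespace Pool.Agent.MLLL

universe u

namespace Inst

theorem cls_p_nonneg {V ι : Type u} {A : Type} [DecidableEq V] [DecidableEq ι] [Fintype A]
    [Nonempty A] (I : Inst V ι A) (i : ι) : 0 ≤ I.p i := by
  unfold p avg
  refine div_nonneg (sum_nonneg fun _ _ => ?_) (pow_nonneg (Nat.cast_nonneg _) _)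
  unfold ind
  dsimp only
  split_ifs <;> norm_num

/-- sums over the events meeting `S` -/
theorem cls_sum_incS_le {V ι : Type u} {A : Type} [DecidableEq V] [DecidableEq ι]
    (I : Inst V ι A) (S : Finset V) (f : ι → ℝ) (hf : ∀ i, 0 ≤ f i) (c : ℝ)
    (h : ∀ v, ∑ i ∈ I.inc v, f i ≤ c) : ∑ i ∈ I.incS S, f i ≤ S.card * c := by
  unfold incS
  calc ∑ i ∈ S.biUnion I.inc, f i ≤ ∑ v ∈ S, ∑ i ∈ I.inc v, f i := by
        induction S using Finset.induction_on with
        | empty => simp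
        | insert a S ha ih =>
          rw [biUnion_insert, sum_insert ha]
          have h1 : ∑ i ∈ I.inc a ∪ S.biUnion I.inc, f i + ∑ i ∈ I.inc a ∩ S.biUnion I.inc, f i =
              ∑ i ∈ I.inc a, f i + ∑ i ∈ S.biUnion I.inc, f i := sum_union_inter
          have h2 : 0 ≤ ∑ i ∈ I.inc a ∩ S.biUnion I.inc, f i := sum_nonneg fun i _ => hf i
          linarith
    _ ≤ ∑ _v ∈ S, c := sum_le_sum fun v _ => h v
    _ = S.card * c := by rw [sum_const, nsmul_eq_mul]

theorem cls_prod_le_exp {ι : Type u} (s : Finset ι) (W : ι → ℝ) (hW : ∀ i, 0 ≤ W i) :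
    ∏ i ∈ s, (1 + W i) ≤ Real.exp (∑ i ∈ s, W i) := by
  rw [Real.exp_sum]
  refine prod_le_prod (fun i _ => by have := hW i; linarith) (fun i _ => ?_)
  have := Real.add_one_le_exp (W i)
  linarith

/-- after rule B -/
theorem cls_next {b : ℝ} (hb : 1 < b) : ∃ θ₀ : ℝ, 0 < θ₀ ∧
    ∀ {V ι : Type u} {A : Type} [DecidableEq V] [DecidableEq ι] [Fintype A] [Nonempty A]
      (I : Inst V ι A) (θ : ℝ), 0 < θ → θ ≤ θ₀ →
      (∀ v, ∑ i ∈ I.inc v, I.p i * (b ^ 4) ^ (I.dom i).card ≤ 2 * θ) →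
      I.Cls 2 b 1 (fun i => 2 * (b ^ 2) ^ (I.dom i).card * I.p i)
          (fun i => 1 + (I.dom i).card) ∧
        ∀ S : Finset V, ∏ i ∈ I.incS S, (1 + 2 * (b ^ 2) ^ (I.dom i).card * I.p i)
          ≤ Real.exp (4 * θ) ^ S.card := by
  have hb1 : 0 < b - 1 := by linarith
  have hb0 : 0 < b := by linarith
  have hlog : 0 < Real.log b := Real.log_pos hb
  set c : ℝ := 1 + 1 / (b - 1) with hc
  have hcpos : 1 < c := by
    have : 0 < 1 / (b - 1) := by positivity
    linarith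
  refine ⟨min (Real.log b / 4) (1 / (4 * c)), lt_min (by positivity) (by positivity), ?_⟩
  intro V ι A _ _ _ _ I θ hθ0 hθ hH
  have hθ1 : θ ≤ Real.log b / 4 := hθ.trans (min_le_left _ _)
  have hθ2 : θ ≤ 1 / (4 * c) := hθ.trans (min_le_right _ _)
  have hp : ∀ i, 0 ≤ I.p i := I.cls_p_nonneg
  have hb2 : 1 ≤ b ^ 2 := one_le_pow₀ hb.le
  have hbk : ∀ k : ℕ, (b ^ 2) ^ k ≤ (b ^ 4) ^ k := fun k =>
    pow_le_pow_left₀ (by positivity) (by nlinarith) k
  have hW : ∀ i, 0 ≤ 2 * (b ^ 2) ^ (I.dom i).card * I.p i := fun i => by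
    have := hp i; positivity
  -- sum of the weights
  have hsumW : ∀ v, ∑ i ∈ I.inc v, 2 * (b ^ 2) ^ (I.dom i).card * I.p i ≤ 4 * θ := by
    intro v
    calc ∑ i ∈ I.inc v, 2 * (b ^ 2) ^ (I.dom i).card * I.p i
        ≤ ∑ i ∈ I.inc v, 2 * (I.p i * (b ^ 4) ^ (I.dom i).card) := by
          refine sum_le_sum fun i _ => ?_
          have h1 := mul_le_mul_of_nonneg_left (hbk (I.dom i).card) (hp i)
          linarith
      _ = 2 * ∑ i ∈ I.inc v, I.p i * (b ^ 4) ^ (I.dom i).card := by rw [mul_sum]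
      _ ≤ 4 * θ := by have := hH v; linarith
  -- the comparison of 1 + k and c * b^(2k)
  have hkb : ∀ k : ℕ, (1 + (k : ℝ)) * (b ^ 2) ^ k ≤ c * (b ^ 4) ^ k := by
    intro k
    have h1 : 1 + (k : ℝ) * (b ^ 2 - 1) ≤ (b ^ 2) ^ k := by
      have := one_add_mul_le_pow (a := b ^ 2 - 1) (by nlinarith) k
      have h2 : 1 + (b ^ 2 - 1) = b ^ 2 := by ring
      rw [h2] at this
      exact this
    have h2 : (k : ℝ) * (b - 1) ≤ (k : ℝ) * (b ^ 2 - 1) :=
      mul_le_mul_of_nonneg_left (by nlinarith) (Nat.cast_nonneg k)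
    have h3 : 1 + (k : ℝ) ≤ c * (b ^ 2) ^ k := by
      have h4 : c * (1 + (k : ℝ) * (b - 1)) ≤ c * (b ^ 2) ^ k :=
        mul_le_mul_of_nonneg_left (by linarith) (by linarith)
      refine le_trans ?_ h4
      have h5 : c * (1 + (k : ℝ) * (b - 1)) = c + (k : ℝ) * (b - 1) + k := by
        rw [hc]; field_simp; ring
      rw [h5]
      have h6 : 0 ≤ (k : ℝ) * (b - 1) := by positivity
      linarith
    have h7 : (b ^ 4) ^ k = (b ^ 2) ^ k * (b ^ 2) ^ k := by
      rw [← mul_pow]; congr 1; ring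
    rw [h7, ← mul_assoc]
    exact mul_le_mul_of_nonneg_right h3 (by positivity)
  have hsumWK : ∀ v, ∑ i ∈ I.inc v, 2 * (b ^ 2) ^ (I.dom i).card * I.p i *
      (1 + ((I.dom i).card : ℝ)) ≤ 1 := by
    intro v
    calc ∑ i ∈ I.inc v, 2 * (b ^ 2) ^ (I.dom i).card * I.p i * (1 + ((I.dom i).card : ℝ))
        ≤ ∑ i ∈ I.inc v, 2 * c * (I.p i * (b ^ 4) ^ (I.dom i).card) := by
          refine sum_le_sum fun i _ => ?_
          have h1 := mul_le_mul_of_nonneg_left (hkb (I.dom i).card) (hp i)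
          nlinarith
      _ = 2 * c * ∑ i ∈ I.inc v, I.p i * (b ^ 4) ^ (I.dom i).card := by rw [mul_sum]
      _ ≤ 2 * c * (2 * θ) := mul_le_mul_of_nonneg_left (hH v) (by linarith)
      _ ≤ 2 * c * (2 * (1 / (4 * c))) := by
          refine mul_le_mul_of_nonneg_left ?_ (by linarith)
          linarith
      _ = 1 := by field_simp; ring
  have hprod : ∀ S : Finset V, ∏ i ∈ I.incS S, (1 + 2 * (b ^ 2) ^ (I.dom i).card * I.p i)
      ≤ Real.exp (4 * θ) ^ S.card := by
    intro S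
    refine (cls_prod_le_exp _ (fun i => 2 * (b ^ 2) ^ (I.dom i).card * I.p i) hW).trans ?_
    rw [← Real.exp_nat_mul]
    exact Real.exp_le_exp.2 (I.cls_sum_incS_le S _ hW _ hsumW)
  refine ⟨⟨by norm_num, hb, hW, fun i => ?_, fun i => ?_, fun i => ?_, hsumWK⟩, hprod⟩
  · have : (0 : ℝ) ≤ ((I.dom i).card : ℝ) := Nat.cast_nonneg _
    linarith
  · have h1 := hprod (I.dom i)
    have h2 : Real.exp (4 * θ) ≤ b := by
      rw [← Real.le_log_iff_exp_le hb0]
      linarith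
    have h3 : Real.exp (4 * θ) ^ (I.dom i).card ≤ b ^ (I.dom i).card :=
      pow_le_pow_left₀ (Real.exp_pos _).le h2 _
    have h4 : ∏ j ∈ I.nbr i, (1 + 2 * (b ^ 2) ^ (I.dom j).card * I.p j) ≤ b ^ (I.dom i).card :=
      h1.trans h3
    have h5 : (0 : ℝ) ≤ 2 * b ^ (I.dom i).card * I.p i := by
      have := hp i; positivity
    refine (mul_le_mul_of_nonneg_left h4 h5).trans (le_of_eq ?_)
    have h6 : (b ^ 2) ^ (I.dom i).card = b ^ (I.dom i).card * b ^ (I.dom i).card := by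
      rw [← mul_pow]; congr 1; ring
    rw [h6]; ring
  · have h1 : ∑ j ∈ I.nbr i, 2 * (b ^ 2) ^ (I.dom j).card * I.p j *
        (1 + ((I.dom j).card : ℝ)) ≤ ((I.dom i).card : ℝ) * 1 := by
      refine I.cls_sum_incS_le (I.dom i) (fun j => 2 * (b ^ 2) ^ (I.dom j).card * I.p j *
        (1 + ((I.dom j).card : ℝ))) (fun j => ?_) 1 hsumWK
      have := hW j
      have h2 : (0 : ℝ) ≤ 1 + ((I.dom j).card : ℝ) := by positivity
      exact mul_nonneg this h2
    have h3 : (0 : ℝ) < 1 + 2 * (b ^ 2) ^ (I.dom i).card * I.p i := by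
      have := hW i; linarith
    have h4 : (∑ j ∈ I.nbr i, 2 * (b ^ 2) ^ (I.dom j).card * I.p j *
        (1 + ((I.dom j).card : ℝ))) / (1 + 2 * (b ^ 2) ^ (I.dom i).card * I.p i) ≤
        ((I.dom i).card : ℝ) := by
      rw [div_le_iff₀ h3]
      have h5 : (0 : ℝ) ≤ ((I.dom i).card : ℝ) * (2 * (b ^ 2) ^ (I.dom i).card * I.p i) :=
        mul_nonneg (Nat.cast_nonneg _) (hW i)
      nlinarith
    linarith

/-- the symmetric local lemma condition, bounded domains -/
theorem cls_init {V ι : Type u} {A : Type} [DecidableEq V] [DecidableEq ι] [Fintype A]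
    [Nonempty A] (I : Inst V ι A) (d m : ℕ) (q : ℝ) (hq : Real.exp 1 * q * (d + 1) < 1)
    (hp : ∀ i, I.p i ≤ q) (hd : ∀ i, (I.nbr i).card ≤ d + 1) (hm : ∀ i, (I.dom i).card ≤ m) :
    ∃ (t b C : ℝ) (W K : ι → ℝ), I.Cls t b C W K := by
  have hp0 : ∀ i, 0 ≤ I.p i := I.cls_p_nonneg
  have hd0 : (0 : ℝ) < (d : ℝ) + 1 := by positivity
  set q' : ℝ := max q 0 with hq'
  have hq'0 : 0 ≤ q' := le_max_right _ _
  have hpq : ∀ i, I.p i ≤ q' := fun i => (hp i).trans (le_max_left _ _)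
  set ρ : ℝ := Real.exp 1 * q' * (d + 1) with hρ
  have hρ0 : 0 ≤ ρ := by positivity
  have hρ1 : ρ < 1 := by
    rw [hρ, hq']
    rcases max_cases q 0 with ⟨h, _⟩ | ⟨h, _⟩
    · rw [h]; exact hq
    · rw [h]; norm_num
  set w : ℝ := 1 / ((d : ℝ) + 1) with hw
  have hw0 : 0 < w := by positivity
  set s : ℝ := (2 / (1 + ρ)) ^ (((m + 1 : ℕ) : ℝ)⁻¹) with hs
  have hbase : 1 < 2 / (1 + ρ) := by
    rw [lt_div_iff₀ (by linarith)]
    linarith
  have hs1 : 1 < s := Real.one_lt_rpow hbase (by positivity)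
  have hspow : s ^ (m + 1) = 2 / (1 + ρ) :=
    Real.rpow_inv_natCast_pow (by linarith) (by omega)
  have hsρ : s ^ (m + 1) * ρ ≤ 1 := by
    rw [hspow, div_mul_eq_mul_div, div_le_one (by linarith)]
    linarith
  refine ⟨s, s, d + 2, fun _ => w, fun _ => d + 2, ⟨hs1, hs1, fun _ => hw0.le, fun _ => ?_,
    fun i => ?_, fun i => ?_, fun v => ?_⟩⟩
  · have : (0 : ℝ) ≤ (d : ℝ) := Nat.cast_nonneg _
    linarith
  · rw [prod_const]
    have h1 : (1 + w) ^ (I.nbr i).card ≤ Real.exp 1 := by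
      calc (1 + w) ^ (I.nbr i).card ≤ (1 + w) ^ (d + 1) :=
            pow_le_pow_right₀ (by linarith) (hd i)
        _ ≤ (Real.exp w) ^ (d + 1) := by
            refine pow_le_pow_left₀ (by linarith) ?_ _
            have := Real.add_one_le_exp w
            linarith
        _ = Real.exp 1 := by
            rw [← Real.exp_nat_mul]
            congr 1
            rw [hw]
            push_cast
            field_simp
    have h2 : s ^ (I.dom i).card ≤ s ^ m := pow_le_pow_right₀ hs1.le (hm i)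
    have h3 : s * s ^ (I.dom i).card ≤ s ^ (m + 1) := by
      rw [pow_succ, mul_comm (s ^ m) s]
      exact mul_le_mul_of_nonneg_left h2 (by linarith)
    calc s * s ^ (I.dom i).card * I.p i * (1 + w) ^ (I.nbr i).card
        ≤ s ^ (m + 1) * q' * Real.exp 1 := by
          refine mul_le_mul (mul_le_mul h3 (hpq i) (hp0 i) (by positivity)) h1 (by positivity)
            (by positivity)
      _ = (s ^ (m + 1) * ρ) * w := by
          rw [hρ, hw]
          field_simp
      _ ≤ 1 * w := mul_le_mul_of_nonneg_right hsρ hw0.le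
      _ = w := one_mul w
  · rw [sum_const, nsmul_eq_mul]
    have h1 : ((I.nbr i).card : ℝ) ≤ (d : ℝ) + 1 := by exact_mod_cast hd i
    have h2 : ((I.nbr i).card : ℝ) * (w * ((d : ℝ) + 2)) ≤ ((d : ℝ) + 1) * (w * ((d : ℝ) + 2)) :=
      mul_le_mul_of_nonneg_right h1 (by positivity)
    have h3 : ((d : ℝ) + 1) * (w * ((d : ℝ) + 2)) = (d : ℝ) + 2 := by
      rw [hw]; field_simp
    have h4 : ((I.nbr i).card : ℝ) * (w * ((d : ℝ) + 2)) / (1 + w) ≤ (d : ℝ) + 1 := by
      rw [div_le_iff₀ (by positivity)]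
      have h5 : ((d : ℝ) + 1) * (1 + w) = (d : ℝ) + 2 := by
        rw [hw]; field_simp; ring
      rw [h5]
      linarith
    linarith
  · rw [sum_const, nsmul_eq_mul]
    have h1 : ((I.inc v).card : ℝ) ≤ (d : ℝ) + 1 := by
      rcases (I.inc v).eq_empty_or_nonempty with h | ⟨i, hi⟩
      · rw [h]; simp; positivity
      · have hsub : I.inc v ⊆ I.nbr i := by
          intro j hj
          exact I.mem_incS.2 ⟨v, I.mem_inc.1 hi, I.mem_inc.1 hj⟩
        have := (card_le_card hsub).trans (hd i)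
        exact_mod_cast this
    have h3 : ((d : ℝ) + 1) * (w * ((d : ℝ) + 2)) = (d : ℝ) + 2 := by
      rw [hw]; field_simp
    calc ((I.inc v).card : ℝ) * (w * ((d : ℝ) + 2))
        ≤ ((d : ℝ) + 1) * (w * ((d : ℝ) + 2)) :=
          mul_le_mul_of_nonneg_right h1 (by positivity)
      _ = (d : ℝ) + 2 := h3

end Inst

end Pool.Agent.MLLL
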