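import Pool.Agent.Lib.MP_25f38e_lc.MeasFin2

/-! MODULE MEASFIN, third part: Borel colourings of bounded degree Borel graphs. -/

set_option linter.unusedSectionVars false
set_option linter.style.haveILetI false

noncomputable section

open scoped Classical
open Finset MeasureTheory Function

namespace Pool.Agent.MLLL

universe u

variable {α : Type u} [MeasurableSpace α] [StandardBorelSpace α]

/-- the countable Borel colouring by separating labels -/
theorem color_countable {N : α → Finset α} (hN : Measurable N) :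
    ∃ k : α → ℕ, Measurable k ∧ ∀ a, ∀ b ∈ N a, b ≠ a → k b ≠ k a := by
  have hex : ∀ a, ∃ j, Set.InjOn (lab α j) (insert a (N a) : Finset α) :=
    fun a => (lab_injOn (insert a (N a))).exists
  set J : α → ℕ := fun a => Nat.find (hex a) with hJ
  -- measurability of the injectivity sets
  have hins : ∀ j, MeasurableSet {a | Set.InjOn (lab α j) (insert a (N a) : Finset α)} := by
    intro j
    have e1 : {a | Set.InjOn (lab α j) (insert a (N a) : Finset α)} =
        {a | ¬ Set.InjOn (lab α j) (N a : Set α)}ᶜ ∩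
          {a | ∀ b ∈ N a, (a, b) ∈ {q : α × α | ¬ (lab α j q.1 = lab α j q.2 ∧ ¬ q.1 = q.2)}} := by
      ext a
      simp only [Set.mem_inter_iff, Set.mem_compl_iff, Set.mem_ofPred_eq, not_not]
      constructor
      · intro h
        refine ⟨h.mono (by intro x hx; exact mem_insert_of_mem hx), ?_⟩
        rintro b hb ⟨h1, h2⟩
        exact h2 (h (mem_insert_self _ _) (mem_insert_of_mem hb) h1)
      · rintro ⟨h1, h2⟩ x hx y hy hxy
        rw [mem_coe, mem_insert] at hx hy
        rcases hx with rfl | hx
        · rcases hy with rfl | hy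
          · rfl
          · by_contra hne
            exact h2 y hy ⟨hxy, hne⟩
        · rcases hy with rfl | hy
          · by_contra hne
            exact h2 x hx ⟨hxy.symm, fun h => hne h.symm⟩
          · exact h1 hx hy hxy
    rw [e1]
    refine (measurableSet_lab hN j).compl.inter (measurableSet_forall hN ?_)
    refine MeasurableSet.compl (MeasurableSet.inter ?_ (MeasurableSet.compl ?_))
    · exact measurableSet_eq_fun ((measurable_lab j).comp measurable_fst)
        ((measurable_lab j).comp measurable_snd)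
    · exact measurableSet_eq_fun measurable_fst measurable_snd
  have hJm : Measurable J := measurable_find hex hins
  have hJs : ∀ a, Set.InjOn (lab α (J a)) (insert a (N a) : Finset α) :=
    fun a => Nat.find_spec (hex a)
  clear_value J
  -- the label as a natural number
  obtain ⟨lb, hlb⟩ : ∃ lb : ℕ → α → ℕ, ∀ j a, lb j a = (lab α j a : ℕ) :=
    ⟨fun j a => (lab α j a : ℕ), fun _ _ => rfl⟩
  have hlbm : ∀ j, Measurable (lb j) := by
    intro j
    have e1 : lb j = (fun x : Fin (Fintype.card (Fin j → Bool)) => (x : ℕ)) ∘ lab α j :=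
      funext fun a => hlb j a
    rw [e1]
    exact (measurable_of_finite _).comp (measurable_lab j)
  have h1 : Measurable fun p : ℕ × α => lb p.1 p.2 :=
    measurable_from_prod_countable_right fun j => hlbm j
  have h2 : Measurable fun a => lb (J a) a := h1.comp (hJm.prodMk measurable_id)
  refine ⟨fun a => Nat.pair (J a) (lb (J a) a), ?_, ?_⟩
  · exact (Measurable.of_discrete (f := fun p : ℕ × ℕ => Nat.pair p.1 p.2)).comp
      (hJm.prodMk h2)
  · intro a b hb hne h
    have h' := Nat.pair_eq_pair.1 h
    have hj : J b = J a := h'.1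
    have hl : lab α (J a) b = lab α (J a) a := by
      apply Fin.ext
      have h3 := h'.2
      rw [hj, hlb, hlb] at h3
      exact h3
    exact hne (hJs a (mem_insert_of_mem hb) (mem_insert_self _ _) hl)

/-- a colour not used by `g` on `N \ {a}` -/
theorem color_free {N : Finset α} {Δ : ℕ} (hΔ : N.card ≤ Δ) (g : α → ℕ) :
    ∃ x ≤ Δ, ∀ b ∈ N, g b ≠ x := by
  by_contra hcon
  push Not at hcon
  have h1 : range (Δ + 1) ⊆ N.image g := by
    intro x hx
    obtain ⟨b, hb, hbx⟩ := hcon x (Nat.lt_succ_iff.1 (mem_range.1 hx))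
    exact mem_image.2 ⟨b, hb, hbx⟩
  have h2 := card_le_card h1
  rw [card_range] at h2
  have h3 := card_image_le (s := N) (f := g)
  omega

/-- one step of the greedy colouring: the least colour not used by `g` on `N a \ {a}` -/
def colorStep (N : α → Finset α) (Δ : ℕ) (g : α → ℕ) (a : α) : ℕ :=
  sInf {x | ∀ b ∈ (N a), b ≠ a → g b ≠ x}

theorem colorStep_le {N : α → Finset α} {Δ : ℕ} (hΔ : ∀ a, (N a).card ≤ Δ) (g : α → ℕ) (a : α) :
    colorStep N Δ g a ≤ Δ := by
  obtain ⟨x, hx, h⟩ := color_free (hΔ a) g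
  exact (Nat.sInf_le (show x ∈ {x | ∀ b ∈ (N a), b ≠ a → g b ≠ x} from
    fun b hb _ => h b hb)).trans hx

theorem colorStep_spec {N : α → Finset α} {Δ : ℕ} (hΔ : ∀ a, (N a).card ≤ Δ) (g : α → ℕ)
    (a : α) : ∀ b ∈ N a, b ≠ a → g b ≠ colorStep N Δ g a := by
  obtain ⟨x, hx, h⟩ := color_free (hΔ a) g
  exact Nat.sInf_mem (s := {x | ∀ b ∈ (N a), b ≠ a → g b ≠ x}) ⟨x, fun b hb _ => h b hb⟩

theorem colorStep_measurable {N : α → Finset α} {Δ : ℕ} (hΔ : ∀ a, (N a).card ≤ Δ)
    (hN : Measurable N) {g : α → ℕ} (hg : Measurable g) : Measurable (colorStep N Δ g) := by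
  have hfree : ∀ x, MeasurableSet {a | ∀ b ∈ (N a), b ≠ a → g b ≠ x} := by
    intro x
    have e1 : {a | ∀ b ∈ (N a), b ≠ a → g b ≠ x} =
        {a | ∀ b ∈ N a, (a, b) ∈ {q : α × α | ¬ (¬ q.2 = q.1 ∧ g q.2 = x)}} := by
      ext a
      simp only [Set.mem_ofPred_eq, not_and]
    rw [e1]
    refine measurableSet_forall hN (MeasurableSet.compl (MeasurableSet.inter
      (MeasurableSet.compl ?_) ?_))
    · exact measurableSet_eq_fun measurable_snd measurable_fst
    · exact (hg.comp measurable_snd) (measurableSet_singleton x)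
  have hex : ∀ a, ∃ x, ∀ b ∈ (N a), b ≠ a → g b ≠ x := by
    intro a
    obtain ⟨x, _, h⟩ := color_free (hΔ a) g
    exact ⟨x, fun b hb _ => h b hb⟩
  have e2 : colorStep N Δ g = fun a => Nat.find (hex a) := by
    funext a
    exact le_antisymm (Nat.sInf_le (Nat.find_spec (hex a)))
      (Nat.find_min' (hex a)
        (Nat.sInf_mem (s := {x | ∀ b ∈ (N a), b ≠ a → g b ≠ x}) ⟨_, Nat.find_spec (hex a)⟩))
  rw [e2]
  exact measurable_find hex hfree

/-- partial greedy colourings; the value `Δ + 1` means uncoloured -/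
def colorG (N : α → Finset α) (Δ : ℕ) (k : α → ℕ) : ℕ → α → ℕ
  | 0, _ => Δ + 1
  | m + 1, a => if k a = m then colorStep N Δ (colorG N Δ k m) a else colorG N Δ k m a

theorem colorG_measurable {N : α → Finset α} {Δ : ℕ} (hΔ : ∀ a, (N a).card ≤ Δ)
    (hN : Measurable N) {k : α → ℕ} (hk : Measurable k) (m : ℕ) :
    Measurable (colorG N Δ k m) := by
  induction m with
  | zero => exact measurable_const
  | succ m ih =>
    exact Measurable.ite (hk (measurableSet_singleton m)) (colorStep_measurable hΔ hN ih) ih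

theorem colorG_stable {N : α → Finset α} {Δ : ℕ} {k : α → ℕ} {a : α} {m : ℕ} (h : k a < m) :
    colorG N Δ k m a = colorG N Δ k (k a + 1) a := by
  induction m with
  | zero => omega
  | succ m ih =>
    by_cases hm : k a = m
    · rw [hm]
    · have h1 : colorG N Δ k (m + 1) a = colorG N Δ k m a := by
        show (if k a = m then _ else colorG N Δ k m a) = _
        rw [if_neg hm]
      rw [h1]
      exact ih (by omega)

theorem exists_coloring {N : α → Finset α} {Δ : ℕ} (hΔ : ∀ a, (N a).card ≤ Δ)
    (hN : Measurable N) (hsymm : ∀ a b, b ∈ N a → a ∈ N b) :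
    ∃ c : α → ℕ, Measurable c ∧ (∀ a, c a ≤ Δ) ∧ ∀ a, ∀ b ∈ N a, b ≠ a → c b ≠ c a := by
  obtain ⟨k, hk, hprop⟩ := color_countable hN
  have hval : ∀ a, colorG N Δ k (k a + 1) a = colorStep N Δ (colorG N Δ k (k a)) a := by
    intro a
    show (if k a = k a then _ else _) = _
    rw [if_pos rfl]
  have key : ∀ a, ∀ b ∈ N a, b ≠ a → k b < k a →
      colorG N Δ k (k b + 1) b ≠ colorG N Δ k (k a + 1) a := by
    intro a b hb hne hlt
    rw [hval a, ← colorG_stable hlt]
    exact colorStep_spec hΔ _ a b hb hne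
  refine ⟨fun a => colorG N Δ k (k a + 1) a, ?_, ?_, ?_⟩
  · have h1 : Measurable fun p : ℕ × α => colorG N Δ k (p.1 + 1) p.2 :=
      measurable_from_prod_countable_right fun m => colorG_measurable hΔ hN hk (m + 1)
    exact h1.comp (hk.prodMk measurable_id)
  · intro a
    show colorG N Δ k (k a + 1) a ≤ Δ
    rw [hval a]
    exact colorStep_le hΔ _ a
  · intro a b hb hne
    rcases lt_or_gt_of_ne (hprop a b hb hne) with h | h
    · exact key a b hb hne h
    · exact (key b a (hsymm a b hb) (Ne.symm hne) h).symm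

end Pool.Agent.MLLL
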