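import Mathlib

/-!
# Measurable symmetric Lovász Local Lemma with null defect : basic definitions

(helper43, problem MP_25f38e_lc).  Purely combinatorial definitions: averages over finitely many
coordinates, locally finite families of bad events, the Moser-Tardos process with a colour
schedule, layered sequences of events (pieces), the exposure rule B and conditioned instances.
-/

set_option linter.unusedSectionVars false

noncomputable section

open scoped Classical
open Finset

namespace Pool.Agent.MLLL

universe u

/-! ### Averages over finitely many coordinates -/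

section avg

variable {V : Type*} {A : Type} [DecidableEq V]

/-- override `g` on the finite set `F` by `h` -/
def ov (F : Finset V) (h : F → A) (g : V → A) : V → A :=
  fun v => if hv : v ∈ F then h ⟨v, hv⟩ else g v

variable [Fintype A]

/-- the average of `Φ` over all values of the coordinates in `F`; the other coordinates are those
of `g` -/
def avg (F : Finset V) (Φ : (V → A) → ℝ) (g : V → A) : ℝ :=
  (∑ h : (F → A), Φ (ov F h g)) / (Fintype.card A : ℝ) ^ F.card

/-- `0/1` indicator of a proposition -/
def ind (P : Prop) : ℝ := if P then 1 else 0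

/-- expectation over a uniformly random `ω : L → A` (`L` finite) -/
def ex {L : Type} [Fintype L] [DecidableEq L] (Φ : (L → A) → ℝ) : ℝ :=
  (∑ ω : (L → A), Φ ω) / (Fintype.card A : ℝ) ^ (Fintype.card L)

end avg

/-! ### Locally finite families of bad events -/

/-- A locally finite family of bad events, indexed by `ι`, on the variables `V` with values in
`A`. -/
structure Inst (V ι : Type u) (A : Type) where
  /-- domain of an event -/
  dom : ι → Finset V
  /-- every variable lies in finitely many domains -/
  fin : ∀ v, {i | v ∈ dom i}.Finite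
  /-- the event happens -/
  bad : ι → (V → A) → Prop
  bad_congr : ∀ i (g g' : V → A), (∀ v ∈ dom i, g v = g' v) → bad i g → bad i g'
  ne_of_bad : ∀ i g, bad i g → (dom i).Nonempty

/-- layered sequences with `n` layers -/
inductive Pc (ι : Type u) : ℕ → Type u
  | nil : Pc ι 0
  | cons {n : ℕ} (L : Finset ι) (P : Pc ι n) : Pc ι (n + 1)

instance {ι : Type u} {n : ℕ} : DecidableEq (Pc ι n) := Classical.decEq _

/-- the first layer -/
def Pc.hd {ι : Type u} {n : ℕ} : Pc ι (n + 1) → Finset ι
  | .cons L _ => L

/-- the remaining layers -/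
def Pc.tl {ι : Type u} {n : ℕ} : Pc ι (n + 1) → Pc ι n
  | .cons _ P => P

@[simp] theorem Pc.hd_cons {ι : Type u} {n : ℕ} (L : Finset ι) (P : Pc ι n) :
    (Pc.cons L P).hd = L := rfl

@[simp] theorem Pc.tl_cons {ι : Type u} {n : ℕ} (L : Finset ι) (P : Pc ι n) :
    (Pc.cons L P).tl = P := rfl

theorem Pc.eta {ι : Type u} {n : ℕ} (P : Pc ι (n + 1)) : Pc.cons P.hd P.tl = P := by
  cases P; rfl

namespace Inst

variable {V ι : Type u} {A : Type} [DecidableEq V] [DecidableEq ι] (I : Inst V ι A)

/-- the finite set of events containing `v` -/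
def inc (v : V) : Finset ι := (I.fin v).toFinset

omit [DecidableEq V] [DecidableEq ι] in
theorem mem_inc {i : ι} {v : V} : i ∈ I.inc v ↔ v ∈ I.dom i := by
  simp [inc]

/-- events meeting `S` -/
def incS (S : Finset V) : Finset ι := S.biUnion I.inc

theorem mem_incS {i : ι} {S : Finset V} : i ∈ I.incS S ↔ ∃ v ∈ S, v ∈ I.dom i := by
  simp [incS, mem_inc]

/-- variables of the events in `L` -/
def domL (L : Finset ι) : Finset V := L.biUnion I.dom

omit [DecidableEq ι] in
theorem mem_domL {v : V} {L : Finset ι} : v ∈ I.domL L ↔ ∃ i ∈ L, v ∈ I.dom i := by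
  simp [domL]

/-- the inclusive neighbourhood of an event -/
def nbr (i : ι) : Finset ι := I.incS (I.dom i)

/-- pairwise disjoint domains -/
def Indep (L : Finset ι) : Prop := ∀ i ∈ L, ∀ j ∈ L, i ≠ j → Disjoint (I.dom i) (I.dom j)

/-- closed neighbourhood of a variable -/
def nbv (v : V) : Finset V := insert v ((I.inc v).biUnion I.dom)

/-- closed neighbourhood of a finite set of variables -/
def nbS (S : Finset V) : Finset V := S.biUnion I.nbv

/-- ball of radius `r` around a finite set of variables -/
def ball : ℕ → Finset V → Finset V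
  | 0, S => S
  | r + 1, S => I.nbS (ball r S)

/-! #### Layered sequences -/

/-- admissible layered sequences with `n` layers from a finite set `S` of variables: the first
layer consists of events meeting `S`, the next one of events meeting the first one, etc., each
layer is pairwise disjoint.  (Empty layers are allowed; after an empty layer all are empty.) -/
def seqs : (n : ℕ) → Finset V → Finset (Pc ι n)
  | 0, _ => {Pc.nil}
  | n + 1, S => ((I.incS S).powerset.filter I.Indep).biUnion fun L =>
      (seqs n (I.domL L)).image fun P => Pc.cons L P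

/-- number of layers containing the variable `v` -/
def cnt (v : V) : (n : ℕ) → Pc ι n → ℕ
  | 0, .nil => 0
  | n + 1, .cons L P => cnt v n P + if v ∈ I.domL L then 1 else 0

/-- total number of events in a layered sequence -/
def size {ι : Type u} : (n : ℕ) → Pc ι n → ℕ
  | 0, .nil => 0
  | n + 1, .cons L P => L.card + size n P

/-- product weight of a layered sequence -/
def wt {ι : Type u} (a : ι → ℝ) : (n : ℕ) → Pc ι n → ℝ
  | 0, .nil => 1
  | n + 1, .cons L P => (∏ i ∈ L, a i) * wt a n P

/-- all members of the layered sequence are bad on their entries of the table `τ`: a member of a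
layer reads, at the variable `v`, the entry with index the number of deeper layers containing
`v`. -/
def cons (τ : V × ℕ → A) : (n : ℕ) → Pc ι n → Prop
  | 0, .nil => True
  | n + 1, .cons L P => (∀ i ∈ L, I.bad i (fun v => τ (v, I.cnt v n P))) ∧ cons τ n P

/-- the table entries used by a layered sequence -/
def ent : (n : ℕ) → Pc ι n → Finset (V × ℕ)
  | 0, .nil => ∅
  | n + 1, .cons L P => (I.domL L).image (fun v => (v, I.cnt v n P)) ∪ ent n P

/-- entries of the root set `S` on top of a layered sequence -/
def rootEnt {n : ℕ} (S : Finset V) (P : Pc ι n) : Finset (V × ℕ) :=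
  S.image (fun v => (v, I.cnt v n P))

/-- the table entries used by the rooted piece `(E, P)` -/
def entR {n : ℕ} (E : ι) (P : Pc ι n) : Finset (V × ℕ) := I.rootEnt (I.dom E) P ∪ I.ent n P

/-- the rooted piece `(E, P)` is consistent with the table -/
def consR {n : ℕ} (τ : V × ℕ → A) (E : ι) (P : Pc ι n) : Prop :=
  I.bad E (fun v => τ (v, I.cnt v n P)) ∧ I.cons τ n P

/-! #### The Moser-Tardos process with a colour schedule -/

/-- `mt col C τ m v` : number of resamplings of `v` during the first `m` steps; at step `m`
(from time `m` to time `m+1`) all bad events of colour `m % C` are resampled. -/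
def mt (col : ι → ℕ) (C : ℕ) (τ : V × ℕ → A) : ℕ → V → ℕ
  | 0, _ => 0
  | m + 1, v => mt col C τ m v +
      if ∃ i ∈ I.inc v, col i = m % C ∧ I.bad i (fun w => τ (w, mt col C τ m w)) then 1 else 0

/-- the assignment after `m` steps -/
def st (col : ι → ℕ) (C : ℕ) (τ : V × ℕ → A) (m : ℕ) (v : V) : A := τ (v, I.mt col C τ m v)

/-- proper colouring of the events with values `< C` -/
def Proper (col : ι → ℕ) (C : ℕ) : Prop :=
  (∀ i, col i < C) ∧ ∀ i j, i ≠ j → ¬ Disjoint (I.dom i) (I.dom j) → col i ≠ col j

/-! #### Probabilities -/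

section prob

variable [Fintype A]

/-- conditional probability of the event `i` when the coordinates in `Y` are fixed to the values
of `σ` -/
def cp (Y : Set V) (σ : V → A) (i : ι) : ℝ :=
  avg ((I.dom i).filter (· ∉ Y)) (fun g => ind (I.bad i g)) σ

/-- probability of the event `i` -/
def p [Nonempty A] (i : ι) : ℝ :=
  avg (I.dom i) (fun g => ind (I.bad i g)) (fun _ => Classical.arbitrary A)

/-- number of free coordinates of the event `i` -/
def fr (Y : Set V) (i : ι) : ℕ := ((I.dom i).filter (· ∉ Y)).card

/-- weighted sum of the conditional probabilities of the events containing `v` -/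
def Psi (β : ℝ) (Y : Set V) (σ : V → A) (v : V) : ℝ :=
  ∑ i ∈ I.inc v, I.cp Y σ i * β ^ I.fr Y i

/-- weighted sum of the conditional probabilities of the events containing `u` and `v` -/
def qq (β : ℝ) (Y : Set V) (σ : V → A) (v u : V) : ℝ :=
  ∑ i ∈ (I.inc v).filter (fun i => u ∈ I.dom i), I.cp Y σ i * β ^ I.fr Y i

/-- no other variable within distance two has the label of `u` -/
def c1 (ℓ : V → ℕ) (u : V) : Prop := ∀ v ∈ I.nbv u, ∀ u' ∈ I.nbv v, u' ≠ u → ℓ u' ≠ ℓ u

/-- exposing `u` is harmless for all its unexposed neighbours -/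
def c2 (β θ ζ : ℝ) (Y : Set V) (σ : V → A) (u : V) : Prop :=
  ∀ v ∈ I.nbv u, v ≠ u → v ∉ Y → I.qq β Y σ v u ≤ θ * ζ ∧ I.Psi β Y σ v ≤ θ

/-- rule B : the set of exposed variables after `s` steps; at step `s` the variables of label `s`
satisfying `c1` and `c2` are exposed with the values of `σ`. -/
def Yx (β θ ζ : ℝ) (ℓ : V → ℕ) (σ : V → A) : ℕ → Set V
  | 0 => ∅
  | s + 1 => Yx β θ ζ ℓ σ s ∪
      {u | ℓ u = s ∧ I.c1 ℓ u ∧ I.c2 β θ ζ (Yx β θ ζ ℓ σ s) σ u}

end prob

/-- the class of instances used in the induction -/
structure Cls [Fintype A] [Nonempty A] (t b C : ℝ) (W K : ι → ℝ) : Prop where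
  one_lt_t : 1 < t
  one_lt_b : 1 < b
  W_nonneg : ∀ i, 0 ≤ W i
  one_le_K : ∀ i, 1 ≤ K i
  hA : ∀ i, t * b ^ (I.dom i).card * I.p i * ∏ j ∈ I.nbr i, (1 + W j) ≤ W i
  hB : ∀ i, 1 + (∑ j ∈ I.nbr i, W j * K j) / (1 + W i) ≤ K i
  hC : ∀ v, ∑ i ∈ I.inc v, W i * K i ≤ C

/-- table entries relevant for the first `M` steps of the Moser-Tardos process near `v` -/
def rel (M : ℕ) (v : V) : Finset (V × ℕ) := I.ball (M + 1) {v} ×ˢ range (M + 1)

/-! #### Conditioned instances -/

/-- the instance conditioned on the values of `σ` on `Y` -/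
def cond (Y : Set V) (σ : V → A) : Inst V ι A where
  dom i := (I.dom i).filter (· ∉ Y)
  fin v := (I.fin v).subset (by intro i hi; simp at hi ⊢; exact hi.1)
  bad i g := ((I.dom i).filter (· ∉ Y)).Nonempty ∧ I.bad i (fun v => if v ∈ Y then σ v else g v)
  bad_congr := by
    intro i g g' h hb
    refine ⟨hb.1, I.bad_congr i _ _ ?_ hb.2⟩
    intro v hv
    by_cases hy : v ∈ Y
    · simp [hy]
    · simp only [hy, if_false]
      exact h v (by simp [hv, hy])
  ne_of_bad := fun i g hb => hb.1

end Inst

end Pool.Agent.MLLL
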