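import Pool.Agent.Lib.MP_25f38e_lc.Pieces

/-! MODULE LIMIT : passage to the limit, and a measure averaging lemma. -/

set_option linter.unusedSectionVars false

noncomputable section

open scoped Classical
open Finset MeasureTheory

namespace Pool.Agent.MLLL

universe u

/-- the defect set of an assignment -/
def Inst.Def {V ι : Type u} {A : Type} [DecidableEq V] [DecidableEq ι] (I : Inst V ι A)
    (g : V → A) : Set V := {v | ∃ i ∈ I.inc v, I.bad i g}

/-- an eventually constant sequence of measurable maps into a finite discrete space has a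
measurable limit -/
theorem limit_exists_measurable {X : Type*} {A : Type} [MeasurableSpace X] [Fintype A]
    [Nonempty A] [MeasurableSpace A] [DiscreteMeasurableSpace A] (a : ℕ → X → A)
    (ha : ∀ n, Measurable (a n)) :
    ∃ f : X → A, Measurable f ∧
      ∀ x, (¬ ∃ᶠ n in Filter.atTop, a (n + 1) x ≠ a n x) → ∀ᶠ n in Filter.atTop, a n x = f x := by
  set a₀ : A := Classical.arbitrary A with ha₀
  have hE : ∀ c : A, MeasurableSet {x | ∀ᶠ n in Filter.atTop, a n x = c} := by
    intro c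
    have : {x | ∀ᶠ n in Filter.atTop, a n x = c} = ⋃ N : ℕ, ⋂ n : ℕ, ⋂ _ : N ≤ n, a n ⁻¹' {c} := by
      ext x
      simp [Filter.eventually_atTop]
    rw [this]
    exact MeasurableSet.iUnion fun N => MeasurableSet.iInter fun n => MeasurableSet.iInter fun _ =>
      (ha n) (MeasurableSet.of_discrete (s := {c}))
  let f : X → A := fun x =>
    if h : ∃ c, ∀ᶠ n in Filter.atTop, a n x = c then h.choose else a₀
  have hf : ∀ x c, (∀ᶠ n in Filter.atTop, a n x = c) → f x = c := by
    intro x c hc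
    have h : ∃ c, ∀ᶠ n in Filter.atTop, a n x = c := ⟨c, hc⟩
    have h1 : f x = h.choose := by simp only [f, dif_pos h]
    rw [h1]
    have h2 := h.choose_spec
    obtain ⟨n, hn⟩ := (h2.and hc).exists
    rw [← hn.1, hn.2]
  have hf' : ∀ x, (¬ ∃ c, ∀ᶠ n in Filter.atTop, a n x = c) → f x = a₀ := by
    intro x h
    simp only [f, dif_neg h]
  refine ⟨f, ?_, ?_⟩
  · apply measurable_to_countable'
    intro c
    by_cases hc : c = a₀
    · have : f ⁻¹' {c} = {x | ∀ᶠ n in Filter.atTop, a n x = c} ∪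
          (⋃ c' : A, {x | ∀ᶠ n in Filter.atTop, a n x = c'})ᶜ := by
        ext x
        simp only [Set.mem_preimage, Set.mem_singleton_iff, Set.mem_union, Set.mem_ofPred_eq,
          Set.mem_compl_iff, Set.mem_iUnion]
        constructor
        · intro h
          by_cases h' : ∃ c', ∀ᶠ n in Filter.atTop, a n x = c'
          · left
            obtain ⟨c', hc'⟩ := h'
            have := hf x c' hc'
            rw [h] at this
            rw [this]
            exact hc'
          · right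
            exact h'
        · rintro (h | h)
          · exact hf x c h
          · rw [hc]; exact hf' x h
      rw [this]
      exact (hE c).union (MeasurableSet.iUnion fun c' => hE c').compl
    · have : f ⁻¹' {c} = {x | ∀ᶠ n in Filter.atTop, a n x = c} := by
        ext x
        simp only [Set.mem_preimage, Set.mem_singleton_iff, Set.mem_ofPred_eq]
        constructor
        · intro h
          by_cases h' : ∃ c', ∀ᶠ n in Filter.atTop, a n x = c'
          · obtain ⟨c', hc'⟩ := h'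
            have := hf x c' hc'
            rw [h] at this
            rw [this]
            exact hc'
          · exact absurd ((hf' x h').symm.trans h).symm hc
        · exact hf x c
      rw [this]
      exact hE c
  · intro x hx
    rw [Filter.not_frequently] at hx
    obtain ⟨N, hN⟩ := Filter.eventually_atTop.1 hx
    have h1 : ∀ n, N ≤ n → a n x = a N x := by
      intro n hn
      induction n, hn using Nat.le_induction with
      | base => rfl
      | succ n hn ih =>
        have := hN n hn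
        rw [not_not] at this
        rw [this, ih]
    have h2 : ∀ᶠ n in Filter.atTop, a n x = a N x := Filter.eventually_atTop.2 ⟨N, h1⟩
    rw [hf x _ h2]
    exact h2

/-- the limit of the approximate solutions -/
theorem exists_limit {X ι : Type u} {A : Type} [DecidableEq X] [DecidableEq ι]
    [MeasurableSpace X] [Fintype A] [Nonempty A] [MeasurableSpace A]
    [DiscreteMeasurableSpace A] (I : Inst X ι A) (μ μh : Measure X)
    (hμ : ∀ S : Set X, μ {x | ∃ y ∈ I.nbv x, y ∈ S} ≤ μh S)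
    (a : ℕ → X → A) (ha : ∀ n, Measurable (a n))
    (h1 : ∑' n, μh {x | a (n + 1) x ≠ a n x} ≠ ⊤) (h2 : ∑' n, μ (I.Def (a n)) ≠ ⊤) :
    ∃ f : X → A, Measurable f ∧ μ (I.Def f) = 0 := by
  obtain ⟨f, hfm, hf⟩ := limit_exists_measurable a ha
  refine ⟨f, hfm, ?_⟩
  set N1 : Set X := {x | ∃ᶠ n in Filter.atTop, a (n + 1) x ≠ a n x} with hN1
  have hN1' : μh N1 = 0 := measure_setOfPred_frequently_eq_zero h1
  have hN2' : μ {x | ∃ᶠ n in Filter.atTop, x ∈ I.Def (a n)} = 0 := by
    apply measure_setOfPred_frequently_eq_zero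
    exact h2
  have hN3' : μ {x | ∃ y ∈ I.nbv x, y ∈ N1} = 0 := by
    apply le_antisymm _ (by simp)
    exact (hμ N1).trans hN1'.le
  refine measure_mono_null ?_ (measure_union_null hN2' hN3')
  intro x hx
  by_contra hcon
  simp only [Set.mem_union, Set.mem_ofPred_eq, not_or] at hcon
  obtain ⟨hx2, hx3⟩ := hcon
  obtain ⟨i, hi, hbad⟩ := hx
  have hxi := I.mem_inc.1 hi
  have h3 : ∀ y ∈ I.dom i, ∀ᶠ n in Filter.atTop, a n y = f y := by
    intro y hy
    apply hf
    intro hy'
    apply hx3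
    exact ⟨y, I.mem_nbv.2 (Or.inr ⟨i, hxi, hy⟩), hy'⟩
  have h4 : ∀ᶠ n in Filter.atTop, ∀ y ∈ I.dom i, a n y = f y :=
    (Filter.eventually_all_finset _).2 h3
  apply hx2
  apply Filter.Eventually.frequently
  filter_upwards [h4] with n hn
  exact ⟨i, hi, I.bad_congr i f (a n) (fun v hv => (hn v hv).symm) hbad⟩

/-! ### Averaging -/

section averaging

variable {V : Type*} {L : Type} [Fintype L] [DecidableEq L] {A : Type} [Fintype A] [Nonempty A]

theorem limit_card_pos : (0 : ℝ) < (Fintype.card A : ℝ) ^ (Fintype.card L) := by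
  have : 0 < Fintype.card A := Fintype.card_pos
  positivity

theorem limit_card_eq : ((Fintype.card (L → A) : ℕ) : ℝ) =
    (Fintype.card A : ℝ) ^ (Fintype.card L) := by
  rw [Fintype.card_fun]; push_cast; rfl

theorem limit_sum_le_of_ex {Φ : (L → A) → ℝ} {δ : ℝ} (h : ex Φ ≤ δ) :
    ∑ ω, Φ ω ≤ (Fintype.card (L → A) : ℝ) * δ := by
  rw [limit_card_eq]
  unfold ex at h
  rw [div_le_iff₀ limit_card_pos] at h
  linarith

theorem limit_sum_ofReal_le {Φ : (L → A) → ℝ} (hΦ : ∀ ω, 0 ≤ Φ ω) {δ : ℝ}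
    (h : ex Φ ≤ δ) :
    ∑ ω, ENNReal.ofReal (Φ ω) ≤ (Fintype.card (L → A) : ENNReal) * ENNReal.ofReal δ := by
  rw [← ENNReal.ofReal_sum_of_nonneg (fun ω _ => hΦ ω), ← ENNReal.ofReal_natCast,
    ← ENNReal.ofReal_mul (by positivity)]
  exact ENNReal.ofReal_le_ofReal (limit_sum_le_of_ex h)

theorem limit_ofReal_ind (P : Prop) : ENNReal.ofReal (ind P) = if P then 1 else 0 := by
  unfold ind
  by_cases h : P <;> simp [h]

theorem limit_sum_measure_eq [MeasurableSpace V] (ν : Measure V) {S : (L → A) → Set V}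
    (hS : ∀ ω, MeasurableSet (S ω)) :
    ∑ ω, ν (S ω) = ∫⁻ v, ∑ ω, ENNReal.ofReal (ind (v ∈ S ω)) ∂ν := by
  have h0 : ∀ ω, Measurable fun v => ENNReal.ofReal (ind (v ∈ S ω)) := by
    intro ω
    simp_rw [limit_ofReal_ind]
    exact Measurable.ite (hS ω) measurable_const measurable_const
  rw [lintegral_finsetSum _ (fun ω _ => h0 ω)]
  refine Finset.sum_congr rfl fun ω _ => ?_
  have : (fun v => ENNReal.ofReal (ind (v ∈ S ω))) = (S ω).indicator 1 := by
    funext v
    rw [limit_ofReal_ind, Set.indicator_apply]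
    rfl
  rw [this, lintegral_indicator_one (hS ω)]

theorem limit_sum_ind_le (P : (L → A) → Prop) :
    ∑ ω, ENNReal.ofReal (ind (P ω)) ≤ (Fintype.card (L → A) : ENNReal) := by
  calc ∑ ω, ENNReal.ofReal (ind (P ω)) ≤ ∑ _ω : L → A, (1 : ENNReal) := by
        refine Finset.sum_le_sum fun ω _ => ?_
        rw [limit_ofReal_ind]
        split_ifs <;> simp
    _ = (Fintype.card (L → A) : ENNReal) := by simp

end averaging

/-- averaging over a finite probability space: pointwise bounds off a bad set -/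
theorem sum_measure_le {V : Type*} [MeasurableSpace V] (ν : Measure V) {L : Type} [Fintype L]
    [DecidableEq L] {A : Type} [Fintype A] [Nonempty A] {S : (L → A) → Set V}
    (hS : ∀ ω, MeasurableSet (S ω)) (Bad : Set V) {δ : ℝ} (hδ : 0 ≤ δ)
    (h : ∀ v, v ∉ Bad → ex (fun ω : L → A => ind (v ∈ S ω)) ≤ δ) :
    ∑ ω, ν (S ω) ≤ (Fintype.card (L → A) : ENNReal) *
      (ENNReal.ofReal δ * ν Set.univ + ν Bad) := by
  rw [limit_sum_measure_eq ν hS]
  set N : ENNReal := (Fintype.card (L → A) : ENNReal) with hN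
  set B' := toMeasurable ν Bad with hB'
  have hB'm : MeasurableSet B' := measurableSet_toMeasurable ν Bad
  calc ∫⁻ v, ∑ ω, ENNReal.ofReal (ind (v ∈ S ω)) ∂ν
      ≤ ∫⁻ v, (N * ENNReal.ofReal δ + B'.indicator (fun _ => N) v) ∂ν := by
        apply lintegral_mono
        intro v
        by_cases hv : v ∈ B'
        · simp only [Set.indicator_of_mem hv]
          exact (limit_sum_ind_le _).trans le_add_self
        · have hv' : v ∉ Bad := fun h' => hv (subset_toMeasurable ν Bad h')
          simp only [Set.indicator_of_notMem hv, add_zero]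
          refine limit_sum_ofReal_le (fun ω => ?_) (h v hv')
          unfold ind; split_ifs <;> norm_num
    _ = N * (ENNReal.ofReal δ * ν Set.univ + ν Bad) := by
        rw [lintegral_add_left measurable_const, lintegral_const, lintegral_indicator_const hB'm,
          hB', measure_toMeasurable, mul_add, mul_assoc]

theorem limit_sum_lintegral_le_lintegral_sum {V : Type*} [MeasurableSpace V] (ν : Measure V)
    {Ω : Type*} (s : Finset Ω) (f : Ω → V → ENNReal) :
    ∑ ω ∈ s, ∫⁻ v, f ω v ∂ν ≤ ∫⁻ v, ∑ ω ∈ s, f ω v ∂ν := by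
  induction s using Finset.induction_on with
  | empty => simp
  | insert a s ha ih =>
    rw [Finset.sum_insert ha]
    calc ∫⁻ v, f a v ∂ν + ∑ ω ∈ s, ∫⁻ v, f ω v ∂ν
        ≤ ∫⁻ v, f a v ∂ν + ∫⁻ v, ∑ ω ∈ s, f ω v ∂ν := by gcongr
      _ ≤ ∫⁻ v, (f a v + ∑ ω ∈ s, f ω v) ∂ν := le_lintegral_add _ _
      _ = ∫⁻ v, ∑ ω ∈ insert a s, f ω v ∂ν := by
        refine lintegral_congr fun v => ?_
        rw [Finset.sum_insert ha]

/-- the same with a loss functional: `ℓ ω v ≥ 0` real valued, no measurability needed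
(`MeasureTheory.le_lintegral_add`) -/
theorem sum_lintegral_le {V : Type*} [MeasurableSpace V] (ν : Measure V) {L : Type} [Fintype L]
    [DecidableEq L] {A : Type} [Fintype A] [Nonempty A] {φ : (L → A) → V → ℝ}
    (hφ : ∀ ω v, 0 ≤ φ ω v) {Good : Set V} (hGood : MeasurableSet Good) {δ : ℝ} (hδ : 0 ≤ δ)
    (h : ∀ v ∈ Good, ex (fun ω : L → A => φ ω v) ≤ δ) :
    ∑ ω, ∫⁻ v in Good, ENNReal.ofReal (φ ω v) ∂ν ≤ (Fintype.card (L → A) : ENNReal) *
      (ENNReal.ofReal δ * ν Set.univ) := by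
  calc ∑ ω, ∫⁻ v in Good, ENNReal.ofReal (φ ω v) ∂ν
      ≤ ∫⁻ v in Good, ∑ ω, ENNReal.ofReal (φ ω v) ∂ν :=
        limit_sum_lintegral_le_lintegral_sum _ _ _
    _ ≤ ∫⁻ _v in Good, (Fintype.card (L → A) : ENNReal) * ENNReal.ofReal δ ∂ν := by
        apply setLIntegral_mono' hGood
        intro v hv
        exact limit_sum_ofReal_le (fun ω => hφ ω v) (h v hv)
    _ = (Fintype.card (L → A) : ENNReal) * ENNReal.ofReal δ * ν Good := by
        rw [setLIntegral_const]
    _ ≤ (Fintype.card (L → A) : ENNReal) * (ENNReal.ofReal δ * ν Set.univ) := by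
        rw [mul_assoc]
        gcongr
        exact Set.subset_univ _

/-- a random set dominated by a loss function off a bad set -/
theorem sum_measure_le_lintegral {V : Type*} [MeasurableSpace V] (ν : Measure V) {L : Type}
    [Fintype L] [DecidableEq L] {A : Type} [Fintype A] [Nonempty A] {S : (L → A) → Set V}
    (hS : ∀ ω, MeasurableSet (S ω)) {Good : Set V} (hGood : MeasurableSet Good)
    (Bad : Set V) {φ : V → ℝ} (hφ : ∀ v, 0 ≤ φ v)
    (h : ∀ v ∈ Good, v ∉ Bad → ex (fun ω : L → A => ind (v ∈ S ω)) ≤ φ v) :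
    ∑ ω, ν (S ω) ≤ (Fintype.card (L → A) : ENNReal) *
      ((∫⁻ v in Good, ENNReal.ofReal (φ v) ∂ν) + ν Goodᶜ + ν Bad) := by
  rw [limit_sum_measure_eq ν hS]
  set N : ENNReal := (Fintype.card (L → A) : ENNReal) with hN
  have hNtop : N ≠ ⊤ := ENNReal.natCast_ne_top _
  set B' := toMeasurable ν Bad with hB'
  have hB'm : MeasurableSet B' := measurableSet_toMeasurable ν Bad
  have hG : MeasurableSet (Good ∩ B'ᶜ) := hGood.inter hB'm.compl
  rw [← lintegral_add_compl (fun v => ∑ ω, ENNReal.ofReal (ind (v ∈ S ω))) hG]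
  have h1 : ∫⁻ v in Good ∩ B'ᶜ, ∑ ω, ENNReal.ofReal (ind (v ∈ S ω)) ∂ν ≤
      N * ∫⁻ v in Good, ENNReal.ofReal (φ v) ∂ν := by
    rw [← lintegral_const_mul' _ _ hNtop]
    refine le_trans ?_ (lintegral_mono_set (μ := ν) (s := Good ∩ B'ᶜ) (t := Good)
      Set.inter_subset_left (f := fun v => N * ENNReal.ofReal (φ v)))
    apply setLIntegral_mono' hG
    intro v hv
    have hv' : v ∉ Bad := fun h' => hv.2 (subset_toMeasurable ν Bad h')
    refine limit_sum_ofReal_le (fun ω => ?_) (h v hv.1 hv')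
    unfold ind; split_ifs <;> norm_num
  have h2 : ∫⁻ v in (Good ∩ B'ᶜ)ᶜ, ∑ ω, ENNReal.ofReal (ind (v ∈ S ω)) ∂ν ≤
      N * (ν Goodᶜ + ν Bad) := by
    calc ∫⁻ v in (Good ∩ B'ᶜ)ᶜ, ∑ ω, ENNReal.ofReal (ind (v ∈ S ω)) ∂ν
        ≤ ∫⁻ _v in (Good ∩ B'ᶜ)ᶜ, N ∂ν := lintegral_mono fun v => limit_sum_ind_le _
      _ = N * ν (Good ∩ B'ᶜ)ᶜ := setLIntegral_const _ _
      _ ≤ N * (ν Goodᶜ + ν Bad) := by
        gcongr
        rw [Set.compl_inter, compl_compl]
        refine (measure_union_le _ _).trans ?_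
        rw [hB', measure_toMeasurable]
  calc _ ≤ N * (∫⁻ v in Good, ENNReal.ofReal (φ v) ∂ν) + N * (ν Goodᶜ + ν Bad) :=
        add_le_add h1 h2
    _ = _ := by rw [← mul_add, add_assoc]

/-- choice of a good value -/
theorem exists_le_of_sum_le {Ω : Type} [Fintype Ω] [Nonempty Ω] (f g : Ω → ENNReal)
    {x y : ENNReal} (hx : x ≠ 0) (hx' : x ≠ ⊤) (hy : y ≠ 0) (hy' : y ≠ ⊤)
    (hf : ∑ ω, f ω ≤ Fintype.card Ω * x) (hg : ∑ ω, g ω ≤ Fintype.card Ω * y) :
    ∃ ω, f ω ≤ 2 * x ∧ g ω ≤ 2 * y := by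
  by_contra hcon
  have hcon' : ∀ ω, (2 : ENNReal) < f ω / x + g ω / y := by
    intro ω
    by_cases h1 : f ω ≤ 2 * x
    · have h2 : 2 * y < g ω := by
        by_contra h2
        exact hcon ⟨ω, h1, not_lt.1 h2⟩
      have h3 : (2 : ENNReal) < g ω / y := by
        rwa [ENNReal.lt_div_iff_mul_lt (Or.inl hy) (Or.inl hy')]
      exact lt_of_lt_of_le h3 le_add_self
    · have h3 : (2 : ENNReal) < f ω / x := by
        rw [ENNReal.lt_div_iff_mul_lt (Or.inl hx) (Or.inl hx')]
        exact not_le.1 h1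
      exact lt_of_lt_of_le h3 le_self_add
  have hlt : ∑ _ω : Ω, (2 : ENNReal) < ∑ ω, (f ω / x + g ω / y) :=
    ENNReal.sum_lt_sum_of_nonempty Finset.univ_nonempty fun ω _ => hcon' ω
  have hle : ∑ ω, (f ω / x + g ω / y) ≤ ∑ _ω : Ω, (2 : ENNReal) := by
    rw [Finset.sum_add_distrib]
    have e1 : ∑ ω, f ω / x ≤ (Fintype.card Ω : ENNReal) := by
      simp_rw [div_eq_mul_inv]
      rw [← Finset.sum_mul, ← div_eq_mul_inv]
      rw [ENNReal.div_le_iff hx hx']
      exact hf
    have e2 : ∑ ω, g ω / y ≤ (Fintype.card Ω : ENNReal) := by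
      simp_rw [div_eq_mul_inv]
      rw [← Finset.sum_mul, ← div_eq_mul_inv]
      rw [ENNReal.div_le_iff hy hy']
      exact hg
    calc _ ≤ (Fintype.card Ω : ENNReal) + (Fintype.card Ω : ENNReal) := add_le_add e1 e2
      _ = ∑ _ω : Ω, (2 : ENNReal) := by
        rw [Finset.sum_const, Finset.card_univ, nsmul_eq_mul]
        ring
  exact absurd hlt (not_lt.2 hle)

end Pool.Agent.MLLL
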