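import Pool.Agent.Lib.MP_25f38e_lc.Pieces

/-!
# Deterministic facts on the Moser-Tardos process

(helper50, problem MP_25f38e_lc, module MT)
-/

set_option linter.unusedSectionVars false

noncomputable section

open scoped Classical
open Finset

namespace Pool.Agent.MLLL

universe u

namespace Inst

variable {V ι : Type u} {A : Type} [DecidableEq V] [DecidableEq ι] (I : Inst V ι A)

theorem mt_zero (col : ι → ℕ) (C : ℕ) (τ : V × ℕ → A) (v : V) : I.mt col C τ 0 v = 0 := rfl

theorem mt_succ (col : ι → ℕ) (C : ℕ) (τ : V × ℕ → A) (m : ℕ) (v : V) :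
    I.mt col C τ (m + 1) v = I.mt col C τ m v +
      if ∃ i ∈ I.inc v, col i = m % C ∧ I.bad i (I.st col C τ m) then 1 else 0 := rfl

theorem mt_le (col : ι → ℕ) (C : ℕ) (τ : V × ℕ → A) (m : ℕ) (v : V) :
    I.mt col C τ m v ≤ m := by
  induction m with
  | zero => exact le_rfl
  | succ m ih =>
    rw [mt_succ]
    split_ifs <;> omega

theorem mt_mono (col : ι → ℕ) (C : ℕ) (τ : V × ℕ → A) {m m' : ℕ} (h : m ≤ m') (v : V) :
    I.mt col C τ m v ≤ I.mt col C τ m' v := by
  induction h with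
  | refl => exact le_rfl
  | step _ ih =>
    refine ih.trans ?_
    rw [mt_succ]
    exact Nat.le_add_right _ _

theorem mtx_nbv_ball {m : ℕ} {v w : V} (h : w ∈ I.nbv v) : I.ball m {w} ⊆ I.ball (m + 1) {v} := by
  rw [I.ball_add m 1]
  apply I.ball_mono_set
  intro x hx
  rw [mem_singleton] at hx
  subst hx
  rw [show (1 : ℕ) = 0 + 1 from rfl, ball_succ, ball_zero, mem_nbS]
  exact ⟨v, mem_singleton_self v, h⟩

/-- locality of the process -/
theorem mt_congr (col : ι → ℕ) (C : ℕ) {τ τ' : V × ℕ → A} {m : ℕ} {v : V}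
    (h : ∀ w ∈ I.ball m {v}, ∀ i ≤ m, τ (w, i) = τ' (w, i)) :
    I.mt col C τ m v = I.mt col C τ' m v := by
  induction m generalizing v with
  | zero => rfl
  | succ m ih =>
    have h1 : ∀ w ∈ I.nbv v, I.mt col C τ m w = I.mt col C τ' m w := by
      intro w hw
      refine ih fun x hx i hi => h x (I.mtx_nbv_ball hw hx) i (by omega)
    have h2 : ∀ w ∈ I.nbv v, I.st col C τ m w = I.st col C τ' m w := by
      intro w hw
      unfold st
      rw [h1 w hw]
      refine h w ?_ _ ((I.mt_le col C τ' m w).trans (Nat.le_succ m))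
      exact I.mtx_nbv_ball hw (I.subset_ball m _ (mem_singleton_self w))
    rw [mt_succ, mt_succ, h1 v (I.self_mem_nbv v)]
    congr 1
    have h3 : (∃ i ∈ I.inc v, col i = m % C ∧ I.bad i (I.st col C τ m)) ↔
        (∃ i ∈ I.inc v, col i = m % C ∧ I.bad i (I.st col C τ' m)) := by
      constructor
      · rintro ⟨i, hi, hc, hb⟩
        refine ⟨i, hi, hc, I.bad_congr i _ _ (fun w hw => h2 w ?_) hb⟩
        exact I.mem_nbv.2 (Or.inr ⟨i, I.mem_inc.1 hi, hw⟩)
      · rintro ⟨i, hi, hc, hb⟩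
        refine ⟨i, hi, hc, I.bad_congr i _ _ (fun w hw => (h2 w ?_).symm) hb⟩
        exact I.mem_nbv.2 (Or.inr ⟨i, I.mem_inc.1 hi, hw⟩)
    simp only [h3]

theorem st_congr (col : ι → ℕ) (C : ℕ) {τ τ' : V × ℕ → A} {m : ℕ} {v : V}
    (h : ∀ w ∈ I.ball m {v}, ∀ i ≤ m, τ (w, i) = τ' (w, i)) :
    I.st col C τ m v = I.st col C τ' m v := by
  unfold st
  rw [I.mt_congr col C h]
  exact h v (I.subset_ball m _ (mem_singleton_self v)) _ (I.mt_le col C τ' m v)

/-! ### insertion of events into layered sequences -/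

/-- the variables covered by a layered sequence -/
def mtxCov : (n : ℕ) → Pc ι n → Finset V
  | 0, .nil => ∅
  | n + 1, .cons L P => I.domL L ∪ mtxCov n P

theorem mtx_mem_cov {v : V} : ∀ (n : ℕ) (P : Pc ι n), v ∈ I.mtxCov n P ↔ 0 < I.cnt v n P
  | 0, .nil => by
    show v ∈ (∅ : Finset V) ↔ 0 < 0
    simp
  | n + 1, .cons L P => by
    have ih := mtx_mem_cov (v := v) n P
    show v ∈ I.domL L ∪ I.mtxCov n P ↔ 0 < I.cnt v n P + (if v ∈ I.domL L then 1 else 0)
    rw [mem_union, ih]
    split_ifs with h <;> simp [h]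

/-- insert the events of `R`, each one below the deepest layer it meets -/
def mtxIns : (n : ℕ) → Pc ι n → Finset ι → Pc ι (n + 1)
  | 0, .nil, R => .cons R .nil
  | n + 1, .cons L P, R =>
    .cons (L ∪ R.filter (fun B => Disjoint (I.dom B) (I.mtxCov (n + 1) (.cons L P))))
      (mtxIns n P (R.filter (fun B => ¬ Disjoint (I.dom B) (I.mtxCov (n + 1) (.cons L P)))))

theorem mtx_cov_cons {n : ℕ} (L : Finset ι) (P : Pc ι n) :
    I.mtxCov (n + 1) (.cons L P) = I.domL L ∪ I.mtxCov n P := rfl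

theorem mtx_cnt_cons {n : ℕ} (v : V) (L : Finset ι) (P : Pc ι n) :
    I.cnt v (n + 1) (.cons L P) = I.cnt v n P + if v ∈ I.domL L then 1 else 0 := rfl

theorem mtx_ins_cons {n : ℕ} (L : Finset ι) (P : Pc ι n) (R : Finset ι) :
    I.mtxIns (n + 1) (.cons L P) R =
      .cons (L ∪ R.filter (fun B => Disjoint (I.dom B) (I.mtxCov (n + 1) (.cons L P))))
      (I.mtxIns n P
        (R.filter (fun B => ¬ Disjoint (I.dom B) (I.mtxCov (n + 1) (.cons L P))))) := rfl

theorem mtx_domL_union (L R : Finset ι) : I.domL (L ∪ R) = I.domL L ∪ I.domL R := by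
  ext v
  simp only [mem_domL, mem_union]
  constructor
  · rintro ⟨i, hi | hi, hv⟩
    · exact Or.inl ⟨i, hi, hv⟩
    · exact Or.inr ⟨i, hi, hv⟩
  · rintro (⟨i, hi, hv⟩ | ⟨i, hi, hv⟩)
    · exact ⟨i, Or.inl hi, hv⟩
    · exact ⟨i, Or.inr hi, hv⟩

theorem mtx_domL_mono {L L' : Finset ι} (h : L ⊆ L') : I.domL L ⊆ I.domL L' := by
  intro v hv
  obtain ⟨i, hi, hv'⟩ := I.mem_domL.1 hv
  exact I.mem_domL.2 ⟨i, h hi, hv'⟩

theorem mtx_incS_mono {S T : Finset V} (h : S ⊆ T) : I.incS S ⊆ I.incS T := by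
  intro i hi
  obtain ⟨v, hv, hv'⟩ := I.mem_incS.1 hi
  exact I.mem_incS.2 ⟨v, h hv, hv'⟩

theorem mtx_seqs_mono {S T : Finset V} (h : S ⊆ T) : ∀ {n : ℕ} {P : Pc ι n},
    P ∈ I.seqs n S → P ∈ I.seqs n T
  | 0, .nil, _ => by simp [seqs]
  | n + 1, .cons L P, hP => by
    obtain ⟨h1, h2, h3⟩ := I.mem_seqs_succ.1 hP
    exact I.mem_seqs_succ.2 ⟨h1.trans (I.mtx_incS_mono h), h2, h3⟩

theorem mtx_indep_mono {R R' : Finset ι} (h : R' ⊆ R) (hR : I.Indep R) : I.Indep R' :=
  fun i hi j hj hij => hR i (h hi) j (h hj) hij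

/-- the split of `R` -/
theorem mtx_split {v : V} (R : Finset ι) (D : Finset V) (hv : v ∈ D) :
    v ∈ I.domL R ↔ v ∈ I.domL (R.filter (fun B => ¬ Disjoint (I.dom B) D)) := by
  constructor
  · intro h
    obtain ⟨i, hi, hvi⟩ := I.mem_domL.1 h
    refine I.mem_domL.2 ⟨i, mem_filter.2 ⟨hi, fun hd => ?_⟩, hvi⟩
    exact (disjoint_left.1 hd) hvi hv
  · exact fun h => I.mtx_domL_mono (filter_subset _ _) h

theorem mtx_cnt_ins (v : V) : ∀ (n : ℕ) (P : Pc ι n) (R : Finset ι), I.Indep R →
    I.cnt v (n + 1) (I.mtxIns n P R) = I.cnt v n P + if v ∈ I.domL R then 1 else 0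
  | 0, .nil, R, _ => rfl
  | n + 1, .cons L P, R, hR => by
    rw [mtx_ins_cons, mtx_cnt_cons, mtx_cnt_ins v n P _ (I.mtx_indep_mono (filter_subset _ _) hR),
      mtx_cnt_cons]
    set D := I.mtxCov (n + 1) (.cons L P) with hD
    set R0 := R.filter (fun B => Disjoint (I.dom B) D) with hR0
    set R1 := R.filter (fun B => ¬ Disjoint (I.dom B) D) with hR1
    have hLD : I.domL L ⊆ D := by rw [hD, mtx_cov_cons]; exact subset_union_left
    have e1 : v ∈ I.domL R ↔ v ∈ I.domL R0 ∨ v ∈ I.domL R1 := by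
      simp only [mem_domL]
      constructor
      · rintro ⟨i, hi, hv⟩
        by_cases hd : Disjoint (I.dom i) D
        · exact Or.inl ⟨i, mem_filter.2 ⟨hi, hd⟩, hv⟩
        · exact Or.inr ⟨i, mem_filter.2 ⟨hi, hd⟩, hv⟩
      · rintro (⟨i, hi, hv⟩ | ⟨i, hi, hv⟩)
        · exact ⟨i, (mem_filter.1 hi).1, hv⟩
        · exact ⟨i, (mem_filter.1 hi).1, hv⟩
    have e2 : v ∈ I.domL (L ∪ R0) ↔ v ∈ I.domL L ∨ v ∈ I.domL R0 := by
      rw [mtx_domL_union, mem_union]
    have e3 : v ∈ I.domL R0 → v ∉ I.domL R1 := by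
      intro h0 h1
      obtain ⟨i, hi, hvi⟩ := I.mem_domL.1 h0
      obtain ⟨j, hj, hvj⟩ := I.mem_domL.1 h1
      obtain ⟨hi1, hi2⟩ := mem_filter.1 hi
      obtain ⟨hj1, hj2⟩ := mem_filter.1 hj
      have hij : i ≠ j := by
        rintro rfl
        exact hj2 hi2
      exact (disjoint_left.1 (hR i hi1 j hj1 hij)) hvi hvj
    have e4 : v ∈ I.domL R0 → v ∉ I.domL L := by
      intro h0 h1
      obtain ⟨i, hi, hvi⟩ := I.mem_domL.1 h0
      exact (disjoint_left.1 (mem_filter.1 hi).2) hvi (hLD h1)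
    by_cases a0 : v ∈ I.domL R0
    · have a1 := e3 a0
      have a2 := e4 a0
      have a3 : v ∈ I.domL R := e1.2 (Or.inl a0)
      have a4 : v ∈ I.domL (L ∪ R0) := e2.2 (Or.inr a0)
      simp [a1, a2, a3, a4]
    · by_cases a1 : v ∈ I.domL R1
      · have a3 : v ∈ I.domL R := e1.2 (Or.inr a1)
        by_cases a2 : v ∈ I.domL L
        · have a4 : v ∈ I.domL (L ∪ R0) := e2.2 (Or.inl a2)
          simp [a1, a2, a3, a4]
        · have a4 : v ∉ I.domL (L ∪ R0) := by
            rw [e2]; push Not; exact ⟨a2, a0⟩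
          simp [a1, a2, a3, a4]
      · have a3 : v ∉ I.domL R := by
          rw [e1]; push Not; exact ⟨a0, a1⟩
        by_cases a2 : v ∈ I.domL L
        · have a4 : v ∈ I.domL (L ∪ R0) := e2.2 (Or.inl a2)
          simp [a1, a2, a3, a4]
        · have a4 : v ∉ I.domL (L ∪ R0) := by
            rw [e2]; push Not; exact ⟨a2, a0⟩
          simp [a1, a2, a3, a4]

theorem mtx_size_ins : ∀ (n : ℕ) (P : Pc ι n) (R : Finset ι), (∀ B ∈ R, (I.dom B).Nonempty) →
    size (n + 1) (I.mtxIns n P R) = size n P + R.card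
  | 0, .nil, R, _ => by
    show R.card + 0 = 0 + R.card
    omega
  | n + 1, .cons L P, R, hR => by
    rw [mtx_ins_cons]
    set D := I.mtxCov (n + 1) (.cons L P) with hD
    have hLD : I.domL L ⊆ D := by rw [hD, mtx_cov_cons]; exact subset_union_left
    show (L ∪ R.filter (fun B => Disjoint (I.dom B) D)).card +
      size (n + 1) (I.mtxIns n P (R.filter (fun B => ¬ Disjoint (I.dom B) D))) =
      L.card + size n P + R.card
    rw [mtx_size_ins n P _ (fun B hB => hR B (mem_filter.1 hB).1), card_union_of_disjoint]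
    · have := card_filter_add_card_filter_not (s := R) (fun B => Disjoint (I.dom B) D)
      omega
    · rw [disjoint_left]
      intro B hB hB'
      obtain ⟨h1, h2⟩ := mem_filter.1 hB'
      obtain ⟨v, hv⟩ := hR B h1
      exact (disjoint_left.1 h2) hv (hLD (I.mem_domL.2 ⟨B, hB, hv⟩))

theorem mtx_ins_mem {S : Finset V} : ∀ {n : ℕ} {P : Pc ι n} {R : Finset ι},
    P ∈ I.seqs n S → I.Indep R → (∀ B ∈ R, ¬ Disjoint (I.dom B) (S ∪ I.mtxCov n P)) →
    I.mtxIns n P R ∈ I.seqs (n + 1) S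
  | 0, .nil, R, _, hR, hm => by
    refine I.mem_seqs_succ.2 ⟨?_, hR, by simp [seqs]⟩
    intro B hB
    have := hm B hB
    rw [not_disjoint_iff] at this
    obtain ⟨v, hv, hv'⟩ := this
    have hcov : I.mtxCov 0 (Pc.nil : Pc ι 0) = ∅ := rfl
    rw [hcov, union_empty] at hv'
    exact I.mem_incS.2 ⟨v, hv', hv⟩
  | n + 1, .cons L P, R, hP, hR, hm => by
    obtain ⟨h1, h2, h3⟩ := I.mem_seqs_succ.1 hP
    rw [mtx_ins_cons]
    set D := I.mtxCov (n + 1) (.cons L P) with hD
    have hDe : D = I.domL L ∪ I.mtxCov n P := rfl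
    have hLD : I.domL L ⊆ D := by rw [hDe]; exact subset_union_left
    refine I.mem_seqs_succ.2 ⟨?_, ?_, ?_⟩
    · apply union_subset h1
      intro B hB
      obtain ⟨hB1, hB2⟩ := mem_filter.1 hB
      have := hm B hB1
      rw [not_disjoint_iff] at this
      obtain ⟨v, hv, hv'⟩ := this
      rcases mem_union.1 hv' with h | h
      · exact I.mem_incS.2 ⟨v, h, hv⟩
      · exact absurd h ((disjoint_left.1 hB2) hv)
    · intro i hi j hj hij
      rcases mem_union.1 hi with hi | hi <;> rcases mem_union.1 hj with hj | hj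
      · exact h2 i hi j hj hij
      · rw [disjoint_comm]
        refine disjoint_left.2 fun v hv hv' => ?_
        exact (disjoint_left.1 (mem_filter.1 hj).2) hv (hLD (I.mem_domL.2 ⟨i, hi, hv'⟩))
      · refine disjoint_left.2 fun v hv hv' => ?_
        exact (disjoint_left.1 (mem_filter.1 hi).2) hv (hLD (I.mem_domL.2 ⟨j, hj, hv'⟩))
      · exact hR i (mem_filter.1 hi).1 j (mem_filter.1 hj).1 hij
    · refine I.mtx_seqs_mono (S := I.domL L) (I.mtx_domL_mono subset_union_left) ?_
      refine mtx_ins_mem h3 (I.mtx_indep_mono (filter_subset _ _) hR) ?_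
      intro B hB
      rw [← hDe]
      exact (mem_filter.1 hB).2

theorem mtx_cons_ins : ∀ (n : ℕ) (P : Pc ι n) (R : Finset ι) (τ0 τ1 : V × ℕ → A),
    I.Indep R →
    (∀ v ∈ I.mtxCov n P, ∀ k, τ1 (v, k) = τ0 (v, k + if v ∈ I.domL R then 1 else 0)) →
    (∀ B ∈ R, I.bad B (fun v => τ0 (v, 0))) →
    I.cons τ1 n P → I.cons τ0 (n + 1) (I.mtxIns n P R)
  | 0, .nil, R, τ0, τ1, _, _, hb, _ => by
    refine ⟨fun B hB => hb B hB, trivial⟩
  | n + 1, .cons L P, R, τ0, τ1, hR, hτ, hb, hc => by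
    rw [mtx_ins_cons]
    set D := I.mtxCov (n + 1) (.cons L P) with hD
    have hDe : D = I.domL L ∪ I.mtxCov n P := rfl
    have hLD : I.domL L ⊆ D := by rw [hDe]; exact subset_union_left
    have hPD : I.mtxCov n P ⊆ D := by rw [hDe]; exact subset_union_right
    set R0 := R.filter (fun B => Disjoint (I.dom B) D) with hR0
    set R1 := R.filter (fun B => ¬ Disjoint (I.dom B) D) with hR1
    have hR1i : I.Indep R1 := I.mtx_indep_mono (filter_subset _ _) hR
    obtain ⟨hc1, hc2⟩ := hc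
    refine ⟨?_, ?_⟩
    · intro i hi
      rcases mem_union.1 hi with hi | hi
      · refine I.bad_congr i _ _ (fun v hv => ?_) (hc1 i hi)
        have hvD : v ∈ D := hLD (I.mem_domL.2 ⟨i, hi, hv⟩)
        rw [hτ v hvD, I.mtx_cnt_ins v n P R1 hR1i]
        have := I.mtx_split R D hvD
        simp only [this]
        rfl
      · obtain ⟨hi1, hi2⟩ := mem_filter.1 hi
        refine I.bad_congr i _ _ (fun v hv => ?_) (hb i hi1)
        rw [I.mtx_cnt_ins v n P R1 hR1i]
        have hv1 : I.cnt v n P = 0 := by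
          by_contra hne
          have : v ∈ I.mtxCov n P := (I.mtx_mem_cov n P).2 (Nat.pos_of_ne_zero hne)
          exact (disjoint_left.1 hi2) hv (hPD this)
        have hv2 : v ∉ I.domL R1 := by
          intro h
          obtain ⟨j, hj, hvj⟩ := I.mem_domL.1 h
          obtain ⟨hj1, hj2⟩ := mem_filter.1 hj
          have hij : i ≠ j := by
            rintro rfl
            exact hj2 hi2
          exact (disjoint_left.1 (hR i hi1 j hj1 hij)) hv hvj
        rw [hv1, if_neg hv2]
    · refine mtx_cons_ins n P R1 τ0 τ1 hR1i ?_ (fun B hB => hb B (mem_filter.1 hB).1) hc2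
      intro v hv k
      rw [hτ v (hPD hv)]
      have := I.mtx_split R D (hPD hv)
      simp only [this]
      rfl

theorem mtx_cov_ins {v : V} {n : ℕ} {P : Pc ι n} {R : Finset ι} (hR : I.Indep R) :
    v ∈ I.mtxCov (n + 1) (I.mtxIns n P R) ↔ v ∈ I.mtxCov n P ∨ v ∈ I.domL R := by
  rw [mtx_mem_cov, I.mtx_cnt_ins v n P R hR, mtx_mem_cov]
  split_ifs with h <;> simp [h]

/-! ### the structure lemma -/

theorem mtx_aux {col : ι → ℕ} {C : ℕ} (hcol : I.Proper col C) (τ : V × ℕ → A) (m : ℕ)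
    (S : Finset V) : ∀ j t : ℕ, t + j = m → ∃ P ∈ I.seqs j S,
      (∀ v ∈ S, I.mt col C τ m v = I.mt col C τ t v + I.cnt v j P) ∧
      I.cons (fun x => τ (x.1, I.mt col C τ t x.1 + x.2)) j P ∧
      ∀ E, I.dom E ⊆ S → I.bad E (I.st col C τ m) → ∃ (E' : ι) (w : ℕ),
        I.dom E' ⊆ S ∪ I.mtxCov j P ∧ I.bad E' (I.st col C τ t) ∧ w < C ∧
        j ≤ C * size j P + w ∧ ∀ s, t ≤ s → s < t + w → s % C ≠ col E' := by
  intro j
  induction j with
  | zero =>
    intro t ht
    have ht' : t = m := by simpa using ht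
    subst ht'
    refine ⟨Pc.nil, by simp [seqs], fun v _ => rfl, trivial, ?_⟩
    intro E hE hb
    refine ⟨E, 0, hE.trans subset_union_left, hb, (Nat.zero_le _).trans_lt (hcol.1 E),
      Nat.zero_le _, ?_⟩
    intro s h1 h2
    omega
  | succ j ih =>
    intro t ht
    obtain ⟨P, hP, hcnt, hcons, hsz⟩ := ih (t + 1) (by omega)
    set U := S ∪ I.mtxCov j P with hU
    set R := (I.incS U).filter (fun i => col i = t % C ∧ I.bad i (I.st col C τ t)) with hRdef
    have hRmem : ∀ i, i ∈ R ↔ (∃ v ∈ U, v ∈ I.dom i) ∧ col i = t % C ∧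
        I.bad i (I.st col C τ t) := by
      intro i
      rw [hRdef, mem_filter, mem_incS]
    have hRi : I.Indep R := by
      intro i hi i' hi' hne
      by_contra hd
      have h1 := hcol.2 i i' hne hd
      rw [((hRmem i).1 hi).2.1, ((hRmem i').1 hi').2.1] at h1
      exact h1 rfl
    have hmt : ∀ v ∈ U, I.mt col C τ (t + 1) v =
        I.mt col C τ t v + if v ∈ I.domL R then 1 else 0 := by
      intro v hv
      rw [mt_succ]
      have : (∃ i ∈ I.inc v, col i = t % C ∧ I.bad i (I.st col C τ t)) ↔ v ∈ I.domL R := by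
        rw [mem_domL]
        constructor
        · rintro ⟨i, hi, hc, hb⟩
          exact ⟨i, (hRmem i).2 ⟨⟨v, hv, I.mem_inc.1 hi⟩, hc, hb⟩, I.mem_inc.1 hi⟩
        · rintro ⟨i, hi, hv'⟩
          exact ⟨i, I.mem_inc.2 hv', ((hRmem i).1 hi).2⟩
      simp only [this]
    refine ⟨I.mtxIns j P R, I.mtx_ins_mem hP hRi ?_, ?_, ?_, ?_⟩
    · intro B hB
      obtain ⟨⟨v, hv, hv'⟩, -⟩ := (hRmem B).1 hB
      exact not_disjoint_iff.2 ⟨v, hv', hv⟩
    · intro v hv
      rw [hcnt v hv, hmt v (mem_union_left _ hv), I.mtx_cnt_ins v j P R hRi]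
      omega
    · refine I.mtx_cons_ins j P R _ _ hRi ?_ ?_ hcons
      · intro v hv k
        simp only
        rw [hmt v (mem_union_right _ hv)]
        congr 2
        omega
      · intro B hB
        exact ((hRmem B).1 hB).2.2
    · intro E hE hb
      obtain ⟨E', w, h1, h2, h3, h4, h5⟩ := hsz E hE hb
      have hsize := I.mtx_size_ins j P R (fun B hB => I.ne_of_bad _ _ ((hRmem B).1 hB).2.2)
      by_cases hx : ∃ v ∈ I.dom E', v ∈ I.domL R
      · obtain ⟨v, hv, hv'⟩ := hx
        obtain ⟨B, hB, hvB⟩ := I.mem_domL.1 hv'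
        refine ⟨B, 0, ?_, ((hRmem B).1 hB).2.2, by omega, ?_, ?_⟩
        · intro x hx
          refine mem_union_right _ ((I.mtx_cov_ins hRi).2 (Or.inr ?_))
          exact I.mem_domL.2 ⟨B, hB, hx⟩
        · rw [hsize]
          have : 1 ≤ R.card := card_pos.2 ⟨B, hB⟩
          have h6 : C * (size j P + 1) ≤ C * (size j P + R.card) :=
            Nat.mul_le_mul_left _ (by omega)
          rw [Nat.mul_add, Nat.mul_one] at h6
          omega
        · intro s _ _
          omega
      · push Not at hx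
        have hbad' : I.bad E' (I.st col C τ t) := by
          refine I.bad_congr E' _ _ (fun v hv => ?_) h2
          unfold st
          rw [hmt v (h1 hv), if_neg (hx v hv), add_zero]
        have hcolne : t % C ≠ col E' := by
          intro hc
          obtain ⟨v, hv⟩ := I.ne_of_bad _ _ h2
          exact hx v hv (I.mem_domL.2 ⟨E', (hRmem E').2 ⟨⟨v, h1 hv, hv⟩, hc.symm, hbad'⟩, hv⟩)
        have hall : ∀ s, t ≤ s → s < t + (w + 1) → s % C ≠ col E' := by
          intro s hs1 hs2
          rcases Nat.eq_or_lt_of_le hs1 with rfl | hlt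
          · exact hcolne
          · exact h5 s hlt (by omega)
        have hw : w + 1 < C := by
          by_contra hge
          push Not at hge
          have hcE := hcol.1 E'
          -- find `s ∈ [t, t + C)` with `s % C = col E'`
          have hC0 : 0 < C := by omega
          have h7 : ∃ s, t ≤ s ∧ s < t + C ∧ s % C = col E' := by
            refine ⟨t + (col E' + C - t % C) % C, by omega, ?_, ?_⟩
            · have := Nat.mod_lt (col E' + C - t % C) hC0
              omega
            · have ht0 := Nat.mod_lt t hC0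
              rw [Nat.add_mod, Nat.mod_mod, ← Nat.add_mod]
              have h8 : t + (col E' + C - t % C) = col E' + C * (t / C + 1) := by
                have := Nat.div_add_mod t C
                rw [Nat.mul_add, Nat.mul_one]
                omega
              rw [h8, Nat.add_mul_mod_self_left, Nat.mod_eq_of_lt hcE]
          obtain ⟨s, hs1, hs2, hs3⟩ := h7
          exact hall s hs1 (by omega) hs3
        refine ⟨E', w + 1, ?_, hbad', hw, ?_, hall⟩
        · intro x hx'
          rcases mem_union.1 (h1 hx') with h | h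
          · exact mem_union_left _ h
          · exact mem_union_right _ ((I.mtx_cov_ins hRi).2 (Or.inl h))
        · rw [hsize]
          have h6 : C * size j P ≤ C * (size j P + R.card) := Nat.mul_le_mul_left _ (by omega)
          omega

theorem mtx_pad {S : Finset V} {τ : V × ℕ → A} {m M : ℕ} (hm : m ≤ M) {P : Pc ι m}
    (hP : P ∈ I.seqs m S) (hc : I.cons τ m P) :
    ∃ P' ∈ I.seqs M S, (∀ v, I.cnt v M P' = I.cnt v m P) ∧ I.cons τ M P' ∧
      size M P' = size m P := by
  induction hm with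
  | refl => exact ⟨P, hP, fun _ => rfl, hc, rfl⟩
  | @step M' _ ih =>
    obtain ⟨P', h1, h2, h3, h4⟩ := ih
    have hi : I.Indep (∅ : Finset ι) := fun i hi => absurd hi (by simp)
    have hd : I.domL (∅ : Finset ι) = ∅ := by simp [domL]
    refine ⟨I.mtxIns M' P' ∅, I.mtx_ins_mem h1 hi (fun B hB => absurd hB (by simp)), ?_, ?_, ?_⟩
    · intro v
      rw [I.mtx_cnt_ins v M' P' ∅ hi, hd, h2 v]
      simp
    · refine I.mtx_cons_ins M' P' ∅ τ τ hi ?_ (fun B hB => absurd hB (by simp)) h3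
      intro v _ k
      rw [hd]
      simp
    · rw [I.mtx_size_ins M' P' ∅ (fun B hB => absurd hB (by simp)), h4, card_empty, add_zero]

/-- STRUCTURE LEMMA.  (Process the resampled events backwards in time `m-1, ..., 0`, inserting
every resampled event that meets the current structure (or `S`) at layer `1 +` the deepest layer
it meets; pad with empty layers up to `M` layers.  For the last clause: as long as the structure
covers an event bad at the current time, each window of `C` consecutive steps inserts at least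
one event, and the inserted event is again bad at the time just before it.) -/
theorem mt_structure {col : ι → ℕ} {C : ℕ} (hcol : I.Proper col C) (τ : V × ℕ → A)
    {m M : ℕ} (hm : m ≤ M) (S : Finset V) :
    ∃ P ∈ I.seqs M S, (∀ v ∈ S, I.mt col C τ m v = I.cnt v M P) ∧ I.cons τ M P ∧
      ∀ E, I.dom E ⊆ S → I.bad E (I.st col C τ m) → m / C ≤ size M P := by
  obtain ⟨P, hP, h1, h2, h3⟩ := I.mtx_aux hcol τ m S m 0 (by omega)
  have h2' : I.cons τ m P := by
    refine I.cons_congr m P _ _ ?_ h2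
    intro x _
    simp only [mt_zero, Nat.zero_add]
  obtain ⟨P', hP', h4, h5, h6⟩ := I.mtx_pad hm hP h2'
  refine ⟨P', hP', fun v hv => ?_, h5, ?_⟩
  · rw [h4 v, h1 v hv, mt_zero, Nat.zero_add]
  · intro E hE hb
    obtain ⟨E', w, -, -, h7, h8, -⟩ := h3 E hE hb
    rw [h6]
    have hC : 0 < C := by omega
    have h9 : m < C * (size m P + 1) := by
      rw [Nat.mul_add, Nat.mul_one]
      omega
    exact Nat.lt_succ_iff.1 ((Nat.div_lt_iff_lt_mul hC).2 (by rwa [Nat.mul_comm]))

/-- an event bad after `m` steps is the root of a consistent piece -/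
theorem bad_piece {col : ι → ℕ} {C : ℕ} (hcol : I.Proper col C) (τ : V × ℕ → A)
    {m M : ℕ} (hm : m ≤ M) {E : ι} (hE : I.bad E (I.st col C τ m)) :
    ∃ P ∈ I.seqs M (I.dom E), m / C ≤ size M P ∧ I.consR τ E P := by
  obtain ⟨P, hP, h1, h2, h3⟩ := I.mt_structure hcol τ hm (I.dom E)
  refine ⟨P, hP, h3 E Subset.rfl hE, ?_, h2⟩
  refine I.bad_congr E _ _ (fun v hv => ?_) hE
  unfold st
  rw [h1 v hv]

/-- a variable resampled after step `r` lies in the root of a consistent piece -/
theorem unstable_piece {col : ι → ℕ} {C : ℕ} (hcol : I.Proper col C) (τ : V × ℕ → A)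
    {r M : ℕ} (hr : r ≤ M) {v : V} (hv : I.mt col C τ M v ≠ I.mt col C τ r v) :
    ∃ E ∈ I.inc v, ∃ P ∈ I.seqs M (I.dom E), r / C ≤ size M P ∧ I.consR τ E P := by
  have key : ∀ k, I.mt col C τ (r + k) v ≠ I.mt col C τ r v →
      ∃ s, r ≤ s ∧ s < r + k ∧ ∃ i ∈ I.inc v, I.bad i (I.st col C τ s) := by
    intro k
    induction k with
    | zero => intro h; exact absurd rfl h
    | succ k ih =>
      intro h
      by_cases h' : I.mt col C τ (r + k) v = I.mt col C τ r v
      · have h1 : I.mt col C τ (r + (k + 1)) v = _ := I.mt_succ col C τ (r + k) v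
        rw [h1, h'] at h
        by_cases hx : ∃ i ∈ I.inc v, col i = (r + k) % C ∧ I.bad i (I.st col C τ (r + k))
        · obtain ⟨i, hi, -, hb⟩ := hx
          exact ⟨r + k, by omega, by omega, i, hi, hb⟩
        · rw [if_neg hx, add_zero] at h
          exact absurd rfl h
      · obtain ⟨s, h1, h2, h3⟩ := ih h'
        exact ⟨s, h1, by omega, h3⟩
  obtain ⟨s, hs1, hs2, E, hE, hb⟩ := key (M - r) (by rwa [Nat.add_sub_cancel' hr])
  obtain ⟨P, hP, h1, h2⟩ := I.bad_piece hcol τ (m := s) (M := M) (by omega) hb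
  exact ⟨E, hE, P, hP, (Nat.div_le_div_right hs1).trans h1, h2⟩

end Inst

end Pool.Agent.MLLL
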