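import Pool.Agent.Lib.MP_25f38e_lc.Step

/-!
# The measurable local lemma for the class `Cls` (bounded domains)

(helper43, problem MP_25f38e_lc)
-/

set_option linter.unusedSectionVars false

noncomputable section

open scoped Classical
open Finset MeasureTheory Function

namespace Pool.Agent.MLLL

open Inst

universe u

variable {X ι₀ : Type u} {A : Type} [DecidableEq X] [DecidableEq ι₀] [MeasurableSpace X]
  [StandardBorelSpace X] [MeasurableSpace ι₀] [StandardBorelSpace ι₀]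
  [Fintype A] [Nonempty A] [MeasurableSpace A] [DiscreteMeasurableSpace A]

theorem exists_seq {I₀ : Inst X ι₀ A} {μ μh : Measure X}
    (hμ : ∀ S : Set X, μ {x | ∃ y ∈ I₀.nbv x, y ∈ S} ≤ μh S) (S₀ : State I₀ μ μh)
    (κ : ℕ → ENNReal) (hκ : ∀ n, κ n ≠ 0) (hκ' : ∀ n, κ n ≠ ⊤) :
    ∃ s : ℕ → State I₀ μ μh, s 0 = S₀ ∧ ∀ n, (s (n + 1)).ε ≤ 20 * κ n ∧
      μh {x | (s (n + 1)).a x ≠ (s n).a x} ≤ 2 * ((s n).ε + 3 * κ n) ∧
      μ (I₀.Def (s (n + 1)).a) ≤ 20 * κ n := by
  let s : ℕ → State I₀ μ μh := fun n => Nat.rec S₀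
    (fun n S => Classical.choose (step hμ S (hκ n) (hκ' n))) n
  refine ⟨s, rfl, fun n => ?_⟩
  exact Classical.choose_spec (step hμ (s n) (hκ n) (hκ' n))

/-- Measurable local lemma for Borel instances (bounded degrees and domains) in the class `Cls`. -/
theorem main_cls (I₀ : Inst X ι₀ A) (hI : I₀.Meas) {t b Cc : ℝ} {W K : ι₀ → ℝ}
    (hcls : I₀.Cls t b Cc W K) (μ : Measure X) [IsFiniteMeasure μ] :
    ∃ f : X → A, Measurable f ∧ μ (I₀.Def f) = 0 := by
  obtain ⟨N, hN, hN'⟩ := hI.bdd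
  obtain ⟨μh, hfin, hμ⟩ := exists_transport μ hI.nbv (N := N * N + 1)
    (fun v => I₀.card_nbv_le hN' hN v)
  have hle : ∀ S : Set X, μ S ≤ μh S := fun S =>
    (measure_mono (show S ⊆ {x | ∃ y ∈ I₀.nbv x, y ∈ S} from
      fun x hx => ⟨x, I₀.self_mem_nbv x, hx⟩)).trans (hμ S)
  obtain ⟨col, C, hC, hcolm, hprop⟩ := hI.exists_proper
  let S₀ : State I₀ μ μh :=
    { V := X, ι := ι₀, decV := inferInstance, decι := inferInstance, msV := inferInstance
      msι := inferInstance, sbV := inferInstance, sbι := inferInstance, I := I₀, meas := hI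
      t := t, b := b, Cc := Cc, W := W, K := K, cls := hcls, col := col, C := C, C_pos := hC
      col_meas := hcolm, proper := hprop, ν := μh, fin := hfin, Dec := fun g => g
      Dec_meas := fun g hg => hg
      Dec_lip := fun g g' _ _ => le_rfl
      Dec_def := fun g _ => hle _
      a := fun _ => Classical.arbitrary A
      a_meas := measurable_const
      ε := μh Set.univ
      ε_top := measure_ne_top _ _
      stable := by
        intro M η hη
        refine Filter.Eventually.of_forall fun j => ?_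
        calc ∑ ω : Lb j → A, μh {x | I₀.st col C (tab j ω) M x ≠ Classical.arbitrary A}
            ≤ ∑ _ω : Lb j → A, μh Set.univ := sum_le_sum fun ω _ => measure_mono (Set.subset_univ _)
          _ = (Fintype.card (Lb j → A) : ENNReal) * μh Set.univ := by
              rw [sum_const, nsmul_eq_mul, Finset.card_univ]
          _ ≤ (Fintype.card (Lb j → A) : ENNReal) * (μh Set.univ + η) := by
              gcongr; exact le_self_add }
  obtain ⟨s, hs0, hs⟩ := exists_seq hμ S₀ (fun n => (2 : ENNReal)⁻¹ ^ n)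
    (fun n => by simp) (fun n => ENNReal.pow_ne_top (by simp))
  have hgeo : ∑' n : ℕ, (2 : ENNReal)⁻¹ ^ n ≠ ⊤ := by
    rw [ENNReal.tsum_geometric]
    simp
  have hε : ∑' n, (s n).ε ≠ ⊤ := by
    rw [tsum_eq_zero_add' ENNReal.summable]
    refine ENNReal.add_ne_top.2 ⟨(s 0).ε_top, ?_⟩
    refine ne_top_of_le_ne_top (b := ∑' n : ℕ, 20 * (2 : ENNReal)⁻¹ ^ n) ?_
      (ENNReal.tsum_le_tsum fun n => (hs n).1)
    rw [ENNReal.tsum_mul_left]
    exact ENNReal.mul_ne_top (by simp) hgeo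
  refine exists_limit I₀ μ μh hμ (fun n => (s n).a) (fun n => (s n).a_meas) ?_ ?_
  · refine ne_top_of_le_ne_top (b := ∑' n : ℕ, 2 * ((s n).ε + 3 * (2 : ENNReal)⁻¹ ^ n)) ?_
      (ENNReal.tsum_le_tsum fun n => (hs n).2.1)
    rw [ENNReal.tsum_mul_left, ENNReal.tsum_add, ENNReal.tsum_mul_left]
    exact ENNReal.mul_ne_top (by simp) (ENNReal.add_ne_top.2
      ⟨hε, ENNReal.mul_ne_top (by simp) hgeo⟩)
  · rw [tsum_eq_zero_add' ENNReal.summable]
    refine ENNReal.add_ne_top.2 ⟨measure_ne_top _ _, ?_⟩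
    refine ne_top_of_le_ne_top (b := ∑' n : ℕ, 20 * (2 : ENNReal)⁻¹ ^ n) ?_
      (ENNReal.tsum_le_tsum fun n => (hs n).2.2)
    rw [ENNReal.tsum_mul_left]
    exact ENNReal.mul_ne_top (by simp) hgeo

end Pool.Agent.MLLL
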