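import Pool.Agent.Lib.MP_25f38e_lc.Pieces
import Pool.Agent.Lib.MP_25f38e_lc.Avg

/-!
# Probability of consistent layered sequences

(helper67, problem MP_25f38e_lc, module PROB)
-/

set_option linter.unusedSectionVars false

noncomputable section

open scoped Classical
open Finset

namespace Pool.Agent.MLLL

universe u

namespace Inst

variable {V ι : Type u} {A : Type} [DecidableEq V] [DecidableEq ι] [Fintype A] [Nonempty A]
  (I : Inst V ι A)

/-! ### auxiliary lemmas -/

theorem prob_ind_congr {P Q : Prop} (h : P ↔ Q) : ind P = ind Q := by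
  unfold ind
  by_cases hP : P
  · rw [if_pos hP, if_pos (h.1 hP)]
  · rw [if_neg hP, if_neg (fun hQ => hP (h.2 hQ))]

theorem prob_bad_dependsOn (i : ι) :
    DependsOn (fun g : V → A => ind (I.bad i g)) (I.dom i : Set V) := by
  intro g g' h
  exact prob_ind_congr ⟨I.bad_congr i g g' (fun v hv => h v hv),
    I.bad_congr i g' g (fun v hv => (h v hv).symm)⟩

theorem p_nonneg (i : ι) : 0 ≤ I.p i := avg_nonneg fun _ => ind_nonneg _

theorem p_le_one (i : ι) : I.p i ≤ 1 := by
  have h := avg_mono (F := I.dom i) (Φ := fun g : V → A => ind (I.bad i g)) (Ψ := fun _ => 1)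
    (g := fun _ => Classical.arbitrary A) (fun _ _ => ind_le_one _)
  rwa [avg_const] at h

/-- the base point is irrelevant -/
theorem p_eq (i : ι) (g : V → A) : I.p i = avg (I.dom i) (fun g => ind (I.bad i g)) g :=
  avg_congr (I.prob_bad_dependsOn i) fun _ hv hv2 => absurd hv hv2

theorem wt_nonneg {a : ι → ℝ} (ha : ∀ i, 0 ≤ a i) (n : ℕ) (P : Pc ι n) : 0 ≤ wt a n P := by
  induction P with
  | nil => exact zero_le_one
  | @cons n L P ih => exact mul_nonneg (prod_nonneg fun i _ => ha i) ih

theorem wt_mono {a b : ι → ℝ} (ha : ∀ i, 0 ≤ a i) (hab : ∀ i, a i ≤ b i) (n : ℕ) (P : Pc ι n) :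
    wt a n P ≤ wt b n P := by
  induction P with
  | nil => exact le_rfl
  | @cons n L P ih =>
    exact mul_le_mul (prod_le_prod (fun i _ => ha i) fun i _ => hab i) ih (wt_nonneg ha n P)
      (prod_nonneg fun i _ => (ha i).trans (hab i))

theorem wt_mul (a b : ι → ℝ) (n : ℕ) (P : Pc ι n) :
    wt (fun i => a i * b i) n P = wt a n P * wt b n P := by
  induction P with
  | nil => exact (mul_one 1).symm
  | @cons n L P ih =>
    show (∏ i ∈ L, a i * b i) * wt (fun i => a i * b i) n P
      = ((∏ i ∈ L, a i) * wt a n P) * ((∏ i ∈ L, b i) * wt b n P)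
    rw [ih, prod_mul_distrib]
    ring

theorem wt_const (c : ℝ) (n : ℕ) (P : Pc ι n) : wt (fun _ => c) n P = c ^ size n P := by
  induction P with
  | nil => exact (pow_zero c).symm
  | @cons n L P ih =>
    show (∏ _i ∈ L, c) * wt (fun _ => c) n P = c ^ (L.card + size n P)
    rw [ih, prod_const, pow_add]

theorem prob_cnt_cons (v : V) {n : ℕ} (L : Finset ι) (P : Pc ι n) :
    I.cnt v (n + 1) (Pc.cons L P) = I.cnt v n P + if v ∈ I.domL L then 1 else 0 := rfl

theorem prob_ent_cons {n : ℕ} (L : Finset ι) (P : Pc ι n) :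
    I.ent (n + 1) (Pc.cons L P) = I.rootEnt (I.domL L) P ∪ I.ent n P := rfl

/-- the entries of a layered sequence have small index -/
theorem prob_lt_cnt {n : ℕ} {P : Pc ι n} {x : V × ℕ} (hx : x ∈ I.ent n P) :
    x.2 < I.cnt x.1 n P := by
  induction P with
  | nil => exact absurd hx (by simp [ent])
  | @cons n L P ih =>
    rw [prob_ent_cons, mem_union] at hx
    rw [prob_cnt_cons]
    rcases hx with hx | hx
    · rw [rootEnt, mem_image] at hx
      obtain ⟨v, hv, rfl⟩ := hx
      simp [hv]
    · exact (ih hx).trans_le (Nat.le_add_right _ _)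

theorem prob_disjoint {n : ℕ} (S : Finset V) (P : Pc ι n) :
    Disjoint (I.rootEnt S P) (I.ent n P) := by
  rw [disjoint_left]
  intro x hx hx'
  rw [rootEnt, mem_image] at hx
  obtain ⟨v, _, rfl⟩ := hx
  exact absurd (I.prob_lt_cnt hx') (lt_irrefl _)

/-- the entries of the members of a layered sequence and of the root set are all distinct -/
theorem disjoint_rootEnt {n : ℕ} {S : Finset V} {P : Pc ι n} (h : P ∈ I.seqs n S) :
    Disjoint (I.rootEnt S P) (I.ent n P) := I.prob_disjoint S P

theorem prob_inj {n : ℕ} (P : Pc ι n) :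
    Function.Injective (fun v : V => ((v, I.cnt v n P) : V × ℕ)) := by
  intro v w h
  exact congrArg Prod.fst h

theorem prob_card_rootEnt {n : ℕ} (S : Finset V) (P : Pc ι n) :
    (I.rootEnt S P).card = S.card := card_image_of_injective _ (I.prob_inj P)

theorem prob_card_domL {L : Finset ι} (hL : I.Indep L) :
    (I.domL L).card = ∑ i ∈ L, (I.dom i).card :=
  card_biUnion fun i hi j hj hij => hL i hi j hj hij

theorem prob_pow_card_ent {n : ℕ} {P : Pc ι n} : ∀ {S : Finset V}, P ∈ I.seqs n S → ∀ b : ℝ,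
    b ^ (I.ent n P).card = wt (fun i => b ^ (I.dom i).card) n P := by
  induction P with
  | nil => intro S _ b; exact pow_zero b
  | @cons n L P ih =>
    intro S h b
    obtain ⟨_, h2, h3⟩ := I.mem_seqs_succ.1 h
    rw [prob_ent_cons, card_union_of_disjoint (I.prob_disjoint _ P), prob_card_rootEnt,
      I.prob_card_domL h2, pow_add, ih h3 b, ← prod_pow_eq_pow_sum]
    rfl

/-- number of entries of a rooted piece -/
theorem pow_card_entR {n : ℕ} {E : ι} {P : Pc ι n} (h : P ∈ I.seqs n (I.dom E)) (b : ℝ) :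
    b ^ (I.entR E P).card = b ^ (I.dom E).card * wt (fun i => b ^ (I.dom i).card) n P := by
  rw [entR, card_union_of_disjoint (I.prob_disjoint _ P), prob_card_rootEnt, pow_add,
    I.prob_pow_card_ent h b]

theorem cons_dependsOn (n : ℕ) (P : Pc ι n) :
    DependsOn (fun τ : V × ℕ → A => ind (I.cons τ n P)) (I.ent n P : Set (V × ℕ)) := by
  intro τ τ' h
  exact prob_ind_congr ⟨I.cons_congr n P τ τ' (fun x hx => h x hx),
    I.cons_congr n P τ' τ (fun x hx => (h x hx).symm)⟩

theorem prob_all_dependsOn (L : Finset ι) :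
    DependsOn (fun g : V → A => ind (∀ i ∈ L, I.bad i g)) (I.domL L : Set V) := by
  intro g g' h
  refine prob_ind_congr ⟨fun H i hi => I.bad_congr i g g' (fun v hv => h v ?_) (H i hi),
    fun H i hi => I.bad_congr i g' g (fun v hv => (h v ?_).symm) (H i hi)⟩
  · exact I.mem_domL.2 ⟨i, hi, hv⟩
  · exact I.mem_domL.2 ⟨i, hi, hv⟩

/-- a larger set of coordinates does not change the average -/
theorem prob_avg_super {W : Type*} [DecidableEq W] {F S : Finset W} {Φ : (W → A) → ℝ}
    (hΦ : DependsOn Φ (S : Set W)) (hS : S ⊆ F) (g : W → A) : avg F Φ g = avg S Φ g := by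
  rw [avg_filter hΦ g]
  congr 1
  ext w
  simp only [mem_filter, mem_coe]
  exact ⟨fun h => h.2, fun h => ⟨hS h, h⟩⟩

/-- independence of the members of one layer -/
theorem prob_layer {L : Finset ι} (hL : I.Indep L) (g : V → A) :
    avg (I.domL L) (fun g => ind (∀ i ∈ L, I.bad i g)) g = ∏ i ∈ L, I.p i := by
  induction L using Finset.induction_on with
  | empty =>
    rw [prod_empty]
    have : (fun g : V → A => ind (∀ i ∈ (∅ : Finset ι), I.bad i g)) = fun _ => 1 := by
      funext g
      simp [ind]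
    rw [this, avg_const]
  | insert i L hi ih =>
    have hL' : I.Indep L := fun a ha b hb hab =>
      hL a (mem_insert_of_mem ha) b (mem_insert_of_mem hb) hab
    have hd : I.domL (insert i L) = I.dom i ∪ I.domL L := by
      simp [domL]
    have hf : (fun g : V → A => ind (∀ j ∈ insert i L, I.bad j g))
        = fun g => ind (I.bad i g) * ind (∀ j ∈ L, I.bad j g) := by
      funext g
      rw [← ind_and]
      exact prob_ind_congr (by simp)
    have hdis : ∀ v ∈ I.dom i ∪ I.domL L, v ∈ (I.dom i : Set V) → v ∉ (I.domL L : Set V) := by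
      intro v _ hv hv'
      obtain ⟨j, hj, hvj⟩ := I.mem_domL.1 (mem_coe.1 hv')
      have hij : i ≠ j := fun h => hi (h ▸ hj)
      exact (disjoint_left.1 (hL i (mem_insert_self i L) j (mem_insert_of_mem hj) hij)
        (mem_coe.1 hv)) hvj
    rw [hd, hf, avg_mul (I.prob_bad_dependsOn i) (I.prob_all_dependsOn L) hdis g,
      prob_avg_super (I.prob_bad_dependsOn i) subset_union_left,
      prob_avg_super (I.prob_all_dependsOn L) subset_union_right, ih hL', prod_insert hi,
      ← I.p_eq i g]

/-- the root condition depends on the root entries -/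
theorem prob_root_dependsOn {n : ℕ} {S : Finset V} (P : Pc ι n) {Φ : (V → A) → ℝ}
    (hΦ : DependsOn Φ (S : Set V)) :
    DependsOn (fun τ : V × ℕ → A => Φ (fun v => τ (v, I.cnt v n P)))
      (I.rootEnt S P : Set (V × ℕ)) := by
  intro τ τ' h
  refine hΦ fun v hv => h _ ?_
  exact mem_image.2 ⟨v, hv, rfl⟩

theorem prob_avg_root {n : ℕ} {S : Finset V} (P : Pc ι n) {Φ : (V → A) → ℝ}
    (hΦ : DependsOn Φ (S : Set V)) (τ : V × ℕ → A) (g : V → A) :
    avg (I.rootEnt S P) (fun τ => Φ (fun v => τ (v, I.cnt v n P))) τ = avg S Φ g := by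
  have h1 := avg_comp (A := A) (fun v : V => ((v, I.cnt v n P) : V × ℕ)) (F := S)
    (S := (S : Set V)) subset_rfl (I.prob_inj P).injOn hΦ τ
  exact h1.trans (avg_congr hΦ fun v hv hv' => absurd hv hv')

theorem prob_avg_ent {n : ℕ} {P : Pc ι n} : ∀ {S : Finset V}, P ∈ I.seqs n S →
    ∀ τ : V × ℕ → A, avg (I.ent n P) (fun τ => ind (I.cons τ n P)) τ = wt I.p n P := by
  induction P with
  | nil =>
    intro S _ τ
    have : (fun τ : V × ℕ → A => ind (I.cons τ 0 Pc.nil)) = fun _ => 1 := by
      funext τ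
      exact if_pos trivial
    rw [this, avg_const]
    rfl
  | @cons n L P ih =>
    intro S h τ
    obtain ⟨_, h2, h3⟩ := I.mem_seqs_succ.1 h
    have g : V → A := fun _ => Classical.arbitrary A
    have hf : (fun τ : V × ℕ → A => ind (I.cons τ (n + 1) (Pc.cons L P)))
        = fun τ => (fun g : V → A => ind (∀ i ∈ L, I.bad i g)) (fun v => τ (v, I.cnt v n P))
          * ind (I.cons τ n P) := by
      funext τ
      exact ind_and _ _
    have hdis : ∀ x ∈ I.rootEnt (I.domL L) P ∪ I.ent n P,
        x ∈ (I.rootEnt (I.domL L) P : Set (V × ℕ)) → x ∉ (I.ent n P : Set (V × ℕ)) := by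
      intro x _ hx hx'
      exact disjoint_left.1 (I.prob_disjoint (I.domL L) P) (mem_coe.1 hx) (mem_coe.1 hx')
    rw [prob_ent_cons, hf, avg_mul (I.prob_root_dependsOn P (I.prob_all_dependsOn L))
        (I.cons_dependsOn n P) hdis τ,
      prob_avg_super (I.prob_root_dependsOn P (I.prob_all_dependsOn L)) subset_union_left,
      prob_avg_super (I.cons_dependsOn n P) subset_union_right, ih h3 τ,
      I.prob_avg_root P (I.prob_all_dependsOn L) τ g, I.prob_layer h2 g]
    rfl

/-- PRODUCT FORMULA (root condition `Φ` on the finite set `S`) -/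
theorem avg_cons {n : ℕ} {S : Finset V} {P : Pc ι n} (h : P ∈ I.seqs n S)
    {Φ : (V → A) → ℝ} (hΦ : DependsOn Φ (S : Set V)) (τ : V × ℕ → A) (g : V → A) :
    avg (I.rootEnt S P ∪ I.ent n P)
      (fun τ => Φ (fun v => τ (v, I.cnt v n P)) * ind (I.cons τ n P)) τ
      = avg S Φ g * wt I.p n P := by
  have hdis : ∀ x ∈ I.rootEnt S P ∪ I.ent n P,
      x ∈ (I.rootEnt S P : Set (V × ℕ)) → x ∉ (I.ent n P : Set (V × ℕ)) := by
    intro x _ hx hx'
    exact disjoint_left.1 (I.prob_disjoint S P) (mem_coe.1 hx) (mem_coe.1 hx')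
  rw [avg_mul (I.prob_root_dependsOn P hΦ) (I.cons_dependsOn n P) hdis τ,
    prob_avg_super (I.prob_root_dependsOn P hΦ) subset_union_left,
    prob_avg_super (I.cons_dependsOn n P) subset_union_right, I.prob_avg_ent h τ,
    I.prob_avg_root P hΦ τ g]

theorem consR_dependsOn {n : ℕ} (E : ι) (P : Pc ι n) :
    DependsOn (fun τ : V × ℕ → A => ind (I.consR τ E P)) (I.entR E P : Set (V × ℕ)) := by
  intro τ τ' h
  exact prob_ind_congr ⟨I.consR_congr (fun x hx => h x hx),
    I.consR_congr (fun x hx => (h x hx).symm)⟩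

theorem avg_consR {n : ℕ} {E : ι} {P : Pc ι n} (h : P ∈ I.seqs n (I.dom E)) (τ : V × ℕ → A) :
    avg (I.entR E P) (fun τ => ind (I.consR τ E P)) τ = I.p E * wt I.p n P := by
  have hf : (fun τ : V × ℕ → A => ind (I.consR τ E P))
      = fun τ => (fun g : V → A => ind (I.bad E g)) (fun v => τ (v, I.cnt v n P))
        * ind (I.cons τ n P) := by
    funext τ
    exact ind_and _ _
  rw [entR, hf]
  exact I.avg_cons h (I.prob_bad_dependsOn E) τ _

theorem pieces_p (M T : ℕ) (x : I.PIdx M T) :
    (I.pieces M T).p x = I.p x.1.1 * wt I.p M x.1.2 :=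
  I.avg_consR x.2.1 _

end Inst

end Pool.Agent.MLLL
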