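import Pool.Agent.Lib.MP_25f38e_lc.SampleB
import Pool.Agent.Lib.MP_25f38e_lc.Prob

/-! MODULE SC : the colouring of the blocks and the bounded instance on the blocks. -/

set_option linter.unusedSectionVars false

noncomputable section

open scoped Classical
open Finset MeasureTheory Function

namespace Pool.Agent.MLLL

universe u

namespace Inst

section C

variable {X ι : Type u} {A : Type} [DecidableEq X] [DecidableEq ι]

/-- the instance on the variables `Finset ι` with sampled values -/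
def blk (I : Inst X ι A) {K : ℕ} (s : X × Fin K → A) : Inst (Finset ι) ι (Fin K) where
  dom i := (I.dom i).image I.inc
  fin U := by
    refine U.finite_toSet.subset ?_
    rintro i hi
    simp only [Set.mem_ofPred_eq, mem_image] at hi
    obtain ⟨x, hx, rfl⟩ := hi
    exact Finset.mem_coe.2 (I.mem_inc.2 hx)
  bad i g := I.bad i (fun x => s (x, g (I.inc x)))
  bad_congr := by
    intro i g g' h hb
    refine I.bad_congr i _ _ ?_ hb
    intro x hx
    show s (x, g (I.inc x)) = s (x, g' (I.inc x))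
    rw [h (I.inc x) (mem_image.2 ⟨x, hx, rfl⟩)]
  ne_of_bad := by
    intro i g hb
    obtain ⟨x, hx⟩ := I.ne_of_bad i _ hb
    exact ⟨_, mem_image.2 ⟨x, hx, rfl⟩⟩

theorem blk_mem_dom (I : Inst X ι A) {K : ℕ} (s : X × Fin K → A) {i : ι} {U : Finset ι} :
    U ∈ (I.blk s).dom i ↔ ∃ x ∈ I.dom i, I.inc x = U := mem_image

theorem blk_inc_subset_nbr (I : Inst X ι A) {i : ι} {x : X} (hx : x ∈ I.dom i) :
    I.inc x ⊆ I.nbr i := by
  intro j hj
  exact I.mem_incS.2 ⟨x, hx, I.mem_inc.1 hj⟩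

theorem blk_dom_card (I : Inst X ι A) {K : ℕ} (s : X × Fin K → A) {d : ℕ}
    (hd : ∀ i, (I.nbr i).card ≤ d + 1) (i : ι) : ((I.blk s).dom i).card ≤ 2 ^ (d + 1) := by
  have hsub : (I.blk s).dom i ⊆ (I.nbr i).powerset := by
    intro U hU
    obtain ⟨x, hx, rfl⟩ := (I.blk_mem_dom s).1 hU
    exact mem_powerset.2 (I.blk_inc_subset_nbr hx)
  refine (card_le_card hsub).trans ?_
  rw [card_powerset]
  exact Nat.pow_le_pow_right (by norm_num) (hd i)

theorem blk_nbr (I : Inst X ι A) {K : ℕ} (s : X × Fin K → A) {d : ℕ}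
    (hd : ∀ i, (I.nbr i).card ≤ d + 1) (i : ι) : ((I.blk s).nbr i).card ≤ d + 1 := by
  refine (card_le_card ?_).trans (hd i)
  intro j hj
  obtain ⟨U, hU, hUj⟩ := (I.blk s).mem_incS.1 hj
  obtain ⟨x, hx, rfl⟩ := (I.blk_mem_dom s).1 hU
  obtain ⟨y, hy, hxy⟩ := (I.blk_mem_dom s).1 hUj
  refine I.blk_inc_subset_nbr hx ?_
  rw [← hxy]
  exact I.mem_inc.2 hy

theorem blk_inc (I : Inst X ι A) {K : ℕ} (s : X × Fin K → A) {d : ℕ}
    (hd : ∀ i, (I.nbr i).card ≤ d + 1) (U : Finset ι) : ((I.blk s).inc U).card ≤ d + 1 := by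
  rcases ((I.blk s).inc U).eq_empty_or_nonempty with h | ⟨i, hi⟩
  · rw [h]; simp
  · have hiU : U ∈ (I.blk s).dom i := (I.blk s).mem_inc.1 hi
    refine (card_le_card ?_).trans (I.blk_nbr s hd i)
    intro j hj
    exact (I.blk s).mem_incS.2 ⟨U, hiU, (I.blk s).mem_inc.1 hj⟩

variable [MeasurableSpace X] [StandardBorelSpace X] [MeasurableSpace ι] [StandardBorelSpace ι]
  [Fintype A] [Nonempty A] [MeasurableSpace A] [DiscreteMeasurableSpace A] {I : Inst X ι A}

theorem blk_meas (h : I.Meas') {d : ℕ} (hd : ∀ i, (I.nbr i).card ≤ d + 1) {K : ℕ}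
    {s : X × Fin K → A} (hs : Measurable s) : (I.blk s).Meas := by
  refine ⟨?_, ?_, 2 ^ (d + 1) + (d + 1), ?_, ?_⟩
  · have e : {q : ι × Finset ι | q.2 ∈ (I.blk s).dom q.1} =
        {q : ι × Finset ι | ∃ x ∈ I.dom q.1, (q, x) ∈
          {r : (ι × Finset ι) × X | I.inc r.2 = r.1.2}} := by
      ext q
      exact I.blk_mem_dom s
    rw [e]
    refine measurableSet_exists (F := fun q : ι × Finset ι => I.dom q.1)
      (h.dom.comp measurable_fst) ?_
    exact measurableSet_eq_fun (h.inc.comp measurable_snd) (measurable_snd.comp measurable_fst)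
  · intro Z _ g hg
    refine h.bad (Z := Z) (fun z x => s (x, g z (I.inc x))) ?_
    have e : uncurry (fun (z : Z) (x : X) => s (x, g z (I.inc x))) =
        s ∘ fun q : Z × X => (q.2, uncurry g (q.1, I.inc q.2)) := rfl
    rw [e]
    exact hs.comp (measurable_snd.prodMk (hg.comp (measurable_fst.prodMk
      (h.inc.comp measurable_snd))))
  · intro i
    exact (I.blk_dom_card s hd i).trans (Nat.le_add_right _ _)
  · intro U
    exact (I.blk_inc s hd U).trans (Nat.le_add_left _ _)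

/-- colours of the blocks: `exists_coloring` on `Finset ι` for the neighbourhoods `nbv` of the
instance `I.blk s` (any `s`), composed with `I.inc` -/
theorem exists_gamma (h : I.Meas') {d : ℕ} (hd : ∀ i, (I.nbr i).card ≤ d + 1) :
    ∃ (Γ : ℕ) (col : Finset ι → Fin Γ), Measurable col ∧
      ∀ i, ∀ x ∈ I.dom i, ∀ y ∈ I.dom i, col (I.inc x) = col (I.inc y) → I.inc x = I.inc y := by
  let s : X × Fin 1 → A := fun _ => Classical.arbitrary A
  have hJ : (I.blk s).Meas := blk_meas h hd (measurable_const : Measurable s)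
  obtain ⟨N, h1, h2⟩ := hJ.bdd
  obtain ⟨c, hc1, hc2, hc3⟩ := exists_coloring (mi_card_nbv h1 h2) hJ.nbv
    (fun a b hab => (I.blk s).nbv_symm.1 hab)
  refine ⟨N * N + 1 + 1, fun U => ⟨c U, Nat.lt_succ_of_le (hc2 U)⟩, ?_, ?_⟩
  · refine measurable_to_countable' fun y => ?_
    have e : (fun U => (⟨c U, Nat.lt_succ_of_le (hc2 U)⟩ : Fin (N * N + 1 + 1))) ⁻¹' {y} =
        c ⁻¹' {y.val} := by
      ext U
      simp only [Set.mem_preimage, Set.mem_singleton_iff, Fin.ext_iff]
    rw [e]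
    exact hc1 (measurableSet_singleton _)
  · intro i x hx y hy hxy
    by_contra hne
    have hmem : I.inc y ∈ (I.blk s).nbv (I.inc x) := by
      rw [mem_nbv]
      exact Or.inr ⟨i, (I.blk_mem_dom s).2 ⟨x, hx, rfl⟩, (I.blk_mem_dom s).2 ⟨y, hy, rfl⟩⟩
    refine hc3 (I.inc x) (I.inc y) hmem (fun e => hne e.symm) ?_
    exact (congrArg Fin.val hxy).symm

/-- the probabilities in the new instance (`ex_comp` with the labels `col`, injective on
`(I.blk s).dom i`) -/
theorem blk_p {K Γ : ℕ} (hK : 0 < K) {s : X × Fin K → A} {col : Finset ι → Fin Γ}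
    (hcol : ∀ i, ∀ x ∈ I.dom i, ∀ y ∈ I.dom i, col (I.inc x) = col (I.inc y) →
      I.inc x = I.inc y) (i : ι) :
    haveI : Nonempty (Fin K) := ⟨⟨0, hK⟩⟩
    (I.blk s).p i = I.sZ (fun x => col (I.inc x)) s i := by
  haveI : Nonempty (Fin K) := ⟨⟨0, hK⟩⟩
  have hinj : Set.InjOn col ((I.blk s).dom i : Set (Finset ι)) := by
    intro U hU U' hU' he
    obtain ⟨x, hx, rfl⟩ := (I.blk_mem_dom s).1 (Finset.mem_coe.1 hU)
    obtain ⟨y, hy, rfl⟩ := (I.blk_mem_dom s).1 (Finset.mem_coe.1 hU')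
    exact hcol i x hx y hy he
  have hdep : DependsOn (fun g : Finset ι → Fin K => ind ((I.blk s).bad i g))
      ((I.blk s).dom i : Set (Finset ι)) := by
    intro g g' hg
    have hiff : (I.blk s).bad i g ↔ (I.blk s).bad i g' :=
      ⟨(I.blk s).bad_congr i g g' fun v hv => hg v hv,
        (I.blk s).bad_congr i g' g fun v hv => (hg v hv).symm⟩
    show ind ((I.blk s).bad i g) = ind ((I.blk s).bad i g')
    rw [propext hiff]
  exact (ex_comp col hinj hdep (fun _ => Classical.arbitrary (Fin K))).symm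

end C

end Inst

end Pool.Agent.MLLL
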