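import Pool.Agent.Lib.MP_25f38e_lc.MainBdd
import Pool.Agent.Lib.MP_25f38e_lc.SampleC

/-!
# The measurable symmetric local lemma, unbounded domains

(helper43, problem MP_25f38e_lc)
-/

set_option linter.unusedSectionVars false

noncomputable section

open scoped Classical
open Finset MeasureTheory Function

namespace Pool.Agent.MLLL

open Inst

universe u

variable {X ι : Type u} {A : Type} [DecidableEq X] [DecidableEq ι]
  [MeasurableSpace X] [StandardBorelSpace X] [MeasurableSpace ι] [StandardBorelSpace ι]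
  [Fintype A] [Nonempty A] [MeasurableSpace A] [DiscreteMeasurableSpace A]

/-- Measurable symmetric local lemma: a Borel family of bad events with probabilities at most `q`,
each event meeting at most `d` others, `e q (d+1) < 1`. -/
theorem main_slll (I : Inst X ι A) (h : I.Meas') (d : ℕ) (q : ℝ)
    (hq : Real.exp 1 * q * (d + 1) < 1) (hp : ∀ i, I.p i ≤ q)
    (hd : ∀ i, (I.nbr i).card ≤ d + 1) (μ : Measure X) [IsFiniteMeasure μ] :
    ∃ f : X → A, Measurable f ∧ μ (I.Def f) = 0 := by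
  -- room in the inequality
  obtain ⟨κ, hκ, hqκ⟩ : ∃ κ : ℝ, 0 < κ ∧ Real.exp 1 * (q + κ) * (d + 1) < 1 := by
    have hc : (0 : ℝ) < Real.exp 1 * (d + 1) := by positivity
    refine ⟨(1 - Real.exp 1 * q * (d + 1)) / (2 * (Real.exp 1 * (d + 1))),
      div_pos (by linarith) (by positivity), ?_⟩
    have : Real.exp 1 * (q + (1 - Real.exp 1 * q * (d + 1)) / (2 * (Real.exp 1 * (d + 1)))) *
        (d + 1) = (1 + Real.exp 1 * q * (d + 1)) / 2 := by
      field_simp
      ring
    rw [this]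
    linarith
  obtain ⟨Γ, col, hcol, hcolI⟩ := exists_gamma h hd
  obtain ⟨K, s, hK, hs, hsZ⟩ := h.exists_samples (γ := fun x => col (I.inc x))
    (hcol.comp h.inc) hcolI hd hκ
  haveI : Nonempty (Fin K) := ⟨⟨0, hK⟩⟩
  have hp' : ∀ i, (I.blk s).p i ≤ q + κ := by
    intro i
    rw [blk_p hK hcolI i]
    exact (hsZ i).trans (by linarith [hp i])
  obtain ⟨t, b, C, W, K', hcls⟩ := (I.blk s).cls_init d (2 ^ (d + 1)) (q + κ) hqκ hp'
    (blk_nbr I s hd) (blk_dom_card I s hd)
  obtain ⟨g, hg, hg0⟩ := main_cls (I.blk s) (blk_meas h hd hs) hcls (μ.map I.inc)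
  refine ⟨fun x => s (x, g (I.inc x)), hs.comp (measurable_id.prodMk (hg.comp h.inc)), ?_⟩
  refine measure_mono_null ?_ (le_antisymm ((Measure.le_map_apply h.inc.aemeasurable
    ((I.blk s).Def g)).trans hg0.le) zero_le)
  rintro x ⟨i, hi, hb⟩
  exact ⟨i, (I.blk s).mem_inc.2 (mem_image.2 ⟨x, I.mem_inc.1 hi, rfl⟩), hb⟩

end Pool.Agent.MLLL
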