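import Pool.Agent.Lib.MP_25f38e_lc.Pieces

/-!
# Borel structure on finite subsets, Lusin-Novikov for bounded sections, measurable quantifiers

(helper23, module MF1 of the team call on MP_25f38e_lc)
-/

set_option linter.unusedSectionVars false
set_option linter.style.haveILetI false

noncomputable section

open scoped Classical
open Finset MeasureTheory Function

namespace Pool.Agent.MLLL

universe u

/-! ### Sigma types -/

section sigma

variable {J : Type*} {X : J → Type*} [∀ j, MeasurableSpace (X j)]

theorem measfin_measurableSet_sigma {s : Set (Σ j, X j)} :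
    MeasurableSet s ↔ ∀ j, MeasurableSet (Sigma.mk j ⁻¹' s) := by
  rw [Sigma.instMeasurableSpace, MeasurableSpace.measurableSet_iInf]
  exact Iff.rfl

theorem measfin_measurable_sigmaMk (j : J) : Measurable (Sigma.mk j : X j → Σ j, X j) :=
  fun _ hs => measfin_measurableSet_sigma.1 hs j

theorem measfin_measurable_from_sigma {β : Type*} [MeasurableSpace β] {f : (Σ j, X j) → β}
    (h : ∀ j, Measurable fun x : X j => f ⟨j, x⟩) : Measurable f :=
  fun _ hs => measfin_measurableSet_sigma.2 fun j => h j hs

theorem measfin_borel_sigma [Countable J] [∀ j, TopologicalSpace (X j)]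
    [∀ j, BorelSpace (X j)] : BorelSpace (Σ j, X j) := by
  constructor
  apply le_antisymm
  · intro s hs
    have h1 : s = ⋃ j, Sigma.mk j '' (Sigma.mk j ⁻¹' s) := by
      ext x
      simp only [Set.mem_iUnion, Set.mem_image, Set.mem_preimage]
      constructor
      · intro hx
        exact ⟨x.1, x.2, hx, rfl⟩
      · rintro ⟨j, y, hy, rfl⟩
        exact hy
    rw [h1]
    letI : MeasurableSpace (Σ j, X j) := borel _
    haveI : BorelSpace (Σ j, X j) := ⟨rfl⟩
    refine MeasurableSet.iUnion fun j => ?_
    exact (Topology.IsOpenEmbedding.sigmaMk (i := j)).measurableEmbedding.measurableSet_image.2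
      (measfin_measurableSet_sigma.1 hs j)
  · refine MeasurableSpace.generateFrom_le fun s hs => ?_
    exact measfin_measurableSet_sigma.2 fun j => (hs.preimage continuous_sigmaMk).measurableSet

theorem measfin_standardBorel_sigma [Countable J] [∀ j, StandardBorelSpace (X j)] :
    StandardBorelSpace (Σ j, X j) := by
  letI := fun j => upgradeStandardBorel (X j)
  haveI := measfin_borel_sigma (J := J) (X := X)
  infer_instance

end sigma

theorem measfin_standardBorel_of_equiv {β γ : Type*} [MeasurableSpace β] [MeasurableSpace γ]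
    [StandardBorelSpace γ] (e : β ≃ᵐ γ) : StandardBorelSpace β := by
  obtain ⟨τ, hb, hp⟩ := StandardBorelSpace.polish (α := γ)
  letI t : TopologicalSpace β := TopologicalSpace.induced e τ
  have he : Topology.IsClosedEmbedding e :=
    ⟨⟨⟨rfl⟩, e.injective⟩, by rw [e.surjective.range_eq]; exact isClosed_univ⟩
  refine ⟨t, ⟨?_⟩, he.polishSpace⟩
  have h1 := e.measurableEmbedding.comap_eq
  rw [← h1, borel_comap, ← BorelSpace.measurable_eq (α := γ)]

variable {α : Type u} [MeasurableSpace α] [StandardBorelSpace α]

/-- increasing enumeration (with respect to a fixed Borel embedding of `α` into `ℝ`) -/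
def toSeq (F : Finset α) : Σ n : ℕ, (Fin n → α) :=
  letI : LinearOrder α := LinearOrder.lift' (embeddingReal α)
    (measurableEmbedding_embeddingReal α).injective
  ⟨F.card, fun i => F.orderEmbOfFin rfl i⟩

instance finsetMS : MeasurableSpace (Finset α) := MeasurableSpace.comap toSeq inferInstance

theorem measurable_toSeq : Measurable (toSeq : Finset α → Σ n : ℕ, (Fin n → α)) :=
  comap_measurable _

theorem toSeq_fst (F : Finset α) : (toSeq F).1 = F.card := rfl

theorem mem_iff_toSeq {F : Finset α} {a : α} : a ∈ F ↔ ∃ i, (toSeq F).2 i = a := by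
  letI : LinearOrder α := LinearOrder.lift' (embeddingReal α)
    (measurableEmbedding_embeddingReal α).injective
  have h := F.range_orderEmbOfFin rfl
  rw [← Finset.mem_coe, ← h]
  exact Iff.rfl

theorem measfin_toSeq_lt (F : Finset α) {i j : Fin (toSeq F).1} (h : i < j) :
    embeddingReal α ((toSeq F).2 i) < embeddingReal α ((toSeq F).2 j) := by
  letI : LinearOrder α := LinearOrder.lift' (embeddingReal α)
    (measurableEmbedding_embeddingReal α).injective
  have h' := (F.orderEmbOfFin rfl).strictMono h
  exact h'

theorem toSeq_injective (F : Finset α) : Function.Injective (toSeq F).2 := by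
  intro i j hij
  rcases lt_trichotomy i j with h | h | h
  · have := measfin_toSeq_lt F h
    rw [hij] at this
    exact absurd this (lt_irrefl _)
  · exact h
  · have := measfin_toSeq_lt F h
    rw [hij] at this
    exact absurd this (lt_irrefl _)

/-- a strictly increasing tuple enumerating a finite set is its `toSeq` -/
theorem measfin_toSeq_eq {n : ℕ} (f : Fin n → α) (F : Finset α)
    (hf : ∀ i j, i < j → embeddingReal α (f i) < embeddingReal α (f j))
    (hF : ∀ i, f i ∈ F) (hn : F.card = n) : toSeq F = ⟨n, f⟩ := by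
  letI : LinearOrder α := LinearOrder.lift' (embeddingReal α)
    (measurableEmbedding_embeddingReal α).injective
  subst hn
  have h : f = F.orderEmbOfFin rfl := Finset.orderEmbOfFin_unique rfl hF (fun i j h => hf i j h)
  rw [h]
  rfl

theorem measfin_injective_toSeq : Function.Injective (toSeq : Finset α → Σ n : ℕ, (Fin n → α)) := by
  intro F G h
  ext a
  rw [mem_iff_toSeq, mem_iff_toSeq, h]

/-- strictly increasing tuples -/
def MeasfinInc (α : Type u) [MeasurableSpace α] [StandardBorelSpace α] (n : ℕ) :
    Set (Fin n → α) :=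
  {f | ∀ i j, i < j → embeddingReal α (f i) < embeddingReal α (f j)}

theorem measfin_inc_meas (n : ℕ) : MeasurableSet (MeasfinInc α n) := by
  have : MeasfinInc α n = ⋂ i : Fin n, ⋂ j : Fin n, {f : Fin n → α | i < j →
      embeddingReal α (f i) < embeddingReal α (f j)} := by
    ext f
    simp only [MeasfinInc, Set.mem_iInter]
    exact Iff.rfl
  rw [this]
  refine MeasurableSet.iInter fun i => MeasurableSet.iInter fun j => ?_
  by_cases hij : i < j
  · simp only [hij, forall_const]
    exact measurableSet_lt ((measurable_embeddingReal α).comp (measurable_pi_apply i))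
      ((measurable_embeddingReal α).comp (measurable_pi_apply j))
  · simp only [hij, false_imp_iff]
    exact MeasurableSet.univ

theorem measfin_range_toSeq : Set.range (toSeq : Finset α → Σ n : ℕ, (Fin n → α)) =
    {s | s.2 ∈ MeasfinInc α s.1} := by
  ext ⟨n, f⟩
  constructor
  · rintro ⟨F, hF⟩
    rw [← hF]
    intro i j h
    exact measfin_toSeq_lt F h
  · intro h
    have hinj : Function.Injective f := by
      intro i j hij
      rcases lt_trichotomy i j with h' | h' | h'
      · have := h i j h'
        simp only [hij] at this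
        exact absurd this (lt_irrefl _)
      · exact h'
      · have := h j i h'
        simp only [hij] at this
        exact absurd this (lt_irrefl _)
    refine ⟨Finset.univ.image f, measfin_toSeq_eq f _ h (fun i => ?_) ?_⟩
    · exact Finset.mem_image_of_mem _ (Finset.mem_univ _)
    · rw [Finset.card_image_of_injective _ hinj, Finset.card_univ, Fintype.card_fin]

theorem measfin_emb : MeasurableEmbedding (toSeq : Finset α → Σ n : ℕ, (Fin n → α)) where
  injective := measfin_injective_toSeq
  measurable := measurable_toSeq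
  measurableSet_image' := by
    intro s hs
    obtain ⟨t, ht, rfl⟩ := hs
    rw [Set.image_preimage_eq_inter_range, measfin_range_toSeq]
    refine ht.inter ?_
    exact measfin_measurableSet_sigma.2 fun n => measfin_inc_meas n

instance finset_standardBorel : StandardBorelSpace (Finset α) := by
  haveI : StandardBorelSpace (Σ n : ℕ, (Fin n → α)) := measfin_standardBorel_sigma
  have hr : MeasurableSet (Set.range (toSeq : Finset α → Σ n : ℕ, (Fin n → α))) :=
    measfin_emb.measurableSet_range
  haveI := hr.standardBorel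
  exact measfin_standardBorel_of_equiv (measfin_emb (α := α)).equivRange

/-! ### The `k`-th element -/

theorem measfin_card_meas : Measurable (fun F : Finset α => F.card) := by
  have h1 : Measurable (fun s : Σ n : ℕ, (Fin n → α) => s.1) :=
    measfin_measurable_from_sigma fun _ => measurable_const
  exact h1.comp measurable_toSeq

/-- `k`-th entry of a tuple, with a default value -/
def measfinGet (d : α) (k : ℕ) (s : Σ n : ℕ, (Fin n → α)) : α :=
  if h : k < s.1 then s.2 ⟨k, h⟩ else d

theorem measfin_get_meas (d : α) (k : ℕ) : Measurable (measfinGet d k) := by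
  refine measfin_measurable_from_sigma fun n => ?_
  by_cases h : k < n
  · have : (fun x : Fin n → α => measfinGet d k ⟨n, x⟩) = fun x => x ⟨k, h⟩ := by
      funext x
      simp only [measfinGet, h, dif_pos]
    rw [this]
    exact measurable_pi_apply _
  · have : (fun x : Fin n → α => measfinGet d k ⟨n, x⟩) = fun _ => d := by
      funext x
      simp only [measfinGet, h, dif_neg, not_false_eq_true]
    rw [this]
    exact measurable_const

/-- the `k`-th element of a finite set, with a default value -/
def measfinNth (d : α) (k : ℕ) (F : Finset α) : α := measfinGet d k (toSeq F)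

theorem measfin_nth_meas (d : α) (k : ℕ) : Measurable (measfinNth d k) :=
  (measfin_get_meas d k).comp measurable_toSeq

theorem measfin_mem_iff_nth (d : α) {F : Finset α} {a : α} :
    a ∈ F ↔ ∃ k, k < F.card ∧ measfinNth d k F = a := by
  rw [mem_iff_toSeq]
  constructor
  · rintro ⟨i, hi⟩
    refine ⟨i.1, i.2, ?_⟩
    have h : (i : ℕ) < (toSeq F).1 := i.2
    rw [← hi]
    simp only [measfinNth, measfinGet, h, dif_pos]
  · rintro ⟨k, hk, h⟩
    have hk' : k < (toSeq F).1 := hk
    refine ⟨⟨k, hk'⟩, ?_⟩
    rw [← h]
    simp only [measfinNth, measfinGet, hk', dif_pos]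

theorem measfin_nth_inj (d : α) {F : Finset α} {k l : ℕ} (hk : k < F.card) (hl : l < F.card)
    (h : measfinNth d k F = measfinNth d l F) : k = l := by
  have hk' : k < (toSeq F).1 := hk
  have hl' : l < (toSeq F).1 := hl
  have h1 : measfinNth d k F = (toSeq F).2 ⟨k, hk'⟩ := dif_pos hk'
  have h2 : measfinNth d l F = (toSeq F).2 ⟨l, hl'⟩ := dif_pos hl'
  rw [h1, h2] at h
  have := toSeq_injective F h
  exact congrArg Fin.val this

theorem measfin_image_nth (d : α) (F : Finset α) :
    (range F.card).image (fun k => measfinNth d k F) = F := by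
  ext a
  rw [Finset.mem_image, measfin_mem_iff_nth d (F := F)]
  simp only [Finset.mem_range]

theorem measfin_sum_nth {M : Type*} [AddCommMonoid M] (d : α) (F : Finset α) (f : α → M) :
    ∑ a ∈ F, f a = ∑ k ∈ range F.card, f (measfinNth d k F) := by
  have h : ∑ a ∈ (range F.card).image (fun k => measfinNth d k F), f a =
      ∑ k ∈ range F.card, f (measfinNth d k F) := by
    refine sum_image ?_
    intro k hk l hl h
    exact measfin_nth_inj d (mem_range.1 hk) (mem_range.1 hl) h
  rw [measfin_image_nth] at h
  exact h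

theorem measurableSet_mem : MeasurableSet {q : α × Finset α | q.1 ∈ q.2} := by
  rcases isEmpty_or_nonempty α with hα | ⟨⟨d⟩⟩
  · have : {q : α × Finset α | q.1 ∈ q.2} = ∅ := by
      ext q
      exact (hα.false q.1).elim
    rw [this]
    exact MeasurableSet.empty
  · have : {q : α × Finset α | q.1 ∈ q.2} =
        ⋃ k : ℕ, {q : α × Finset α | k < q.2.card} ∩ {q | measfinNth d k q.2 = q.1} := by
      ext q
      simp only [Set.mem_iUnion, Set.mem_inter_iff]
      exact measfin_mem_iff_nth d
    rw [this]
    refine MeasurableSet.iUnion fun k => MeasurableSet.inter ?_ ?_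
    · exact measurableSet_lt measurable_const (measfin_card_meas.comp measurable_snd)
    · exact measurableSet_eq_fun ((measfin_nth_meas d k).comp measurable_snd) measurable_fst

/-! ### Lusin-Novikov for bounded finite sections -/

section novikov

variable {Z : Type*} [MeasurableSpace Z] [StandardBorelSpace Z] {F : Z → Finset α}

/-- increasing `n`-tuples of elements of `F z`, for `z ∈ D` -/
def MeasfinGr (F : Z → Finset α) (D : Set Z) (n : ℕ) (T : Set (Fin n → α)) :
    Set (Z × (Fin n → α)) :=
  {q | q.1 ∈ D} ∩ ({q | q.2 ∈ T ∩ MeasfinInc α n} ∩ {q | ∀ i, q.2 i ∈ F q.1})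

theorem measfin_gr_meas (hF : MeasurableSet {q : Z × α | q.2 ∈ F q.1}) {D : Set Z}
    (hD : MeasurableSet D) {n : ℕ} {T : Set (Fin n → α)} (hT : MeasurableSet T) :
    MeasurableSet (MeasfinGr F D n T) := by
  refine (measurable_fst hD).inter ((measurable_snd (hT.inter (measfin_inc_meas n))).inter ?_)
  have : {q : Z × (Fin n → α) | ∀ i, q.2 i ∈ F q.1} =
      ⋂ i : Fin n, (fun q : Z × (Fin n → α) => (q.1, q.2 i)) ⁻¹' {q : Z × α | q.2 ∈ F q.1} := by
    ext q
    simp only [Set.mem_iInter]
    exact Iff.rfl
  rw [this]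
  refine MeasurableSet.iInter fun i => ?_
  exact (measurable_fst.prodMk ((measurable_pi_apply i).comp measurable_snd)) hF

theorem measfin_card_of_gr {D : Set Z} {n : ℕ} {T : Set (Fin n → α)} {z : Z} {f : Fin n → α}
    (h : (z, f) ∈ MeasfinGr F D n T) : n ≤ (F z).card := by
  have hinj : Function.Injective f := by
    intro i j hij
    rcases lt_trichotomy i j with h' | h' | h'
    · have := h.2.1.2 i j h'
      simp only [hij] at this
      exact absurd this (lt_irrefl _)
    · exact h'
    · have := h.2.1.2 j i h'
      simp only [hij] at this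
      exact absurd this (lt_irrefl _)
  have h1 : Finset.univ.image f ⊆ F z := by
    intro a ha
    obtain ⟨i, _, rfl⟩ := Finset.mem_image.1 ha
    exact h.2.2 i
  have := Finset.card_le_card h1
  rwa [Finset.card_image_of_injective _ hinj, Finset.card_univ, Fintype.card_fin] at this

theorem measfin_gr_inj {D : Set Z} {n : ℕ} (hD : ∀ z ∈ D, (F z).card ≤ n)
    (T : Set (Fin n → α)) : Set.InjOn Prod.fst (MeasfinGr F D n T) := by
  rintro ⟨z, f⟩ h ⟨z', f'⟩ h' hz
  have hz' : z = z' := hz
  subst hz'
  have hc : (F z).card = n := le_antisymm (hD z h.1) (measfin_card_of_gr h)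
  have h1 := measfin_toSeq_eq f (F z) h.2.1.2 h.2.2 hc
  have h2 := measfin_toSeq_eq f' (F z) h'.2.1.2 h'.2.2 hc
  rw [h1] at h2
  have h3 : f = f' := eq_of_heq (Sigma.mk.inj h2).2
  rw [h3]

theorem measfin_gr_image {D : Set Z} {n : ℕ} (hD : ∀ z ∈ D, (F z).card ≤ n)
    (T : Set (Fin n → α)) : Prod.fst '' (MeasfinGr F D n T) =
      {z | z ∈ D ∧ ∃ f ∈ T, toSeq (F z) = ⟨n, f⟩} := by
  ext z
  constructor
  · rintro ⟨⟨z', f⟩, h, hz⟩
    have hz' : z' = z := hz
    subst hz'
    have hc : (F z').card = n := le_antisymm (hD z' h.1) (measfin_card_of_gr h)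
    exact ⟨h.1, f, h.2.1.1, measfin_toSeq_eq f (F z') h.2.1.2 h.2.2 hc⟩
  · rintro ⟨hz, f, hf, h⟩
    refine ⟨(z, f), ⟨hz, ⟨hf, ?_⟩, ?_⟩, rfl⟩
    · have : (⟨n, f⟩ : Σ n : ℕ, (Fin n → α)) ∈ Set.range (toSeq : Finset α → _) := ⟨F z, h⟩
      rw [measfin_range_toSeq] at this
      exact this
    · intro i
      show f i ∈ F z
      rw [mem_iff_toSeq, h]
      exact ⟨i, rfl⟩

theorem measfin_card_ge_meas {N : ℕ} (hN : ∀ z, (F z).card ≤ N)
    (hF : MeasurableSet {q : Z × α | q.2 ∈ F q.1}) (k : ℕ) (hk : k ≤ N + 1) :
    MeasurableSet {z | N + 1 - k ≤ (F z).card} := by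
  induction k with
  | zero =>
    have : {z | N + 1 - 0 ≤ (F z).card} = ∅ := by
      ext z
      have := hN z
      simp only [Set.mem_empty_iff_false, iff_false]
      intro h
      have h' : N + 1 - 0 ≤ (F z).card := h
      omega
    rw [this]
    exact MeasurableSet.empty
  | succ k ih =>
    have ih' := ih (by omega)
    obtain ⟨n, hn⟩ : ∃ n, N + 1 - (k + 1) = n := ⟨_, rfl⟩
    have hn' : N + 1 - k = n + 1 := by omega
    rw [hn'] at ih'
    rw [hn]
    have hD : ∀ z ∈ {z | n + 1 ≤ (F z).card}ᶜ, (F z).card ≤ n := by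
      intro z hz
      have hz' : ¬ (n + 1 ≤ (F z).card) := hz
      omega
    have h1 : MeasurableSet (Prod.fst '' (MeasfinGr F {z | n + 1 ≤ (F z).card}ᶜ n Set.univ)) :=
      (measfin_gr_meas hF ih'.compl MeasurableSet.univ).image_of_measurable_injOn
        measurable_fst (measfin_gr_inj hD _)
    rw [measfin_gr_image hD] at h1
    have h2 : {z | n ≤ (F z).card} = {z | n + 1 ≤ (F z).card} ∪
        {z | z ∈ {z | n + 1 ≤ (F z).card}ᶜ ∧ ∃ f ∈ (Set.univ : Set (Fin n → α)),
          toSeq (F z) = ⟨n, f⟩} := by
      ext z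
      constructor
      · intro hz
        have hz' : n ≤ (F z).card := hz
        by_cases h : n + 1 ≤ (F z).card
        · exact Or.inl h
        · right
          have hc : (F z).card = n := by omega
          refine ⟨h, ?_⟩
          subst hc
          exact ⟨(toSeq (F z)).2, Set.mem_univ _, rfl⟩
      · rintro (h | ⟨_, f, _, h⟩)
        · have h' : n + 1 ≤ (F z).card := h
          show n ≤ (F z).card
          omega
        · show n ≤ (F z).card
          rw [← toSeq_fst, h]
    rw [h2]
    exact ih'.union h1

end novikov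

/-- Lusin-Novikov for bounded finite sections. -/
theorem measurable_of_rel {Z : Type*} [MeasurableSpace Z] [StandardBorelSpace Z]
    {F : Z → Finset α} {N : ℕ} (hN : ∀ z, (F z).card ≤ N)
    (hF : MeasurableSet {q : Z × α | q.2 ∈ F q.1}) : Measurable F := by
  intro s hs
  obtain ⟨T, hT, rfl⟩ := hs
  have hT' := measfin_measurableSet_sigma.1 hT
  have hge : ∀ n, MeasurableSet {z | n ≤ (F z).card} := by
    intro n
    by_cases hn : n ≤ N + 1
    · have := measfin_card_ge_meas hN hF (N + 1 - n) (by omega)
      rwa [show N + 1 - (N + 1 - n) = n by omega] at this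
    · have : {z | n ≤ (F z).card} = ∅ := by
        ext z
        have := hN z
        simp only [Set.mem_empty_iff_false, iff_false]
        intro h
        have h' : n ≤ (F z).card := h
        omega
      rw [this]
      exact MeasurableSet.empty
  have h1 : F ⁻¹' (toSeq ⁻¹' T) = ⋃ n : ℕ, {z | z ∈ {z | n + 1 ≤ (F z).card}ᶜ ∧
      ∃ f ∈ (Sigma.mk n ⁻¹' T), toSeq (F z) = ⟨n, f⟩} := by
    ext z
    simp only [Set.mem_iUnion]
    constructor
    · intro h
      refine ⟨(F z).card, ?_, (toSeq (F z)).2, h, rfl⟩
      intro h'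
      have h'' : (F z).card + 1 ≤ (F z).card := h'
      omega
    · rintro ⟨n, _, f, hf, h⟩
      show toSeq (F z) ∈ T
      rw [h]
      exact hf
  rw [h1]
  refine MeasurableSet.iUnion fun n => ?_
  have hD : ∀ z ∈ {z | n + 1 ≤ (F z).card}ᶜ, (F z).card ≤ n := by
    intro z hz
    have hz' : ¬ (n + 1 ≤ (F z).card) := hz
    omega
  have h2 := (measfin_gr_meas hF (hge (n + 1)).compl (hT' n)).image_of_measurable_injOn
        measurable_fst (measfin_gr_inj hD _)
  rw [measfin_gr_image hD] at h2
  exact h2

section calculus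

variable {Z : Type*} [MeasurableSpace Z] {F : Z → Finset α}

theorem rel_of_measurable (hF : Measurable F) : MeasurableSet {q : Z × α | q.2 ∈ F q.1} :=
  (measurable_snd.prodMk (hF.comp measurable_fst)) measurableSet_mem

theorem measurable_card' (hF : Measurable F) : Measurable fun z => (F z).card :=
  measfin_card_meas.comp hF

theorem measurableSet_exists (hF : Measurable F) {Q : Set (Z × α)} (hQ : MeasurableSet Q) :
    MeasurableSet {z | ∃ a ∈ F z, (z, a) ∈ Q} := by
  rcases isEmpty_or_nonempty α with hα | ⟨⟨d⟩⟩
  · have : {z | ∃ a ∈ F z, (z, a) ∈ Q} = ∅ := by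
      ext z
      simp only [Set.mem_empty_iff_false, iff_false]
      rintro ⟨a, _⟩
      exact hα.false a
    rw [this]
    exact MeasurableSet.empty
  · have : {z | ∃ a ∈ F z, (z, a) ∈ Q} =
        ⋃ k : ℕ, {z | k < (F z).card} ∩ (fun z => (z, measfinNth d k (F z))) ⁻¹' Q := by
      ext z
      simp only [Set.mem_iUnion, Set.mem_inter_iff]
      constructor
      · rintro ⟨a, ha, h⟩
        obtain ⟨k, hk, rfl⟩ := (measfin_mem_iff_nth d).1 ha
        exact ⟨k, hk, h⟩
      · rintro ⟨k, hk, h⟩
        exact ⟨_, (measfin_mem_iff_nth d).2 ⟨k, hk, rfl⟩, h⟩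
    rw [this]
    refine MeasurableSet.iUnion fun k => MeasurableSet.inter ?_ ?_
    · exact measurableSet_lt measurable_const (measurable_card' hF)
    · exact (measurable_id.prodMk ((measfin_nth_meas d k).comp hF)) hQ

theorem measurableSet_forall (hF : Measurable F) {Q : Set (Z × α)} (hQ : MeasurableSet Q) :
    MeasurableSet {z | ∀ a ∈ F z, (z, a) ∈ Q} := by
  have : {z | ∀ a ∈ F z, (z, a) ∈ Q} = {z | ∃ a ∈ F z, (z, a) ∈ Qᶜ}ᶜ := by
    ext z
    constructor
    · rintro h ⟨a, ha, h'⟩
      exact h' (h a ha)
    · intro h a ha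
      by_contra h'
      exact h ⟨a, ha, h'⟩
  rw [this]
  exact (measurableSet_exists hF hQ.compl).compl

theorem measfin_measurable_sum {M : Type*} [AddCommMonoid M] [MeasurableSpace M]
    [MeasurableAdd₂ M] (hF : Measurable F) {Φ : Z → α → M}
    (hΦ : Measurable (uncurry Φ)) : Measurable fun z => ∑ a ∈ F z, Φ z a := by
  rcases isEmpty_or_nonempty α with hα | ⟨⟨d⟩⟩
  · have : (fun z => ∑ a ∈ F z, Φ z a) = fun _ => 0 := by
      funext z
      exact Finset.sum_eq_zero fun a _ => (hα.false a).elim
    rw [this]
    exact measurable_const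
  · have : (fun z => ∑ a ∈ F z, Φ z a) =
        (fun q : Z × ℕ => ∑ k ∈ range q.2, Φ q.1 (measfinNth d k (F q.1))) ∘
          fun z => (z, (F z).card) := by
      funext z
      exact measfin_sum_nth d (F z) (Φ z)
    rw [this]
    refine Measurable.comp ?_ (measurable_id.prodMk (measurable_card' hF))
    refine measurable_from_prod_countable_left fun n => ?_
    refine Finset.measurable_sum (range n) fun k _ => ?_
    exact hΦ.comp (measurable_id.prodMk ((measfin_nth_meas d k).comp hF))

theorem measurable_sum_real (hF : Measurable F) {Φ : Z → α → ℝ}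
    (hΦ : Measurable (uncurry Φ)) : Measurable fun z => ∑ a ∈ F z, Φ z a :=
  measfin_measurable_sum hF hΦ

theorem measurable_sum_ennreal (hF : Measurable F) {Φ : Z → α → ENNReal}
    (hΦ : Measurable (uncurry Φ)) : Measurable fun z => ∑ a ∈ F z, Φ z a :=
  measfin_measurable_sum hF hΦ

end calculus

end Pool.Agent.MLLL
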