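import Pool.Agent.Lib.MP_25f38e_lc.MeasFin

/-! MODULE MEASFIN, second part: layered sequences, transport of measures, labels. -/

set_option linter.unusedSectionVars false
set_option linter.style.haveILetI false

noncomputable section

open scoped Classical
open Finset MeasureTheory Function

namespace Pool.Agent.MLLL

universe u

variable {α : Type u} [MeasurableSpace α] [StandardBorelSpace α]

/-! layered sequences -/

/-- the tautological coding of layered sequences -/
instance pcMS : ∀ n : ℕ, MeasurableSpace (Pc α n)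
  | 0 => ⊤
  | n + 1 => MeasurableSpace.comap (fun P : Pc α (n + 1) => (P.hd, P.tl))
      (@Prod.instMeasurableSpace _ _ finsetMS (pcMS n))

theorem mf2_measurable_pair (n : ℕ) :
    Measurable (fun P : Pc α (n + 1) => (P.hd, P.tl)) :=
  comap_measurable _

theorem measurable_hd (n : ℕ) : Measurable (Pc.hd : Pc α (n + 1) → Finset α) :=
  measurable_fst.comp (mf2_measurable_pair n)

theorem measurable_tl (n : ℕ) : Measurable (Pc.tl : Pc α (n + 1) → Pc α n) :=
  measurable_snd.comp (mf2_measurable_pair n)

theorem measurable_cons (n : ℕ) :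
    Measurable (fun q : Finset α × Pc α n => (Pc.cons q.1 q.2 : Pc α (n + 1))) := by
  refine measurable_comap_iff.2 ?_
  exact measurable_id

/-- the layered sequences with at least one layer as a product -/
def mf2Equiv (α : Type u) (n : ℕ) : Pc α (n + 1) ≃ Finset α × Pc α n where
  toFun P := (P.hd, P.tl)
  invFun q := Pc.cons q.1 q.2
  left_inv P := Pc.eta P
  right_inv _ := rfl

instance pc_standardBorel (n : ℕ) : StandardBorelSpace (Pc α n) := by
  induction n with
  | zero =>
    haveI : DiscreteMeasurableSpace (Pc α 0) := ⟨fun s => trivial⟩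
    haveI : Subsingleton (Pc α 0) := ⟨fun P Q => by cases P; cases Q; rfl⟩
    infer_instance
  | succ n ih =>
    letI := upgradeStandardBorel (Finset α × Pc α n)
    letI : TopologicalSpace (Pc α (n + 1)) :=
      TopologicalSpace.induced (mf2Equiv α n) inferInstance
    haveI : PolishSpace (Pc α (n + 1)) := (mf2Equiv α n).polishSpace_induced
    haveI : BorelSpace (Pc α (n + 1)) := by
      constructor
      have h1 : (pcMS (n + 1) : MeasurableSpace (Pc α (n + 1))) =
        MeasurableSpace.comap (mf2Equiv α n) inferInstance := rfl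
      rw [h1]
      rw [show (inferInstance : MeasurableSpace (Finset α × Pc α n)) = borel _ from
        BorelSpace.measurable_eq]
      exact borel_comap.symm
    infer_instance

/-! transport of a finite measure along a bounded measurable finite-set-valued map -/

theorem exists_transport {Z : Type*} [MeasurableSpace Z] (ν : Measure Z) [IsFiniteMeasure ν]
    {F : Z → Finset α} (hF : Measurable F) {N : ℕ} (hN : ∀ z, (F z).card ≤ N) :
    ∃ ν' : Measure α, IsFiniteMeasure ν' ∧ ∀ S : Set α, ν {z | ∃ a ∈ F z, a ∈ S} ≤ ν' S := by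
  set κ : Z → Measure α := fun z => ∑ a ∈ F z, Measure.dirac a with hκ
  have hκT : ∀ (T : Set α), MeasurableSet T → ∀ z, κ z T = ∑ a ∈ F z, T.indicator 1 a := by
    intro T hT z
    rw [hκ]
    simp only [Measure.coe_finsetSum, Finset.sum_apply]
    exact sum_congr rfl fun a _ => Measure.dirac_apply' a hT
  have hκm : Measurable κ := by
    refine Measure.measurable_of_measurable_coe _ fun T hT => ?_
    rw [show (fun z => κ z T) = fun z => ∑ a ∈ F z, T.indicator (1 : α → ENNReal) a from
      funext fun z => hκT T hT z]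
    refine measurable_sum_ennreal hF (Φ := fun _ a => T.indicator (1 : α → ENNReal) a) ?_
    exact (measurable_one.indicator hT).comp measurable_snd
  refine ⟨ν.bind κ, ⟨?_⟩, ?_⟩
  · rw [Measure.bind_apply MeasurableSet.univ hκm.aemeasurable]
    have h1 : ∀ z, κ z Set.univ ≤ N := by
      intro z
      rw [hκT _ MeasurableSet.univ]
      simp only [Set.indicator_univ, Pi.one_apply, sum_const, nsmul_eq_mul, mul_one]
      exact_mod_cast hN z
    calc ∫⁻ z, κ z Set.univ ∂ν ≤ ∫⁻ _, (N : ENNReal) ∂ν := lintegral_mono h1
      _ = N * ν Set.univ := lintegral_const _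
      _ < ⊤ := ENNReal.mul_lt_top (ENNReal.natCast_lt_top N) (measure_lt_top ν _)
  · intro S
    set T := toMeasurable (ν.bind κ) S with hT
    have hTm : MeasurableSet T := measurableSet_toMeasurable _ _
    have hST : S ⊆ T := subset_toMeasurable _ _
    have hB : MeasurableSet {z | ∃ a ∈ F z, a ∈ T} :=
      measurableSet_exists hF (Q := {q | q.2 ∈ T}) (measurable_snd hTm)
    calc ν {z | ∃ a ∈ F z, a ∈ S} ≤ ν {z | ∃ a ∈ F z, a ∈ T} :=
          measure_mono fun z ⟨a, ha, haS⟩ => ⟨a, ha, hST haS⟩
      _ = ∫⁻ z, {z | ∃ a ∈ F z, a ∈ T}.indicator 1 z ∂ν := (lintegral_indicator_one hB).symm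
      _ ≤ ∫⁻ z, κ z T ∂ν := by
          refine lintegral_mono fun z => ?_
          rw [hκT T hTm]
          by_cases hz : z ∈ {z | ∃ a ∈ F z, a ∈ T}
          · obtain ⟨a, ha, haT⟩ := hz
            rw [Set.indicator_of_mem (show z ∈ {z | ∃ a ∈ F z, a ∈ T} from ⟨a, ha, haT⟩)]
            refine le_trans ?_ (single_le_sum (f := fun a => T.indicator (1 : α → ENNReal) a)
              (fun _ _ => zero_le) ha)
            simp [haT]
          · rw [Set.indicator_of_notMem hz]
            exact zero_le
      _ = (ν.bind κ) T := (Measure.bind_apply hTm hκm.aemeasurable).symm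
      _ = (ν.bind κ) S := measure_toMeasurable _

/-! labels separating points -/

/-- the first `j` bits of `v` -/
def lab (α : Type u) [MeasurableSpace α] [StandardBorelSpace α] (j : ℕ) (v : α) :
    Fin (Fintype.card (Fin j → Bool)) :=
  Fintype.equivFin (Fin j → Bool) (fun i => MeasurableSpace.mapNatBool α v i)

theorem measurable_lab (j : ℕ) : Measurable (lab α j) := by
  have h1 : Measurable (fun v : α => fun i : Fin j => MeasurableSpace.mapNatBool α v i) :=
    measurable_pi_lambda _ fun i =>
      (measurable_pi_apply (i : ℕ)).comp (MeasurableSpace.measurable_mapNatBool α)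
  exact (measurable_of_finite _).comp h1

theorem mf2_lab_eq_iff {j : ℕ} {a b : α} :
    lab α j a = lab α j b ↔
      ∀ i < j, MeasurableSpace.mapNatBool α a i = MeasurableSpace.mapNatBool α b i := by
  rw [lab, lab, (Fintype.equivFin (Fin j → Bool)).injective.eq_iff]
  constructor
  · intro h i hi
    exact congrFun h ⟨i, hi⟩
  · intro h
    funext i
    exact h i i.2

theorem mf2_injOn_mono {j j' : ℕ} (h : j ≤ j') {S : Set α} (hS : Set.InjOn (lab α j) S) :
    Set.InjOn (lab α j') S := by
  intro a ha b hb hab
  refine hS ha hb ?_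
  rw [mf2_lab_eq_iff] at hab ⊢
  exact fun i hi => hab i (lt_of_lt_of_le hi h)

theorem lab_injOn (F : Finset α) :
    ∀ᶠ j in Filter.atTop, Set.InjOn (lab α j) (F : Set α) := by
  have h1 : ∀ a ∈ F, ∀ b ∈ F, ∀ᶠ j in Filter.atTop, lab α j a = lab α j b → a = b := by
    intro a _ b _
    by_cases hab : a = b
    · exact Filter.Eventually.of_forall fun _ _ => hab
    · have h2 : MeasurableSpace.mapNatBool α a ≠ MeasurableSpace.mapNatBool α b :=
        fun h => hab (MeasurableSpace.injective_mapNatBool α h)
      obtain ⟨k, hk⟩ := Function.ne_iff.1 h2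
      filter_upwards [Filter.eventually_gt_atTop k] with j hj h
      exact absurd (mf2_lab_eq_iff.1 h k hj) hk
  have h3 : ∀ᶠ j in Filter.atTop, ∀ a ∈ F, ∀ b ∈ F, lab α j a = lab α j b → a = b := by
    rw [Filter.eventually_all_finset]
    intro a ha
    rw [Filter.eventually_all_finset]
    intro b hb
    exact h1 a ha b hb
  filter_upwards [h3] with j hj a ha b hb hab
  exact hj a ha b hb hab

theorem measurableSet_lab {Z : Type*} [MeasurableSpace Z] {F : Z → Finset α}
    (hF : Measurable F) (j : ℕ) :
    MeasurableSet {z | ¬ Set.InjOn (lab α j) (F z : Set α)} := by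
  have e1 : {z | ¬ Set.InjOn (lab α j) (F z : Set α)} =
      {z | ∃ a ∈ F z, (z, a) ∈ {q : Z × α | ∃ b ∈ F q.1,
        (q, b) ∈ {r : (Z × α) × α | lab α j r.1.2 = lab α j r.2 ∧ ¬ r.1.2 = r.2}}} := by
    ext z
    simp only [Set.InjOn, Set.mem_ofPred_eq, mem_coe, not_forall]
    constructor
    · rintro ⟨a, ha, b, hb, h, hne⟩
      exact ⟨a, ha, b, hb, h, hne⟩
    · rintro ⟨a, ha, b, hb, h, hne⟩
      exact ⟨a, ha, b, hb, h, hne⟩
  rw [e1]
  refine measurableSet_exists hF ?_
  refine measurableSet_exists (Z := Z × α) (F := fun q => F q.1) (hF.comp measurable_fst) ?_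
  refine MeasurableSet.inter ?_ (MeasurableSet.compl ?_)
  · exact measurableSet_eq_fun ((measurable_lab j).comp (measurable_snd.comp measurable_fst))
      ((measurable_lab j).comp measurable_snd)
  · exact measurableSet_eq_fun (measurable_snd.comp measurable_fst) measurable_snd

theorem tendsto_lab {Z : Type*} [MeasurableSpace Z] (ν : Measure Z) [IsFiniteMeasure ν]
    {F : Z → Finset α} (hF : Measurable F) :
    Filter.Tendsto (fun j => ν {z | ¬ Set.InjOn (lab α j) (F z : Set α)}) Filter.atTop
      (nhds 0) := by
  have h1 : (⋂ j, {z | ¬ Set.InjOn (lab α j) (F z : Set α)}) = ∅ := by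
    ext z
    simp only [Set.mem_iInter, Set.mem_ofPred_eq, Set.mem_empty_iff_false, iff_false, not_forall,
      not_not]
    exact (lab_injOn (F z)).exists
  have h2 := tendsto_measure_iInter_atTop (μ := ν)
    (s := fun j => {z | ¬ Set.InjOn (lab α j) (F z : Set α)})
    (fun j => (measurableSet_lab hF j).nullMeasurableSet)
    (fun i j hij z hz h => hz (mf2_injOn_mono hij h)) ⟨0, measure_ne_top _ _⟩
  rw [h1, measure_empty] at h2
  exact h2

end Pool.Agent.MLLL
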