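import Pool.Agent.Lib.MP_25f38e_lc.MeasFin2
import Pool.Agent.Lib.MP_25f38e_lc.Color
import Pool.Agent.Lib.MP_25f38e_lc.Avg

/-! MODULE MEASINST : measurability of the constructions on instances (definition, pieces,
conditioned instances, Moser-Tardos process). -/

set_option linter.unusedSectionVars false

noncomputable section

open scoped Classical
open Finset MeasureTheory Function

namespace Pool.Agent.MLLL

universe u

/-! ### general facts on finite-set-valued maps -/

section general

variable {α β : Type u} [MeasurableSpace α] [StandardBorelSpace α]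
  [MeasurableSpace β] [StandardBorelSpace β]

/-- Borel graph and cardinality bounded by a measurable function -/
theorem mi_measurable_of_rel {Z : Type*} [MeasurableSpace Z] [StandardBorelSpace Z]
    {F : Z → Finset α} {b : Z → ℕ} (hb : Measurable b) (hN : ∀ z, (F z).card ≤ b z)
    (hF : MeasurableSet {q : Z × α | q.2 ∈ F q.1}) : Measurable F := by
  have hk : ∀ k : ℕ, Measurable (fun z => if b z = k then F z else ∅) := by
    intro k
    refine measurable_of_rel (N := k) ?_ ?_
    · intro z
      by_cases h : b z = k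
      · rw [if_pos h, ← h]; exact hN z
      · rw [if_neg h]; simp
    · have : {q : Z × α | q.2 ∈ (fun z => if b z = k then F z else ∅) q.1} =
          {q : Z × α | q.2 ∈ F q.1} ∩ (fun q : Z × α => b q.1) ⁻¹' {k} := by
        ext q
        simp only [Set.mem_ofPred_eq, Set.mem_inter_iff, Set.mem_preimage, Set.mem_singleton_iff]
        by_cases h : b q.1 = k
        · simp [h]
        · simp [h]
      rw [this]
      exact hF.inter ((hb.comp measurable_fst) (measurableSet_singleton k))
  intro B hB
  have : F ⁻¹' B = ⋃ k : ℕ, (b ⁻¹' {k} ∩ (fun z => if b z = k then F z else ∅) ⁻¹' B) := by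
    ext z
    simp only [Set.mem_preimage, Set.mem_iUnion, Set.mem_inter_iff, Set.mem_singleton_iff]
    constructor
    · intro h
      exact ⟨b z, rfl, by rw [if_pos rfl]; exact h⟩
    · rintro ⟨k, h1, h2⟩
      rw [if_pos h1] at h2
      exact h2
  rw [this]
  exact MeasurableSet.iUnion fun k => (hb (measurableSet_singleton k)).inter (hk k hB)

theorem mi_biUnion [DecidableEq β] {Z : Type*} [MeasurableSpace Z] [StandardBorelSpace Z]
    {F : Z → Finset α}
    (hF : Measurable F) {G : α → Finset β} (hG : Measurable G) {N : ℕ}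
    (hN : ∀ a, (G a).card ≤ N) : Measurable fun z => (F z).biUnion G := by
  refine mi_measurable_of_rel (b := fun z => (F z).card * N)
    ((measurable_card' hF).mul_const N) ?_ ?_
  · intro z
    exact card_biUnion_le_card_mul _ _ _ fun a _ => hN a
  · have : {q : Z × β | q.2 ∈ (F q.1).biUnion G} =
        {q : Z × β | ∃ a ∈ F q.1, (q, a) ∈ {r : (Z × β) × α | r.1.2 ∈ G r.2}} := by
      ext q
      simp only [Set.mem_ofPred_eq, mem_biUnion]
    rw [this]
    refine measurableSet_exists (hF.comp measurable_fst) ?_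
    exact (rel_of_measurable hG).preimage
      (measurable_snd.prodMk (measurable_snd.comp measurable_fst))

theorem mi_singleton {Z : Type*} [MeasurableSpace Z] [StandardBorelSpace Z] {f : Z → α}
    (hf : Measurable f) : Measurable fun z => ({f z} : Finset α) := by
  refine measurable_of_rel (N := 1) (fun z => by simp) ?_
  have : {q : Z × α | q.2 ∈ ({f q.1} : Finset α)} = {q : Z × α | q.2 = f q.1} := by
    ext q; simp
  rw [this]
  exact measurableSet_eq_fun measurable_snd (hf.comp measurable_fst)

end general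

namespace Inst

variable {V ι : Type u} {A : Type} [DecidableEq V] [DecidableEq ι]
  [MeasurableSpace V] [StandardBorelSpace V] [MeasurableSpace ι] [StandardBorelSpace ι]
  [Fintype A] [Nonempty A] [MeasurableSpace A] [DiscreteMeasurableSpace A]
  (I : Inst V ι A)

/-- Borel instance with bounded domains and bounded degrees -/
structure Meas : Prop where
  rel : MeasurableSet {q : ι × V | q.2 ∈ I.dom q.1}
  bad : ∀ {Z : Type u} [MeasurableSpace Z] (g : Z → V → A), Measurable (uncurry g) →
    MeasurableSet {q : Z × ι | I.bad q.2 (g q.1)}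
  bdd : ∃ N : ℕ, (∀ i, (I.dom i).card ≤ N) ∧ ∀ v, (I.inc v).card ≤ N

variable {I}

theorem Meas.dom (h : I.Meas) : Measurable I.dom := by
  obtain ⟨N, h1, _⟩ := h.bdd
  exact measurable_of_rel h1 h.rel

theorem Meas.inc (h : I.Meas) : Measurable I.inc := by
  obtain ⟨N, _, h2⟩ := h.bdd
  refine measurable_of_rel h2 ?_
  have : {q : V × ι | q.2 ∈ I.inc q.1} = Prod.swap ⁻¹' {q : ι × V | q.2 ∈ I.dom q.1} := by
    ext q
    simp [I.mem_inc]
  rw [this]
  exact h.rel.preimage measurable_swap

theorem mi_card_nbv {N : ℕ} (h1 : ∀ i, (I.dom i).card ≤ N) (h2 : ∀ v, (I.inc v).card ≤ N)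
    (v : V) : (I.nbv v).card ≤ N * N + 1 := by
  unfold Inst.nbv
  refine (card_insert_le _ _).trans ?_
  refine Nat.add_le_add_right ?_ 1
  refine (card_biUnion_le_card_mul _ _ N fun i _ => h1 i).trans ?_
  exact Nat.mul_le_mul_right N (h2 v)

theorem Meas.nbv (h : I.Meas) : Measurable I.nbv := by
  obtain ⟨N, h1, h2⟩ := h.bdd
  refine measurable_of_rel (mi_card_nbv h1 h2) ?_
  have : {q : V × V | q.2 ∈ I.nbv q.1} = {q : V × V | q.2 = q.1} ∪
      {q : V × V | q.2 ∈ (I.inc q.1).biUnion I.dom} := by
    ext q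
    simp only [Inst.nbv, mem_insert, Set.mem_ofPred_eq, Set.mem_union]
  rw [this]
  exact (measurableSet_eq_fun measurable_snd measurable_fst).union
    (rel_of_measurable (mi_biUnion h.inc h.dom h1))

theorem Meas.nbr (h : I.Meas) : Measurable I.nbr := by
  obtain ⟨N, h1, h2⟩ := h.bdd
  exact mi_biUnion h.dom h.inc h2

theorem Meas.nbr_bdd (h : I.Meas) : ∃ N : ℕ, ∀ i, (I.nbr i).card ≤ N := by
  obtain ⟨N, h1, h2⟩ := h.bdd
  refine ⟨N * N, fun i => ?_⟩
  refine (card_biUnion_le_card_mul _ _ N fun v _ => h2 v).trans ?_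
  exact Nat.mul_le_mul_right N (h1 i)

theorem Meas.nbS_comp (h : I.Meas) {Z : Type*} [MeasurableSpace Z] [StandardBorelSpace Z]
    {F : Z → Finset V} (hF : Measurable F) : Measurable fun z => I.nbS (F z) := by
  obtain ⟨N, h1, h2⟩ := h.bdd
  exact mi_biUnion hF h.nbv (mi_card_nbv h1 h2)

theorem Meas.ball (h : I.Meas) (r : ℕ) : Measurable fun v => I.ball r {v} := by
  induction r with
  | zero => exact mi_singleton measurable_id
  | succ r ih => exact h.nbS_comp ih

theorem Meas.relv (h : I.Meas) (M : ℕ) : Measurable fun v => I.rel M v := by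
  refine mi_measurable_of_rel (b := fun v => (I.ball (M + 1) {v}).card * (M + 1))
    ((measurable_card' (h.ball (M + 1))).mul_const _) ?_ ?_
  · intro v
    unfold Inst.rel
    rw [card_product, card_range]
  · have : {q : V × (V × ℕ) | q.2 ∈ I.rel M q.1} =
        {q : V × (V × ℕ) | q.2.1 ∈ I.ball (M + 1) {q.1}} ∩
          (fun q : V × (V × ℕ) => q.2.2) ⁻¹' Set.Iio (M + 1) := by
      ext q
      simp only [Inst.rel, mem_product, mem_range, Set.mem_ofPred_eq, Set.mem_inter_iff,
        Set.mem_preimage, Set.mem_Iio]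
    rw [this]
    refine MeasurableSet.inter ?_ ((measurable_snd.comp measurable_snd) measurableSet_Iio)
    exact (rel_of_measurable (h.ball (M + 1))).preimage
      (measurable_fst.prodMk (measurable_fst.comp measurable_snd))

/-- the relevant entries together with their second neighbourhood in an instance `J` on the
entries -/
theorem Meas.rel_nb (h : I.Meas) (M : ℕ) {κ : Type u} [DecidableEq κ] [MeasurableSpace κ]
    [StandardBorelSpace κ] {J : Inst (V × ℕ) κ A} (hJ : J.Meas) :
    Measurable fun v => J.nbS (J.nbS (I.rel M v)) :=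
  hJ.nbS_comp (hJ.nbS_comp (h.relv M))

theorem Meas.ball_comp (h : I.Meas) {Z : Type*} [MeasurableSpace Z] [StandardBorelSpace Z]
    {F : Z → Finset V} (hF : Measurable F) (r : ℕ) : Measurable fun z => I.ball r (F z) := by
  induction r with
  | zero => exact hF
  | succ r ih => exact h.nbS_comp ih

theorem mi_product_range {Z : Type*} [MeasurableSpace Z] [StandardBorelSpace Z]
    {α : Type u} [MeasurableSpace α] [StandardBorelSpace α]
    {F : Z → Finset α} (hF : Measurable F) (m : ℕ) : Measurable fun z => F z ×ˢ range m := by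
  refine mi_measurable_of_rel (b := fun z => (F z).card * m)
    ((measurable_card' hF).mul_const _) ?_ ?_
  · intro z
    rw [card_product, card_range]
  · have : {q : Z × (α × ℕ) | q.2 ∈ F q.1 ×ˢ range m} =
        {q : Z × (α × ℕ) | q.2.1 ∈ F q.1} ∩
          (fun q : Z × (α × ℕ) => q.2.2) ⁻¹' Set.Iio m := by
      ext q
      simp only [mem_product, mem_range, Set.mem_ofPred_eq, Set.mem_inter_iff,
        Set.mem_preimage, Set.mem_Iio]
    rw [this]
    refine MeasurableSet.inter ?_ ((measurable_snd.comp measurable_snd) measurableSet_Iio)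
    exact (rel_of_measurable hF).preimage
      (measurable_fst.prodMk (measurable_fst.comp measurable_snd))

theorem Meas.ball_rel (h : I.Meas) (M : ℕ) {κ : Type u} [DecidableEq κ] [MeasurableSpace κ]
    [StandardBorelSpace κ] {J : Inst (V × ℕ) κ A} (hJ : J.Meas) (M' : ℕ) :
    Measurable fun v => J.ball M' (I.rel M v) ×ˢ range (M' + 1) :=
  mi_product_range (hJ.ball_comp (h.relv M) M') (M' + 1)

theorem Meas.bad_fix (h : I.Meas) {g : V → A} (hg : Measurable g) :
    MeasurableSet {i | I.bad i g} := by
  have h1 := h.bad (Z := PUnit.{u + 1}) (fun _ => g) (hg.comp measurable_snd)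
  exact h1.preimage (measurable_const.prodMk measurable_id : Measurable fun i : ι =>
    (PUnit.unit, i))

theorem Meas.mt (h : I.Meas) {col : ι → ℕ} (hcol : Measurable col) (C : ℕ) {τ : V × ℕ → A}
    (hτ : Measurable τ) (m : ℕ) : Measurable (I.mt col C τ m) := by
  induction m with
  | zero => exact measurable_const
  | succ m ih =>
    have hg : Measurable fun w => τ (w, I.mt col C τ m w) :=
      hτ.comp (measurable_id.prodMk ih)
    have hS : MeasurableSet {v | ∃ i ∈ I.inc v, (v, i) ∈ {q : V × ι | col q.2 = m % C ∧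
        I.bad q.2 (fun w => τ (w, I.mt col C τ m w))}} := by
      refine measurableSet_exists h.inc ?_
      exact ((hcol.comp measurable_snd) (measurableSet_singleton (m % C))).inter
        ((h.bad_fix hg).preimage measurable_snd)
    have e : I.mt col C τ (m + 1) = fun v => I.mt col C τ m v +
        if v ∈ {v | ∃ i ∈ I.inc v, (v, i) ∈ {q : V × ι | col q.2 = m % C ∧
          I.bad q.2 (fun w => τ (w, I.mt col C τ m w))}} then 1 else 0 := rfl
    rw [e]
    exact ih.add (Measurable.ite hS measurable_const measurable_const)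

theorem Meas.st (h : I.Meas) {col : ι → ℕ} (hcol : Measurable col) (C : ℕ) {τ : V × ℕ → A}
    (hτ : Measurable τ) (m : ℕ) : Measurable (I.st col C τ m) :=
  hτ.comp (measurable_id.prodMk (h.mt hcol C hτ m))

theorem Meas.defect (h : I.Meas) {g : V → A} (hg : Measurable g) :
    MeasurableSet {v | ∃ i ∈ I.inc v, I.bad i g} :=
  measurableSet_exists h.inc (Q := {q : V × ι | I.bad q.2 g})
    ((h.bad_fix hg).preimage measurable_snd)

/-! ### layered sequences -/

theorem mi_domL (h : I.Meas) : Measurable I.domL := by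
  obtain ⟨N, h1, h2⟩ := h.bdd
  exact mi_biUnion measurable_id h.dom h1

theorem mi_size : ∀ n : ℕ, Measurable (size n : Pc ι n → ℕ)
  | 0 => by
    have : (size 0 : Pc ι 0 → ℕ) = fun _ => 0 := by funext P; cases P; rfl
    rw [this]; exact measurable_const
  | n + 1 => by
    have : (size (n + 1) : Pc ι (n + 1) → ℕ) = fun P => P.hd.card + size n P.tl := by
      funext P; cases P; rfl
    rw [this]
    exact (measurable_card' (measurable_hd n)).add ((mi_size n).comp (measurable_tl n))

theorem mi_seqs (h : I.Meas) : ∀ n : ℕ, MeasurableSet {q : Finset V × Pc ι n | q.2 ∈ I.seqs n q.1}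
  | 0 => by
    have : {q : Finset V × Pc ι 0 | q.2 ∈ I.seqs 0 q.1} = Set.univ := by
      ext q
      obtain ⟨S, P⟩ := q
      cases P
      simp [Inst.seqs]
    rw [this]; exact MeasurableSet.univ
  | n + 1 => by
    have ih := mi_seqs h n
    have e : {q : Finset V × Pc ι (n + 1) | q.2 ∈ I.seqs (n + 1) q.1} =
        ({q : Finset V × Pc ι (n + 1) | ∀ i ∈ q.2.hd, (q, i) ∈
            {r : (Finset V × Pc ι (n + 1)) × ι | ∃ v ∈ r.1.1, (r, v) ∈
              {t : ((Finset V × Pc ι (n + 1)) × ι) × V | t.2 ∈ I.dom t.1.2}}} ∩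
          (fun q : Finset V × Pc ι (n + 1) => q.2.hd) ⁻¹'
            {L : Finset ι | ∀ i ∈ L, (L, i) ∈ {r : Finset ι × ι | ∀ j ∈ r.1, (r, j) ∈
              {t : (Finset ι × ι) × ι | t.1.2 = t.2 ∨ t ∈ {t : (Finset ι × ι) × ι |
                ∀ v ∈ I.dom t.1.2, (t, v) ∈ {x : ((Finset ι × ι) × ι) × V |
                  x.2 ∉ I.dom x.1.2}}}}}) ∩
          (fun q : Finset V × Pc ι (n + 1) => (I.domL q.2.hd, q.2.tl)) ⁻¹'
            {q : Finset V × Pc ι n | q.2 ∈ I.seqs n q.1} := by
      ext q
      obtain ⟨S, P⟩ := q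
      cases P with
      | cons L P =>
        simp only [Set.mem_ofPred_eq, Set.mem_inter_iff, Set.mem_preimage, Pc.hd_cons, Pc.tl_cons,
          I.mem_seqs_succ]
        have a1 : L ⊆ I.incS S ↔ ∀ i ∈ L, ∃ v ∈ S, v ∈ I.dom i := by
          constructor
          · intro hL i hi
            exact I.mem_incS.1 (hL hi)
          · intro hL i hi
            exact I.mem_incS.2 (hL i hi)
        have a2 : I.Indep L ↔ ∀ i ∈ L, ∀ j ∈ L, i = j ∨ ∀ v ∈ I.dom i, v ∉ I.dom j := by
          unfold Inst.Indep
          refine forall₂_congr fun i _ => forall₂_congr fun j _ => ?_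
          rw [disjoint_left]
          tauto
        rw [a1, a2]
        tauto
    rw [e]
    refine MeasurableSet.inter (MeasurableSet.inter ?_ ?_) ?_
    · refine measurableSet_forall ((measurable_hd n).comp measurable_snd) ?_
      refine measurableSet_exists (measurable_fst.comp measurable_fst) ?_
      exact h.rel.preimage ((measurable_snd.comp measurable_fst).prodMk measurable_snd)
    · refine MeasurableSet.preimage ?_ ((measurable_hd n).comp measurable_snd)
      refine measurableSet_forall measurable_id ?_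
      refine measurableSet_forall measurable_fst ?_
      refine MeasurableSet.union ?_ ?_
      · exact measurableSet_eq_fun (measurable_snd.comp measurable_fst) measurable_snd
      · refine measurableSet_forall
          (h.dom.comp (measurable_snd.comp measurable_fst)) ?_
        exact (h.rel.preimage ((measurable_snd.comp measurable_fst).prodMk
          measurable_snd)).compl
    · exact ih.preimage (((mi_domL h).comp ((measurable_hd n).comp measurable_snd)).prodMk
        ((measurable_tl n).comp measurable_snd))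

theorem mi_cnt (h : I.Meas) : ∀ n : ℕ, Measurable fun q : V × Pc ι n => I.cnt q.1 n q.2
  | 0 => by
    have : (fun q : V × Pc ι 0 => I.cnt q.1 0 q.2) = fun _ => 0 := by
      funext q; obtain ⟨v, P⟩ := q; cases P; rfl
    rw [this]; exact measurable_const
  | n + 1 => by
    have : (fun q : V × Pc ι (n + 1) => I.cnt q.1 (n + 1) q.2) =
        fun q => I.cnt q.1 n q.2.tl + if q ∈ {q : V × Pc ι (n + 1) | q.1 ∈ I.domL q.2.hd}
          then 1 else 0 := by
      funext q; obtain ⟨v, P⟩ := q; cases P; rfl
    rw [this]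
    refine Measurable.add ?_ (Measurable.ite ?_ measurable_const measurable_const)
    · exact (mi_cnt h n).comp (measurable_fst.prodMk ((measurable_tl n).comp measurable_snd))
    · exact (rel_of_measurable (mi_domL h)).preimage
        (((measurable_hd n).comp measurable_snd).prodMk measurable_fst)

theorem mi_ent (h : I.Meas) : ∀ n : ℕ,
    MeasurableSet {q : Pc ι n × (V × ℕ) | q.2 ∈ I.ent n q.1}
  | 0 => by
    have : {q : Pc ι 0 × (V × ℕ) | q.2 ∈ I.ent 0 q.1} = ∅ := by
      ext q; obtain ⟨P, x⟩ := q; cases P; simp [Inst.ent]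
    rw [this]; exact MeasurableSet.empty
  | n + 1 => by
    have : {q : Pc ι (n + 1) × (V × ℕ) | q.2 ∈ I.ent (n + 1) q.1} =
        ({q : Pc ι (n + 1) × (V × ℕ) | q.2.1 ∈ I.domL q.1.hd} ∩
          {q : Pc ι (n + 1) × (V × ℕ) | I.cnt q.2.1 n q.1.tl = q.2.2}) ∪
        (fun q : Pc ι (n + 1) × (V × ℕ) => (q.1.tl, q.2)) ⁻¹'
          {q : Pc ι n × (V × ℕ) | q.2 ∈ I.ent n q.1} := by
      ext q
      obtain ⟨P, v, k⟩ := q
      cases P with
      | cons L P =>
        simp only [Inst.ent, mem_union, mem_image, Prod.mk.injEq, Set.mem_ofPred_eq,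
          Set.mem_union, Set.mem_inter_iff, Set.mem_preimage, Pc.hd_cons, Pc.tl_cons]
        constructor
        · rintro (⟨w, h1, rfl, rfl⟩ | h)
          · exact Or.inl ⟨h1, rfl⟩
          · exact Or.inr h
        · rintro (⟨h1, h2⟩ | h)
          · exact Or.inl ⟨v, h1, rfl, h2⟩
          · exact Or.inr h
    rw [this]
    refine MeasurableSet.union (MeasurableSet.inter ?_ ?_) ?_
    · exact (rel_of_measurable (mi_domL h)).preimage
        (((measurable_hd n).comp measurable_fst).prodMk (measurable_fst.comp measurable_snd))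
    · exact measurableSet_eq_fun ((mi_cnt h n).comp ((measurable_fst.comp
        measurable_snd).prodMk ((measurable_tl n).comp measurable_fst)))
        (measurable_snd.comp measurable_snd)
    · exact (mi_ent h n).preimage (((measurable_tl n).comp measurable_fst).prodMk
        measurable_snd)

theorem mi_entR (h : I.Meas) (n : ℕ) :
    MeasurableSet {q : (ι × Pc ι n) × (V × ℕ) | q.2 ∈ I.entR q.1.1 q.1.2} := by
  have : {q : (ι × Pc ι n) × (V × ℕ) | q.2 ∈ I.entR q.1.1 q.1.2} =
      ({q : (ι × Pc ι n) × (V × ℕ) | q.2.1 ∈ I.dom q.1.1} ∩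
        {q : (ι × Pc ι n) × (V × ℕ) | I.cnt q.2.1 n q.1.2 = q.2.2}) ∪
      (fun q : (ι × Pc ι n) × (V × ℕ) => (q.1.2, q.2)) ⁻¹'
        {q : Pc ι n × (V × ℕ) | q.2 ∈ I.ent n q.1} := by
    ext q
    obtain ⟨⟨i, P⟩, v, k⟩ := q
    simp only [Inst.entR, Inst.rootEnt, mem_union, mem_image, Prod.mk.injEq, Set.mem_ofPred_eq,
      Set.mem_union, Set.mem_inter_iff, Set.mem_preimage]
    constructor
    · rintro (⟨w, h1, rfl, rfl⟩ | h)
      · exact Or.inl ⟨h1, rfl⟩
      · exact Or.inr h
    · rintro (⟨h1, h2⟩ | h)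
      · exact Or.inl ⟨v, h1, rfl, h2⟩
      · exact Or.inr h
  rw [this]
  refine MeasurableSet.union (MeasurableSet.inter ?_ ?_) ?_
  · exact h.rel.preimage ((measurable_fst.comp measurable_fst).prodMk
      (measurable_fst.comp measurable_snd))
  · exact measurableSet_eq_fun ((mi_cnt h n).comp ((measurable_fst.comp
      measurable_snd).prodMk (measurable_snd.comp measurable_fst)))
      (measurable_snd.comp measurable_snd)
  · exact (mi_ent h n).preimage ((measurable_snd.comp measurable_fst).prodMk measurable_snd)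

/-- the events with a parameter-dependent assignment read from a table -/
theorem mi_bad_table (h : I.Meas) (n : ℕ) {Z : Type u} [MeasurableSpace Z]
    {g : Z → V × ℕ → A} (hg : Measurable (uncurry g)) :
    MeasurableSet {q : (Z × Pc ι n) × ι |
      I.bad q.2 (fun v => g q.1.1 (v, I.cnt v n q.1.2))} := by
  refine h.bad (Z := Z × Pc ι n) (fun q v => g q.1 (v, I.cnt v n q.2)) ?_
  have e : uncurry (fun (q : Z × Pc ι n) (v : V) => g q.1 (v, I.cnt v n q.2)) =
      (uncurry g) ∘ fun x : (Z × Pc ι n) × V => (x.1.1, (x.2, I.cnt x.2 n x.1.2)) := rfl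
  rw [e]
  refine hg.comp ((measurable_fst.comp measurable_fst).prodMk (measurable_snd.prodMk ?_))
  exact (mi_cnt h n).comp (measurable_snd.prodMk (measurable_snd.comp measurable_fst))

theorem mi_cons (h : I.Meas) {Z : Type u} [MeasurableSpace Z] {g : Z → V × ℕ → A}
    (hg : Measurable (uncurry g)) : ∀ n : ℕ,
    MeasurableSet {q : Z × Pc ι n | I.cons (g q.1) n q.2}
  | 0 => by
    have : {q : Z × Pc ι 0 | I.cons (g q.1) 0 q.2} = Set.univ := by
      ext q; obtain ⟨z, P⟩ := q; cases P; simp [Inst.cons]
    rw [this]; exact MeasurableSet.univ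
  | n + 1 => by
    have : {q : Z × Pc ι (n + 1) | I.cons (g q.1) (n + 1) q.2} =
        {q : Z × Pc ι (n + 1) | ∀ i ∈ q.2.hd, (q, i) ∈
          {r : (Z × Pc ι (n + 1)) × ι |
            I.bad r.2 (fun v => g r.1.1 (v, I.cnt v n r.1.2.tl))}} ∩
        (fun q : Z × Pc ι (n + 1) => (q.1, q.2.tl)) ⁻¹'
          {q : Z × Pc ι n | I.cons (g q.1) n q.2} := by
      ext q
      obtain ⟨z, P⟩ := q
      cases P with
      | cons L P =>
        simp only [Inst.cons, Set.mem_ofPred_eq, Set.mem_inter_iff, Set.mem_preimage, Pc.hd_cons,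
          Pc.tl_cons]
    rw [this]
    refine MeasurableSet.inter ?_ ?_
    · refine measurableSet_forall ((measurable_hd n).comp measurable_snd) ?_
      exact (mi_bad_table h n hg).preimage (((measurable_fst.comp measurable_fst).prodMk
        ((measurable_tl n).comp (measurable_snd.comp measurable_fst))).prodMk measurable_snd)
    · exact (mi_cons h hg n).preimage (measurable_fst.prodMk
        ((measurable_tl n).comp measurable_snd))

theorem mi_consR (h : I.Meas) {Z : Type u} [MeasurableSpace Z] {g : Z → V × ℕ → A}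
    (hg : Measurable (uncurry g)) (n : ℕ) :
    MeasurableSet {q : Z × (ι × Pc ι n) | I.consR (g q.1) q.2.1 q.2.2} := by
  have : {q : Z × (ι × Pc ι n) | I.consR (g q.1) q.2.1 q.2.2} =
      (fun q : Z × (ι × Pc ι n) => ((q.1, q.2.2), q.2.1)) ⁻¹' {q : (Z × Pc ι n) × ι |
        I.bad q.2 (fun v => g q.1.1 (v, I.cnt v n q.1.2))} ∩
      (fun q : Z × (ι × Pc ι n) => (q.1, q.2.2)) ⁻¹'
        {q : Z × Pc ι n | I.cons (g q.1) n q.2} := rfl
  rw [this]
  refine MeasurableSet.inter ?_ ?_
  · exact (mi_bad_table h n hg).preimage ((measurable_fst.prodMk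
      (measurable_snd.comp measurable_snd)).prodMk (measurable_fst.comp measurable_snd))
  · exact (mi_cons h hg n).preimage (measurable_fst.prodMk
      (measurable_snd.comp measurable_snd))

instance (M T : ℕ) : MeasurableSpace (I.PIdx M T) :=
  inferInstanceAs (MeasurableSpace {x : ι × Pc ι M // x.2 ∈ I.seqs M (I.dom x.1) ∧
    T ≤ size M x.2})

theorem Meas.pidx (h : I.Meas) (M T : ℕ) : StandardBorelSpace (I.PIdx M T) := by
  have hS : MeasurableSet {x : ι × Pc ι M | x.2 ∈ I.seqs M (I.dom x.1) ∧ T ≤ size M x.2} := by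
    refine MeasurableSet.inter ?_ ?_
    · exact (mi_seqs h M).preimage ((h.dom.comp measurable_fst).prodMk measurable_snd)
    · exact ((mi_size M).comp measurable_snd) measurableSet_Ici
  exact hS.standardBorel

/-! ### bounds -/

theorem mi_card_ball {B : ℕ} (hB : ∀ v, (I.nbv v).card ≤ B) (r : ℕ) (S : Finset V) :
    (I.ball r S).card ≤ S.card * B ^ r := by
  induction r with
  | zero => simp [I.ball_zero]
  | succ r ih =>
    rw [I.ball_succ]
    refine (card_biUnion_le_card_mul _ _ B fun v _ => hB v).trans ?_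
    calc (I.ball r S).card * B ≤ (S.card * B ^ r) * B := Nat.mul_le_mul_right B ih
      _ = S.card * B ^ (r + 1) := by ring

theorem mi_card_incS {N : ℕ} (h2 : ∀ v, (I.inc v).card ≤ N) (S : Finset V) :
    (I.incS S).card ≤ S.card * N :=
  card_biUnion_le_card_mul _ _ N fun v _ => h2 v

theorem mi_card_seqs {N : ℕ} (h1 : ∀ i, (I.dom i).card ≤ N) (h2 : ∀ v, (I.inc v).card ≤ N) :
    ∀ (n s : ℕ), ∃ K : ℕ, ∀ S : Finset V, S.card ≤ s → (I.seqs n S).card ≤ K
  | 0, s => ⟨1, fun S _ => by simp [Inst.seqs]⟩
  | n + 1, s => by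
    obtain ⟨K, hK⟩ := mi_card_seqs h1 h2 n (s * N * N)
    refine ⟨2 ^ (s * N) * K, fun S hS => ?_⟩
    have hinc : (I.incS S).card ≤ s * N :=
      (mi_card_incS h2 S).trans (Nat.mul_le_mul_right N hS)
    unfold Inst.seqs
    refine (card_biUnion_le_card_mul _ _ K ?_).trans ?_
    · intro L hL
      rw [mem_filter, mem_powerset] at hL
      refine card_image_le.trans (hK _ ?_)
      refine (card_biUnion_le_card_mul _ _ N fun i _ => h1 i).trans ?_
      exact Nat.mul_le_mul_right N ((card_le_card hL.1).trans hinc)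
    · refine Nat.mul_le_mul_right K ?_
      refine (card_le_card (filter_subset _ _)).trans ?_
      rw [card_powerset]
      exact Nat.pow_le_pow_right (by norm_num) hinc

theorem mi_pieces_bdd (h : I.Meas) (M T : ℕ) :
    ∃ N : ℕ, (∀ x, ((I.pieces M T).dom x).card ≤ N) ∧
      ∀ u, ((I.pieces M T).inc u).card ≤ N := by
  obtain ⟨N, h1, h2⟩ := h.bdd
  obtain ⟨K, hK⟩ := mi_card_seqs h1 h2 M N
  have hB := mi_card_nbv h1 h2
  refine ⟨max (N * (N * N + 1) ^ M * (M + 1)) (1 * (N * N + 1) ^ M * N * K), ?_, ?_⟩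
  · intro x
    refine le_trans ?_ (le_max_left _ _)
    refine (card_le_card (I.entR_subset x.2.1)).trans ?_
    rw [card_product, card_range]
    refine Nat.mul_le_mul_right _ ?_
    refine (mi_card_ball hB M _).trans ?_
    exact Nat.mul_le_mul_right _ (h1 _)
  · intro u
    refine le_trans ?_ (le_max_right _ _)
    have hsub : ((I.pieces M T).inc u).image (fun x : I.PIdx M T => x.1) ⊆
        (I.incS (I.ball M {u.1})).biUnion fun E =>
          (I.seqs M (I.dom E)).image fun P => ((E, P) : ι × Pc ι M) := by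
      intro y hy
      rw [mem_image] at hy
      obtain ⟨x, hx, rfl⟩ := hy
      rw [Inst.mem_inc] at hx
      have hx' : u ∈ I.entR x.1.1 x.1.2 := hx
      rw [mem_biUnion]
      exact ⟨x.1.1, I.root_mem x.2.1 hx', mem_image.2 ⟨x.1.2, x.2.1, rfl⟩⟩
    have hc := card_le_card hsub
    rw [card_image_of_injective (f := fun x : I.PIdx M T => x.1) _
      (fun x y hxy => Subtype.ext hxy)] at hc
    refine hc.trans ?_
    refine (card_biUnion_le_card_mul _ _ K fun E _ => card_image_le.trans (hK _ (h1 E))).trans ?_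
    refine Nat.mul_le_mul_right K ?_
    refine (mi_card_incS h2 _).trans ?_
    refine Nat.mul_le_mul_right N ?_
    refine (mi_card_ball hB M _).trans ?_
    rw [card_singleton]

theorem Meas.pieces (h : I.Meas) (M T : ℕ) :
    haveI := h.pidx M T
    (I.pieces M T).Meas := by
  have := h.pidx M T
  refine ⟨?_, ?_, mi_pieces_bdd h M T⟩
  · exact (mi_entR h M).preimage
      ((measurable_subtype_coe.comp measurable_fst).prodMk measurable_snd)
  · intro Z _ g hg
    exact (mi_consR h hg M).preimage
      (measurable_fst.prodMk (measurable_subtype_coe.comp measurable_snd))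

theorem Meas.cond (h : I.Meas) {Y : Set V} (hY : MeasurableSet Y) {σ : V → A}
    (hσ : Measurable σ) : (I.cond Y σ).Meas := by
  have hrel : MeasurableSet {q : ι × V | q.2 ∈ I.dom q.1 ∧ q.2 ∉ Y} :=
    h.rel.inter (hY.compl.preimage measurable_snd)
  refine ⟨?_, ?_, ?_⟩
  · have : {q : ι × V | q.2 ∈ (I.cond Y σ).dom q.1} =
        {q : ι × V | q.2 ∈ I.dom q.1 ∧ q.2 ∉ Y} := by
      ext q
      simp only [Inst.cond, mem_filter, Set.mem_ofPred_eq]
    rw [this]
    exact hrel
  · intro Z _ g hg
    have hset : {q : Z × ι | (I.cond Y σ).bad q.2 (g q.1)} =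
        {q : Z × ι | ∃ v ∈ I.dom q.2, (q, v) ∈ {r : (Z × ι) × V | r.2 ∉ Y}} ∩
        {q : Z × ι | I.bad q.2 ((fun z v => if v ∈ Y then σ v else g z v) q.1)} := by
      ext q
      simp only [Inst.cond, Set.mem_ofPred_eq, Set.mem_inter_iff, Finset.Nonempty, mem_filter]
    rw [hset]
    refine MeasurableSet.inter ?_ ?_
    · exact measurableSet_exists (F := fun q : Z × ι => I.dom q.2) (h.dom.comp measurable_snd)
        (Q := {r : (Z × ι) × V | r.2 ∉ Y})
        (hY.compl.preimage (measurable_snd : Measurable (Prod.snd : (Z × ι) × V → V)))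
    · refine h.bad (Z := Z) (fun (z : Z) (v : V) => if v ∈ Y then σ v else g z v) ?_
      have e : uncurry (fun (z : Z) (v : V) => if v ∈ Y then σ v else g z v) =
          fun q : Z × V => if q ∈ Prod.snd ⁻¹' Y then σ q.2 else uncurry g q := rfl
      rw [e]
      exact Measurable.ite (hY.preimage measurable_snd) (hσ.comp measurable_snd) hg
  · obtain ⟨N, h1, h2⟩ := h.bdd
    refine ⟨N, fun i => (card_filter_le _ _).trans (h1 i), fun v => ?_⟩
    refine (card_le_card ?_).trans (h2 v)
    intro i hi
    rw [Inst.mem_inc] at hi ⊢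
    exact (mem_filter.1 hi).1

/-- measurable proper colouring of the events -/
theorem Meas.exists_proper (h : I.Meas) : ∃ (col : ι → ℕ) (C : ℕ), 0 < C ∧ Measurable col ∧
    I.Proper col C := by
  obtain ⟨N, hN⟩ := h.nbr_bdd
  have hmem : ∀ i j, j ∈ I.nbr i ↔ ∃ v ∈ I.dom i, v ∈ I.dom j := fun i j => I.mem_incS
  obtain ⟨c, hc1, hc2, hc3⟩ := exists_coloring hN h.nbr (fun i j hij => by
    rw [hmem] at hij ⊢
    obtain ⟨v, h1, h2⟩ := hij
    exact ⟨v, h2, h1⟩)
  refine ⟨c, N + 1, Nat.succ_pos N, hc1, fun i => Nat.lt_succ_of_le (hc2 i), ?_⟩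
  intro i j hij hd
  have : j ∈ I.nbr i := by
    rw [hmem]
    rw [not_disjoint_iff] at hd
    exact hd
  exact (hc3 i j this (Ne.symm hij)).symm

end Inst

end Pool.Agent.MLLL
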