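import Pool.Agent.Lib.MP_25f38e_lc.MeasInst
import Pool.Agent.Lib.MP_25f38e_lc.Avg

/-! MODULE MEASINST, part 2 : rule B is Borel. -/

set_option linter.unusedSectionVars false

noncomputable section

open scoped Classical
open Finset MeasureTheory Function

namespace Pool.Agent.MLLL

universe u

/-! ### ranks in a finite set -/

section rank

variable {α : Type u} [MeasurableSpace α] [StandardBorelSpace α]

/-- rank of `v` in `F` with respect to a fixed Borel embedding into `ℝ` -/
def yxRank (F : Finset α) (v : α) : ℕ :=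
  (F.filter (fun w => embeddingReal α w < embeddingReal α v)).card

theorem yxRank_lt {F : Finset α} {v : α} (hv : v ∈ F) : yxRank F v < F.card := by
  refine card_lt_card ?_
  rw [ssubset_iff_of_subset (filter_subset _ _)]
  exact ⟨v, hv, by simp⟩

theorem yxRank_injOn (F : Finset α) : Set.InjOn (yxRank F) (F : Set α) := by
  have key : ∀ v ∈ F, ∀ w ∈ F, embeddingReal α v < embeddingReal α w →
      yxRank F v < yxRank F w := by
    intro v hv w _ hlt
    refine card_lt_card ?_
    rw [ssubset_iff_of_subset]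
    · exact ⟨v, mem_filter.2 ⟨hv, hlt⟩, by simp⟩
    · intro x hx
      rw [mem_filter] at hx ⊢
      exact ⟨hx.1, hx.2.trans hlt⟩
  intro v hv w hw h
  by_contra hne
  have hne' : embeddingReal α v ≠ embeddingReal α w := fun h' =>
    hne ((measurableEmbedding_embeddingReal α).injective h')
  rcases lt_or_gt_of_ne hne' with h' | h'
  · exact absurd h (key v hv w hw h').ne
  · exact absurd h (key w hw v hv h').ne'

theorem measurable_yxRank {Z : Type*} [MeasurableSpace Z] {F : Z → Finset α}
    (hF : Measurable F) : Measurable fun q : Z × α => yxRank (F q.1) q.2 := by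
  have h1 : Measurable fun q : Z × α => ∑ w ∈ F q.1,
      (if (q, w) ∈ {r : (Z × α) × α | embeddingReal α r.2 < embeddingReal α r.1.2}
        then (1 : ℝ) else 0) := by
    refine measurable_sum_real (hF.comp measurable_fst) ?_
    have hS : MeasurableSet {r : (Z × α) × α | embeddingReal α r.2 < embeddingReal α r.1.2} :=
      measurableSet_lt ((measurableEmbedding_embeddingReal α).measurable.comp measurable_snd)
        ((measurableEmbedding_embeddingReal α).measurable.comp
          (measurable_snd.comp measurable_fst))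
    exact Measurable.ite hS measurable_const measurable_const
  have h2 : (fun q : Z × α => ((yxRank (F q.1) q.2 : ℕ) : ℝ)) =
      fun q : Z × α => ∑ w ∈ F q.1,
      (if (q, w) ∈ {r : (Z × α) × α | embeddingReal α r.2 < embeddingReal α r.1.2}
        then (1 : ℝ) else 0) := by
    funext q
    unfold yxRank
    rw [← sum_filter, sum_const, nsmul_eq_mul, mul_one]
    rfl
  rw [← h2] at h1
  intro B _
  have h3 : (fun q : Z × α => yxRank (F q.1) q.2) ⁻¹' B =
      (fun q : Z × α => ((yxRank (F q.1) q.2 : ℕ) : ℝ)) ⁻¹' ((fun n : ℕ => (n : ℝ)) '' B) := by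
    ext q
    simp only [Set.mem_preimage, Set.mem_image, Nat.cast_inj, exists_eq_right]
  rw [h3]
  exact h1 (((Set.to_countable B).image (fun n : ℕ => (n : ℝ))).measurableSet)

end rank

namespace Inst

variable {V ι : Type u} {A : Type} [DecidableEq V] [DecidableEq ι]
  [MeasurableSpace V] [StandardBorelSpace V] [MeasurableSpace ι] [StandardBorelSpace ι]
  [Fintype A] [Nonempty A] [MeasurableSpace A] [DiscreteMeasurableSpace A]
  (I : Inst V ι A)

variable {I}

/-- the unexposed part of a domain -/
theorem yx_filter (h : I.Meas) {Y : Set V} (hY : MeasurableSet Y) :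
    Measurable fun i => (I.dom i).filter (· ∉ Y) := by
  obtain ⟨N, h1, _⟩ := h.bdd
  refine measurable_of_rel (N := N) (fun i => (card_filter_le _ _).trans (h1 i)) ?_
  have : {q : ι × V | q.2 ∈ (I.dom q.1).filter (· ∉ Y)} =
      {q : ι × V | q.2 ∈ I.dom q.1} ∩ Prod.snd ⁻¹' Yᶜ := by
    ext q
    simp only [mem_filter, Set.mem_ofPred_eq, Set.mem_inter_iff, Set.mem_preimage,
      Set.mem_compl_iff]
  rw [this]
  exact h.rel.inter (hY.compl.preimage measurable_snd)

theorem yx_fr (h : I.Meas) {Y : Set V} (hY : MeasurableSet Y) : Measurable (I.fr Y) :=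
  measurable_card' (yx_filter h hY)

/-- the label of `v` in the unexposed part of the domain of `i` -/
def yxLab (Y : Set V) (N : ℕ) (i : ι) (v : V) : Fin (N + 1) :=
  Fin.ofNat (N + 1) (yxRank ((I.dom i).filter (· ∉ Y)) v)

theorem yx_cp_eq (Y : Set V) (σ : V → A) {N : ℕ} (hN : ∀ i, (I.dom i).card ≤ N) (i : ι) :
    I.cp Y σ i = ex (fun ω : Fin (N + 1) → A => ind (I.bad i (fun v =>
      if v ∈ (I.dom i).filter (· ∉ Y) then ω (yxLab (I := I) Y N i v) else σ v))) := by
  set S := (I.dom i).filter (· ∉ Y) with hS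
  have hcard : S.card ≤ N := (card_filter_le _ _).trans (hN i)
  have hinj : Set.InjOn (yxLab (I := I) Y N i) (S : Set V) := by
    intro v hv w hw hvw
    have h1 : yxRank S v < N + 1 := (yxRank_lt hv).trans_le (hcard.trans (Nat.le_succ N))
    have h2 : yxRank S w < N + 1 := (yxRank_lt hw).trans_le (hcard.trans (Nat.le_succ N))
    have h3 := congrArg Fin.val hvw
    unfold yxLab at h3
    rw [← hS, Fin.val_ofNat, Fin.val_ofNat, Nat.mod_eq_of_lt h1, Nat.mod_eq_of_lt h2] at h3
    exact yxRank_injOn S hv hw h3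
  have hdep : DependsOn (fun g : V → A => ind (I.bad i (fun v => if v ∈ S then g v else σ v)))
      (S : Set V) := by
    intro g g' hg
    have : (fun v => if v ∈ S then g v else σ v) = fun v => if v ∈ S then g' v else σ v := by
      funext v
      by_cases hv : v ∈ S
      · rw [if_pos hv, if_pos hv]; exact hg v hv
      · rw [if_neg hv, if_neg hv]
    show ind (I.bad i (fun v => if v ∈ S then g v else σ v)) =
      ind (I.bad i (fun v => if v ∈ S then g' v else σ v))
    rw [this]
  have h4 := ex_comp (yxLab (I := I) Y N i) hinj hdep σ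
  have h5 : avg S (fun g : V → A => ind (I.bad i (fun v => if v ∈ S then g v else σ v))) σ =
      avg S (fun g => ind (I.bad i g)) σ := by
    refine avg_congr_fun ?_
    intro g' hg'
    have : (fun v => if v ∈ S then g' v else σ v) = g' := by
      funext v
      by_cases hv : v ∈ S
      · rw [if_pos hv]
      · rw [if_neg hv, hg' v hv]
    rw [this]
  unfold Inst.cp
  rw [← hS, ← h5, ← h4]

theorem yx_cp (h : I.Meas) {Y : Set V} (hY : MeasurableSet Y) {σ : V → A}
    (hσ : Measurable σ) : Measurable (I.cp Y σ) := by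
  obtain ⟨N, h1, _⟩ := h.bdd
  have e : I.cp Y σ = fun i => ex (fun ω : Fin (N + 1) → A => ind (I.bad i (fun v =>
      if v ∈ (I.dom i).filter (· ∉ Y) then ω (yxLab (I := I) Y N i v) else σ v))) := by
    funext i
    exact yx_cp_eq Y σ h1 i
  rw [e]
  unfold ex
  refine Measurable.div_const ?_ _
  refine Finset.measurable_sum _ ?_
  intro ω _
  have hg : Measurable (uncurry (fun (i : ι) (v : V) =>
      if v ∈ (I.dom i).filter (· ∉ Y) then ω (yxLab (I := I) Y N i v) else σ v)) := by
    have e2 : uncurry (fun (i : ι) (v : V) =>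
        if v ∈ (I.dom i).filter (· ∉ Y) then ω (yxLab (I := I) Y N i v) else σ v) =
        fun q : ι × V => if q ∈ {q : ι × V | q.2 ∈ (I.dom q.1).filter (· ∉ Y)} then
          ω (yxLab (I := I) Y N q.1 q.2) else σ q.2 := rfl
    rw [e2]
    refine Measurable.ite (rel_of_measurable (yx_filter h hY)) ?_ (hσ.comp measurable_snd)
    have e3 : (fun q : ι × V => ω (yxLab (I := I) Y N q.1 q.2)) =
        (fun n : ℕ => ω (Fin.ofNat (N + 1) n)) ∘
          fun q : ι × V => yxRank ((I.dom q.1).filter (· ∉ Y)) q.2 := rfl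
    rw [e3]
    exact measurable_from_top.comp (measurable_yxRank (yx_filter h hY))
  have hb := (h.bad (Z := ι) _ hg).preimage
    (measurable_id.prodMk measurable_id : Measurable fun i : ι => (i, i))
  exact Measurable.ite hb measurable_const measurable_const

theorem yx_Psi (h : I.Meas) (β : ℝ) {Y : Set V} (hY : MeasurableSet Y) {σ : V → A}
    (hσ : Measurable σ) : Measurable (I.Psi β Y σ) := by
  unfold Inst.Psi
  refine measurable_sum_real h.inc ?_
  exact ((yx_cp h hY hσ).comp measurable_snd).mul
    ((measurable_from_top (f := fun n : ℕ => β ^ n)).comp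
      ((yx_fr h hY).comp measurable_snd))

theorem yx_qq (h : I.Meas) (β : ℝ) {Y : Set V} (hY : MeasurableSet Y) {σ : V → A}
    (hσ : Measurable σ) : Measurable fun q : V × V => I.qq β Y σ q.1 q.2 := by
  have e : (fun q : V × V => I.qq β Y σ q.1 q.2) = fun q : V × V => ∑ i ∈ I.inc q.1,
      (if (q, i) ∈ {r : (V × V) × ι | r.1.2 ∈ I.dom r.2} then
        I.cp Y σ i * β ^ I.fr Y i else 0) := by
    funext q
    unfold Inst.qq
    rw [sum_filter]
    rfl
  rw [e]
  refine measurable_sum_real (h.inc.comp measurable_fst) ?_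
  refine Measurable.ite ?_ ?_ measurable_const
  · exact h.rel.preimage (measurable_snd.prodMk (measurable_snd.comp measurable_fst))
  · exact ((yx_cp h hY hσ).comp measurable_snd).mul
      ((measurable_from_top (f := fun n : ℕ => β ^ n)).comp
        ((yx_fr h hY).comp measurable_snd))

theorem yx_c1 (h : I.Meas) {ℓ : V → ℕ} (hℓ : Measurable ℓ) : MeasurableSet {u | I.c1 ℓ u} := by
  have e : {u | I.c1 ℓ u} = {u | ∀ v ∈ I.nbv u, (u, v) ∈ {q : V × V | ∀ u' ∈ I.nbv q.2,
      (q, u') ∈ {r : (V × V) × V | r.2 = r.1.1 ∨ ¬ ℓ r.2 = ℓ r.1.1}}} := by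
    ext u
    simp only [Inst.c1, Set.mem_ofPred_eq]
    refine forall₂_congr fun v _ => forall₂_congr fun u' _ => ?_
    tauto
  rw [e]
  refine measurableSet_forall h.nbv ?_
  refine measurableSet_forall (h.nbv.comp measurable_snd) ?_
  refine MeasurableSet.union ?_ ?_
  · exact measurableSet_eq_fun measurable_snd (measurable_fst.comp measurable_fst)
  · exact (measurableSet_eq_fun (hℓ.comp measurable_snd)
      (hℓ.comp (measurable_fst.comp measurable_fst))).compl

theorem yx_c2 (h : I.Meas) (β θ ζ : ℝ) {Y : Set V} (hY : MeasurableSet Y) {σ : V → A}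
    (hσ : Measurable σ) : MeasurableSet {u | I.c2 β θ ζ Y σ u} := by
  have e : {u | I.c2 β θ ζ Y σ u} = {u | ∀ v ∈ I.nbv u, (u, v) ∈
      ({q : V × V | q.2 = q.1} ∪ Prod.snd ⁻¹' Y) ∪
        ({q : V × V | I.qq β Y σ q.2 q.1 ≤ θ * ζ} ∩ {q : V × V | I.Psi β Y σ q.2 ≤ θ})} := by
    ext u
    simp only [Inst.c2, Set.mem_ofPred_eq, Set.mem_union, Set.mem_inter_iff, Set.mem_preimage]
    refine forall₂_congr fun v _ => ?_
    tauto
  rw [e]
  have hq0 := (yx_qq h β hY hσ).comp (measurable_swap : Measurable (Prod.swap : V × V → V × V))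
  have hq : Measurable fun q : V × V => I.qq β Y σ q.2 q.1 := by
    have e2 : (fun q : V × V => I.qq β Y σ q.2 q.1) =
        (fun q : V × V => I.qq β Y σ q.1 q.2) ∘ Prod.swap := by
      funext q
      rw [comp_apply]
      rfl
    rw [e2]
    exact hq0
  have hp : Measurable fun q : V × V => I.Psi β Y σ q.2 :=
    (yx_Psi h β hY hσ).comp measurable_snd
  refine measurableSet_forall h.nbv ?_
  refine MeasurableSet.union (MeasurableSet.union ?_ ?_) (MeasurableSet.inter ?_ ?_)
  · exact measurableSet_eq_fun measurable_snd measurable_fst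
  · exact hY.preimage measurable_snd
  · exact measurableSet_le hq measurable_const
  · exact measurableSet_le hp measurable_const

/-- rule B is Borel -/
theorem Meas.yx (h : I.Meas) (β θ ζ : ℝ) {ℓ : V → ℕ} (hℓ : Measurable ℓ) {σ : V → A}
    (hσ : Measurable σ) (s : ℕ) : MeasurableSet (I.Yx β θ ζ ℓ σ s) := by
  induction s with
  | zero => exact MeasurableSet.empty
  | succ s ih =>
    have e : I.Yx β θ ζ ℓ σ (s + 1) = I.Yx β θ ζ ℓ σ s ∪ (ℓ ⁻¹' {s} ∩ ({u | I.c1 ℓ u} ∩
        {u | I.c2 β θ ζ (I.Yx β θ ζ ℓ σ s) σ u})) := rfl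
    rw [e]
    exact ih.union ((hℓ (measurableSet_singleton s)).inter ((yx_c1 h hℓ).inter
      (yx_c2 h β θ ζ ih hσ)))

end Inst

end Pool.Agent.MLLL
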