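import Pool.Agent.Lib.MP_25f38e_lc.Sums
import Pool.Agent.Lib.MP_25f38e_lc.Prob

/-! MODULE PSUM : the instance of rooted pieces satisfies the hypothesis of rule B, and its degrees
grow at most exponentially. (helper37) -/

set_option linter.unusedSectionVars false

noncomputable section

open scoped Classical
open Finset

namespace Pool.Agent.MLLL

universe u

namespace Inst

variable {V ι : Type u} {A : Type} [DecidableEq V] [DecidableEq ι] [Fintype A] [Nonempty A]
  (I : Inst V ι A)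

/-- `n r^n` is bounded by `1/(1-r)` -/
theorem psum_mul_pow_le {r : ℝ} (hr0 : 0 ≤ r) (hr1 : r < 1) (n : ℕ) :
    (n : ℝ) * r ^ n ≤ (1 - r)⁻¹ := by
  have h1 : (n : ℝ) * r ^ n ≤ ∑ i ∈ range n, r ^ i := by
    calc (n : ℝ) * r ^ n = ∑ _i ∈ range n, r ^ n := by
          rw [sum_const, card_range, nsmul_eq_mul]
      _ ≤ ∑ i ∈ range n, r ^ i := by
          refine sum_le_sum fun i hi => ?_
          exact pow_le_pow_of_le_one hr0 hr1.le (mem_range.1 hi).le
  refine h1.trans ?_
  have h2 : 0 < 1 - r := by linarith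
  have h3 : (1 - r) * ∑ i ∈ range n, r ^ i = 1 - r ^ n := mul_neg_geom_sum r n
  have h4 : 0 ≤ r ^ n := pow_nonneg hr0 n
  rw [← one_div, le_div_iff₀ h2, mul_comm, h3]
  linarith

/-- (`a i = t * b^|dom i| * p i` in `sum_containing`; a piece has at least `T` non-root events,
so its weight is at most `t^(-T)` times the weight with `a`; `n β^n ≤ const · b^n`;
all roots lie in `incS (ball M {u.1})`, see `root_mem`.) -/
theorem pieces_sum {t b C : ℝ} {W K : ι → ℝ} (h : I.Cls t b C W K) {β : ℝ} (hβ : 1 < β)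
    (hβb : β < b) : ∃ C₁ : ℝ, 0 ≤ C₁ ∧ ∀ (M T : ℕ) (u : V × ℕ),
      ∑ x ∈ (I.pieces M T).inc u, ((I.pieces M T).dom x).card *
        β ^ ((I.pieces M T).dom x).card * (I.pieces M T).p x ≤ C₁ / t ^ T := by
  have ht : 0 < t := lt_trans zero_lt_one h.one_lt_t
  have hb : 0 < b := lt_trans zero_lt_one h.one_lt_b
  have hβ0 : 0 < β := lt_trans zero_lt_one hβ
  set r : ℝ := β / b with hr
  have hr0 : 0 ≤ r := by positivity
  have hr1 : r < 1 := by rw [hr, div_lt_one hb]; exact hβb
  set c : ℝ := (1 - r)⁻¹ with hc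
  have hc0 : 0 ≤ c := by
    rw [hc]; apply inv_nonneg.2; linarith
  refine ⟨c * max C 0, by positivity, ?_⟩
  intro M T u
  set a : ι → ℝ := fun i => t * (b ^ (I.dom i).card * I.p i) with ha
  have ha0 : ∀ i, 0 ≤ a i := fun i => by
    have := I.p_nonneg i
    positivity
  have hA : ∀ i, a i * ∏ j ∈ I.nbr i, (1 + W j) ≤ W i := by
    intro i
    have := h.hA i
    rw [ha]
    calc t * (b ^ (I.dom i).card * I.p i) * ∏ j ∈ I.nbr i, (1 + W j)
        = t * b ^ (I.dom i).card * I.p i * ∏ j ∈ I.nbr i, (1 + W j) := by ring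
      _ ≤ W i := this
  have hK : ∀ i, 0 ≤ K i := fun i => zero_le_one.trans (h.one_le_K i)
  set D : Finset ι := I.incS (I.ball M {u.1}) with hD
  have hmain := I.sum_containing ha0 h.W_nonneg hK hA h.hB D M u.1
  -- each term
  have hterm : ∀ x : I.PIdx M T, ((I.pieces M T).dom x).card *
      β ^ ((I.pieces M T).dom x).card * (I.pieces M T).p x ≤
      (c / t ^ T) * (a x.1.1 * wt a M x.1.2) := by
    intro x
    have hdom : (I.pieces M T).dom x = I.entR x.1.1 x.1.2 := rfl
    rw [hdom, I.pieces_p M T x]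
    set N := (I.entR x.1.1 x.1.2).card with hN
    have hp0 : 0 ≤ I.p x.1.1 := I.p_nonneg _
    have hw0 : 0 ≤ wt I.p M x.1.2 := wt_nonneg I.p_nonneg M _
    have h1 : (N : ℝ) * β ^ N ≤ c * b ^ N := by
      have h2 := psum_mul_pow_le hr0 hr1 N
      have h3 : β ^ N = r ^ N * b ^ N := by
        rw [hr, div_pow, div_mul_cancel₀]
        positivity
      rw [h3, ← mul_assoc]
      have : 0 ≤ b ^ N := by positivity
      exact mul_le_mul_of_nonneg_right h2 this
    have h4 : b ^ N = b ^ (I.dom x.1.1).card * wt (fun i => b ^ (I.dom i).card) M x.1.2 :=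
      I.pow_card_entR x.2.1 b
    have h5 : wt a M x.1.2 = t ^ size M x.1.2 *
        (wt (fun i => b ^ (I.dom i).card) M x.1.2 * wt I.p M x.1.2) := by
      have e1 : wt a M x.1.2 = wt (fun _ => t) M x.1.2 *
          wt (fun i => b ^ (I.dom i).card * I.p i) M x.1.2 :=
        wt_mul (fun _ => t) (fun i => b ^ (I.dom i).card * I.p i) M x.1.2
      rw [e1, wt_const, wt_mul]
    have h6 : t ^ T ≤ t ^ size M x.1.2 := pow_le_pow_right₀ h.one_lt_t.le x.2.2
    have hwb0 : 0 ≤ wt (fun i => b ^ (I.dom i).card) M x.1.2 :=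
      wt_nonneg (fun i => by positivity) M _
    have hq0 : 0 ≤ b ^ (I.dom x.1.1).card * I.p x.1.1 *
        (wt (fun i => b ^ (I.dom i).card) M x.1.2 * wt I.p M x.1.2) := by positivity
    calc (N : ℝ) * β ^ N * (I.p x.1.1 * wt I.p M x.1.2)
        ≤ c * b ^ N * (I.p x.1.1 * wt I.p M x.1.2) := by gcongr
      _ = c * (b ^ (I.dom x.1.1).card * I.p x.1.1 *
          (wt (fun i => b ^ (I.dom i).card) M x.1.2 * wt I.p M x.1.2)) := by rw [h4]; ring
      _ ≤ (c / t ^ T) * (t * t ^ size M x.1.2 * (b ^ (I.dom x.1.1).card * I.p x.1.1 *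
          (wt (fun i => b ^ (I.dom i).card) M x.1.2 * wt I.p M x.1.2))) := by
          have h7 : 1 ≤ t * t ^ size M x.1.2 / t ^ T := by
            rw [le_div_iff₀ (by positivity), one_mul]
            calc t ^ T ≤ t ^ size M x.1.2 := h6
              _ = 1 * t ^ size M x.1.2 := (one_mul _).symm
              _ ≤ t * t ^ size M x.1.2 := by
                gcongr
                exact h.one_lt_t.le
          have h8 : (c / t ^ T) * (t * t ^ size M x.1.2 * (b ^ (I.dom x.1.1).card * I.p x.1.1 *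
            (wt (fun i => b ^ (I.dom i).card) M x.1.2 * wt I.p M x.1.2))) =
            (t * t ^ size M x.1.2 / t ^ T) * (c * (b ^ (I.dom x.1.1).card * I.p x.1.1 *
            (wt (fun i => b ^ (I.dom i).card) M x.1.2 * wt I.p M x.1.2))) := by ring
          rw [h8]
          have h9 : 0 ≤ c * (b ^ (I.dom x.1.1).card * I.p x.1.1 *
            (wt (fun i => b ^ (I.dom i).card) M x.1.2 * wt I.p M x.1.2)) := mul_nonneg hc0 hq0
          exact le_mul_of_one_le_left h9 h7
      _ = (c / t ^ T) * (a x.1.1 * wt a M x.1.2) := by rw [h5, ha]; ring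
  -- sum over the pieces through `u`
  have hsum : ∑ x ∈ (I.pieces M T).inc u, a x.1.1 * wt a M x.1.2 ≤
      ∑ E ∈ D, a E * ∑ P ∈ (I.seqs M (I.dom E)).filter (fun P => ∃ k, (u.1, k) ∈ I.entR E P),
        wt a M P := by
    have e1 : ∑ E ∈ D, a E * ∑ P ∈ (I.seqs M (I.dom E)).filter
        (fun P => ∃ k, (u.1, k) ∈ I.entR E P), wt a M P =
        ∑ y ∈ D.sigma (fun E => (I.seqs M (I.dom E)).filter
          (fun P => ∃ k, (u.1, k) ∈ I.entR E P)), a y.1 * wt a M y.2 := by
      rw [Finset.sum_sigma]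
      refine sum_congr rfl fun E _ => ?_
      rw [Finset.mul_sum]
    rw [e1]
    have e2 : ∑ x ∈ (I.pieces M T).inc u, a x.1.1 * wt a M x.1.2 =
        ∑ y ∈ ((I.pieces M T).inc u).image
          (fun x : I.PIdx M T => (⟨x.1.1, x.1.2⟩ : (_ : ι) × Pc ι M)), a y.1 * wt a M y.2 := by
      rw [sum_image]
      intro x _ y _ hxy
      apply Subtype.ext
      simp only [Sigma.mk.injEq, heq_eq_eq] at hxy
      exact Prod.ext hxy.1 hxy.2
    rw [e2]
    refine sum_le_sum_of_subset_of_nonneg ?_ ?_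
    · intro y hy
      rw [mem_image] at hy
      obtain ⟨x, hx, rfl⟩ := hy
      have hx' : u ∈ I.entR x.1.1 x.1.2 := ((I.pieces M T).mem_inc).1 hx
      rw [mem_sigma, mem_filter]
      exact ⟨I.root_mem x.2.1 hx', x.2.1, u.2, hx'⟩
    · intro y _ _
      exact mul_nonneg (ha0 _) (wt_nonneg ha0 M _)
  calc ∑ x ∈ (I.pieces M T).inc u, ((I.pieces M T).dom x).card *
        β ^ ((I.pieces M T).dom x).card * (I.pieces M T).p x
      ≤ ∑ x ∈ (I.pieces M T).inc u, (c / t ^ T) * (a x.1.1 * wt a M x.1.2) :=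
        sum_le_sum fun x _ => hterm x
    _ = (c / t ^ T) * ∑ x ∈ (I.pieces M T).inc u, a x.1.1 * wt a M x.1.2 := by
        rw [← Finset.mul_sum]
    _ ≤ (c / t ^ T) * max C 0 := by
        have h10 : 0 ≤ c / t ^ T := by positivity
        exact mul_le_mul_of_nonneg_left
          ((hsum.trans hmain).trans ((h.hC u.1).trans (le_max_left _ _))) h10
    _ = c * max C 0 / t ^ T := by ring

theorem psum_card_incS_le {Δ : ℕ} (hΔ : ∀ v, (I.inc v).card ≤ Δ) (S : Finset V) :
    (I.incS S).card ≤ S.card * Δ := by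
  unfold incS
  calc (S.biUnion I.inc).card ≤ ∑ v ∈ S, (I.inc v).card := card_biUnion_le
    _ ≤ ∑ _v ∈ S, Δ := sum_le_sum fun v _ => hΔ v
    _ = S.card * Δ := by rw [sum_const, smul_eq_mul]

theorem psum_card_domL_le {m : ℕ} (hm : ∀ i, (I.dom i).card ≤ m) (L : Finset ι) :
    (I.domL L).card ≤ L.card * m := by
  unfold domL
  calc (L.biUnion I.dom).card ≤ ∑ i ∈ L, (I.dom i).card := card_biUnion_le
    _ ≤ ∑ _i ∈ L, m := sum_le_sum fun i _ => hm i
    _ = L.card * m := by rw [sum_const, smul_eq_mul]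

theorem card_nbv_le {Δ m : ℕ} (hΔ : ∀ v, (I.inc v).card ≤ Δ) (hm : ∀ i, (I.dom i).card ≤ m)
    (v : V) : (I.nbv v).card ≤ Δ * m + 1 := by
  unfold nbv
  refine (card_insert_le _ _).trans ?_
  have h1 : ((I.inc v).biUnion I.dom).card ≤ (I.inc v).card * m := I.psum_card_domL_le hm (I.inc v)
  have h2 : (I.inc v).card * m ≤ Δ * m := Nat.mul_le_mul_right _ (hΔ v)
  omega

theorem card_ball_le {Δ m : ℕ} (hΔ : ∀ v, (I.inc v).card ≤ Δ) (hm : ∀ i, (I.dom i).card ≤ m)
    (r : ℕ) (S : Finset V) : (I.ball r S).card ≤ S.card * (Δ * m + 1) ^ r := by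
  induction r with
  | zero => simp [ball_zero]
  | succ r ih =>
    rw [ball_succ]
    unfold nbS
    calc ((I.ball r S).biUnion I.nbv).card ≤ ∑ v ∈ I.ball r S, (I.nbv v).card := card_biUnion_le
      _ ≤ ∑ _v ∈ I.ball r S, (Δ * m + 1) := sum_le_sum fun v _ => I.card_nbv_le hΔ hm v
      _ = (I.ball r S).card * (Δ * m + 1) := by rw [sum_const, smul_eq_mul]
      _ ≤ (S.card * (Δ * m + 1) ^ r) * (Δ * m + 1) := Nat.mul_le_mul_right _ ih
      _ = S.card * (Δ * m + 1) ^ (r + 1) := by rw [pow_succ, mul_assoc]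

/-- the number of layered sequences is bounded in terms of the size of the root set -/
theorem psum_card_seqs {Δ m : ℕ} (hΔ : ∀ v, (I.inc v).card ≤ Δ) (hm : ∀ i, (I.dom i).card ≤ m)
    (n : ℕ) : ∀ s : ℕ, ∃ N : ℕ, ∀ S : Finset V, S.card ≤ s → (I.seqs n S).card ≤ N := by
  induction n with
  | zero =>
    intro s
    refine ⟨1, fun S _ => ?_⟩
    simp [seqs]
  | succ n ih =>
    intro s
    obtain ⟨N, hN⟩ := ih (s * Δ * m)
    refine ⟨2 ^ (s * Δ) * N, fun S hS => ?_⟩
    have h1 : (I.incS S).card ≤ s * Δ :=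
      (I.psum_card_incS_le hΔ S).trans (Nat.mul_le_mul_right _ hS)
    simp only [seqs]
    calc (((I.incS S).powerset.filter I.Indep).biUnion fun L =>
          (I.seqs n (I.domL L)).image fun P => Pc.cons L P).card
        ≤ ∑ L ∈ (I.incS S).powerset.filter I.Indep,
          ((I.seqs n (I.domL L)).image fun P => Pc.cons L P).card := card_biUnion_le
      _ ≤ ∑ _L ∈ (I.incS S).powerset.filter I.Indep, N := by
          refine sum_le_sum fun L hL => ?_
          rw [mem_filter, mem_powerset] at hL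
          refine card_image_le.trans (hN _ ?_)
          calc (I.domL L).card ≤ L.card * m := I.psum_card_domL_le hm L
            _ ≤ (s * Δ) * m := Nat.mul_le_mul_right _ ((card_le_card hL.1).trans h1)
      _ = ((I.incS S).powerset.filter I.Indep).card * N := by rw [sum_const, smul_eq_mul]
      _ ≤ 2 ^ (s * Δ) * N := by
          apply Nat.mul_le_mul_right
          calc ((I.incS S).powerset.filter I.Indep).card ≤ (I.incS S).powerset.card :=
                card_filter_le _ _
            _ = 2 ^ (I.incS S).card := card_powerset _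
            _ ≤ 2 ^ (s * Δ) := Nat.pow_le_pow_right (by norm_num) h1

theorem psum_card_entR {Δ m : ℕ} (hΔ : ∀ v, (I.inc v).card ≤ Δ) (hm : ∀ i, (I.dom i).card ≤ m)
    {M : ℕ} {E : ι} {P : Pc ι M} (h : P ∈ I.seqs M (I.dom E)) :
    (I.entR E P).card ≤ m * (Δ * m + 1) ^ M * (M + 1) := by
  calc (I.entR E P).card ≤ (I.ball M (I.dom E) ×ˢ range (M + 1)).card :=
        card_le_card (I.entR_subset h)
    _ = (I.ball M (I.dom E)).card * (M + 1) := by rw [card_product, card_range]
    _ ≤ (m * (Δ * m + 1) ^ M) * (M + 1) := by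
        apply Nat.mul_le_mul_right
        exact (I.card_ball_le hΔ hm M _).trans (Nat.mul_le_mul_right _ (hm E))

/-- boundedness of the instance of pieces -/
theorem pieces_bdd {Δ m : ℕ} (hΔ : ∀ v, (I.inc v).card ≤ Δ) (hm : ∀ i, (I.dom i).card ≤ m)
    (M T : ℕ) : ∃ N : ℕ, (∀ x, ((I.pieces M T).dom x).card ≤ N) ∧
      ∀ u, ((I.pieces M T).inc u).card ≤ N := by
  obtain ⟨N, hN⟩ := I.psum_card_seqs hΔ hm M m
  refine ⟨m * (Δ * m + 1) ^ M * (M + 1) + (Δ * m + 1) ^ M * Δ * N, ?_, ?_⟩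
  · intro x
    have h1 : ((I.pieces M T).dom x).card ≤ m * (Δ * m + 1) ^ M * (M + 1) :=
      I.psum_card_entR hΔ hm x.2.1
    exact h1.trans (Nat.le_add_right _ _)
  · intro u
    have h1 : ((I.pieces M T).inc u).card ≤
        ((I.incS (I.ball M {u.1})).biUnion fun E =>
          (I.seqs M (I.dom E)).image fun P => ((E, P) : ι × Pc ι M)).card := by
      refine Finset.card_le_card_of_injOn (fun x : I.PIdx M T => x.1) ?_
        (fun x _ y _ hxy => Subtype.ext hxy)
      intro x hx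
      have hx' : u ∈ I.entR x.1.1 x.1.2 := ((I.pieces M T).mem_inc).1 hx
      rw [mem_coe, mem_biUnion]
      exact ⟨x.1.1, I.root_mem x.2.1 hx', mem_image.2 ⟨x.1.2, x.2.1, rfl⟩⟩
    have h2 : ((I.incS (I.ball M {u.1})).biUnion fun E =>
          (I.seqs M (I.dom E)).image fun P => ((E, P) : ι × Pc ι M)).card ≤
          (Δ * m + 1) ^ M * Δ * N := by
      calc _ ≤ ∑ E ∈ I.incS (I.ball M {u.1}),
            ((I.seqs M (I.dom E)).image fun P => ((E, P) : ι × Pc ι M)).card := card_biUnion_le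
        _ ≤ ∑ _E ∈ I.incS (I.ball M {u.1}), N :=
            sum_le_sum fun E _ => card_image_le.trans (hN _ (hm E))
        _ = (I.incS (I.ball M {u.1})).card * N := by rw [sum_const, smul_eq_mul]
        _ ≤ (Δ * m + 1) ^ M * Δ * N := by
            apply Nat.mul_le_mul_right
            refine (I.psum_card_incS_le hΔ _).trans (Nat.mul_le_mul_right _ ?_)
            have := I.card_ball_le hΔ hm M {u.1}
            rwa [card_singleton, one_mul] at this
    exact (h1.trans h2).trans (Nat.le_add_left _ _)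

/-- at most exponential growth of the neighbourhoods -/
theorem pieces_nbv {Δ m : ℕ} (hΔ : ∀ v, (I.inc v).card ≤ Δ) (hm : ∀ i, (I.dom i).card ≤ m) :
    ∃ C₂ : ℝ, 1 ≤ C₂ ∧ ∀ (M T : ℕ) (u : V × ℕ),
      (((I.pieces M T).nbv u).card : ℝ) ≤ C₂ ^ (M + 1) := by
  set c := Δ * m + 1 with hc
  refine ⟨((2 * c ^ 2 : ℕ) : ℝ), ?_, ?_⟩
  · have : 1 ≤ 2 * c ^ 2 := by
      have : 0 < c ^ 2 := by positivity
      omega
    exact_mod_cast this
  intro M T u
  have h1 : (I.pieces M T).nbv u ⊆ insert u (I.ball (2 * M + 1) {u.1} ×ˢ range (M + 1)) := by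
    intro w hw
    rw [nbv, mem_insert] at hw
    rcases hw with rfl | hw
    · exact mem_insert_self _ _
    · rw [mem_biUnion] at hw
      obtain ⟨x, hx, hwx⟩ := hw
      have hx' : u ∈ I.entR x.1.1 x.1.2 := ((I.pieces M T).mem_inc).1 hx
      have hw' : w ∈ I.entR x.1.1 x.1.2 := hwx
      have hE : x.1.1 ∈ I.incS (I.ball M {u.1}) := I.root_mem x.2.1 hx'
      have hdom : I.dom x.1.1 ⊆ I.ball (M + 1) {u.1} := by
        obtain ⟨z, hz, hz'⟩ := I.mem_incS.1 hE
        intro y hy
        rw [ball_succ, mem_nbS]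
        exact ⟨z, hz, I.mem_nbv.2 (Or.inr ⟨_, hz', hy⟩)⟩
      have hball : I.ball M (I.dom x.1.1) ⊆ I.ball (2 * M + 1) {u.1} := by
        have : 2 * M + 1 = M + (M + 1) := by ring
        rw [this, I.ball_add M (M + 1)]
        exact I.ball_mono_set hdom M
      have := I.entR_subset x.2.1 hw'
      rw [mem_product] at this
      exact mem_insert_of_mem (mem_product.2 ⟨hball this.1, this.2⟩)
  have h2 : ((I.pieces M T).nbv u).card ≤ (2 * c ^ 2) ^ (M + 1) := by
    calc ((I.pieces M T).nbv u).card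
        ≤ (insert u (I.ball (2 * M + 1) {u.1} ×ˢ range (M + 1))).card := card_le_card h1
      _ ≤ (I.ball (2 * M + 1) {u.1} ×ˢ range (M + 1)).card + 1 := card_insert_le _ _
      _ = (I.ball (2 * M + 1) {u.1}).card * (M + 1) + 1 := by rw [card_product, card_range]
      _ ≤ c ^ (2 * M + 1) * (M + 1) + 1 := by
          have := I.card_ball_le hΔ hm (2 * M + 1) {u.1}
          rw [card_singleton, one_mul] at this
          exact Nat.add_le_add_right (Nat.mul_le_mul_right _ this) 1
      _ ≤ c ^ (2 * (M + 1)) * (M + 1) + c ^ (2 * (M + 1)) := by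
          have e1 : c ^ (2 * M + 1) ≤ c ^ (2 * (M + 1)) :=
            Nat.pow_le_pow_right (by omega) (by omega)
          have e2 : 1 ≤ c ^ (2 * (M + 1)) := Nat.one_le_pow _ _ (by omega)
          exact Nat.add_le_add (Nat.mul_le_mul_right _ e1) e2
      _ = c ^ (2 * (M + 1)) * (M + 2) := by ring
      _ ≤ c ^ (2 * (M + 1)) * 2 ^ (M + 1) := by
          apply Nat.mul_le_mul_left
          exact Nat.lt_two_pow_self (n := M + 1)
      _ = (2 * c ^ 2) ^ (M + 1) := by rw [mul_pow, ← pow_mul, mul_comm]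
  calc (((I.pieces M T).nbv u).card : ℝ) ≤ (((2 * c ^ 2) ^ (M + 1) : ℕ) : ℝ) := by
        exact_mod_cast h2
    _ = ((2 * c ^ 2 : ℕ) : ℝ) ^ (M + 1) := by push_cast; rfl

end Inst

end Pool.Agent.MLLL
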