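import Pool.Agent.Lib.MP_25f38e_lc.PSum
import Pool.Agent.Lib.MP_25f38e_lc.ClsLemmas

/-!
# MODULE PARAM : choice of the parameters of one step

(helper93, problem MP_25f38e_lc)
-/

set_option linter.unusedSectionVars false

noncomputable section

open scoped Classical
open Finset

namespace Pool.Agent.MLLL

universe u

/-- `T² / t^T → 0` -/
theorem param_sq_div {t : ℝ} (ht : 1 < t) :
    Filter.Tendsto (fun T : ℕ => (T : ℝ) ^ 2 / t ^ T) Filter.atTop (nhds 0) := by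
  have := tendsto_pow_const_div_const_pow_of_one_lt 2 ht
  exact this

/-- `c / t^T → 0` -/
theorem param_const_div {t : ℝ} (ht : 1 < t) (c : ℝ) :
    Filter.Tendsto (fun T : ℕ => c / t ^ T) Filter.atTop (nhds 0) := by
  have h := tendsto_pow_const_div_const_pow_of_one_lt 0 ht
  have h2 := h.const_mul c
  rw [mul_zero] at h2
  refine h2.congr fun T => ?_
  rw [pow_zero, mul_one_div]

/-- elementary limit -/
theorem tendsto_loss {C₁ C₂ t β θ k : ℝ} (hC₁ : 0 ≤ C₁) (hC₂ : 1 ≤ C₂) (ht : 1 < t)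
    (hβ : 1 < β) (hθ : 0 < θ) (hk : 0 < k) (C : ℕ) :
    Filter.Tendsto (fun T : ℕ => (C₁ / t ^ T) / (θ * ((1 - 1 / β) / ((k + 1) * (T : ℝ) ^ 2))) +
      C₂ ^ (T * C + 1) * Real.exp ((T : ℝ) ^ 2 * (C₁ / t ^ T) / θ - (T : ℝ) ^ 2))
      Filter.atTop (nhds 0) := by
  have hβ' : 0 < 1 - 1 / β := by
    have : 1 / β < 1 := by rw [div_lt_one (by linarith)]; exact hβ
    linarith
  have h1 : Filter.Tendsto (fun T : ℕ => (C₁ / t ^ T) /
      (θ * ((1 - 1 / β) / ((k + 1) * (T : ℝ) ^ 2)))) Filter.atTop (nhds 0) := by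
    have h := (param_sq_div ht).const_mul (C₁ * (k + 1) / (θ * (1 - 1 / β)))
    rw [mul_zero] at h
    refine h.congr fun T => ?_
    have htT : t ^ T ≠ 0 := pow_ne_zero _ (by linarith)
    rcases Nat.eq_zero_or_pos T with h0 | h0
    · subst h0; simp
    · have hT : (T : ℝ) ≠ 0 := by exact_mod_cast h0.ne'
      have hβ'' : 1 - 1 / β ≠ 0 := hβ'.ne'
      have hk' : k + 1 ≠ 0 := by linarith
      generalize 1 - 1 / β = s at hβ''
      field_simp
  have h2 : Filter.Tendsto (fun T : ℕ => C₂ ^ (T * C + 1) *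
      Real.exp ((T : ℝ) ^ 2 * (C₁ / t ^ T) / θ - (T : ℝ) ^ 2)) Filter.atTop (nhds 0) := by
    have hlog : 0 ≤ Real.log C₂ := Real.log_nonneg hC₂
    -- rewrite as exp
    have hexp : ∀ T : ℕ, C₂ ^ (T * C + 1) *
        Real.exp ((T : ℝ) ^ 2 * (C₁ / t ^ T) / θ - (T : ℝ) ^ 2) =
        Real.exp (((T : ℝ) * C + 1) * Real.log C₂ +
          ((T : ℝ) ^ 2 * (C₁ / t ^ T) / θ - (T : ℝ) ^ 2)) := by
      intro T
      have h0 : Real.exp (((T : ℝ) * C + 1) * Real.log C₂) = C₂ ^ (T * C + 1) := by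
        rw [show ((T : ℝ) * C + 1) * Real.log C₂ = ((T * C + 1 : ℕ) : ℝ) * Real.log C₂ by
          push_cast; ring, Real.exp_nat_mul, Real.exp_log (by linarith)]
      rw [Real.exp_add, h0]
    simp only [hexp]
    refine Real.tendsto_exp_atBot.comp ?_
    -- the perturbation tends to 0
    have h3 : Filter.Tendsto (fun T : ℕ => (T : ℝ) ^ 2 * (C₁ / t ^ T) / θ)
        Filter.atTop (nhds 0) := by
      have h := (param_sq_div ht).const_mul (C₁ / θ)
      rw [mul_zero] at h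
      refine h.congr fun T => ?_
      ring
    have h4 : Filter.Tendsto (fun T : ℕ => (T : ℝ) * ((T : ℝ) - C * Real.log C₂))
        Filter.atTop Filter.atTop := by
      have ha : Filter.Tendsto (fun T : ℕ => (T : ℝ)) Filter.atTop Filter.atTop :=
        tendsto_natCast_atTop_atTop
      exact ha.atTop_mul_atTop₀ (Filter.tendsto_atTop_add_const_right _ (-(C * Real.log C₂)) ha)
    have h5 : Filter.Tendsto (fun T : ℕ => -((T : ℝ) * ((T : ℝ) - C * Real.log C₂)) +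
        (Real.log C₂ + (T : ℝ) ^ 2 * (C₁ / t ^ T) / θ)) Filter.atTop Filter.atBot :=
      Filter.Tendsto.atBot_add (Filter.tendsto_neg_atTop_atBot.comp h4) (h3.const_add _)
    refine h5.congr fun T => ?_
    ring
  have := h1.add h2
  rw [add_zero] at this
  exact this

namespace Inst

variable {V ι : Type u} {A : Type} [DecidableEq V] [DecidableEq ι] [Fintype A] [Nonempty A]
  (I : Inst V ι A)

/-- the parameters of one step; `M = T * C`, `r = ρ * C` -/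
structure Params (I : Inst V ι A) (t b Cc : ℝ) (C : ℕ) (δ : ℝ) where
  ρ : ℕ
  T : ℕ
  b' : ℝ
  θ : ℝ
  ζ : ℝ
  η : ℝ
  lam : ℝ
  D : ℝ
  hρT : ρ ≤ T
  hρ : Cc / t ^ ρ ≤ δ
  hT : Cc / t ^ T ≤ δ
  hb' : 1 < b'
  hθ : 0 < θ
  hζ : 0 < ζ
  hlam : 0 < lam
  hkζ : (Fintype.card A : ℝ) * ζ ≤ 1
  h2 : 2 * θ * Fintype.card A < b' ^ 4
  hζlam : ((Fintype.card A : ℝ) + 1) * lam * ζ ≤ 1 - 1 / b' ^ 4
  hexp : Real.exp (4 * θ) ≤ b
  /-- the next class -/
  hnext : ∀ {V' ι' : Type u} [DecidableEq V'] [DecidableEq ι'] (J : Inst V' ι' A),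
      (∀ v, ∑ i ∈ J.inc v, J.p i * (b' ^ 4) ^ (J.dom i).card ≤ 2 * θ) →
      J.Cls 2 b' 1 (fun i => 2 * (b' ^ 2) ^ (J.dom i).card * J.p i)
          (fun i => 1 + (J.dom i).card) ∧
        ∀ S : Finset V', ∏ i ∈ J.incS S, (1 + 2 * (b' ^ 2) ^ (J.dom i).card * J.p i)
          ≤ Real.exp (4 * θ) ^ S.card
  hη : ∀ u, ∑ x ∈ (I.pieces (T * C) T).inc u, ((I.pieces (T * C) T).dom x).card *
        (b' ^ 4) ^ ((I.pieces (T * C) T).dom x).card * (I.pieces (T * C) T).p x ≤ η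
  hηθ : η ≤ θ
  hD : ∀ u, (((I.pieces (T * C) T).nbv u).card : ℝ) ≤ D
  hloss : ∀ v, ((I.rel (ρ * C) v).card : ℝ) *
      (η / (θ * ζ) + D * Real.exp (lam * η / θ - lam)) ≤ δ

/-- size of the relevant part of the table -/
theorem param_rel_card {Δ m : ℕ} (hΔ : ∀ v, (I.inc v).card ≤ Δ) (hm : ∀ i, (I.dom i).card ≤ m)
    (M : ℕ) (v : V) : ((I.rel M v).card : ℝ) ≤ (((Δ * m + 1) ^ (M + 1) * (M + 1) : ℕ) : ℝ) := by
  have h := I.card_ball_le hΔ hm (M + 1) {v}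
  rw [card_singleton, one_mul] at h
  have h' : (I.rel M v).card ≤ (Δ * m + 1) ^ (M + 1) * (M + 1) := by
    rw [rel, card_product, card_range]
    exact Nat.mul_le_mul_right _ h
  exact_mod_cast h'

/-- existence: `ρ` first (`t^ρ` large), `b'` with `b'^4 < b`, `θ` small, then `T` large
(`tendsto_loss` with `lam = T²`, `ζ = (1-1/β)/((k+1)T²)`, `η = C₁/t^T`, `D = C₂^(T*C+1)`) -/
theorem exists_params {t b Cc : ℝ} {W K : ι → ℝ} (h : I.Cls t b Cc W K) {N : ℕ}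
    (hN : ∀ i, (I.dom i).card ≤ N) (hN' : ∀ v, (I.inc v).card ≤ N) (C : ℕ) {δ : ℝ} (hδ : 0 < δ) :
    Nonempty (I.Params t b Cc C δ) := by
  have ht := h.one_lt_t
  have hb := h.one_lt_b
  -- the radius
  have hev0 : ∀ᶠ n : ℕ in Filter.atTop, Cc / t ^ n < δ :=
    (param_const_div ht Cc).eventually (gt_mem_nhds hδ)
  obtain ⟨ρ, hρ⟩ := hev0.exists
  -- the new base
  obtain ⟨b', hb'1, hb'b⟩ : ∃ b' : ℝ, 1 < b' ∧ b' ^ 4 < b := by
    have hc : ContinuousAt (fun x : ℝ => x ^ 4) 1 := by fun_prop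
    have hmem : ∀ᶠ x : ℝ in nhds 1, x ^ 4 < b := hc.eventually (gt_mem_nhds (by simpa using hb))
    have hmem' : ∀ᶠ x : ℝ in nhdsWithin 1 (Set.Ioi 1), x ^ 4 < b := nhdsWithin_le_nhds hmem
    have hself : ∀ᶠ x : ℝ in nhdsWithin 1 (Set.Ioi 1), 1 < x := self_mem_nhdsWithin
    obtain ⟨x, hx⟩ := (hmem'.and hself).exists
    exact ⟨x, hx.2, hx.1⟩
  have hβ : (1 : ℝ) < b' ^ 4 := one_lt_pow₀ hb'1 (by norm_num)
  obtain ⟨θ₀, hθ₀, hnext⟩ := cls_next.{u} hb'1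
  have hk : (0 : ℝ) < Fintype.card A := by exact_mod_cast Fintype.card_pos
  -- theta
  have hlogb : 0 < Real.log b := Real.log_pos hb
  obtain ⟨θ, hθ, hθ1, hθ2, hθ3⟩ : ∃ θ : ℝ, 0 < θ ∧ θ ≤ θ₀ ∧ θ ≤ 1 / (4 * Fintype.card A) ∧
      θ ≤ Real.log b / 4 := by
    refine ⟨min θ₀ (min (1 / (4 * Fintype.card A)) (Real.log b / 4)), ?_, min_le_left _ _,
      (min_le_right _ _).trans (min_le_left _ _), (min_le_right _ _).trans (min_le_right _ _)⟩
    exact lt_min hθ₀ (lt_min (by positivity) (by positivity))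
  obtain ⟨C₁, hC₁, hsum⟩ := I.pieces_sum h hβ hb'b
  obtain ⟨C₂, hC₂, hnbv⟩ := I.pieces_nbv hN' hN
  -- the constant
  set R : ℝ := (((N * N + 1) ^ (ρ * C + 1) * (ρ * C + 1) : ℕ) : ℝ) with hR
  have hRpos : 0 < R := by
    rw [hR]
    exact_mod_cast Nat.mul_pos (pow_pos (Nat.succ_pos _) _) (Nat.succ_pos _)
  have hev1 := (param_const_div ht Cc).eventually (gt_mem_nhds hδ)
  have hev2 := (param_const_div ht C₁).eventually (gt_mem_nhds hθ)
  have hev3 := (tendsto_loss hC₁ hC₂ ht hβ hθ hk C).eventually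
    (gt_mem_nhds (show (0 : ℝ) < δ / R by positivity))
  obtain ⟨T, ⟨⟨⟨hT1, hT2⟩, hT3⟩, hT4⟩, hT5⟩ := ((((hev1.and hev2).and hev3).and
    (Filter.eventually_ge_atTop ρ)).and (Filter.eventually_ge_atTop 1)).exists
  have hTpos : (0 : ℝ) < T := by exact_mod_cast hT5
  have hT1' : (1 : ℝ) ≤ T := by exact_mod_cast hT5
  have hTsq : (1 : ℝ) ≤ (T : ℝ) ^ 2 := one_le_pow₀ hT1'
  have hs : 0 < 1 - 1 / b' ^ 4 := by
    have : 1 / b' ^ 4 < 1 := by rw [div_lt_one (by linarith)]; exact hβ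
    linarith
  have hs1 : 1 - 1 / b' ^ 4 ≤ 1 := by
    have : 0 ≤ 1 / b' ^ 4 := by positivity
    linarith
  have hk1 : (0 : ℝ) < Fintype.card A + 1 := by linarith
  refine ⟨{ ρ := ρ, T := T, b' := b', θ := θ,
            ζ := (1 - 1 / b' ^ 4) / ((Fintype.card A + 1) * (T : ℝ) ^ 2),
            η := C₁ / t ^ T, lam := (T : ℝ) ^ 2, D := C₂ ^ (T * C + 1),
            hρT := hT4, hρ := hρ.le, hT := hT1.le, hb' := hb'1, hθ := hθ,
            hζ := by positivity, hlam := by positivity, hkζ := ?_, h2 := ?_, hζlam := ?_,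
            hexp := ?_, hnext := ?_, hη := hsum (T * C) T, hηθ := hT2.le,
            hD := hnbv (T * C) T, hloss := ?_ }⟩
  · rw [mul_div_assoc', div_le_one (by positivity)]
    have h1 : (Fintype.card A : ℝ) * (1 - 1 / b' ^ 4) ≤ Fintype.card A * 1 :=
      mul_le_mul_of_nonneg_left hs1 hk.le
    have h2 : (Fintype.card A + 1 : ℝ) * 1 ≤ (Fintype.card A + 1) * (T : ℝ) ^ 2 :=
      mul_le_mul_of_nonneg_left hTsq hk1.le
    linarith
  · have h1 : 2 * θ * Fintype.card A ≤ 2 * (1 / (4 * Fintype.card A)) * Fintype.card A := by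
      gcongr
    have h2 : 2 * (1 / (4 * (Fintype.card A : ℝ))) * Fintype.card A = 1 / 2 := by
      field_simp
      norm_num
    linarith
  · apply le_of_eq
    field_simp
  · rw [← Real.le_log_iff_exp_le (by linarith)]
    linarith
  · intro V' ι' _ _ J hJ
    exact hnext J θ hθ hθ1 hJ
  · intro v
    have h1 : ((I.rel (ρ * C) v).card : ℝ) ≤ R := I.param_rel_card hN' hN (ρ * C) v
    have h3 : 0 ≤ C₁ / t ^ T / (θ * ((1 - 1 / b' ^ 4) / ((Fintype.card A + 1) * (T : ℝ) ^ 2))) +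
        C₂ ^ (T * C + 1) * Real.exp ((T : ℝ) ^ 2 * (C₁ / t ^ T) / θ - (T : ℝ) ^ 2) := by
      positivity
    calc _ ≤ R * (δ / R) := mul_le_mul h1 hT3.le h3 hRpos.le
      _ = δ := by field_simp

end Inst

end Pool.Agent.MLLL
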