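import Pool.Agent.Lib.MP_25f38e_lc.Defs

/-!
# Rooted pieces form a locally finite instance on the table entries

(helper43, problem MP_25f38e_lc)
-/

set_option linter.unusedSectionVars false

noncomputable section

open scoped Classical
open Finset

namespace Pool.Agent.MLLL

universe u

namespace Inst

variable {V ι : Type u} {A : Type} [DecidableEq V] [DecidableEq ι] (I : Inst V ι A)

theorem mem_seqs_succ {n : ℕ} {S : Finset V} {L : Finset ι} {P : Pc ι n} :
    Pc.cons L P ∈ I.seqs (n + 1) S ↔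
      L ⊆ I.incS S ∧ I.Indep L ∧ P ∈ I.seqs n (I.domL L) := by
  simp only [seqs, mem_biUnion, mem_filter, mem_powerset, mem_image]
  constructor
  · rintro ⟨L', ⟨h1, h2⟩, P', hP', he⟩
    cases he
    exact ⟨h1, h2, hP'⟩
  · rintro ⟨h1, h2, h3⟩
    exact ⟨L, ⟨h1, h2⟩, P, h3, rfl⟩

theorem sum_seqs_succ {n : ℕ} (S : Finset V) (f : Pc ι (n + 1) → ℝ) :
    ∑ P ∈ I.seqs (n + 1) S, f P =
      ∑ L ∈ (I.incS S).powerset.filter I.Indep, ∑ P ∈ I.seqs n (I.domL L),
        f (Pc.cons L P) := by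
  simp only [seqs]
  rw [sum_biUnion]
  · refine sum_congr rfl fun L _ => ?_
    rw [sum_image]
    intro P _ P' _ h
    cases h
    rfl
  · intro L _ L' _ hne
    rw [Function.onFun, disjoint_left]
    intro x hx hx'
    simp only [mem_image] at hx hx'
    obtain ⟨P, _, rfl⟩ := hx
    obtain ⟨P', _, h⟩ := hx'
    cases h
    exact hne rfl

/-! ### balls -/

theorem mem_nbv {v w : V} : w ∈ I.nbv v ↔ w = v ∨ ∃ i, v ∈ I.dom i ∧ w ∈ I.dom i := by
  simp [nbv, mem_inc]

theorem nbv_symm {v w : V} : w ∈ I.nbv v ↔ v ∈ I.nbv w := by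
  rw [mem_nbv, mem_nbv]
  constructor
  · rintro (h | ⟨i, h1, h2⟩)
    · exact Or.inl h.symm
    · exact Or.inr ⟨i, h2, h1⟩
  · rintro (h | ⟨i, h1, h2⟩)
    · exact Or.inl h.symm
    · exact Or.inr ⟨i, h2, h1⟩

theorem self_mem_nbv (v : V) : v ∈ I.nbv v := by simp [nbv]

theorem mem_nbS {w : V} {S : Finset V} : w ∈ I.nbS S ↔ ∃ v ∈ S, w ∈ I.nbv v := by
  simp [nbS]

theorem subset_nbS (S : Finset V) : S ⊆ I.nbS S := fun v hv =>
  I.mem_nbS.2 ⟨v, hv, I.self_mem_nbv v⟩

theorem nbS_mono {S T : Finset V} (h : S ⊆ T) : I.nbS S ⊆ I.nbS T := by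
  intro w hw
  obtain ⟨v, hv, h'⟩ := I.mem_nbS.1 hw
  exact I.mem_nbS.2 ⟨v, h hv, h'⟩

theorem ball_succ (r : ℕ) (S : Finset V) : I.ball (r + 1) S = I.nbS (I.ball r S) := rfl

theorem ball_zero (S : Finset V) : I.ball 0 S = S := rfl

theorem ball_add (r s : ℕ) (S : Finset V) : I.ball (r + s) S = I.ball r (I.ball s S) := by
  induction r with
  | zero => simp [ball_zero]
  | succ r ih => rw [Nat.succ_add, ball_succ, ball_succ, ih]

theorem ball_mono_set {S T : Finset V} (h : S ⊆ T) (r : ℕ) : I.ball r S ⊆ I.ball r T := by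
  induction r with
  | zero => exact h
  | succ r ih => exact I.nbS_mono ih

theorem ball_mono {r s : ℕ} (h : r ≤ s) (S : Finset V) : I.ball r S ⊆ I.ball s S := by
  induction h with
  | refl => exact Subset.rfl
  | step _ ih => exact ih.trans (I.subset_nbS _)

theorem subset_ball (r : ℕ) (S : Finset V) : S ⊆ I.ball r S := I.ball_mono (Nat.zero_le r) S

theorem mem_ball_iff {r : ℕ} {S : Finset V} {w : V} :
    w ∈ I.ball r S ↔ ∃ v ∈ S, w ∈ I.ball r {v} := by
  induction r generalizing w with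
  | zero => simp [ball_zero]
  | succ r ih =>
    rw [ball_succ, mem_nbS]
    constructor
    · rintro ⟨x, hx, hw⟩
      obtain ⟨v, hv, hx'⟩ := ih.1 hx
      exact ⟨v, hv, I.mem_nbS.2 ⟨x, hx', hw⟩⟩
    · rintro ⟨v, hv, hw⟩
      obtain ⟨x, hx, hw'⟩ := I.mem_nbS.1 hw
      exact ⟨x, ih.2 ⟨v, hv, hx⟩, hw'⟩

theorem ball_symm {r : ℕ} {v w : V} : w ∈ I.ball r {v} ↔ v ∈ I.ball r {w} := by
  have key : ∀ (r : ℕ) (v w : V), w ∈ I.ball r {v} → v ∈ I.ball r {w} := by
    intro r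
    induction r with
    | zero => intro v w h; simpa [ball_zero, eq_comm] using h
    | succ r ih =>
      intro v w h
      rw [ball_succ, mem_nbS] at h
      obtain ⟨x, hx, hw⟩ := h
      rw [I.ball_add r 1]
      have h1 : x ∈ I.ball 1 {w} := by
        rw [show (1 : ℕ) = 0 + 1 from rfl, ball_succ, ball_zero, mem_nbS]
        exact ⟨w, by simp, I.nbv_symm.1 hw⟩
      exact I.mem_ball_iff.2 ⟨x, h1, ih v x hx⟩
  exact ⟨key r v w, key r w v⟩

theorem domL_subset_nbS {L : Finset ι} {S : Finset V} (h : L ⊆ I.incS S) :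
    I.domL L ⊆ I.nbS S := by
  intro w hw
  obtain ⟨i, hi, hw'⟩ := I.mem_domL.1 hw
  obtain ⟨v, hv, hv'⟩ := I.mem_incS.1 (h hi)
  exact I.mem_nbS.2 ⟨v, hv, I.mem_nbv.2 (Or.inr ⟨i, hv', hw'⟩)⟩

theorem cnt_le (v : V) : ∀ (n : ℕ) (P : Pc ι n), I.cnt v n P ≤ n
  | 0, .nil => le_rfl
  | n + 1, .cons L P => by
    have := cnt_le v n P
    show I.cnt v n P + (if v ∈ I.domL L then 1 else 0) ≤ n + 1
    split_ifs <;> omega

theorem ent_subset : ∀ (n : ℕ) (S : Finset V) (P : Pc ι n), P ∈ I.seqs n S →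
    I.ent n P ⊆ I.ball n S ×ˢ range n
  | 0, _, .nil, _ => by intro x hx; exact absurd hx (by simp [ent])
  | n + 1, S, .cons L P, h => by
    obtain ⟨h1, _, h3⟩ := I.mem_seqs_succ.1 h
    have hb : I.ball n (I.domL L) ⊆ I.ball (n + 1) S := by
      rw [I.ball_add n 1]
      exact I.ball_mono_set (I.domL_subset_nbS h1) n
    intro x hx
    have hx' : x ∈ (I.domL L).image (fun v => (v, I.cnt v n P)) ∪ I.ent n P := hx
    rw [mem_union] at hx'
    rcases hx' with hx' | hx'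
    · rw [mem_image] at hx'
      obtain ⟨v, hv, rfl⟩ := hx'
      rw [mem_product, mem_range]
      exact ⟨hb (I.subset_ball n _ hv), Nat.lt_succ_of_le (I.cnt_le v n P)⟩
    · have := ent_subset n (I.domL L) P h3 hx'
      rw [mem_product, mem_range] at this ⊢
      exact ⟨hb this.1, this.2.trans (Nat.lt_succ_self n)⟩

theorem rootEnt_subset {n : ℕ} (S : Finset V) (P : Pc ι n) :
    I.rootEnt S P ⊆ S ×ˢ range (n + 1) := by
  intro x hx
  rw [rootEnt, mem_image] at hx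
  obtain ⟨v, hv, rfl⟩ := hx
  rw [mem_product, mem_range]
  exact ⟨hv, Nat.lt_succ_of_le (I.cnt_le v n P)⟩

theorem entR_subset {n : ℕ} {E : ι} {P : Pc ι n} (h : P ∈ I.seqs n (I.dom E)) :
    I.entR E P ⊆ I.ball n (I.dom E) ×ˢ range (n + 1) := by
  intro x hx
  rw [entR, mem_union] at hx
  rcases hx with hx | hx
  · have := I.rootEnt_subset _ _ hx
    rw [mem_product] at this ⊢
    exact ⟨I.subset_ball n _ this.1, this.2⟩
  · have := I.ent_subset n _ P h hx
    rw [mem_product, mem_range] at this ⊢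
    exact ⟨this.1, this.2.trans (Nat.lt_succ_self n)⟩

/-- the root of a piece using the variable `v` meets the ball around `v` -/
theorem root_mem {n : ℕ} {E : ι} {P : Pc ι n} (h : P ∈ I.seqs n (I.dom E)) {u : V × ℕ}
    (hu : u ∈ I.entR E P) : E ∈ I.incS (I.ball n {u.1}) := by
  have := I.entR_subset h hu
  rw [mem_product] at this
  obtain ⟨w, hw, hw'⟩ := I.mem_ball_iff.1 this.1
  exact I.mem_incS.2 ⟨w, I.ball_symm.1 hw', hw⟩

/-- congruence of consistency -/
theorem cons_congr : ∀ (n : ℕ) (P : Pc ι n) (τ τ' : V × ℕ → A),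
    (∀ x ∈ I.ent n P, τ x = τ' x) → I.cons τ n P → I.cons τ' n P
  | 0, .nil, _, _, _, _ => trivial
  | n + 1, .cons L P, τ, τ', h, hc => by
    have h' : ∀ x ∈ (I.domL L).image (fun v => (v, I.cnt v n P)) ∪ I.ent n P, τ x = τ' x := h
    obtain ⟨h1, h2⟩ := hc
    refine ⟨fun i hi => I.bad_congr i _ _ ?_ (h1 i hi), cons_congr n P τ τ' ?_ h2⟩
    · intro v hv
      exact h' _ (mem_union_left _ (mem_image.2 ⟨v, I.mem_domL.2 ⟨i, hi, hv⟩, rfl⟩))
    · intro x hx
      exact h' _ (mem_union_right _ hx)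

theorem consR_congr {n : ℕ} {E : ι} {P : Pc ι n} {τ τ' : V × ℕ → A}
    (h : ∀ x ∈ I.entR E P, τ x = τ' x) (hc : I.consR τ E P) : I.consR τ' E P := by
  refine ⟨I.bad_congr E _ _ ?_ hc.1, I.cons_congr n P τ τ' ?_ hc.2⟩
  · intro v hv
    exact h _ (mem_union_left _ (mem_image.2 ⟨v, hv, rfl⟩))
  · intro x hx
    exact h _ (mem_union_right _ hx)

/-- index type of the rooted pieces with `M` layers (besides the root) and at least `T`
non-root events -/
def PIdx (M T : ℕ) : Type u :=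
  {x : ι × Pc ι M // x.2 ∈ I.seqs M (I.dom x.1) ∧ T ≤ size M x.2}

instance (M T : ℕ) : DecidableEq (I.PIdx M T) := Classical.decEq _

/-- the instance of rooted pieces, on the table entries -/
def pieces (M T : ℕ) : Inst (V × ℕ) (I.PIdx M T) A where
  dom x := I.entR x.1.1 x.1.2
  fin u := by
    refine Set.Finite.of_finite_image (f := fun x : I.PIdx M T => x.1)
      (((I.incS (I.ball M {u.1})).biUnion fun E =>
        (I.seqs M (I.dom E)).image fun P => ((E, P) : ι × Pc ι M)).finite_toSet.subset ?_)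
      (fun x _ y _ h => Subtype.ext h)
    rintro _ ⟨x, hx, rfl⟩
    have hx' : u ∈ I.entR x.1.1 x.1.2 := hx
    simp only [coe_biUnion, Set.mem_iUnion, mem_coe, mem_image]
    exact ⟨x.1.1, I.root_mem x.2.1 hx', x.1.2, x.2.1, rfl⟩
  bad x τ := I.consR τ x.1.1 x.1.2
  bad_congr := fun x τ τ' h hb => I.consR_congr h hb
  ne_of_bad := by
    intro x τ hb
    obtain ⟨v, hv⟩ := I.ne_of_bad _ _ hb.1
    exact ⟨_, mem_union_left _ (mem_image.2 ⟨v, hv, rfl⟩)⟩

end Inst

end Pool.Agent.MLLL
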