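import Pool.Agent.Lib.MP_25f38e_lc.Pieces
import Pool.Agent.Lib.MP_25f38e_lc.Avg

/-! MODULE RULEB, part 1 : sure guarantees and the martingale property of the exposure rule -/

set_option linter.unusedSectionVars false

noncomputable section

open scoped Classical
open Finset

namespace Pool.Agent.MLLL

universe u

namespace Inst

variable {V ι : Type u} {A : Type} [DecidableEq V] [DecidableEq ι] [Fintype A] [Nonempty A]
  (I : Inst V ι A)

theorem ruleb_card_pos : (0 : ℝ) < (Fintype.card A : ℝ) := by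
  exact_mod_cast Fintype.card_pos

theorem ruleb_dep (i : ι) :
    DependsOn (fun g : V → A => ind (I.bad i g)) ((I.dom i : Finset V) : Set V) := by
  intro g g' h
  have : I.bad i g ↔ I.bad i g' :=
    ⟨I.bad_congr i g g' (fun v hv => h v (by simpa using hv)),
      I.bad_congr i g' g (fun v hv => (h v (by simpa using hv)).symm)⟩
  simp [ind, this]

theorem ruleb_cp_nonneg (Y : Set V) (σ : V → A) (i : ι) : 0 ≤ I.cp Y σ i :=
  avg_nonneg (fun _ => ind_nonneg _)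

theorem ruleb_cp_congr {Y : Set V} {σ σ' : V → A} {i : ι}
    (h : ∀ v ∈ Y, v ∈ I.dom i → σ v = σ' v) : I.cp Y σ i = I.cp Y σ' i := by
  unfold cp
  refine avg_congr (I.ruleb_dep i) ?_
  intro v hv hn
  have hv' : v ∈ I.dom i := by simpa using hv
  apply h v _ hv'
  by_contra hY
  exact hn (by simp [hv', hY])

theorem ruleb_cp_eq_of_filter {Y Y' : Set V} {σ : V → A} {i : ι}
    (h : (I.dom i).filter (· ∉ Y) = (I.dom i).filter (· ∉ Y')) :
    I.cp Y σ i = I.cp Y' σ i := by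
  unfold cp; rw [h]

theorem ruleb_fr_eq_of_filter {Y Y' : Set V} {i : ι}
    (h : (I.dom i).filter (· ∉ Y) = (I.dom i).filter (· ∉ Y')) :
    I.fr Y i = I.fr Y' i := by
  unfold fr; rw [h]

/-- the conditional probability as an average over the value of one more free variable -/
theorem ruleb_cp_insert {Y Y' : Set V} {σ : V → A} {i : ι} {u : V}
    (h : (I.dom i).filter (· ∉ Y) = insert u ((I.dom i).filter (· ∉ Y')))
    (hu : u ∉ (I.dom i).filter (· ∉ Y')) :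
    I.cp Y σ i = (∑ a : A, avg ((I.dom i).filter (· ∉ Y')) (fun g => ind (I.bad i g))
      (Function.update σ u a)) / Fintype.card A := by
  unfold cp
  rw [h, avg_insert hu]

theorem ruleb_cp_le {Y Y' : Set V} {σ : V → A} {i : ι} {u : V}
    (h : (I.dom i).filter (· ∉ Y) = insert u ((I.dom i).filter (· ∉ Y')))
    (hu : u ∉ (I.dom i).filter (· ∉ Y')) :
    I.cp Y' σ i ≤ Fintype.card A * I.cp Y σ i := by
  have hk := ruleb_card_pos (A := A)
  rw [I.ruleb_cp_insert h hu, mul_div_cancel₀ _ hk.ne']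
  have h1 : I.cp Y' σ i = avg ((I.dom i).filter (· ∉ Y')) (fun g => ind (I.bad i g))
      (Function.update σ u (σ u)) := by
    unfold cp; rw [Function.update_eq_self]
  rw [h1]
  exact Finset.single_le_sum (f := fun a : A => avg ((I.dom i).filter (· ∉ Y'))
    (fun g => ind (I.bad i g)) (Function.update σ u a))
    (fun a _ => avg_nonneg (fun _ => ind_nonneg _)) (Finset.mem_univ (σ u))

theorem ruleb_fr_insert {Y Y' : Set V} {i : ι} {u : V}
    (h : (I.dom i).filter (· ∉ Y) = insert u ((I.dom i).filter (· ∉ Y')))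
    (hu : u ∉ (I.dom i).filter (· ∉ Y')) : I.fr Y i = I.fr Y' i + 1 := by
  unfold fr; rw [h, Finset.card_insert_of_notMem hu]

theorem ruleb_filter_empty {Y : Set V} (hY : Y = ∅) (i : ι) :
    (I.dom i).filter (· ∉ Y) = I.dom i := by
  ext v; simp [hY]

theorem ruleb_cp_empty {Y : Set V} (hY : Y = ∅) (σ : V → A) (i : ι) : I.cp Y σ i = I.p i := by
  unfold cp p
  rw [I.ruleb_filter_empty hY]
  refine avg_congr (I.ruleb_dep i) ?_
  intro v hv hn
  exact absurd (by simpa using hv) hn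

theorem ruleb_fr_empty {Y : Set V} (hY : Y = ∅) (i : ι) : I.fr Y i = (I.dom i).card := by
  unfold fr
  rw [I.ruleb_filter_empty hY]

theorem ruleb_mem_nbv_of_dom {i : ι} {u v : V} (hu : u ∈ I.dom i) (hv : v ∈ I.dom i) :
    u ∈ I.nbv v := by
  unfold nbv
  rw [Finset.mem_insert, Finset.mem_biUnion]
  exact Or.inr ⟨i, I.mem_inc.2 hv, hu⟩

theorem ruleb_nbv_symm {u v : V} (h : u ∈ I.nbv v) : v ∈ I.nbv u := by
  unfold nbv at h
  rw [Finset.mem_insert, Finset.mem_biUnion] at h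
  rcases h with h | ⟨i, hi, hu⟩
  · subst h; unfold nbv; simp
  · exact I.ruleb_mem_nbv_of_dom (I.mem_inc.1 hi) hu

/-- all exposed variables after `s` steps have labels smaller than `s` -/
theorem ruleb_lt {β θ ζ : ℝ} {ℓ : V → ℕ} {σ : V → A} :
    ∀ {s : ℕ} {v : V}, v ∈ I.Yx β θ ζ ℓ σ s → ℓ v < s := by
  intro s
  induction s with
  | zero => intro v hv; simp [Yx] at hv
  | succ s ih =>
    intro v hv
    rcases hv with hv | hv
    · exact (ih hv).trans (Nat.lt_succ_self s)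
    · have : ℓ v = s := hv.1
      omega

theorem ruleb_Yx_succ {β θ ζ : ℝ} {ℓ : V → ℕ} {σ : V → A} {s : ℕ} :
    I.Yx β θ ζ ℓ σ (s + 1) = I.Yx β θ ζ ℓ σ s ∪
      {u | ℓ u = s ∧ I.c1 ℓ u ∧ I.c2 β θ ζ (I.Yx β θ ζ ℓ σ s) σ u} := rfl

theorem ruleb_subset {β θ ζ : ℝ} {ℓ : V → ℕ} {σ : V → A} {s : ℕ} :
    I.Yx β θ ζ ℓ σ s ⊆ I.Yx β θ ζ ℓ σ (s + 1) := by
  rw [ruleb_Yx_succ]; exact Set.subset_union_left

theorem ruleb_qq_congr {β : ℝ} {Y : Set V} {σ σ' : V → A} (h : ∀ v ∈ Y, σ v = σ' v) (v u : V) :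
    I.qq β Y σ v u = I.qq β Y σ' v u := by
  unfold qq
  refine Finset.sum_congr rfl fun i _ => ?_
  rw [I.ruleb_cp_congr (fun w hw _ => h w hw)]

theorem ruleb_Psi_congr {β : ℝ} {Y : Set V} {σ σ' : V → A} (h : ∀ v ∈ Y, σ v = σ' v) (v : V) :
    I.Psi β Y σ v = I.Psi β Y σ' v := by
  unfold Psi
  refine Finset.sum_congr rfl fun i _ => ?_
  rw [I.ruleb_cp_congr (fun w hw _ => h w hw)]

theorem ruleb_c2_congr {β θ ζ : ℝ} {Y : Set V} {σ σ' : V → A} (h : ∀ v ∈ Y, σ v = σ' v)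
    (u : V) : I.c2 β θ ζ Y σ u ↔ I.c2 β θ ζ Y σ' u := by
  unfold c2
  constructor
  · intro hc v hv hne hY
    rw [← I.ruleb_qq_congr h, ← I.ruleb_Psi_congr h]
    exact hc v hv hne hY
  · intro hc v hv hne hY
    rw [I.ruleb_qq_congr h, I.ruleb_Psi_congr h]
    exact hc v hv hne hY

theorem ruleb_step_congr {β θ ζ : ℝ} {ℓ : V → ℕ} {σ σ' : V → A} {s : ℕ}
    (hY : I.Yx β θ ζ ℓ σ s = I.Yx β θ ζ ℓ σ' s) (h : ∀ v, ℓ v < s → σ v = σ' v) :
    I.Yx β θ ζ ℓ σ (s + 1) = I.Yx β θ ζ ℓ σ' (s + 1) := by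
  rw [ruleb_Yx_succ, ruleb_Yx_succ, ← hY]
  congr 1
  ext u
  have hh : ∀ v ∈ I.Yx β θ ζ ℓ σ s, σ v = σ' v := fun v hv => h v (I.ruleb_lt hv)
  simp only [Set.mem_ofPred_eq]
  rw [I.ruleb_c2_congr hh]

/-- the exposed set after `s + 1` steps only depends on the values of the variables with labels
smaller than `s` -/
theorem ruleb_Yx_congr {β θ ζ : ℝ} {ℓ : V → ℕ} {σ σ' : V → A} :
    ∀ {s : ℕ}, (∀ v, ℓ v < s → σ v = σ' v) →
      I.Yx β θ ζ ℓ σ (s + 1) = I.Yx β θ ζ ℓ σ' (s + 1) ∧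
      I.Yx β θ ζ ℓ σ s = I.Yx β θ ζ ℓ σ' s := by
  intro s
  induction s with
  | zero =>
    intro h
    have h0 : I.Yx β θ ζ ℓ σ 0 = I.Yx β θ ζ ℓ σ' 0 := rfl
    exact ⟨I.ruleb_step_congr h0 h, h0⟩
  | succ s ih =>
    intro h
    have h1 := (ih (fun v hv => h v (hv.trans (Nat.lt_succ_self s)))).1
    exact ⟨I.ruleb_step_congr h1 h, h1⟩

/-- what happens to the unexposed part of a set contained in a neighbourhood in one step -/
theorem ruleb_unique {β θ ζ : ℝ} {ℓ : V → ℕ} {σ : V → A} {s : ℕ} {v u u' : V}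
    (hu : u ∈ I.nbv v) (hu' : u' ∈ I.nbv v)
    (h : u ∈ I.Yx β θ ζ ℓ σ (s + 1)) (hn : u ∉ I.Yx β θ ζ ℓ σ s)
    (h' : u' ∈ I.Yx β θ ζ ℓ σ (s + 1)) (hn' : u' ∉ I.Yx β θ ζ ℓ σ s) : u' = u := by
  rw [ruleb_Yx_succ] at h h'
  rcases h with h | ⟨hl, hc1, -⟩
  · exact absurd h hn
  rcases h' with h' | ⟨hl', -, -⟩
  · exact absurd h' hn'
  by_contra hne
  exact hc1 v (I.ruleb_nbv_symm hu) u' hu' hne (hl'.trans hl.symm)

theorem ruleb_c2_of {β θ ζ : ℝ} {ℓ : V → ℕ} {σ : V → A} {s : ℕ} {u : V}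
    (h : u ∈ I.Yx β θ ζ ℓ σ (s + 1)) (hn : u ∉ I.Yx β θ ζ ℓ σ s) :
    ℓ u = s ∧ I.c1 ℓ u ∧ I.c2 β θ ζ (I.Yx β θ ζ ℓ σ s) σ u := by
  rw [ruleb_Yx_succ] at h
  rcases h with h | h
  · exact absurd h hn
  · exact h

theorem ruleb_filter_eq {Y Y' : Set V} {S : Finset V} (hYY : Y ⊆ Y')
    (h : ∀ u ∈ S, u ∈ Y' → u ∈ Y) : S.filter (· ∉ Y) = S.filter (· ∉ Y') := by
  ext w
  simp only [Finset.mem_filter]
  constructor
  · rintro ⟨h1, h2⟩; exact ⟨h1, fun h3 => h2 (h w h1 h3)⟩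
  · rintro ⟨h1, h2⟩; exact ⟨h1, fun h3 => h2 (hYY h3)⟩

theorem ruleb_filter_insert {Y Y' : Set V} {S : Finset V} (hYY : Y ⊆ Y') {u : V} (huS : u ∈ S)
    (hu : u ∈ Y') (hun : u ∉ Y) (h : ∀ w ∈ S, w ∈ Y' → w ∉ Y → w = u) :
    S.filter (· ∉ Y) = insert u (S.filter (· ∉ Y')) ∧ u ∉ S.filter (· ∉ Y') := by
  constructor
  · ext w
    simp only [Finset.mem_filter, Finset.mem_insert]
    constructor
    · rintro ⟨h1, h2⟩
      by_cases h3 : w ∈ Y'
      · exact Or.inl (h w h1 h3 h2)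
      · exact Or.inr ⟨h1, h3⟩
    · rintro (h1 | ⟨h1, h2⟩)
      · subst h1; exact ⟨huS, hun⟩
      · exact ⟨h1, fun h3 => h2 (hYY h3)⟩
  · simp [hu]

theorem ruleb_Psi_le {β θ ζ : ℝ} (hβ : 1 < β) (hθ : 0 < θ)
    (hkζ : (Fintype.card A : ℝ) * ζ ≤ 1)
    (h0 : ∀ v, ∑ i ∈ I.inc v, I.p i * β ^ (I.dom i).card ≤ θ)
    (ℓ : V → ℕ) (σ : V → A) :
    ∀ s : ℕ, ∀ v, v ∉ I.Yx β θ ζ ℓ σ s → I.Psi β (I.Yx β θ ζ ℓ σ s) σ v ≤ 2 * θ := by
  intro s
  induction s with
  | zero =>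
    intro v _
    have h1 : I.Psi β (I.Yx β θ ζ ℓ σ 0) σ v = ∑ i ∈ I.inc v, I.p i * β ^ (I.dom i).card := by
      unfold Psi
      refine Finset.sum_congr rfl fun i _ => ?_
      have h2 : I.Yx β θ ζ ℓ σ 0 = (∅ : Set V) := rfl
      rw [I.ruleb_cp_empty h2, I.ruleb_fr_empty h2]
    rw [h1]
    have := h0 v
    linarith
  | succ s ih =>
    intro v hv
    have hsub := I.ruleb_subset (β := β) (θ := θ) (ζ := ζ) (ℓ := ℓ) (σ := σ) (s := s)
    have hvs : v ∉ I.Yx β θ ζ ℓ σ s := fun h => hv (hsub h)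
    by_cases hex : ∃ u ∈ I.nbv v, u ∈ I.Yx β θ ζ ℓ σ (s + 1) ∧ u ∉ I.Yx β θ ζ ℓ σ s
    · obtain ⟨u, hun, hu1, hu2⟩ := hex
      obtain ⟨-, -, hc2⟩ := I.ruleb_c2_of hu1 hu2
      have hvu : v ≠ u := by rintro rfl; exact hv hu1
      obtain ⟨hq, hP⟩ := hc2 v (I.ruleb_nbv_symm hun) hvu hvs
      have hβ0 : (0 : ℝ) < β := by linarith
      -- termwise bound
      have hterm : ∀ i ∈ I.inc v,
          I.cp (I.Yx β θ ζ ℓ σ (s + 1)) σ i * β ^ I.fr (I.Yx β θ ζ ℓ σ (s + 1)) i ≤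
            I.cp (I.Yx β θ ζ ℓ σ s) σ i * β ^ I.fr (I.Yx β θ ζ ℓ σ s) i +
              (if u ∈ I.dom i then (Fintype.card A : ℝ) *
                (I.cp (I.Yx β θ ζ ℓ σ s) σ i * β ^ I.fr (I.Yx β θ ζ ℓ σ s) i) else 0) := by
        intro i hi
        have hvi := I.mem_inc.1 hi
        by_cases hui : u ∈ I.dom i
        · obtain ⟨hf, hnf⟩ := ruleb_filter_insert (S := I.dom i) hsub hui hu1 hu2
            (fun w hw hw1 hw2 => I.ruleb_unique hun (I.ruleb_mem_nbv_of_dom hw hvi)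
              hu1 hu2 hw1 hw2)
          have hcp := I.ruleb_cp_le (σ := σ) hf hnf
          have hfr := I.ruleb_fr_insert hf hnf
          have hcp0 := I.ruleb_cp_nonneg (I.Yx β θ ζ ℓ σ s) σ i
          have hpow : β ^ I.fr (I.Yx β θ ζ ℓ σ (s + 1)) i ≤
              β ^ I.fr (I.Yx β θ ζ ℓ σ s) i := by
            rw [hfr]; exact pow_le_pow_right₀ hβ.le (Nat.le_succ _)
          rw [if_pos hui]
          have h1 : I.cp (I.Yx β θ ζ ℓ σ (s + 1)) σ i *
              β ^ I.fr (I.Yx β θ ζ ℓ σ (s + 1)) i ≤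
              (Fintype.card A * I.cp (I.Yx β θ ζ ℓ σ s) σ i) *
                β ^ I.fr (I.Yx β θ ζ ℓ σ s) i := by
            apply mul_le_mul hcp hpow (by positivity)
            exact mul_nonneg (ruleb_card_pos (A := A)).le hcp0
          have h2 : 0 ≤ I.cp (I.Yx β θ ζ ℓ σ s) σ i * β ^ I.fr (I.Yx β θ ζ ℓ σ s) i :=
            mul_nonneg hcp0 (by positivity)
          nlinarith [h1, h2]
        · have hf : (I.dom i).filter (· ∉ I.Yx β θ ζ ℓ σ s) =
              (I.dom i).filter (· ∉ I.Yx β θ ζ ℓ σ (s + 1)) := by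
            refine ruleb_filter_eq hsub ?_
            intro w hw hw1
            by_contra hw2
            have := I.ruleb_unique hun (I.ruleb_mem_nbv_of_dom hw hvi) hu1 hu2 hw1 hw2
            exact hui (this ▸ hw)
          rw [I.ruleb_cp_eq_of_filter (σ := σ) hf, I.ruleb_fr_eq_of_filter hf, if_neg hui]
          simp
      have hsum : I.Psi β (I.Yx β θ ζ ℓ σ (s + 1)) σ v ≤
          I.Psi β (I.Yx β θ ζ ℓ σ s) σ v +
            Fintype.card A * I.qq β (I.Yx β θ ζ ℓ σ s) σ v u := by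
        unfold Psi qq
        refine (Finset.sum_le_sum hterm).trans ?_
        rw [Finset.sum_add_distrib, Finset.mul_sum, Finset.sum_filter]
      have hkpos := ruleb_card_pos (A := A)
      have h3 : (Fintype.card A : ℝ) * I.qq β (I.Yx β θ ζ ℓ σ s) σ v u ≤ θ := by
        calc (Fintype.card A : ℝ) * I.qq β (I.Yx β θ ζ ℓ σ s) σ v u
            ≤ (Fintype.card A : ℝ) * (θ * ζ) := mul_le_mul_of_nonneg_left hq hkpos.le
          _ = θ * ((Fintype.card A : ℝ) * ζ) := by ring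
          _ ≤ θ * 1 := mul_le_mul_of_nonneg_left hkζ hθ.le
          _ = θ := mul_one θ
      linarith
    · push Not at hex
      have h1 : I.Psi β (I.Yx β θ ζ ℓ σ (s + 1)) σ v = I.Psi β (I.Yx β θ ζ ℓ σ s) σ v := by
        unfold Psi
        refine Finset.sum_congr rfl fun i hi => ?_
        have hvi := I.mem_inc.1 hi
        have hf : (I.dom i).filter (· ∉ I.Yx β θ ζ ℓ σ s) =
            (I.dom i).filter (· ∉ I.Yx β θ ζ ℓ σ (s + 1)) := by
          refine ruleb_filter_eq hsub ?_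
          intro w hw hw1
          exact hex w (I.ruleb_mem_nbv_of_dom hw hvi) hw1
        rw [I.ruleb_cp_eq_of_filter (σ := σ) hf, I.ruleb_fr_eq_of_filter hf]
      rw [h1]
      exact ih v hvs

/-- SURE guarantees of rule B. -/
theorem yx_sure {β θ ζ : ℝ} (hβ : 1 < β) (hθ : 0 < θ) (hζ : 0 ≤ ζ)
    (hkζ : (Fintype.card A : ℝ) * ζ ≤ 1) (h2 : 2 * θ * Fintype.card A < β)
    (h0 : ∀ v, ∑ i ∈ I.inc v, I.p i * β ^ (I.dom i).card ≤ θ)
    (ℓ : V → ℕ) (σ : V → A) (s : ℕ) :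
    (∀ v, v ∉ I.Yx β θ ζ ℓ σ s → I.Psi β (I.Yx β θ ζ ℓ σ s) σ v ≤ 2 * θ) ∧
      ∀ i, (I.dom i : Set V) ⊆ I.Yx β θ ζ ℓ σ s → ¬ I.bad i σ := by
  refine ⟨I.ruleb_Psi_le hβ hθ hkζ h0 ℓ σ s, ?_⟩
  induction s with
  | zero =>
    intro i hi hbad
    obtain ⟨v, hv⟩ := I.ne_of_bad i σ hbad
    exact hi (Finset.mem_coe.2 hv)
  | succ s ih =>
    intro i hi hbad
    have hsub := I.ruleb_subset (β := β) (θ := θ) (ζ := ζ) (ℓ := ℓ) (σ := σ) (s := s)
    by_cases hs : (I.dom i : Set V) ⊆ I.Yx β θ ζ ℓ σ s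
    · exact ih i hs hbad
    rw [Set.not_subset] at hs
    obtain ⟨u, hui, hun⟩ := hs
    have hui' : u ∈ I.dom i := Finset.mem_coe.1 hui
    have hu1 : u ∈ I.Yx β θ ζ ℓ σ (s + 1) := hi hui
    have hself : u ∈ I.nbv u := I.ruleb_mem_nbv_of_dom hui' hui'
    obtain ⟨hf, hnf⟩ := ruleb_filter_insert (S := I.dom i) hsub hui' hu1 hun
      (fun w hw hw1 hw2 => I.ruleb_unique hself (I.ruleb_mem_nbv_of_dom hw hui')
        hu1 hun hw1 hw2)
    have hemp : (I.dom i).filter (· ∉ I.Yx β θ ζ ℓ σ (s + 1)) = ∅ := by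
      refine Finset.filter_eq_empty_iff.2 ?_
      intro w hw
      exact not_not.2 (hi (Finset.mem_coe.2 hw))
    have hk := ruleb_card_pos (A := A)
    have hcp1 : I.cp (I.Yx β θ ζ ℓ σ (s + 1)) σ i = 1 := by
      unfold cp
      rw [hemp, avg_empty]
      simp [ind, hbad]
    have hcp := I.ruleb_cp_le (σ := σ) hf hnf
    rw [hcp1] at hcp
    have hfr : I.fr (I.Yx β θ ζ ℓ σ s) i = 1 := by
      rw [I.ruleb_fr_insert hf hnf]
      unfold fr
      rw [hemp]; simp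
    have hΨ := I.ruleb_Psi_le hβ hθ hkζ h0 ℓ σ s u hun
    have hle : I.cp (I.Yx β θ ζ ℓ σ s) σ i * β ^ I.fr (I.Yx β θ ζ ℓ σ s) i ≤
        I.Psi β (I.Yx β θ ζ ℓ σ s) σ u := by
      unfold Psi
      exact Finset.single_le_sum
        (f := fun i => I.cp (I.Yx β θ ζ ℓ σ s) σ i * β ^ I.fr (I.Yx β θ ζ ℓ σ s) i)
        (fun j _ => mul_nonneg (I.ruleb_cp_nonneg _ _ _) (by positivity)) (I.mem_inc.2 hui')
    rw [hfr, pow_one] at hle
    have h3 : I.cp (I.Yx β θ ζ ℓ σ s) σ i * β ≤ 2 * θ := hle.trans hΨ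
    have hβ0 : (0 : ℝ) < β := by linarith
    have h4 : β ≤ Fintype.card A * (I.cp (I.Yx β θ ζ ℓ σ s) σ i * β) := by
      nlinarith [hcp, hβ0]
    have h5 : (Fintype.card A : ℝ) * (I.cp (I.Yx β θ ζ ℓ σ s) σ i * β) ≤
        Fintype.card A * (2 * θ) := mul_le_mul_of_nonneg_left h3 hk.le
    linarith

/-- one step of the martingale -/
theorem ruleb_martingale_step {β θ ζ : ℝ} {L : ℕ} (ℓ : V → Fin L) {S : Finset V}
    (hℓ : Set.InjOn ℓ (S : Set V)) {Φ : (V → A) → ℝ} (hΦ : DependsOn Φ (S : Set V))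
    (s : ℕ) (hs : s < L) :
    ex (fun ω : Fin L → A =>
      avg (S.filter (· ∉ I.Yx β θ ζ (fun v => (ℓ v : ℕ)) (fun v => ω (ℓ v)) (s + 1))) Φ
        (fun v => ω (ℓ v))) =
    ex (fun ω : Fin L → A =>
      avg (S.filter (· ∉ I.Yx β θ ζ (fun v => (ℓ v : ℕ)) (fun v => ω (ℓ v)) s)) Φ
        (fun v => ω (ℓ v))) := by
  have hk := ruleb_card_pos (A := A)
  set l : Fin L := ⟨s, hs⟩ with hl
  rw [ex_update l]
  conv_rhs => rw [ex_update l]
  congr 1
  funext ω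
  congr 1
  -- the exposed sets do not depend on the value of coordinate `l`
  have hY : ∀ a : A, I.Yx β θ ζ (fun v => (ℓ v : ℕ))
        (fun v => Function.update ω l a (ℓ v)) (s + 1) =
        I.Yx β θ ζ (fun v => (ℓ v : ℕ)) (fun v => ω (ℓ v)) (s + 1) ∧
      I.Yx β θ ζ (fun v => (ℓ v : ℕ)) (fun v => Function.update ω l a (ℓ v)) s =
        I.Yx β θ ζ (fun v => (ℓ v : ℕ)) (fun v => ω (ℓ v)) s := by
    intro a
    refine I.ruleb_Yx_congr ?_
    intro v hv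
    have : ℓ v ≠ l := by
      intro h; rw [h] at hv; simp [hl] at hv
    simp [Function.update_of_ne this]
  have hE1 : ∀ a : A, avg (S.filter (· ∉ I.Yx β θ ζ (fun v => (ℓ v : ℕ))
        (fun v => Function.update ω l a (ℓ v)) (s + 1))) Φ
        (fun v => Function.update ω l a (ℓ v)) =
      avg (S.filter (· ∉ I.Yx β θ ζ (fun v => (ℓ v : ℕ)) (fun v => ω (ℓ v)) (s + 1))) Φ
        (fun v => Function.update ω l a (ℓ v)) := by
    intro a; rw [(hY a).1]
  have hE2 : ∀ a : A, avg (S.filter (· ∉ I.Yx β θ ζ (fun v => (ℓ v : ℕ))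
        (fun v => Function.update ω l a (ℓ v)) s)) Φ
        (fun v => Function.update ω l a (ℓ v)) =
      avg (S.filter (· ∉ I.Yx β θ ζ (fun v => (ℓ v : ℕ)) (fun v => ω (ℓ v)) s)) Φ
        (fun v => Function.update ω l a (ℓ v)) := by
    intro a; rw [(hY a).2]
  rw [Finset.sum_congr rfl (fun a _ => hE1 a), Finset.sum_congr rfl (fun a _ => hE2 a)]
  set Y := I.Yx β θ ζ (fun v => (ℓ v : ℕ)) (fun v => ω (ℓ v)) s with hYdef
  set Y' := I.Yx β θ ζ (fun v => (ℓ v : ℕ)) (fun v => ω (ℓ v)) (s + 1) with hY'def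
  have hsub : Y ⊆ Y' := I.ruleb_subset
  by_cases hex : ∃ u ∈ S, u ∈ Y' ∧ u ∉ Y
  · obtain ⟨u, huS, hu1, hu2⟩ := hex
    have hlab : ∀ w, w ∈ Y' → w ∉ Y → ℓ w = l := by
      intro w hw1 hw2
      have := (I.ruleb_c2_of hw1 hw2).1
      exact Fin.ext this
    have hul : ℓ u = l := hlab u hu1 hu2
    obtain ⟨hf, hnf⟩ := ruleb_filter_insert (S := S) hsub huS hu1 hu2
      (fun w hw hw1 hw2 => hℓ (Finset.mem_coe.2 hw) (Finset.mem_coe.2 huS)
        ((hlab w hw1 hw2).trans hul.symm))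
    -- the right-hand side is constant
    have hR : ∀ a : A, avg (S.filter (· ∉ Y)) Φ (fun v => Function.update ω l a (ℓ v)) =
        (∑ b : A, avg (S.filter (· ∉ Y')) Φ (fun v => Function.update ω l b (ℓ v))) /
          Fintype.card A := by
      intro a
      rw [hf, avg_insert hnf]
      congr 1
      refine Finset.sum_congr rfl fun b _ => ?_
      refine avg_congr hΦ ?_
      intro v hv _
      by_cases hvu : v = u
      · subst hvu; simp [hul]
      · have : ℓ v ≠ l := by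
          intro h
          exact hvu (hℓ hv (Finset.mem_coe.2 huS) (h.trans hul.symm))
        simp [Function.update_of_ne hvu, Function.update_of_ne this]
    rw [Finset.sum_congr rfl (fun a _ => hR a), Finset.sum_const, Finset.card_univ,
      nsmul_eq_mul, mul_div_cancel₀ _ hk.ne']
  · push Not at hex
    have hf : S.filter (· ∉ Y) = S.filter (· ∉ Y') :=
      ruleb_filter_eq hsub (fun w hw hw1 => hex w hw hw1)
    rw [hf]

/-- MARTINGALE property: if the labels are injective on `S` the average over the unexposed part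
of `S` of a function depending on `S` is a martingale -/
theorem yx_martingale {β θ ζ : ℝ} {L : ℕ} (ℓ : V → Fin L) {S : Finset V}
    (hℓ : Set.InjOn ℓ (S : Set V)) {Φ : (V → A) → ℝ} (hΦ : DependsOn Φ (S : Set V))
    (g : V → A) :
    ex (fun ω : Fin L → A =>
      avg (S.filter (· ∉ I.Yx β θ ζ (fun v => (ℓ v : ℕ)) (fun v => ω (ℓ v)) L)) Φ
        (fun v => ω (ℓ v))) = avg S Φ g := by
  have key : ∀ s : ℕ, s ≤ L → ex (fun ω : Fin L → A =>
      avg (S.filter (· ∉ I.Yx β θ ζ (fun v => (ℓ v : ℕ)) (fun v => ω (ℓ v)) s)) Φ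
        (fun v => ω (ℓ v))) = avg S Φ g := by
    intro s
    induction s with
    | zero =>
      intro _
      have h1 : ∀ ω : Fin L → A,
          avg (S.filter (· ∉ I.Yx β θ ζ (fun v => (ℓ v : ℕ)) (fun v => ω (ℓ v)) 0)) Φ
            (fun v => ω (ℓ v)) = avg S Φ g := by
        intro ω
        have h2 : S.filter (· ∉ I.Yx β θ ζ (fun v => (ℓ v : ℕ)) (fun v => ω (ℓ v)) 0) = S := by
          ext v
          simp [Yx]
        rw [h2]
        refine avg_congr hΦ ?_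
        intro v hv hn
        exact absurd (Finset.mem_coe.1 hv) hn
      simp only [h1]
      exact ex_const _
    | succ s ih =>
      intro hs
      rw [I.ruleb_martingale_step ℓ hℓ hΦ s hs]
      exact ih (Nat.le_of_succ_le hs)
  exact key L le_rfl

end Inst

end Pool.Agent.MLLL
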