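import Pool.Agent.Lib.MP_25f38e_lc.Pieces
import Pool.Agent.Lib.MP_25f38e_lc.Avg

/-!
# The exposure rule B: probability that a variable stays unexposed

(helper42, problem MP_25f38e_lc, module RULEB2)
-/

set_option linter.unusedSectionVars false

noncomputable section

open scoped Classical
open Finset

namespace Pool.Agent.MLLL

universe u

namespace Inst

variable {V ι : Type u} {A : Type} [DecidableEq V] [DecidableEq ι] [Fintype A] [Nonempty A]
  (I : Inst V ι A)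

theorem rulebp_dependsOn (i : ι) :
    DependsOn (fun g : V → A => ind (I.bad i g)) (I.dom i : Set V) := by
  intro g g' h
  have : I.bad i g ↔ I.bad i g' :=
    ⟨I.bad_congr i g g' (fun v hv => h v hv), I.bad_congr i g' g (fun v hv => (h v hv).symm)⟩
  simp only [this]

theorem rulebp_cp_congr {Y Y' : Set V} {σ σ' : V → A} {i : ι}
    (hY : ∀ v ∈ I.dom i, (v ∈ Y ↔ v ∈ Y')) (hσ : ∀ v ∈ I.dom i, v ∈ Y → σ v = σ' v) :
    I.cp Y σ i = I.cp Y' σ' i := by
  have h1 : (I.dom i).filter (· ∉ Y) = (I.dom i).filter (· ∉ Y') := by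
    apply filter_congr
    intro v hv
    rw [hY v hv]
  rw [cp, cp, ← h1]
  apply avg_congr (I.rulebp_dependsOn i)
  intro v hv hvF
  apply hσ v hv
  by_contra hvY
  exact hvF (mem_filter.2 ⟨hv, hvY⟩)

theorem rulebp_fr_congr {Y Y' : Set V} {i : ι}
    (hY : ∀ v ∈ I.dom i, (v ∈ Y ↔ v ∈ Y')) : I.fr Y i = I.fr Y' i := by
  have h1 : (I.dom i).filter (· ∉ Y) = (I.dom i).filter (· ∉ Y') := by
    apply filter_congr
    intro v hv
    rw [hY v hv]
  rw [fr, fr, h1]

theorem rulebp_cp_nonneg (Y : Set V) (σ : V → A) (i : ι) : 0 ≤ I.cp Y σ i :=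
  avg_nonneg fun _ => ind_nonneg _

theorem rulebp_fr_le (Y : Set V) (i : ι) : I.fr Y i ≤ (I.dom i).card :=
  card_le_card (filter_subset _ _)

theorem rulebp_filter_empty {Y : Set V} (hY : Y = ∅) (i : ι) :
    (I.dom i).filter (· ∉ Y) = I.dom i := by
  apply filter_true_of_mem
  intro v _ h
  rw [hY] at h
  exact h

theorem rulebp_cp_empty {Y : Set V} (hY : Y = ∅) (σ : V → A) (i : ι) : I.cp Y σ i = I.p i := by
  rw [cp, p, I.rulebp_filter_empty hY]
  apply avg_congr (I.rulebp_dependsOn i)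
  intro v hv hv'
  exact absurd hv hv'

theorem rulebp_fr_empty {Y : Set V} (hY : Y = ∅) (i : ι) : I.fr Y i = (I.dom i).card := by
  rw [fr, I.rulebp_filter_empty hY]

theorem rulebp_filter_insert {Y Y' : Set V} {i : ι} {w : V} (hw : w ∈ I.dom i) (hwY : w ∉ Y)
    (hY' : Y' = insert w Y) :
    (I.dom i).filter (· ∉ Y) = insert w ((I.dom i).filter (· ∉ Y')) := by
  ext v
  rw [mem_insert, mem_filter, mem_filter, hY', Set.mem_insert_iff, not_or]
  constructor
  · rintro ⟨h1, h2⟩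
    by_cases hv : v = w
    · exact Or.inl hv
    · exact Or.inr ⟨h1, hv, h2⟩
  · rintro (h | ⟨h1, _, h2⟩)
    · subst h
      exact ⟨hw, hwY⟩
    · exact ⟨h1, h2⟩

theorem rulebp_not_mem_filter {Y Y' : Set V} {i : ι} {w : V}
    (hY' : Y' = insert w Y) : w ∉ (I.dom i).filter (· ∉ Y') := by
  intro h
  apply (mem_filter.1 h).2
  rw [hY']
  exact Set.mem_insert _ _

theorem rulebp_cp_insert {Y Y' : Set V} {σ : V → A} {i : ι} {w : V} (hw : w ∈ I.dom i)
    (hwY : w ∉ Y) (hY' : Y' = insert w Y) :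
    I.cp Y σ i = (∑ a : A, I.cp Y' (Function.update σ w a) i) / Fintype.card A := by
  rw [cp, I.rulebp_filter_insert hw hwY hY', avg_insert (I.rulebp_not_mem_filter hY')]
  rfl

theorem rulebp_fr_insert {Y Y' : Set V} {i : ι} {w : V} (hw : w ∈ I.dom i)
    (hwY : w ∉ Y) (hY' : Y' = insert w Y) : I.fr Y i = I.fr Y' i + 1 := by
  rw [fr, I.rulebp_filter_insert hw hwY hY', card_insert_of_notMem (I.rulebp_not_mem_filter hY')]
  rfl

/-! ### locality of the rule -/

theorem rulebp_qq_congr {β : ℝ} {Y : Set V} {σ σ' : V → A} (hσ : ∀ v ∈ Y, σ v = σ' v)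
    (v u : V) : I.qq β Y σ v u = I.qq β Y σ' v u := by
  rw [qq, qq]
  refine sum_congr rfl fun i _ => ?_
  rw [I.rulebp_cp_congr (fun v _ => Iff.rfl) (fun v _ hv => hσ v hv)]

theorem rulebp_Psi_congr {β : ℝ} {Y : Set V} {σ σ' : V → A} (hσ : ∀ v ∈ Y, σ v = σ' v)
    (v : V) : I.Psi β Y σ v = I.Psi β Y σ' v := by
  rw [Psi, Psi]
  refine sum_congr rfl fun i _ => ?_
  rw [I.rulebp_cp_congr (fun v _ => Iff.rfl) (fun v _ hv => hσ v hv)]

theorem rulebp_c2_congr {β θ ζ : ℝ} {Y : Set V} {σ σ' : V → A} (hσ : ∀ v ∈ Y, σ v = σ' v)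
    (u : V) : I.c2 β θ ζ Y σ u ↔ I.c2 β θ ζ Y σ' u := by
  simp only [c2, I.rulebp_qq_congr hσ, I.rulebp_Psi_congr hσ]

theorem rulebp_label_lt {β θ ζ : ℝ} {ℓ : V → ℕ} {σ : V → A} : ∀ (s : ℕ) (v : V),
    v ∈ I.Yx β θ ζ ℓ σ s → ℓ v < s
  | 0, v, h => absurd h (by simp [Yx])
  | s + 1, v, h => by
    rw [Yx, Set.mem_union] at h
    rcases h with h | h
    · exact (rulebp_label_lt s v h).trans (Nat.lt_succ_self s)
    · rw [h.1]
      exact Nat.lt_succ_self s

theorem rulebp_Yx_congr {β θ ζ : ℝ} {ℓ : V → ℕ} {σ σ' : V → A} : ∀ (s : ℕ),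
    (∀ v, ℓ v + 1 < s → σ v = σ' v) → I.Yx β θ ζ ℓ σ s = I.Yx β θ ζ ℓ σ' s
  | 0, _ => rfl
  | s + 1, h => by
    have ih := rulebp_Yx_congr (β := β) (θ := θ) (ζ := ζ) (ℓ := ℓ) (σ := σ) (σ' := σ') s
      (fun v hv => h v (hv.trans (Nat.lt_succ_self s)))
    rw [Yx, Yx, ← ih]
    congr 1
    ext u
    simp only [Set.mem_ofPred_eq]
    rw [I.rulebp_c2_congr (σ := σ) (σ' := σ')]
    intro v hv
    exact h v (Nat.succ_lt_succ (I.rulebp_label_lt s v hv))

/-- the labelled assignment after changing the value of the label `s` -/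
theorem rulebp_upd {L : ℕ} (ℓ : V → Fin L) (ω : Fin L → A) (l : Fin L) (a : A) (v : V)
    (hv : ℓ v ≠ l) : Function.update ω l a (ℓ v) = ω (ℓ v) := by
  rw [Function.update_of_ne hv]

section step

variable {β θ ζ : ℝ} {L : ℕ} (ℓ : V → Fin L)

/-- the exposed set at time `s` -/
def rbY (β θ ζ : ℝ) {L : ℕ} (ℓ : V → Fin L) (ω : Fin L → A) (s : ℕ) : Set V :=
  I.Yx β θ ζ (fun v => (ℓ v : ℕ)) (fun v => ω (ℓ v)) s

theorem rbY_label {ω : Fin L → A} {s : ℕ} {v : V} (h : v ∈ I.rbY β θ ζ ℓ ω s) :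
    (ℓ v : ℕ) < s := I.rulebp_label_lt s v h

theorem rbY_succ_update (ω : Fin L → A) (l : Fin L) (a : A) :
    I.rbY β θ ζ ℓ (Function.update ω l a) (l + 1) = I.rbY β θ ζ ℓ ω (l + 1) := by
  apply I.rulebp_Yx_congr
  intro v hv
  apply rulebp_upd
  intro h
  rw [h] at hv
  exact lt_irrefl _ hv

theorem rbY_update (ω : Fin L → A) (l : Fin L) (a : A) :
    I.rbY β θ ζ ℓ (Function.update ω l a) l = I.rbY β θ ζ ℓ ω l := by
  apply I.rulebp_Yx_congr
  intro v hv
  apply rulebp_upd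
  intro h
  rw [h] at hv
  exact lt_irrefl _ ((Nat.lt_succ_self _).trans hv)

theorem rbY_mem_succ {ω : Fin L → A} {l : Fin L} {w : V} :
    w ∈ I.rbY β θ ζ ℓ ω (l + 1) ↔ w ∈ I.rbY β θ ζ ℓ ω l ∨
      (ℓ w = l ∧ I.c1 (fun v => (ℓ v : ℕ)) w ∧
        I.c2 β θ ζ (I.rbY β θ ζ ℓ ω l) (fun v => ω (ℓ v)) w) := by
  rw [rbY, Yx, Set.mem_union, Set.mem_ofPred_eq, Fin.val_inj]
  rfl

theorem rbY_mono {ω : Fin L → A} : ∀ {s t : ℕ}, s ≤ t →
    I.rbY β θ ζ ℓ ω s ⊆ I.rbY β θ ζ ℓ ω t := by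
  intro s t h
  induction h with
  | refl => exact Set.Subset.rfl
  | step _ ih =>
    refine ih.trans ?_
    intro v hv
    rw [rbY, Yx]
    exact Or.inl hv

/-- one step of the process, at an event : either nothing happens or exactly one variable of the
event is exposed -/
theorem rb_step (ω : Fin L → A) (l : Fin L) (i : ι) :
    (I.fr (I.rbY β θ ζ ℓ ω (l + 1)) i = I.fr (I.rbY β θ ζ ℓ ω l) i ∧
      ∀ a, I.cp (I.rbY β θ ζ ℓ ω (l + 1)) (fun v => Function.update ω l a (ℓ v)) i =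
        I.cp (I.rbY β θ ζ ℓ ω l) (fun v => ω (ℓ v)) i) ∨
    (∃ w ∈ I.dom i, w ∉ I.rbY β θ ζ ℓ ω l ∧ w ∈ I.rbY β θ ζ ℓ ω (l + 1) ∧
      I.fr (I.rbY β θ ζ ℓ ω l) i = I.fr (I.rbY β θ ζ ℓ ω (l + 1)) i + 1 ∧
      (∑ a : A, I.cp (I.rbY β θ ζ ℓ ω (l + 1)) (fun v => Function.update ω l a (ℓ v)) i) /
        Fintype.card A = I.cp (I.rbY β θ ζ ℓ ω l) (fun v => ω (ℓ v)) i) := by
  set Y := I.rbY β θ ζ ℓ ω l with hY
  set Y' := I.rbY β θ ζ ℓ ω (l + 1) with hY'
  have hsub : Y ⊆ Y' := I.rbY_mono ℓ (Nat.le_succ _)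
  by_cases hw : ∃ w ∈ I.dom i, w ∉ Y ∧ w ∈ Y'
  · right
    obtain ⟨w, hwi, hwY, hwY'⟩ := hw
    refine ⟨w, hwi, hwY, hwY', ?_⟩
    have h1 := (I.rbY_mem_succ ℓ).1 hwY'
    rcases h1 with h1 | ⟨hlw, hc1, _⟩
    · exact absurd h1 hwY
    have hother : ∀ v ∈ I.dom i, v ≠ w → ℓ v ≠ l := by
      intro v hv hvw hvl
      have := hc1 w (I.self_mem_nbv w) v (I.mem_nbv.2 (Or.inr ⟨i, hwi, hv⟩)) hvw
      apply this
      simp only [hvl, hlw]
    have hYY : ∀ v ∈ I.dom i, (v ∈ Y' ↔ v ∈ insert w Y) := by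
      intro v hv
      rw [Set.mem_insert_iff]
      constructor
      · intro h
        by_cases hvw : v = w
        · exact Or.inl hvw
        · right
          rcases (I.rbY_mem_succ ℓ).1 h with h | ⟨h, _⟩
          · exact h
          · exact absurd h (hother v hv hvw)
      · rintro (h | h)
        · rw [h]; exact hwY'
        · exact hsub h
    refine ⟨?_, ?_⟩
    · rw [I.rulebp_fr_congr hYY, ← I.rulebp_fr_insert hwi hwY rfl]
    · rw [I.rulebp_cp_insert hwi hwY rfl]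
      congr 1
      refine sum_congr rfl fun a _ => ?_
      apply I.rulebp_cp_congr hYY
      intro v hv hvY'
      by_cases hvw : v = w
      · rw [hvw, hlw, Function.update_self, Function.update_self]
      · rw [Function.update_of_ne hvw, Function.update_of_ne (hother v hv hvw)]
  · left
    push Not at hw
    have hYY : ∀ v ∈ I.dom i, (v ∈ Y' ↔ v ∈ Y) := by
      intro v hv
      refine ⟨fun h => ?_, fun h => hsub h⟩
      by_contra h'
      exact hw v hv h' h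
    refine ⟨I.rulebp_fr_congr hYY, fun a => ?_⟩
    apply I.rulebp_cp_congr hYY
    intro v hv hvY'
    have := I.rbY_label ℓ ((hYY v hv).1 hvY')
    apply rulebp_upd
    intro h
    rw [h] at this
    exact lt_irrefl _ this

theorem rb_cardA_pos : (0 : ℝ) < Fintype.card A := by
  exact_mod_cast Fintype.card_pos

/-- the conditional probability of an event is a martingale -/
theorem rb_cp_step (ω : Fin L → A) (l : Fin L) (i : ι) :
    (∑ a : A, I.cp (I.rbY β θ ζ ℓ ω (l + 1)) (fun v => Function.update ω l a (ℓ v)) i) /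
        Fintype.card A = I.cp (I.rbY β θ ζ ℓ ω l) (fun v => ω (ℓ v)) i := by
  rcases I.rb_step (β := β) (θ := θ) (ζ := ζ) ℓ ω l i with ⟨_, h⟩ | ⟨_, _, _, _, _, h⟩
  · simp only [h]
    rw [sum_const, card_univ, nsmul_eq_mul, mul_div_cancel_left₀ _ (rb_cardA_pos (A := A)).ne']
  · exact h

theorem rb_ex_cp (i : ι) : ∀ s : ℕ, s ≤ L →
    ex (fun ω : Fin L → A => I.cp (I.rbY β θ ζ ℓ ω s) (fun v => ω (ℓ v)) i) = I.p i
  | 0, _ => by
    have : (fun ω : Fin L → A => I.cp (I.rbY β θ ζ ℓ ω 0) (fun v => ω (ℓ v)) i) =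
        fun _ => I.p i := by
      funext ω
      exact I.rulebp_cp_empty rfl _ i
    rw [this, ex_const]
  | s + 1, hs => by
    have ih := rb_ex_cp i s (Nat.le_of_succ_le hs)
    rw [← ih, ex_update (⟨s, hs⟩ : Fin L)]
    congr 1
    funext ω
    rw [← I.rb_cp_step ℓ ω ⟨s, hs⟩ i]
    congr 1
    refine sum_congr rfl fun a _ => ?_
    have := I.rbY_succ_update (β := β) (θ := θ) (ζ := ζ) ℓ ω ⟨s, hs⟩ a
    rw [show ((⟨s, hs⟩ : Fin L) : ℕ) + 1 = s + 1 from rfl] at this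
    rw [this]

/-- the elementary inequality behind the exponential supermartingale -/
theorem rb_exp_ineq {q' : A → ℝ} {q β θ ζ lam : ℝ} (hβ : 1 < β) (hθ : 0 < θ) (hζ : 0 < ζ)
    (hlam : 0 < lam) (hζlam : ((Fintype.card A : ℝ) + 1) * lam * ζ ≤ 1 - 1 / β)
    (hq' : ∀ a, 0 ≤ q' a) (havg : (∑ a, q' a) / Fintype.card A = q / β) (hq : q ≤ θ * ζ) :
    (∑ a, Real.exp (lam * (q' a - q) / θ)) / Fintype.card A ≤ 1 := by
  set k : ℝ := (Fintype.card A : ℝ) with hk
  have hk0 : 0 < k := rb_cardA_pos (A := A)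
  have hk1 : 1 ≤ k := by
    have h : 1 ≤ Fintype.card A := Fintype.card_pos
    rw [hk]
    exact_mod_cast h
  obtain ⟨r, hr⟩ : ∃ r : ℝ, r = 1 / β := ⟨_, rfl⟩
  have hβ0 : 0 < β := one_pos.trans hβ
  have hr0 : 0 < r := by rw [hr]; positivity
  have hr1 : r ≤ 1 := by rw [hr, div_le_one hβ0]; exact hβ.le
  have hsum : ∑ a, q' a = k * q * r := by
    rw [div_eq_iff hk0.ne'] at havg
    rw [havg, hr]
    ring
  have hq0 : 0 ≤ q := by
    have h1 : 0 ≤ k * q * r := by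
      rw [← hsum]
      exact sum_nonneg fun a _ => hq' a
    by_contra h
    push Not at h
    have : k * q * r < 0 := by
      have := mul_pos hk0 hr0
      nlinarith
    linarith
  have hq'le : ∀ a, q' a ≤ k * q * r := by
    intro a
    rw [← hsum]
    exact single_le_sum (fun a _ => hq' a) (mem_univ a)
  have hkqr : k * q * r ≤ k * q := by
    have : 0 ≤ k * q := mul_nonneg hk0.le hq0
    nlinarith
  rw [← hr] at hζlam
  obtain ⟨c, hc⟩ : ∃ c : ℝ, c = lam / θ := ⟨_, rfl⟩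
  have hc0 : 0 < c := by rw [hc]; positivity
  have hx : ∀ a, lam * (q' a - q) / θ = c * (q' a - q) := by
    intro a
    rw [hc]
    ring
  simp only [hx]
  have hcq : c * q ≤ lam * ζ := by
    have h1 : c * q ≤ c * (θ * ζ) := mul_le_mul_of_nonneg_left hq hc0.le
    have h2 : c * (θ * ζ) = lam * ζ := by
      rw [hc]
      field_simp
    linarith
  have hlamζ : 0 ≤ lam * ζ := (mul_pos hlam hζ).le
  have hkc : c * (k * q) ≤ 1 := by
    have h1 : k * (c * q) ≤ k * (lam * ζ) := mul_le_mul_of_nonneg_left hcq hk0.le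
    nlinarith
  have habs : ∀ a, |c * (q' a - q)| ≤ 1 := by
    intro a
    rw [abs_le]
    constructor
    · have h1 : c * q ≤ c * (k * q) := by
        apply mul_le_mul_of_nonneg_left _ hc0.le
        nlinarith
      have h2 : 0 ≤ c * q' a := mul_nonneg hc0.le (hq' a)
      nlinarith
    · have h1 : c * q' a ≤ c * (k * q) :=
        mul_le_mul_of_nonneg_left ((hq'le a).trans hkqr) hc0.le
      have h2 : 0 ≤ c * q := mul_nonneg hc0.le hq0
      nlinarith
  have hexp : ∀ a, Real.exp (c * (q' a - q)) ≤ 1 + c * (q' a - q) + (c * (q' a - q)) ^ 2 := by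
    intro a
    have h1 := Real.abs_exp_sub_one_sub_id_le (habs a)
    have h2 := (abs_le.1 h1).2
    linarith
  rw [div_le_one hk0]
  refine (sum_le_sum fun a _ => hexp a).trans ?_
  have hsq : ∑ a, (q' a) ^ 2 ≤ (k * q * r) * (k * q * r) := by
    calc ∑ a, (q' a) ^ 2 ≤ ∑ a, (k * q * r) * q' a := by
          apply sum_le_sum
          intro a _
          rw [sq]
          exact mul_le_mul_of_nonneg_right (hq'le a) (hq' a)
      _ = (k * q * r) * (k * q * r) := by rw [← mul_sum, hsum]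
  have hexpand : ∑ a, (1 + c * (q' a - q) + (c * (q' a - q)) ^ 2) =
      k + c * (k * q * r - k * q) + c ^ 2 * (∑ a, (q' a) ^ 2 - 2 * q * (k * q * r) + k * q ^ 2) := by
    obtain ⟨d, hd⟩ : ∃ d : ℝ, d = 1 - c * q + c ^ 2 * q ^ 2 := ⟨_, rfl⟩
    obtain ⟨e, he⟩ : ∃ e : ℝ, e = c - 2 * c ^ 2 * q := ⟨_, rfl⟩
    have h1 : ∀ a, 1 + c * (q' a - q) + (c * (q' a - q)) ^ 2 =
        d + (e * q' a + c ^ 2 * (q' a) ^ 2) := by
      intro a
      rw [hd, he]
      ring
    simp only [h1]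
    rw [sum_add_distrib, sum_add_distrib, ← mul_sum, ← mul_sum, hsum, sum_const, card_univ,
      nsmul_eq_mul, ← hk, hd, he]
    ring
  rw [hexpand]
  have hr2 : r * r ≤ 1 := by nlinarith
  have hbound : ∑ a, (q' a) ^ 2 - 2 * q * (k * q * r) + k * q ^ 2 ≤ k * q ^ 2 * (k + 1) := by
    have h1 : (k * q * r) * (k * q * r) ≤ k * q ^ 2 * k := by
      have : 0 ≤ k * q * (k * q) := by positivity
      nlinarith
    have h2 : 0 ≤ 2 * q * (k * q * r) := by positivity
    nlinarith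
  have h3 : c ^ 2 * (∑ a, (q' a) ^ 2 - 2 * q * (k * q * r) + k * q ^ 2) ≤
      c * q * k * (1 - r) := by
    calc c ^ 2 * (∑ a, (q' a) ^ 2 - 2 * q * (k * q * r) + k * q ^ 2)
        ≤ c ^ 2 * (k * q ^ 2 * (k + 1)) := mul_le_mul_of_nonneg_left hbound (sq_nonneg c)
      _ = (c * q * k) * ((k + 1) * (c * q)) := by ring
      _ ≤ (c * q * k) * ((k + 1) * (lam * ζ)) := by
          apply mul_le_mul_of_nonneg_left _ (by positivity)
          exact mul_le_mul_of_nonneg_left hcq (by positivity)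
      _ ≤ (c * q * k) * (1 - r) := by
          apply mul_le_mul_of_nonneg_left _ (by positivity)
          linarith
  nlinarith

/-- the exponential supermartingale -/
def rbZ (β θ ζ lam : ℝ) {L : ℕ} (ℓ : V → Fin L) (v : V) (s : ℕ) (ω : Fin L → A) : ℝ :=
  if v ∈ I.rbY β θ ζ ℓ ω s then 0
  else Real.exp (lam * I.Psi β (I.rbY β θ ζ ℓ ω s) (fun v => ω (ℓ v)) v / θ)

theorem rbZ_nonneg (lam : ℝ) (v : V) (s : ℕ) (ω : Fin L → A) :
    0 ≤ I.rbZ β θ ζ lam ℓ v s ω := by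
  rw [rbZ]
  split_ifs
  · exact le_rfl
  · exact (Real.exp_pos _).le

theorem rbZ_step {lam : ℝ} (hβ : 1 < β) (hθ : 0 < θ) (hζ : 0 < ζ) (hlam : 0 < lam)
    (hζlam : ((Fintype.card A : ℝ) + 1) * lam * ζ ≤ 1 - 1 / β) (v : V) (ω : Fin L → A)
    (l : Fin L) :
    (∑ a : A, I.rbZ β θ ζ lam ℓ v (l + 1) (Function.update ω l a)) / Fintype.card A ≤
      I.rbZ β θ ζ lam ℓ v l ω := by
  have hk0 : (0 : ℝ) < Fintype.card A := rb_cardA_pos (A := A)
  simp only [rbZ, I.rbY_succ_update (β := β) (θ := θ) (ζ := ζ) ℓ ω l]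
  set Y := I.rbY β θ ζ ℓ ω l with hY
  set Y' := I.rbY β θ ζ ℓ ω (l + 1) with hY'
  have hsub : Y ⊆ Y' := I.rbY_mono ℓ (Nat.le_succ _)
  by_cases hv' : v ∈ Y'
  · simp only [hv', if_true, sum_const_zero, zero_div]
    split_ifs
    · exact le_rfl
    · exact (Real.exp_pos _).le
  have hv : v ∉ Y := fun h => hv' (hsub h)
  simp only [hv, hv', if_false]
  by_cases hw : ∃ w ∈ I.nbv v, w ∉ Y ∧ w ∈ Y'
  · obtain ⟨w, hwv, hwY, hwY'⟩ := hw
    have hwne : v ≠ w := fun h => hv' (h ▸ hwY')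
    rcases (I.rbY_mem_succ ℓ).1 hwY' with h1 | ⟨hlw, hc1, hc2⟩
    · exact absurd h1 hwY
    have hvw : v ∈ I.nbv w := I.nbv_symm.1 hwv
    obtain ⟨hq, hPsi⟩ := hc2 v hvw hwne hv
    have hother : ∀ w' ∈ I.nbv v, w' ≠ w → w' ∉ Y → w' ∉ Y' := by
      intro w' hw' hne hw'Y hw'Y'
      rcases (I.rbY_mem_succ ℓ).1 hw'Y' with h1 | ⟨hlw', _⟩
      · exact hw'Y h1
      · apply hc1 v hvw w' hw' hne
        simp only [hlw, hlw']
    -- values at the events
    have hin : ∀ i ∈ I.inc v, w ∈ I.dom i → I.fr Y i = I.fr Y' i + 1 ∧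
        (∑ a : A, I.cp Y' (fun v => Function.update ω l a (ℓ v)) i) / Fintype.card A =
          I.cp Y (fun v => ω (ℓ v)) i := by
      intro i hi hwi
      rcases I.rb_step (β := β) (θ := θ) (ζ := ζ) ℓ ω l i with ⟨hfr, _⟩ | ⟨_, _, _, _, h1, h2⟩
      · exfalso
        have h1 : (I.dom i).filter (· ∉ Y') ⊂ (I.dom i).filter (· ∉ Y) := by
          rw [ssubset_iff_of_subset]
          · exact ⟨w, mem_filter.2 ⟨hwi, hwY⟩, fun h => (mem_filter.1 h).2 hwY'⟩
          · intro x hx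
            rw [mem_filter] at hx ⊢
            exact ⟨hx.1, fun h => hx.2 (hsub h)⟩
        have h2 := card_lt_card h1
        rw [fr, fr] at hfr
        exact absurd hfr h2.ne
      · exact ⟨h1, h2⟩
    have hout : ∀ i ∈ I.inc v, w ∉ I.dom i → I.fr Y' i = I.fr Y i ∧
        ∀ a, I.cp Y' (fun v => Function.update ω l a (ℓ v)) i =
          I.cp Y (fun v => ω (ℓ v)) i := by
      intro i hi hwi
      rcases I.rb_step (β := β) (θ := θ) (ζ := ζ) ℓ ω l i with h | ⟨w', hw'i, hw'Y, hw'Y', _, _⟩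
      · exact h
      · exfalso
        have hne : w' ≠ w := fun h => hwi (h ▸ hw'i)
        exact hother w' (I.mem_nbv.2 (Or.inr ⟨i, I.mem_inc.1 hi, hw'i⟩)) hne hw'Y hw'Y'
    set q := I.qq β Y (fun v => ω (ℓ v)) v w with hqdef
    set q' : A → ℝ := fun a => I.qq β Y' (fun v => Function.update ω l a (ℓ v)) v w with hq'def
    have hβ0 : 0 < β := one_pos.trans hβ
    have hPsi' : ∀ a, I.Psi β Y' (fun v => Function.update ω l a (ℓ v)) v =
        I.Psi β Y (fun v => ω (ℓ v)) v + (q' a - q) := by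
      intro a
      have e1 : I.Psi β Y' (fun v => Function.update ω l a (ℓ v)) v =
          q' a + ∑ i ∈ (I.inc v).filter (fun i => ¬ w ∈ I.dom i),
            I.cp Y' (fun v => Function.update ω l a (ℓ v)) i * β ^ I.fr Y' i := by
        rw [hq'def, Psi]
        simp only [qq]
        rw [sum_filter_add_sum_filter_not]
      have e2 : I.Psi β Y (fun v => ω (ℓ v)) v =
          q + ∑ i ∈ (I.inc v).filter (fun i => ¬ w ∈ I.dom i),
            I.cp Y (fun v => ω (ℓ v)) i * β ^ I.fr Y i := by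
        rw [hqdef, Psi]
        simp only [qq]
        rw [sum_filter_add_sum_filter_not]
      have e3 : ∑ i ∈ (I.inc v).filter (fun i => ¬ w ∈ I.dom i),
            I.cp Y' (fun v => Function.update ω l a (ℓ v)) i * β ^ I.fr Y' i =
          ∑ i ∈ (I.inc v).filter (fun i => ¬ w ∈ I.dom i),
            I.cp Y (fun v => ω (ℓ v)) i * β ^ I.fr Y i := by
        refine sum_congr rfl fun i hi => ?_
        rw [mem_filter] at hi
        obtain ⟨h1, h2⟩ := hout i hi.1 hi.2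
        rw [h1, h2 a]
      rw [e1, e2, e3]
      ring
    have hq'0 : ∀ a, 0 ≤ q' a := by
      intro a
      apply sum_nonneg
      intro i _
      exact mul_nonneg (I.rulebp_cp_nonneg _ _ _) (pow_nonneg hβ0.le _)
    have havg : (∑ a, q' a) / Fintype.card A = q / β := by
      have e1 : (∑ a, q' a) / Fintype.card A =
          ∑ i ∈ (I.inc v).filter (fun i => w ∈ I.dom i),
            ((∑ a, I.cp Y' (fun v => Function.update ω l a (ℓ v)) i) / Fintype.card A) *
              β ^ I.fr Y' i := by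
        simp only [hq'def, qq]
        rw [sum_comm, sum_div]
        refine sum_congr rfl fun i _ => ?_
        rw [← sum_mul]
        ring
      rw [e1, hqdef, qq, sum_div]
      refine sum_congr rfl fun i hi => ?_
      rw [mem_filter] at hi
      obtain ⟨h1, h2⟩ := hin i hi.1 hi.2
      rw [h2, h1, pow_succ]
      field_simp
    have hmain := rb_exp_ineq hβ hθ hζ hlam hζlam hq'0 havg hq
    simp only [hPsi']
    have e : ∀ a, Real.exp (lam * (I.Psi β Y (fun v => ω (ℓ v)) v + (q' a - q)) / θ) =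
        Real.exp (lam * I.Psi β Y (fun v => ω (ℓ v)) v / θ) *
          Real.exp (lam * (q' a - q) / θ) := by
      intro a
      rw [← Real.exp_add]
      congr 1
      ring
    simp only [e]
    rw [← mul_sum, mul_div_assoc]
    exact mul_le_of_le_one_right (Real.exp_pos _).le hmain
  · push Not at hw
    have hsame : ∀ i ∈ I.inc v, I.fr Y' i = I.fr Y i ∧
        ∀ a, I.cp Y' (fun v => Function.update ω l a (ℓ v)) i =
          I.cp Y (fun v => ω (ℓ v)) i := by
      intro i hi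
      rcases I.rb_step (β := β) (θ := θ) (ζ := ζ) ℓ ω l i with h | ⟨w', hw'i, hw'Y, hw'Y', _, _⟩
      · exact h
      · exact absurd hw'Y' (hw w' (I.mem_nbv.2 (Or.inr ⟨i, I.mem_inc.1 hi, hw'i⟩)) hw'Y)
    have hPsi' : ∀ a, I.Psi β Y' (fun v => Function.update ω l a (ℓ v)) v =
        I.Psi β Y (fun v => ω (ℓ v)) v := by
      intro a
      rw [Psi, Psi]
      refine sum_congr rfl fun i hi => ?_
      obtain ⟨h1, h2⟩ := hsame i hi
      rw [h1, h2 a]
    simp only [hPsi']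
    rw [sum_const, card_univ, nsmul_eq_mul, mul_div_cancel_left₀ _ hk0.ne']

theorem rb_ex_Z {lam : ℝ} (hβ : 1 < β) (hθ : 0 < θ) (hζ : 0 < ζ) (hlam : 0 < lam)
    (hζlam : ((Fintype.card A : ℝ) + 1) * lam * ζ ≤ 1 - 1 / β) (v : V) : ∀ s : ℕ, s ≤ L →
    ex (I.rbZ (A := A) β θ ζ lam ℓ v s) ≤
      Real.exp (lam * (∑ i ∈ I.inc v, I.p i * β ^ (I.dom i).card) / θ)
  | 0, _ => by
    have : (I.rbZ (A := A) β θ ζ lam ℓ v 0) =
        fun _ => Real.exp (lam * (∑ i ∈ I.inc v, I.p i * β ^ (I.dom i).card) / θ) := by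
      funext ω
      have h0 : I.rbY β θ ζ ℓ ω 0 = ∅ := rfl
      rw [rbZ, h0, if_neg (Set.notMem_empty v)]
      rw [Psi]
      congr 3
      refine sum_congr rfl fun i _ => ?_
      rw [I.rulebp_cp_empty rfl, I.rulebp_fr_empty rfl]
    rw [this, ex_const]
  | s + 1, hs => by
    have ih := rb_ex_Z hβ hθ hζ hlam hζlam v s (Nat.le_of_succ_le hs)
    refine le_trans ?_ ih
    rw [ex_update (⟨s, hs⟩ : Fin L)]
    apply ex_mono
    intro ω
    exact I.rbZ_step ℓ hβ hθ hζ hlam hζlam v ω ⟨s, hs⟩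

end step

/-- PROBABILITY that a variable without collisions stays unexposed. -/
theorem yx_prob {β θ ζ η lam D : ℝ} (hβ : 1 < β) (hθ : 0 < θ) (hζ : 0 < ζ) (hlam : 0 < lam)
    (hζlam : ((Fintype.card A : ℝ) + 1) * lam * ζ ≤ 1 - 1 / β)
    (hη : ∀ v, ∑ i ∈ I.inc v, (I.dom i).card * β ^ (I.dom i).card * I.p i ≤ η)
    {L : ℕ} (ℓ : V → Fin L) (u : V) (hc1 : I.c1 (fun v => (ℓ v : ℕ)) u)
    (hD : ((I.nbv u).card : ℝ) ≤ D) :
    ex (fun ω : Fin L → A =>
      ind (u ∉ I.Yx β θ ζ (fun v => (ℓ v : ℕ)) (fun v => ω (ℓ v)) L))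
      ≤ η / (θ * ζ) + D * Real.exp (lam * η / θ - lam) := by
  have hβ0 : 0 < β := one_pos.trans hβ
  have hpnn : ∀ i, 0 ≤ I.p i := fun i => avg_nonneg fun _ => ind_nonneg _
  have hcard : ∀ {v i}, i ∈ I.inc v → (1 : ℝ) ≤ (I.dom i).card := by
    intro v i hi
    have : 1 ≤ (I.dom i).card := card_pos.2 ⟨v, I.mem_inc.1 hi⟩
    exact_mod_cast this
  set s : ℕ := (ℓ u : ℕ) with hs
  have hsL : s ≤ L := (ℓ u).2.le
  -- first moment part
  let S : (Fin L → A) → ℝ := fun ω => ∑ i ∈ I.inc u,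
    ((I.dom i).card * β ^ (I.dom i).card) * I.cp (I.rbY β θ ζ ℓ ω s) (fun v => ω (ℓ v)) i
  have hS0 : ∀ ω, 0 ≤ S ω := by
    intro ω
    apply sum_nonneg
    intro i _
    exact mul_nonneg (by positivity) (I.rulebp_cp_nonneg _ _ _)
  have hexS : ex S ≤ η := by
    have : ex S = ∑ i ∈ I.inc u, (I.dom i).card * β ^ (I.dom i).card * I.p i := by
      simp only [S]
      rw [ex_sum]
      refine sum_congr rfl fun i _ => ?_
      rw [ex_mul_left, I.rb_ex_cp ℓ i s hsL]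
    rw [this]
    exact hη u
  have hA : ex (fun ω : Fin L → A => ind (θ * ζ ≤ S ω)) ≤ η / (θ * ζ) := by
    refine (ex_markov hS0 (mul_pos hθ hζ)).trans ?_
    exact div_le_div_of_nonneg_right hexS (mul_pos hθ hζ).le
  -- exponential part
  have hB : ∀ v, ex (fun ω : Fin L → A => ind (Real.exp lam ≤ I.rbZ β θ ζ lam ℓ v s ω)) ≤
      Real.exp (lam * η / θ - lam) := by
    intro v
    refine (ex_markov (fun ω => I.rbZ_nonneg ℓ lam v s ω) (Real.exp_pos lam)).trans ?_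
    rw [Real.exp_sub]
    apply div_le_div_of_nonneg_right _ (Real.exp_pos lam).le
    refine (I.rb_ex_Z ℓ hβ hθ hζ hlam hζlam v s hsL).trans ?_
    apply Real.exp_le_exp.2
    apply div_le_div_of_nonneg_right _ hθ.le
    apply mul_le_mul_of_nonneg_left _ hlam.le
    refine le_trans ?_ (hη v)
    apply sum_le_sum
    intro i hi
    have h1 := hcard hi
    have h2 : 0 ≤ I.p i * β ^ (I.dom i).card := mul_nonneg (hpnn i) (pow_nonneg hβ0.le _)
    nlinarith
  -- pointwise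
  have hpt : ∀ ω : Fin L → A,
      ind (u ∉ I.Yx β θ ζ (fun v => (ℓ v : ℕ)) (fun v => ω (ℓ v)) L) ≤
        ind (θ * ζ ≤ S ω) +
          ∑ v ∈ I.nbv u, ind (Real.exp lam ≤ I.rbZ β θ ζ lam ℓ v s ω) := by
    intro ω
    by_cases hu : u ∈ I.Yx β θ ζ (fun v => (ℓ v : ℕ)) (fun v => ω (ℓ v)) L
    · have : ind (u ∉ I.Yx β θ ζ (fun v => (ℓ v : ℕ)) (fun v => ω (ℓ v)) L) = 0 := by
        rw [ind, if_neg (fun h => h hu)]
      rw [this]
      exact add_nonneg (ind_nonneg _) (sum_nonneg fun v _ => ind_nonneg _)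
    · refine (ind_le_one _).trans ?_
      have hu' : u ∉ I.rbY β θ ζ ℓ ω ((ℓ u : ℕ) + 1) := by
        intro h
        exact hu (I.rbY_mono ℓ (Nat.succ_le_of_lt (ℓ u).2) h)
      have hnc2 : ¬ I.c2 β θ ζ (I.rbY β θ ζ ℓ ω s) (fun v => ω (ℓ v)) u := by
        intro h
        exact hu' ((I.rbY_mem_succ ℓ).2 (Or.inr ⟨rfl, hc1, h⟩))
      rw [c2] at hnc2
      push Not at hnc2
      obtain ⟨v, hvu, hne, hvY, himp⟩ := hnc2
      by_cases hq : I.qq β (I.rbY β θ ζ ℓ ω s) (fun v => ω (ℓ v)) v u ≤ θ * ζ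
      · have hPsi := himp hq
        have h1 : Real.exp lam ≤ I.rbZ β θ ζ lam ℓ v s ω := by
          rw [rbZ, if_neg hvY]
          apply Real.exp_le_exp.2
          rw [le_div_iff₀ hθ]
          exact mul_le_mul_of_nonneg_left hPsi.le hlam.le
        have h2 : (1 : ℝ) = ind (Real.exp lam ≤ I.rbZ β θ ζ lam ℓ v s ω) := by
          rw [ind, if_pos h1]
        have h3 : ind (Real.exp lam ≤ I.rbZ β θ ζ lam ℓ v s ω) ≤
            ∑ v ∈ I.nbv u, ind (Real.exp lam ≤ I.rbZ β θ ζ lam ℓ v s ω) :=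
          single_le_sum (f := fun v => ind (Real.exp lam ≤ I.rbZ β θ ζ lam ℓ v s ω))
            (fun v _ => ind_nonneg _) hvu
        have h4 : 0 ≤ ind (θ * ζ ≤ S ω) := ind_nonneg _
        linarith
      · push Not at hq
        have h1 : θ * ζ ≤ S ω := by
          refine hq.le.trans ?_
          have h5 : I.qq β (I.rbY β θ ζ ℓ ω s) (fun v => ω (ℓ v)) v u ≤
              ∑ i ∈ I.inc u, I.cp (I.rbY β θ ζ ℓ ω s) (fun v => ω (ℓ v)) i *
                β ^ I.fr (I.rbY β θ ζ ℓ ω s) i := by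
            apply sum_le_sum_of_subset_of_nonneg
            · intro i hi
              rw [mem_filter] at hi
              exact I.mem_inc.2 hi.2
            · intro i _ _
              exact mul_nonneg (I.rulebp_cp_nonneg _ _ _) (pow_nonneg hβ0.le _)
          refine h5.trans ?_
          apply sum_le_sum
          intro i hi
          have h6 := hcard hi
          have h7 : β ^ I.fr (I.rbY β θ ζ ℓ ω s) i ≤ β ^ (I.dom i).card :=
            pow_le_pow_right₀ hβ.le (I.rulebp_fr_le _ _)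
          have h8 := I.rulebp_cp_nonneg (I.rbY β θ ζ ℓ ω s) (fun v => ω (ℓ v)) i
          have h9 : β ^ I.fr (I.rbY β θ ζ ℓ ω s) i ≤
              (I.dom i).card * β ^ (I.dom i).card := by
            have : 0 ≤ β ^ (I.dom i).card := pow_nonneg hβ0.le _
            nlinarith
          rw [mul_comm]
          exact mul_le_mul_of_nonneg_right h9 h8
        have h2 : (1 : ℝ) = ind (θ * ζ ≤ S ω) := by
          rw [ind, if_pos h1]
        have h3 : 0 ≤ ∑ v ∈ I.nbv u, ind (Real.exp lam ≤ I.rbZ β θ ζ lam ℓ v s ω) :=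
          sum_nonneg fun v _ => ind_nonneg _
        linarith
  refine (ex_mono hpt).trans ?_
  rw [ex_add, ex_sum]
  refine add_le_add hA ?_
  refine (sum_le_sum fun v _ => hB v).trans ?_
  rw [sum_const, nsmul_eq_mul]
  exact mul_le_mul_of_nonneg_right hD (Real.exp_pos _).le

end Inst

end Pool.Agent.MLLL
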