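import Pool.Agent.Lib.MP_25f38e_lc.Pieces

/-! MODULE SUMS : weight sums over layered sequences. -/

set_option linter.unusedSectionVars false

noncomputable section

open scoped Classical
open Finset

namespace Pool.Agent.MLLL

universe u

namespace Inst

variable {V ι : Type u} {A : Type} [DecidableEq V] [DecidableEq ι] (I : Inst V ι A)

/-- the events meeting the variables of a layer are the neighbours of its members -/
theorem sums_incS_domL (L : Finset ι) : I.incS (I.domL L) = L.biUnion I.nbr := by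
  ext j
  simp only [mem_incS, mem_domL, mem_biUnion, nbr]
  constructor
  · rintro ⟨v, ⟨i, hi, hv⟩, hj⟩
    exact ⟨i, hi, v, hv, hj⟩
  · rintro ⟨i, hi, v, hv, hj⟩
    exact ⟨v, ⟨i, hi, hv⟩, hj⟩

theorem sums_nbr_symm {i j : ι} : i ∈ I.nbr j ↔ j ∈ I.nbr i := by
  simp only [nbr, mem_incS]
  constructor
  · rintro ⟨v, h1, h2⟩
    exact ⟨v, h2, h1⟩
  · rintro ⟨v, h1, h2⟩
    exact ⟨v, h2, h1⟩

/-- product over a union of neighbourhoods -/
theorem sums_prod_biUnion_le {W : ι → ℝ} (hW : ∀ i, 0 ≤ W i) (L : Finset ι)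
    (N : ι → Finset ι) :
    ∏ j ∈ L.biUnion N, (1 + W j) ≤ ∏ i ∈ L, ∏ j ∈ N i, (1 + W j) := by
  have h1 : ∀ (s : Finset ι), (1 : ℝ) ≤ ∏ j ∈ s, (1 + W j) := by
    intro s
    induction s using Finset.induction_on with
    | empty => simp
    | insert a s ha ih =>
      rw [prod_insert ha]
      nlinarith [hW a]
  induction L using Finset.induction_on with
  | empty => simp
  | insert a L ha ih =>
    rw [biUnion_insert, prod_insert ha]
    have hU : ∏ j ∈ N a ∪ L.biUnion N, (1 + W j) ≤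
        (∏ j ∈ N a, (1 + W j)) * ∏ j ∈ L.biUnion N, (1 + W j) := by
      have := Finset.prod_union_inter (s₁ := N a) (s₂ := L.biUnion N) (f := fun j => 1 + W j)
      rw [← this]
      have h2 := h1 (N a ∩ L.biUnion N)
      have h3 := h1 (N a ∪ L.biUnion N)
      nlinarith
    refine hU.trans ?_
    exact mul_le_mul_of_nonneg_left ih (le_trans zero_le_one (h1 _))

theorem sums_one_le {W : ι → ℝ} (hW : ∀ i, 0 ≤ W i) (s : Finset ι) :
    (1 : ℝ) ≤ ∏ j ∈ s, (1 + W j) := by
  induction s using Finset.induction_on with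
  | empty => simp
  | insert a s ha ih =>
    rw [prod_insert ha]
    nlinarith [hW a]

theorem sums_biUnion_le {f : ι → ℝ} (hf : ∀ i, 0 ≤ f i) (L : Finset ι)
    (N : ι → Finset ι) : ∑ j ∈ L.biUnion N, f j ≤ ∑ i ∈ L, ∑ j ∈ N i, f j := by
  induction L using Finset.induction_on with
  | empty => simp
  | insert a L ha ih =>
    rw [biUnion_insert, sum_insert ha]
    have h1 := Finset.sum_union_inter (s₁ := N a) (s₂ := L.biUnion N) (f := f)
    have h2 : 0 ≤ ∑ j ∈ N a ∩ L.biUnion N, f j := sum_nonneg fun j _ => hf j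
    linarith

/-- the weight of a layer together with the continuation factor -/
theorem sums_layer_le {a W : ι → ℝ} (ha : ∀ i, 0 ≤ a i) (hW : ∀ i, 0 ≤ W i)
    (hA : ∀ i, a i * ∏ j ∈ I.nbr i, (1 + W j) ≤ W i) (L : Finset ι) :
    (∏ i ∈ L, a i) * ∏ i ∈ I.incS (I.domL L), (1 + W i) ≤ ∏ i ∈ L, W i := by
  rw [I.sums_incS_domL]
  calc (∏ i ∈ L, a i) * ∏ i ∈ L.biUnion I.nbr, (1 + W i)
      ≤ (∏ i ∈ L, a i) * ∏ i ∈ L, ∏ j ∈ I.nbr i, (1 + W j) :=
        mul_le_mul_of_nonneg_left (sums_prod_biUnion_le hW L I.nbr)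
          (prod_nonneg fun i _ => ha i)
    _ = ∏ i ∈ L, (a i * ∏ j ∈ I.nbr i, (1 + W j)) := by rw [prod_mul_distrib]
    _ ≤ ∏ i ∈ L, W i := prod_le_prod
        (fun i _ => mul_nonneg (ha i) (le_trans zero_le_one (sums_one_le hW _)))
        (fun i _ => hA i)

/-- Induction on `n`: `Σ_{L ⊆ inc S, indep} Π_{i∈L} (a i · Π_{nbr i}(1+W)) ≤ Π_{inc S} (1+W)`. -/
theorem sum_seqs_le {a W : ι → ℝ} (ha : ∀ i, 0 ≤ a i) (hW : ∀ i, 0 ≤ W i)
    (hA : ∀ i, a i * ∏ j ∈ I.nbr i, (1 + W j) ≤ W i) (n : ℕ) (S : Finset V) :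
    ∑ P ∈ I.seqs n S, wt a n P ≤ ∏ i ∈ I.incS S, (1 + W i) := by
  induction n generalizing S with
  | zero =>
    simp only [seqs, sum_singleton, wt]
    exact sums_one_le hW _
  | succ n ih =>
    rw [I.sum_seqs_succ]
    have h1 : ∀ L ∈ (I.incS S).powerset.filter I.Indep,
        ∑ P ∈ I.seqs n (I.domL L), wt a (n + 1) (Pc.cons L P) ≤ ∏ i ∈ L, W i := by
      intro L _
      have : ∑ P ∈ I.seqs n (I.domL L), wt a (n + 1) (Pc.cons L P) =
          (∏ i ∈ L, a i) * ∑ P ∈ I.seqs n (I.domL L), wt a n P := by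
        rw [mul_sum]
        rfl
      rw [this]
      exact (mul_le_mul_of_nonneg_left (ih _) (prod_nonneg fun i _ => ha i)).trans
        (I.sums_layer_le ha hW hA L)
    refine (sum_le_sum h1).trans ?_
    rw [Finset.prod_one_add]
    exact sum_le_sum_of_subset_of_nonneg (filter_subset _ _)
      (fun L _ _ => prod_nonneg fun i _ => hW i)

/-- number of layers containing the event `i` -/
def sumsN {ι : Type u} [DecidableEq ι] (i : ι) : (n : ℕ) → Pc ι n → ℝ
  | 0, .nil => 0
  | n + 1, .cons L P => (if i ∈ L then 1 else 0) + sumsN i n P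

theorem sumsN_nonneg (i : ι) : ∀ (n : ℕ) (P : Pc ι n), 0 ≤ sumsN i n P
  | 0, .nil => le_rfl
  | n + 1, .cons L P => by
    have := sumsN_nonneg i n P
    show 0 ≤ (if i ∈ L then (1 : ℝ) else 0) + sumsN i n P
    split_ifs <;> linarith

theorem sums_one_le_sumsN (v : V) : ∀ (n : ℕ) (P : Pc ι n) (k : ℕ), (v, k) ∈ I.ent n P →
    ∃ i ∈ I.inc v, 1 ≤ sumsN i n P
  | 0, .nil, _, h => absurd h (by simp [ent])
  | n + 1, .cons L P, k, h => by
    have h' : (v, k) ∈ (I.domL L).image (fun v => (v, I.cnt v n P)) ∪ I.ent n P := h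
    rcases mem_union.1 h' with h' | h'
    · obtain ⟨w, hw, hwe⟩ := mem_image.1 h'
      have hwv : w = v := congrArg Prod.fst hwe
      subst hwv
      obtain ⟨i, hi, hiw⟩ := I.mem_domL.1 hw
      refine ⟨i, I.mem_inc.2 hiw, ?_⟩
      show 1 ≤ (if i ∈ L then (1 : ℝ) else 0) + sumsN i n P
      have := sumsN_nonneg i n P
      simp only [hi, if_true]
      linarith
    · obtain ⟨i, hi, h1⟩ := sums_one_le_sumsN v n P k h'
      refine ⟨i, hi, ?_⟩
      show 1 ≤ (if i ∈ L then (1 : ℝ) else 0) + sumsN i n P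
      split_ifs <;> linarith

/-- Green function of the killed walk -/
def sumsR (W : ι → ℝ) : ℕ → ι → ι → ℝ
  | 0, _, _ => 0
  | n + 1, E, i => (if E = i then 1 else 0) +
      W i / (1 + W i) * ∑ l ∈ I.nbr i, sumsR W n E l

theorem sumsR_nonneg {W : ι → ℝ} (hW : ∀ i, 0 ≤ W i) (n : ℕ) (E i : ι) :
    0 ≤ I.sumsR W n E i := by
  induction n generalizing i with
  | zero => exact le_rfl
  | succ n ih =>
    show 0 ≤ (if E = i then (1 : ℝ) else 0) + W i / (1 + W i) * ∑ l ∈ I.nbr i, I.sumsR W n E l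
    have h1 : 0 ≤ W i / (1 + W i) * ∑ l ∈ I.nbr i, I.sumsR W n E l :=
      mul_nonneg (div_nonneg (hW i) (by linarith [hW i])) (sum_nonneg fun l _ => ih l)
    split_ifs <;> linarith

/-- forward recursion -/
theorem sumsR_forward {W : ι → ℝ} (n : ℕ) (E i : ι) :
    I.sumsR W (n + 1) E i = (if E = i then 1 else 0) +
      ∑ l ∈ I.nbr E, W l / (1 + W l) * I.sumsR W n l i := by
  induction n generalizing i with
  | zero => simp [sumsR]
  | succ n ih =>
    have h0 : I.sumsR W (n + 1 + 1) E i = (if E = i then 1 else 0) +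
        W i / (1 + W i) * ∑ l ∈ I.nbr i, I.sumsR W (n + 1) E l := rfl
    rw [h0]
    congr 1
    have h1 : ∑ l ∈ I.nbr i, I.sumsR W (n + 1) E l =
        ∑ l ∈ I.nbr i, ((if E = l then (1 : ℝ) else 0) +
          ∑ m ∈ I.nbr E, W m / (1 + W m) * I.sumsR W n m l) :=
      sum_congr rfl fun l _ => ih l
    rw [h1, sum_add_distrib, mul_add]
    have h2 : ∀ l, I.sumsR W (n + 1) l i = (if l = i then 1 else 0) +
        W i / (1 + W i) * ∑ m ∈ I.nbr i, I.sumsR W n l m := fun l => rfl
    have h3 : ∑ l ∈ I.nbr E, W l / (1 + W l) * I.sumsR W (n + 1) l i =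
        (∑ l ∈ I.nbr E, W l / (1 + W l) * (if l = i then 1 else 0)) +
        ∑ l ∈ I.nbr E, W l / (1 + W l) * (W i / (1 + W i) * ∑ m ∈ I.nbr i, I.sumsR W n l m) := by
      rw [← sum_add_distrib]
      exact sum_congr rfl fun l _ => by rw [h2 l, mul_add]
    rw [h3]
    congr 1
    · simp only [mul_ite, mul_one, mul_zero]
      rw [sum_ite_eq, sum_ite_eq']
      by_cases h : E ∈ I.nbr i
      · rw [if_pos h, if_pos (I.sums_nbr_symm.1 h), mul_one]
      · rw [if_neg h, if_neg (fun h' => h (I.sums_nbr_symm.1 h')), mul_zero]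
    · rw [sum_comm, mul_sum]
      refine sum_congr rfl fun l _ => ?_
      rw [← mul_sum]
      ring

/-- weighted number of visits of `i` -/
theorem sums_visits {a W : ι → ℝ} (ha : ∀ i, 0 ≤ a i) (hW : ∀ i, 0 ≤ W i)
    (hA : ∀ i, a i * ∏ j ∈ I.nbr i, (1 + W j) ≤ W i) (i : ι) (n : ℕ) (S : Finset V) :
    ∑ P ∈ I.seqs n S, wt a n P * sumsN i n P ≤
      (∏ j ∈ I.incS S, (1 + W j)) *
        ∑ j ∈ I.incS S, W j / (1 + W j) * I.sumsR W n j i := by
  induction n generalizing S with
  | zero =>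
    simp [seqs, sumsN, sumsR]
  | succ n ih =>
    rw [I.sum_seqs_succ]
    -- one layer
    have h1 : ∀ L ∈ (I.incS S).powerset.filter I.Indep,
        ∑ P ∈ I.seqs n (I.domL L), wt a (n + 1) (Pc.cons L P) * sumsN i (n + 1) (Pc.cons L P) ≤
          (∏ j ∈ L, W j) * ∑ j ∈ L, I.sumsR W (n + 1) j i := by
      intro L _
      have e1 : ∑ P ∈ I.seqs n (I.domL L),
          wt a (n + 1) (Pc.cons L P) * sumsN i (n + 1) (Pc.cons L P) =
          (∏ j ∈ L, a j) * ((if i ∈ L then 1 else 0) * ∑ P ∈ I.seqs n (I.domL L), wt a n P +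
            ∑ P ∈ I.seqs n (I.domL L), wt a n P * sumsN i n P) := by
        rw [mul_sum, ← sum_add_distrib, mul_sum]
        refine sum_congr rfl fun P _ => ?_
        show (∏ j ∈ L, a j) * wt a n P * ((if i ∈ L then (1 : ℝ) else 0) + sumsN i n P) = _
        ring
      rw [e1]
      have hG : 0 ≤ ∏ j ∈ I.incS (I.domL L), (1 + W j) :=
        le_trans zero_le_one (sums_one_le hW _)
      have h2 : (if i ∈ L then (1 : ℝ) else 0) * ∑ P ∈ I.seqs n (I.domL L), wt a n P ≤
          (∏ j ∈ I.incS (I.domL L), (1 + W j)) * (if i ∈ L then 1 else 0) := by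
        rw [mul_comm]
        refine mul_le_mul_of_nonneg_right (I.sum_seqs_le ha hW hA n _) ?_
        split_ifs <;> norm_num
      have h3 := ih (I.domL L)
      have h4 : ∑ j ∈ I.incS (I.domL L), W j / (1 + W j) * I.sumsR W n j i ≤
          ∑ j ∈ L, ∑ l ∈ I.nbr j, W l / (1 + W l) * I.sumsR W n l i := by
        rw [I.sums_incS_domL]
        exact sums_biUnion_le (fun l => mul_nonneg
          (div_nonneg (hW l) (by linarith [hW l])) (I.sumsR_nonneg hW n l i)) L I.nbr
      have h5 : ∑ j ∈ L, I.sumsR W (n + 1) j i = (if i ∈ L then 1 else 0) +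
          ∑ j ∈ L, ∑ l ∈ I.nbr j, W l / (1 + W l) * I.sumsR W n l i := by
        rw [sum_congr rfl fun j _ => I.sumsR_forward n j i, sum_add_distrib, sum_ite_eq']
      calc (∏ j ∈ L, a j) * ((if i ∈ L then 1 else 0) * ∑ P ∈ I.seqs n (I.domL L), wt a n P +
            ∑ P ∈ I.seqs n (I.domL L), wt a n P * sumsN i n P)
          ≤ (∏ j ∈ L, a j) * ((∏ j ∈ I.incS (I.domL L), (1 + W j)) *
              ∑ j ∈ L, I.sumsR W (n + 1) j i) := by
            refine mul_le_mul_of_nonneg_left ?_ (prod_nonneg fun i _ => ha i)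
            rw [h5, mul_add]
            exact add_le_add h2 (h3.trans (mul_le_mul_of_nonneg_left h4 hG))
        _ = ((∏ j ∈ L, a j) * ∏ j ∈ I.incS (I.domL L), (1 + W j)) *
              ∑ j ∈ L, I.sumsR W (n + 1) j i := by ring
        _ ≤ _ := mul_le_mul_of_nonneg_right (I.sums_layer_le ha hW hA L)
              (sum_nonneg fun j _ => I.sumsR_nonneg hW _ _ _)
    refine (sum_le_sum h1).trans ?_
    refine (sum_le_sum_of_subset_of_nonneg (filter_subset _ _)
      (fun L _ _ => mul_nonneg (prod_nonneg fun i _ => hW i)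
        (sum_nonneg fun j _ => I.sumsR_nonneg hW _ _ _))).trans ?_
    -- exchange the sums
    have h6 : ∑ L ∈ (I.incS S).powerset, (∏ j ∈ L, W j) * ∑ j ∈ L, I.sumsR W (n + 1) j i =
        ∑ j ∈ I.incS S, (∑ L ∈ (I.incS S).powerset.filter (fun L => j ∈ L), ∏ l ∈ L, W l) *
          I.sumsR W (n + 1) j i := by
      have : ∀ L ∈ (I.incS S).powerset, (∏ j ∈ L, W j) * ∑ j ∈ L, I.sumsR W (n + 1) j i =
          ∑ j ∈ I.incS S, (if j ∈ L then (∏ l ∈ L, W l) * I.sumsR W (n + 1) j i else 0) := by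
        intro L hL
        rw [mul_sum, ← sum_filter]
        refine sum_congr ?_ fun _ _ => rfl
        ext j
        simp only [mem_filter]
        exact ⟨fun h => ⟨mem_powerset.1 hL h, h⟩, fun h => h.2⟩
      rw [sum_congr rfl this, sum_comm]
      refine sum_congr rfl fun j _ => ?_
      rw [sum_mul, sum_filter]
    rw [h6, mul_sum]
    refine sum_le_sum fun j hj => ?_
    have h7 : ∑ L ∈ (I.incS S).powerset.filter (fun L => j ∈ L), ∏ l ∈ L, W l =
        W j * ∏ l ∈ (I.incS S).erase j, (1 + W l) := by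
      rw [Finset.prod_one_add, mul_sum]
      symm
      refine sum_bij' (fun L _ => insert j L) (fun L _ => L.erase j) ?_ ?_ ?_ ?_ ?_
      · intro L hL
        rw [mem_powerset] at hL
        rw [mem_filter, mem_powerset]
        exact ⟨insert_subset hj (hL.trans (erase_subset _ _)), mem_insert_self _ _⟩
      · intro L hL
        rw [mem_filter, mem_powerset] at hL
        rw [mem_powerset]
        exact erase_subset_erase _ hL.1
      · intro L hL
        rw [mem_powerset] at hL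
        exact erase_insert fun h => (mem_erase.1 (hL h)).1 rfl
      · intro L hL
        rw [mem_filter] at hL
        exact insert_erase hL.2
      · intro L hL
        rw [mem_powerset] at hL
        rw [prod_insert fun h => (mem_erase.1 (hL h)).1 rfl]
    rw [h7]
    have h8 : ∏ l ∈ I.incS S, (1 + W l) = (1 + W j) * ∏ l ∈ (I.incS S).erase j, (1 + W l) :=
      (mul_prod_erase _ _ hj).symm
    rw [h8]
    have h9 : (1 + W j) ≠ 0 := by linarith [hW j]
    apply le_of_eq
    field_simp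

/-- Total weight of all rooted pieces (roots in an arbitrary finite set `D`) that use the
variable `v`. -/
theorem sum_containing {a W K : ι → ℝ} (ha : ∀ i, 0 ≤ a i) (hW : ∀ i, 0 ≤ W i)
    (hK : ∀ i, 0 ≤ K i)
    (hA : ∀ i, a i * ∏ j ∈ I.nbr i, (1 + W j) ≤ W i)
    (hB : ∀ i, 1 + (∑ j ∈ I.nbr i, W j * K j) / (1 + W i) ≤ K i)
    (D : Finset ι) (n : ℕ) (v : V) :
    ∑ E ∈ D, a E * ∑ P ∈ (I.seqs n (I.dom E)).filter (fun P => ∃ k, (v, k) ∈ I.entR E P),
        wt a n P ≤ ∑ i ∈ I.inc v, W i * K i := by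
  have hwt : ∀ (n : ℕ) (P : Pc ι n), 0 ≤ wt a n P := by
    intro n
    induction n with
    | zero => intro P; cases P; exact zero_le_one
    | succ n ih =>
      intro P
      cases P with
      | cons L P => exact mul_nonneg (prod_nonneg fun i _ => ha i) (ih P)
  -- the potential
  have hR : ∀ (n : ℕ) (i : ι), ∑ E ∈ D, W E * I.sumsR W n E i ≤ W i * K i := by
    intro n
    induction n with
    | zero =>
      intro i
      simp only [sumsR, mul_zero, sum_const_zero]
      exact mul_nonneg (hW i) (hK i)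
    | succ n ih =>
      intro i
      have e1 : ∑ E ∈ D, W E * I.sumsR W (n + 1) E i =
          (if i ∈ D then W i else 0) + W i / (1 + W i) *
            ∑ l ∈ I.nbr i, ∑ E ∈ D, W E * I.sumsR W n E l := by
        have : ∀ E ∈ D, W E * I.sumsR W (n + 1) E i = (if E = i then W E else 0) +
            W i / (1 + W i) * ∑ l ∈ I.nbr i, W E * I.sumsR W n E l := by
          intro E _
          show W E * ((if E = i then (1 : ℝ) else 0) + W i / (1 + W i) *
            ∑ l ∈ I.nbr i, I.sumsR W n E l) = _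
          rw [mul_add, mul_ite, mul_one, mul_zero, ← mul_sum]
          ring
        rw [sum_congr rfl this, sum_add_distrib, ← mul_sum, sum_comm, sum_ite_eq']
      rw [e1]
      have h1 : (if i ∈ D then W i else 0) ≤ W i := by
        split_ifs
        · exact le_rfl
        · exact hW i
      have h2 : W i / (1 + W i) * ∑ l ∈ I.nbr i, ∑ E ∈ D, W E * I.sumsR W n E l ≤
          W i / (1 + W i) * ∑ l ∈ I.nbr i, W l * K l :=
        mul_le_mul_of_nonneg_left (sum_le_sum fun l _ => ih l)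
          (div_nonneg (hW i) (by linarith [hW i]))
      have h3 : W i + W i / (1 + W i) * ∑ l ∈ I.nbr i, W l * K l =
          W i * (1 + (∑ l ∈ I.nbr i, W l * K l) / (1 + W i)) := by ring
      have h4 := mul_le_mul_of_nonneg_left (hB i) (hW i)
      linarith
  -- pieces with the member `i`
  have hi : ∀ i, ∑ E ∈ D, a E * ((if E = i then 1 else 0) * ∑ P ∈ I.seqs n (I.dom E), wt a n P +
      ∑ P ∈ I.seqs n (I.dom E), wt a n P * sumsN i n P) ≤ W i * K i := by
    intro i
    refine le_trans (sum_le_sum fun E _ => ?_) (hR (n + 1) i)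
    have hG : 0 ≤ ∏ j ∈ I.incS (I.dom E), (1 + W j) := le_trans zero_le_one (sums_one_le hW _)
    have h1 : (if E = i then (1 : ℝ) else 0) * ∑ P ∈ I.seqs n (I.dom E), wt a n P ≤
        (∏ j ∈ I.incS (I.dom E), (1 + W j)) * (if E = i then 1 else 0) := by
      rw [mul_comm]
      refine mul_le_mul_of_nonneg_right (I.sum_seqs_le ha hW hA n _) ?_
      split_ifs <;> norm_num
    have h2 := I.sums_visits ha hW hA i n (I.dom E)
    calc a E * ((if E = i then 1 else 0) * ∑ P ∈ I.seqs n (I.dom E), wt a n P +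
          ∑ P ∈ I.seqs n (I.dom E), wt a n P * sumsN i n P)
        ≤ a E * ((∏ j ∈ I.incS (I.dom E), (1 + W j)) * I.sumsR W (n + 1) E i) := by
          refine mul_le_mul_of_nonneg_left ?_ (ha E)
          rw [I.sumsR_forward, mul_add]
          exact add_le_add h1 h2
      _ = (a E * ∏ j ∈ I.nbr E, (1 + W j)) * I.sumsR W (n + 1) E i := by
          rw [nbr]; ring
      _ ≤ W E * I.sumsR W (n + 1) E i :=
          mul_le_mul_of_nonneg_right (hA E) (I.sumsR_nonneg hW _ _ _)
  refine le_trans ?_ (sum_le_sum fun i (_ : i ∈ I.inc v) => hi i)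
  rw [sum_comm]
  refine sum_le_sum fun E _ => ?_
  rw [← mul_sum]
  refine mul_le_mul_of_nonneg_left ?_ (ha E)
  rw [sum_add_distrib]
  have e2 : ∑ i ∈ I.inc v, (if E = i then (1 : ℝ) else 0) * ∑ P ∈ I.seqs n (I.dom E), wt a n P =
      ∑ P ∈ I.seqs n (I.dom E), wt a n P * (if E ∈ I.inc v then 1 else 0) := by
    rw [← sum_mul, sum_ite_eq, ← sum_mul, mul_comm]
  have e3 : ∑ i ∈ I.inc v, ∑ P ∈ I.seqs n (I.dom E), wt a n P * sumsN i n P =
      ∑ P ∈ I.seqs n (I.dom E), wt a n P * ∑ i ∈ I.inc v, sumsN i n P := by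
    rw [sum_comm]
    exact sum_congr rfl fun P _ => by rw [mul_sum]
  rw [e2, e3, ← sum_add_distrib, sum_filter]
  refine sum_le_sum fun P _ => ?_
  have hs : 0 ≤ ∑ i ∈ I.inc v, sumsN i n P := sum_nonneg fun i _ => sumsN_nonneg i n P
  split_ifs with h1 h2 h2
  · nlinarith [hwt n P]
  · obtain ⟨k, hk⟩ := h1
    rw [entR, mem_union] at hk
    have hk' : (v, k) ∈ I.ent n P := by
      rcases hk with hk | hk
      · exfalso
        rw [rootEnt, mem_image] at hk
        obtain ⟨w, hw, hwe⟩ := hk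
        have hwv : w = v := congrArg Prod.fst hwe
        subst hwv
        exact h2 (I.mem_inc.2 hw)
      · exact hk
    obtain ⟨i, hi', h1i⟩ := I.sums_one_le_sumsN v n P k hk'
    have h3 : 1 ≤ ∑ i ∈ I.inc v, sumsN i n P :=
      h1i.trans (single_le_sum (f := fun i => sumsN i n P)
        (fun j _ => sumsN_nonneg j n P) hi')
    nlinarith [hwt n P]
  · nlinarith [hwt n P, mul_nonneg (hwt n P) hs]
  · nlinarith [hwt n P, mul_nonneg (hwt n P) hs]

end Inst

end Pool.Agent.MLLL
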