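import Pool.Agent.Lib.MP_25f38e_lc.MT
import Pool.Agent.Lib.MP_25f38e_lc.Sums
import Pool.Agent.Lib.MP_25f38e_lc.Prob
import Pool.Agent.Lib.MP_25f38e_lc.RuleB
import Pool.Agent.Lib.MP_25f38e_lc.RuleBProb
-- in the final file: import ...MT ...Sums ...Prob ...RuleB

/-!
# Pointwise probability estimates (MP_25f38e_lc, module POINT, helper32)
-/

set_option linter.unusedSectionVars false

noncomputable section

open scoped Classical
open Finset

namespace Pool.Agent.MLLL

universe u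

namespace Inst

variable {V ι : Type u} {A : Type} [DecidableEq V] [DecidableEq ι] [Fintype A] [Nonempty A]
  (I : Inst V ι A)

/-- rooted pieces at events containing `v` live on the relevant entries -/
theorem entR_subset_rel {M : ℕ} {v : V} {E : ι} (hE : E ∈ I.inc v) {P : Pc ι M}
    (hP : P ∈ I.seqs M (I.dom E)) : I.entR E P ⊆ I.rel M v := by
  have h1 : I.dom E ⊆ I.ball 1 {v} := by
    intro w hw
    rw [show (1 : ℕ) = 0 + 1 from rfl, ball_succ, ball_zero, mem_nbS]
    exact ⟨v, by simp, I.mem_nbv.2 (Or.inr ⟨E, I.mem_inc.1 hE, hw⟩)⟩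
  have h2 : I.ball M (I.dom E) ⊆ I.ball (M + 1) {v} := by
    rw [I.ball_add M 1]
    exact I.ball_mono_set h1 M
  exact (I.entR_subset hP).trans (product_subset_product h2 Subset.rfl)

theorem point_ind_le_sum {κ : Type*} {s : Finset κ} {Q : Prop} {R : κ → Prop}
    (h : Q → ∃ i ∈ s, R i) : ind Q ≤ ∑ i ∈ s, ind (R i) := by
  by_cases hQ : Q
  · obtain ⟨i, hi, hR⟩ := h hQ
    have h1 : ind Q = ind (R i) := by simp [ind, hQ, hR]
    rw [h1]
    exact single_le_sum (f := fun i => ind (R i)) (fun j _ => ind_nonneg _) hi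
  · have : ind Q = 0 := by simp [ind, hQ]
    rw [this]
    exact sum_nonneg fun j _ => ind_nonneg _

/-- DOMINATION of the output of the Moser-Tardos process (structure lemma with root `S`, product
formula `avg_cons`, `sum_seqs_le`) -/
theorem domination {W : ι → ℝ} (hW : ∀ i, 0 ≤ W i)
    (hA : ∀ i, I.p i * ∏ j ∈ I.nbr i, (1 + W j) ≤ W i)
    {col : ι → ℕ} {C : ℕ} (hcol : I.Proper col C) (M : ℕ) (S : Finset V)
    {L : Type} [Fintype L] [DecidableEq L] (ℓ : V × ℕ → L)
    (hℓ : Set.InjOn ℓ (↑(I.ball M S ×ˢ range (M + 1)) : Set (V × ℕ)))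
    {Φ : (V → A) → ℝ} (hΦ : DependsOn Φ (S : Set V)) (hΦ0 : ∀ g, 0 ≤ Φ g) (g : V → A) :
    ex (fun ω : L → A => Φ (I.st col C (fun x => ω (ℓ x)) M))
      ≤ avg S Φ g * ∏ i ∈ I.incS S, (1 + W i) := by
  have hstep : ∀ ω : L → A, Φ (I.st col C (fun x => ω (ℓ x)) M) ≤
      ∑ P ∈ I.seqs M S, (fun τ : V × ℕ → A =>
        Φ (fun v => τ (v, I.cnt v M P)) * ind (I.cons τ M P)) (fun x => ω (ℓ x)) := by
    intro ω
    obtain ⟨P, hP, hcnt, hcons, -⟩ := I.mt_structure hcol (fun x => ω (ℓ x)) (le_refl M) S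
    have h1 : Φ (I.st col C (fun x => ω (ℓ x)) M) =
        (fun τ : V × ℕ → A =>
        Φ (fun v => τ (v, I.cnt v M P)) * ind (I.cons τ M P)) (fun x => ω (ℓ x)) := by
      have h2 : ind (I.cons (fun x => ω (ℓ x)) M P) = 1 := by simp [ind, hcons]
      simp only [h2, mul_one]
      refine hΦ fun v hv => ?_
      simp only [st, hcnt v (by simpa using hv)]
    rw [h1]
    exact single_le_sum (f := fun P => (fun τ : V × ℕ → A =>
        Φ (fun v => τ (v, I.cnt v M P)) * ind (I.cons τ M P)) (fun x => ω (ℓ x)))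
      (fun P _ => mul_nonneg (hΦ0 _) (ind_nonneg _)) hP
  refine (ex_mono hstep).trans ?_
  rw [ex_sum]
  have hterm : ∀ P ∈ I.seqs M S, ex (fun ω : L → A => (fun τ : V × ℕ → A =>
        Φ (fun v => τ (v, I.cnt v M P)) * ind (I.cons τ M P)) (fun x => ω (ℓ x))) =
      avg S Φ g * wt I.p M P := by
    intro P hP
    have hsub : I.rootEnt S P ∪ I.ent M P ⊆ I.ball M S ×ˢ range (M + 1) := by
      refine union_subset ((I.rootEnt_subset S P).trans
        (product_subset_product (I.subset_ball M S) Subset.rfl))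
        ((I.ent_subset M S P hP).trans (product_subset_product Subset.rfl ?_))
      exact range_mono (Nat.le_succ M)
    have hdep : DependsOn (fun τ : V × ℕ → A =>
        Φ (fun v => τ (v, I.cnt v M P)) * ind (I.cons τ M P))
        (↑(I.rootEnt S P ∪ I.ent M P) : Set (V × ℕ)) := by
      intro τ τ' h
      have h1 : Φ (fun v => τ (v, I.cnt v M P)) = Φ (fun v => τ' (v, I.cnt v M P)) := by
        refine hΦ fun v hv => h _ ?_
        simp only [coe_union, Set.mem_union, mem_coe]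
        exact Or.inl (mem_image.2 ⟨v, by simpa using hv, rfl⟩)
      have h2 : ind (I.cons τ M P) = ind (I.cons τ' M P) :=
        I.cons_dependsOn M P fun x hx => h x (by
          simp only [coe_union, Set.mem_union]
          exact Or.inr hx)
      simp only [h1, h2]
    have hinj : Set.InjOn ℓ (↑(I.rootEnt S P ∪ I.ent M P) : Set (V × ℕ)) :=
      hℓ.mono (by exact_mod_cast hsub)
    rw [ex_comp ℓ hinj hdep (fun _ => Classical.arbitrary A)]
    exact I.avg_cons hP hΦ _ g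
  rw [sum_congr rfl hterm, ← mul_sum]
  exact mul_le_mul_of_nonneg_left (I.sum_seqs_le I.p_nonneg hW hA M S)
    (avg_nonneg hΦ0)

/-- sum over the rooted pieces at `v` with at least `ρ` non-root events (`sum_seqs_le`, `hA`,
`hC`, `1 ≤ K`) -/
theorem sum_rooted {t b Cc : ℝ} {W K : ι → ℝ} (h : I.Cls t b Cc W K) (M ρ : ℕ) (v : V) :
    ∑ E ∈ I.inc v, ∑ P ∈ (I.seqs M (I.dom E)).filter (fun P => ρ ≤ size M P),
      b ^ (I.entR E P).card * (I.p E * wt I.p M P) ≤ Cc / t ^ ρ := by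
  have ht : 0 < t := lt_trans one_pos h.one_lt_t
  have hb : 0 < b := lt_trans one_pos h.one_lt_b
  set a' : ι → ℝ := fun i => b ^ (I.dom i).card * I.p i with ha'
  have ha'0 : ∀ i, 0 ≤ a' i := fun i => mul_nonneg (pow_nonneg hb.le _) (I.p_nonneg i)
  set a : ι → ℝ := fun i => t * a' i with ha
  have ha0 : ∀ i, 0 ≤ a i := fun i => mul_nonneg ht.le (ha'0 i)
  have hA : ∀ i, a i * ∏ j ∈ I.nbr i, (1 + W j) ≤ W i := by
    intro i
    have := h.hA i
    simp only [ha, ha']
    calc _ = t * b ^ (I.dom i).card * I.p i * ∏ j ∈ I.nbr i, (1 + W j) := by ring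
      _ ≤ W i := this
  have hprod : ∀ i, 0 ≤ ∏ j ∈ I.nbr i, (1 + W j) := fun i =>
    prod_nonneg fun j _ => by linarith [h.W_nonneg j]
  rw [le_div_iff₀ (pow_pos ht ρ), sum_mul]
  refine le_trans (sum_le_sum fun E hE => ?_) (h.hC v)
  rw [sum_mul]
  calc ∑ P ∈ (I.seqs M (I.dom E)).filter (fun P => ρ ≤ size M P),
        b ^ (I.entR E P).card * (I.p E * wt I.p M P) * t ^ ρ
      ≤ ∑ P ∈ (I.seqs M (I.dom E)).filter (fun P => ρ ≤ size M P), a' E * wt a M P := by
        refine sum_le_sum fun P hP => ?_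
        rw [mem_filter] at hP
        rw [I.pow_card_entR hP.1 b]
        have h1 : wt a M P = t ^ size M P * wt a' M P := by
          rw [ha, wt_mul (fun _ => t) a' M P, wt_const]
        have h2 : wt a' M P = wt (fun i => b ^ (I.dom i).card) M P * wt I.p M P := by
          rw [ha', wt_mul]
        rw [h1, h2]
        have h3 : 0 ≤ wt (fun i => b ^ (I.dom i).card) M P :=
          wt_nonneg (fun i => pow_nonneg hb.le _) M P
        have h4 : 0 ≤ wt I.p M P := wt_nonneg I.p_nonneg M P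
        have h5 : t ^ ρ ≤ t ^ size M P := pow_le_pow_right₀ h.one_lt_t.le hP.2
        have h6 := ha'0 E
        calc _ = (a' E * (wt (fun i => b ^ (I.dom i).card) M P * wt I.p M P)) * t ^ ρ := by
              simp only [ha']; ring
          _ ≤ (a' E * (wt (fun i => b ^ (I.dom i).card) M P * wt I.p M P)) * t ^ size M P :=
              mul_le_mul_of_nonneg_left h5 (mul_nonneg h6 (mul_nonneg h3 h4))
          _ = _ := by ring
    _ ≤ ∑ P ∈ I.seqs M (I.dom E), a' E * wt a M P :=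
        sum_le_sum_of_subset_of_nonneg (filter_subset _ _) fun P _ _ =>
          mul_nonneg (ha'0 E) (wt_nonneg ha0 M P)
    _ = a' E * ∑ P ∈ I.seqs M (I.dom E), wt a M P := by rw [mul_sum]
    _ ≤ a' E * ∏ i ∈ I.incS (I.dom E), (1 + W i) :=
        mul_le_mul_of_nonneg_left (I.sum_seqs_le ha0 h.W_nonneg hA M (I.dom E)) (ha'0 E)
    _ ≤ a E * ∏ i ∈ I.nbr E, (1 + W i) := by
        refine mul_le_mul_of_nonneg_right ?_ (hprod E)
        simp only [ha]
        nlinarith [ha'0 E, h.one_lt_t]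
    _ ≤ W E := hA E
    _ ≤ W E * K E := le_mul_of_one_le_right (h.W_nonneg E) (h.one_le_K E)

theorem point_ex_consR {M : ℕ} {v : V} {E : ι} (hE : E ∈ I.inc v) {P : Pc ι M}
    (hP : P ∈ I.seqs M (I.dom E)) {L : Type} [Fintype L] [DecidableEq L] (ℓ : V × ℕ → L)
    (hℓ : Set.InjOn ℓ (↑(I.rel M v) : Set (V × ℕ))) :
    ex (fun ω : L → A => ind (I.consR (fun x => ω (ℓ x)) E P)) = I.p E * wt I.p M P := by
  have hinj : Set.InjOn ℓ (↑(I.entR E P) : Set (V × ℕ)) :=
    hℓ.mono (by exact_mod_cast I.entR_subset_rel hE hP)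
  rw [ex_comp (Φ := fun τ : V × ℕ → A => ind (I.consR τ E P)) ℓ hinj (I.consR_dependsOn E P)
    (fun _ => Classical.arbitrary A)]
  exact I.avg_consR hP _

theorem point_ex_le {t b Cc : ℝ} {W K : ι → ℝ} (h : I.Cls t b Cc W K) {M ρ : ℕ}
    (v : V) {L : Type} [Fintype L] [DecidableEq L] (ℓ : V × ℕ → L)
    (hℓ : Set.InjOn ℓ (↑(I.rel M v) : Set (V × ℕ))) (Q : (L → A) → Prop)
    (hQ : ∀ ω, Q ω → ∃ E ∈ I.inc v, ∃ P ∈ I.seqs M (I.dom E), ρ ≤ size M P ∧
      I.consR (fun x => ω (ℓ x)) E P) :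
    ex (fun ω : L → A => ind (Q ω)) ≤ Cc / t ^ ρ := by
  have hstep : ∀ ω : L → A, ind (Q ω) ≤
      ∑ E ∈ I.inc v, ∑ P ∈ (I.seqs M (I.dom E)).filter (fun P => ρ ≤ size M P),
        ind (I.consR (fun x => ω (ℓ x)) E P) := by
    intro ω
    by_cases hq : Q ω
    · obtain ⟨E, hE, P, hP, h1, h2⟩ := hQ ω hq
      have e1 : ind (Q ω) = ind (I.consR (fun x => ω (ℓ x)) E P) := by simp [ind, hq, h2]
      rw [e1]
      refine le_trans (single_le_sum (f := fun P => ind (I.consR (fun x => ω (ℓ x)) E P))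
        (s := (I.seqs M (I.dom E)).filter (fun P => ρ ≤ size M P))
        (fun j _ => ind_nonneg _) (mem_filter.2 ⟨hP, h1⟩)) ?_
      exact single_le_sum (f := fun E =>
        ∑ P ∈ (I.seqs M (I.dom E)).filter (fun P => ρ ≤ size M P),
        ind (I.consR (fun x => ω (ℓ x)) E P)) (fun j _ => sum_nonneg fun _ _ => ind_nonneg _) hE
    · have : ind (Q ω) = 0 := by simp [ind, hq]
      rw [this]
      exact sum_nonneg fun j _ => sum_nonneg fun _ _ => ind_nonneg _
  refine (ex_mono hstep).trans ?_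
  rw [ex_sum]
  refine le_trans (sum_le_sum fun E hE => ?_) (I.sum_rooted h M ρ v)
  rw [ex_sum]
  refine sum_le_sum fun P hP => ?_
  rw [I.point_ex_consR hE (mem_filter.1 hP).1 ℓ hℓ]
  refine le_mul_of_one_le_left (mul_nonneg (I.p_nonneg E) (wt_nonneg I.p_nonneg M P)) ?_
  exact one_le_pow₀ h.one_lt_b.le

/-- probability to be resampled after step `r` -/
theorem ex_unstable {t b Cc : ℝ} {W K : ι → ℝ} (h : I.Cls t b Cc W K)
    {col : ι → ℕ} {C : ℕ} (hcol : I.Proper col C) {r M ρ : ℕ} (hr : r ≤ M) (hρ : ρ * C ≤ r)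
    (v : V) {L : Type} [Fintype L] [DecidableEq L] (ℓ : V × ℕ → L)
    (hℓ : Set.InjOn ℓ (↑(I.rel M v) : Set (V × ℕ))) :
    ex (fun ω : L → A => ind (I.mt col C (fun x => ω (ℓ x)) M v ≠
      I.mt col C (fun x => ω (ℓ x)) r v)) ≤ Cc / t ^ ρ := by
  refine I.point_ex_le h v ℓ hℓ _ fun ω hω => ?_
  obtain ⟨E, hE, P, hP, h1, h2⟩ := I.unstable_piece hcol _ hr hω
  have hC : 0 < C := lt_of_le_of_lt (Nat.zero_le _) (hcol.1 E)
  exact ⟨E, hE, P, hP, ((Nat.le_div_iff_mul_le hC).2 hρ).trans h1, h2⟩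

/-- probability that `v` lies in an event bad at time `M` -/
theorem ex_bad {t b Cc : ℝ} {W K : ι → ℝ} (h : I.Cls t b Cc W K)
    {col : ι → ℕ} {C : ℕ} (hcol : I.Proper col C) {M T : ℕ} (hT : T * C ≤ M)
    (v : V) {L : Type} [Fintype L] [DecidableEq L] (ℓ : V × ℕ → L)
    (hℓ : Set.InjOn ℓ (↑(I.rel M v) : Set (V × ℕ))) :
    ex (fun ω : L → A => ind (∃ E ∈ I.inc v, I.bad E (I.st col C (fun x => ω (ℓ x)) M)))
      ≤ Cc / t ^ T := by
  refine I.point_ex_le h v ℓ hℓ _ fun ω hω => ?_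
  obtain ⟨E, hE, hbad⟩ := hω
  obtain ⟨P, hP, h1, h2⟩ := I.bad_piece hcol _ (le_refl M) hbad
  have hC : 0 < C := lt_of_le_of_lt (Nat.zero_le _) (hcol.1 E)
  exact ⟨E, hE, P, hP, ((Nat.le_div_iff_mul_le hC).2 hT).trans h1, h2⟩

/-- the loss functional: conditional weights of the pieces rooted at `v` with at least `ρ`
non-root events, given the values of `σ` on the set `Y` of entries -/
def lossB (b : ℝ) (M ρ : ℕ) (Y : Set (V × ℕ)) (σ : V × ℕ → A) (v : V) : ℝ :=
  ∑ E ∈ I.inc v, ∑ P ∈ (I.seqs M (I.dom E)).filter (fun P => ρ ≤ size M P),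
    avg ((I.entR E P).filter (· ∉ Y)) (fun τ => ind (I.consR τ E P)) σ *
      b ^ ((I.entR E P).filter (· ∉ Y)).card

theorem lossB_nonneg {b : ℝ} (hb : 0 ≤ b) (M ρ : ℕ) (Y : Set (V × ℕ)) (σ : V × ℕ → A) (v : V) :
    0 ≤ I.lossB b M ρ Y σ v :=
  sum_nonneg fun _ _ => sum_nonneg fun _ _ =>
    mul_nonneg (avg_nonneg fun _ => ind_nonneg _) (pow_nonneg hb _)

/-- expectation of the loss functional under rule B for ANY instance `J` on the table entries
(`yx_martingale`) -/
theorem ex_lossB {t b Cc : ℝ} {W K : ι → ℝ} (h : I.Cls t b Cc W K) (M ρ : ℕ) (v : V)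
    {κ : Type u} [DecidableEq κ] (J : Inst (V × ℕ) κ A) (β θ ζ : ℝ) {L : ℕ}
    (ℓ : V × ℕ → Fin L) (hℓ : Set.InjOn ℓ (↑(I.rel M v) : Set (V × ℕ))) :
    ex (fun ω : Fin L → A => I.lossB b M ρ
      (J.Yx β θ ζ (fun x => (ℓ x : ℕ)) (fun x => ω (ℓ x)) L) (fun x => ω (ℓ x)) v)
      ≤ Cc / t ^ ρ := by
  simp only [lossB]
  rw [ex_sum]
  refine le_trans (sum_le_sum fun E hE => ?_) (I.sum_rooted h M ρ v)
  rw [ex_sum]
  refine sum_le_sum fun P hP => ?_
  have hP' := (mem_filter.1 hP).1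
  have hinj : Set.InjOn ℓ (↑(I.entR E P) : Set (V × ℕ)) :=
    hℓ.mono (by exact_mod_cast I.entR_subset_rel hE hP')
  have hstep : ∀ ω : Fin L → A,
      avg ((I.entR E P).filter
          (· ∉ J.Yx β θ ζ (fun x => (ℓ x : ℕ)) (fun x => ω (ℓ x)) L))
        (fun τ => ind (I.consR τ E P)) (fun x => ω (ℓ x)) *
      b ^ ((I.entR E P).filter
          (· ∉ J.Yx β θ ζ (fun x => (ℓ x : ℕ)) (fun x => ω (ℓ x)) L)).card
      ≤ b ^ (I.entR E P).card * avg ((I.entR E P).filter
          (· ∉ J.Yx β θ ζ (fun x => (ℓ x : ℕ)) (fun x => ω (ℓ x)) L))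
        (fun τ => ind (I.consR τ E P)) (fun x => ω (ℓ x)) := by
    intro ω
    rw [mul_comm]
    refine mul_le_mul_of_nonneg_right ?_ (avg_nonneg fun _ => ind_nonneg _)
    exact pow_le_pow_right₀ h.one_lt_b.le (card_filter_le _ _)
  refine (ex_mono hstep).trans ?_
  rw [ex_mul_left, J.yx_martingale (β := β) (θ := θ) (ζ := ζ) ℓ hinj (I.consR_dependsOn E P)
    (fun _ => Classical.arbitrary A), I.avg_consR hP']

/-- probability to be resampled after step `r` when the table is `σ` on `Y` and a random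
assignment `G ω` off `Y`, dominated by the uniform one on the finite sets of entries around `v` -/
theorem ex_unstable_cond {b : ℝ} (hb : 1 ≤ b)
    {col : ι → ℕ} {C : ℕ} (hcol : I.Proper col C) {r M ρ : ℕ} (hr : r ≤ M) (hρ : ρ * C ≤ r)
    (v : V) (Y : Set (V × ℕ)) (σ : V × ℕ → A)
    {L : Type} [Fintype L] [DecidableEq L] (G : (L → A) → (V × ℕ → A))
    (hG : ∀ S : Finset (V × ℕ), S ⊆ I.rel M v → ∀ Φ : (V × ℕ → A) → ℝ,
      DependsOn Φ (S : Set (V × ℕ)) → (∀ g, 0 ≤ Φ g) →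
      ex (fun ω => Φ (G ω)) ≤ avg S Φ σ * b ^ S.card) :
    ex (fun ω => ind (I.mt col C (fun x => if x ∈ Y then σ x else G ω x) M v ≠
      I.mt col C (fun x => if x ∈ Y then σ x else G ω x) r v)) ≤ I.lossB b M ρ Y σ v := by
  have hstep : ∀ ω : L → A, ind (I.mt col C (fun x => if x ∈ Y then σ x else G ω x) M v ≠
      I.mt col C (fun x => if x ∈ Y then σ x else G ω x) r v) ≤
      ∑ E ∈ I.inc v, ∑ P ∈ (I.seqs M (I.dom E)).filter (fun P => ρ ≤ size M P),
        ind (I.consR (fun x => if x ∈ Y then σ x else G ω x) E P) := by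
    intro ω
    by_cases hq : I.mt col C (fun x => if x ∈ Y then σ x else G ω x) M v ≠
      I.mt col C (fun x => if x ∈ Y then σ x else G ω x) r v
    · obtain ⟨E, hE, P, hP, h1, h2⟩ := I.unstable_piece hcol _ hr hq
      have hC : 0 < C := lt_of_le_of_lt (Nat.zero_le _) (hcol.1 E)
      have h3 : ρ ≤ size M P := ((Nat.le_div_iff_mul_le hC).2 hρ).trans h1
      have e1 : ind (I.mt col C (fun x => if x ∈ Y then σ x else G ω x) M v ≠
          I.mt col C (fun x => if x ∈ Y then σ x else G ω x) r v) =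
          ind (I.consR (fun x => if x ∈ Y then σ x else G ω x) E P) := by
        rw [ind, ind, if_pos hq, if_pos h2]
      rw [e1]
      refine le_trans (single_le_sum
        (f := fun P => ind (I.consR (fun x => if x ∈ Y then σ x else G ω x) E P))
        (s := (I.seqs M (I.dom E)).filter (fun P => ρ ≤ size M P))
        (fun j _ => ind_nonneg _) (mem_filter.2 ⟨hP, h3⟩)) ?_
      exact single_le_sum (f := fun E =>
        ∑ P ∈ (I.seqs M (I.dom E)).filter (fun P => ρ ≤ size M P),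
        ind (I.consR (fun x => if x ∈ Y then σ x else G ω x) E P))
        (fun j _ => sum_nonneg fun _ _ => ind_nonneg _) hE
    · rw [ind, if_neg hq]
      exact sum_nonneg fun j _ => sum_nonneg fun _ _ => ind_nonneg _
  refine (ex_mono hstep).trans ?_
  rw [ex_sum]
  refine sum_le_sum fun E hE => ?_
  rw [ex_sum]
  refine sum_le_sum fun P hP => ?_
  have hP' := (mem_filter.1 hP).1
  set S := (I.entR E P).filter (· ∉ Y) with hS
  have hdep : DependsOn (fun h : V × ℕ → A =>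
      ind (I.consR (fun x => if x ∈ Y then σ x else h x) E P)) (↑S : Set (V × ℕ)) := by
    intro h h' hh
    refine I.consR_dependsOn E P fun x hx => ?_
    by_cases hy : x ∈ Y
    · simp [hy]
    · simp only [hy, if_false]
      exact hh x (by simpa [hS, hy] using hx)
  have h1 := hG S ((filter_subset _ _).trans (I.entR_subset_rel hE hP')) _ hdep
    (fun _ => ind_nonneg _)
  refine h1.trans (le_of_eq ?_)
  congr 1
  refine avg_congr_fun fun g' hg' => ?_
  have : (fun x => if x ∈ Y then σ x else g' x) = g' := by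
    funext x
    by_cases hy : x ∈ Y
    · simp only [hy, if_true]
      exact (hg' x (by simp [hS, hy])).symm
    · simp [hy]
  simp only [this]

end Inst

end Pool.Agent.MLLL
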