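import Pool.Agent.Lib.MP_25f38e_lc.Pieces
import Pool.Agent.Lib.MP_25f38e_lc.Avg

/-!
# Reduction of unbounded domains to bounded ones by sampling: section A

(helper50, problem MP_25f38e_lc, module SA)
-/

set_option linter.unusedSectionVars false

noncomputable section

open scoped Classical
open Finset MeasureTheory Function

namespace Pool.Agent.MLLL

universe u

theorem samplea_exists_le_avg {V : Type*} {A : Type} [DecidableEq V] [Fintype A] [Nonempty A]
    (F : Finset V) (Φ : (V → A) → ℝ) (g : V → A) :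
    ∃ h : F → A, Φ (ov F h g) ≤ avg F Φ g := by
  have hc : 0 < (Fintype.card A : ℝ) ^ F.card := by
    have : 0 < Fintype.card A := Fintype.card_pos
    positivity
  have h1 : ∑ h : (F → A), Φ (ov F h g) ≤ ∑ _h : (F → A), avg F Φ g := by
    rw [Finset.sum_const, Finset.card_univ, Fintype.card_fun, Fintype.card_coe, nsmul_eq_mul]
    push_cast
    unfold avg
    rw [mul_div_cancel₀ _ hc.ne']
  obtain ⟨h, -, hh⟩ := Finset.exists_le_of_sum_le univ_nonempty h1
  exact ⟨h, hh⟩

namespace Inst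

section A

variable {X ι : Type u} {A : Type} [DecidableEq X] [DecidableEq ι] [Fintype A] [Nonempty A]
  (I : Inst X ι A) {K Γ : ℕ} (γ : X → Fin Γ)

/-- `s (x, z)`, `z : Fin K`, are `K` sample values for the variable `x`; `ζ : Fin Γ → Fin K`
chooses a sample for every colour; `sZ` is the fraction of the choices that are bad for `i` -/
def sZ (s : X × Fin K → A) (i : ι) : ℝ :=
  ex (fun ζ : Fin Γ → Fin K => ind (I.bad i (fun x => s (x, ζ (γ x)))))

/-- conditional second moment: the variables of colour `< c` have been processed -/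
def pot (c : ℕ) (s : X × Fin K → A) (i : ι) : ℝ :=
  avg (((I.dom i).filter (fun x => c ≤ (γ x : ℕ))) ×ˢ (univ : Finset (Fin K)))
    (fun s => (I.sZ γ s i - I.p i) ^ 2) s

theorem pot_nonneg (c : ℕ) (s : X × Fin K → A) (i : ι) : 0 ≤ I.pot γ c s i :=
  avg_nonneg fun _ => sq_nonneg _

theorem pot_end (s : X × Fin K → A) (i : ι) :
    I.pot γ Γ s i = (I.sZ γ s i - I.p i) ^ 2 := by
  unfold pot
  have h : (I.dom i).filter (fun x => Γ ≤ (γ x : ℕ)) = ∅ := by
    rw [filter_eq_empty_iff]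
    intro x _
    exact not_le.2 (γ x).isLt
  rw [h, empty_product, avg_empty]

theorem samplea_sZ_congr {s s' : X × Fin K → A} {i : ι}
    (h : ∀ x ∈ I.dom i, ∀ z, s (x, z) = s' (x, z)) : I.sZ γ s i = I.sZ γ s' i := by
  unfold sZ
  congr 1
  funext ζ
  unfold ind
  have : I.bad i (fun x => s (x, ζ (γ x))) ↔ I.bad i (fun x => s' (x, ζ (γ x))) :=
    ⟨I.bad_congr i _ _ fun x hx => h x hx _, I.bad_congr i _ _ fun x hx => (h x hx _).symm⟩
  simp only [this]

theorem samplea_sZ_dep (i : ι) : DependsOn (fun s : X × Fin K → A => (I.sZ γ s i - I.p i) ^ 2)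
    {q : X × Fin K | q.1 ∈ I.dom i} := by
  intro s s' h
  simp only
  rw [I.samplea_sZ_congr γ (s := s) (s' := s') fun x hx z => h (x, z) hx]

/-- the base point is irrelevant -/
theorem samplea_p_eq (i : ι) (g : X → A) :
    I.p i = avg (I.dom i) (fun g => ind (I.bad i g)) g := by
  unfold p
  refine avg_congr (S := (I.dom i : Set X)) ?_ (fun v hv hv' => absurd hv hv')
  intro g g' h
  have : I.bad i g ↔ I.bad i g' :=
    ⟨I.bad_congr i _ _ fun x hx => h x hx, I.bad_congr i _ _ fun x hx => (h x hx).symm⟩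
  simp only [ind, this]

theorem samplea_mean (ζ : Fin Γ → Fin K) (s : X × Fin K → A) (i : ι) :
    avg (I.dom i ×ˢ (univ : Finset (Fin K)))
      (fun s => ind (I.bad i (fun x => s (x, ζ (γ x))))) s = I.p i := by
  have he : Set.InjOn (fun x : X => (x, ζ (γ x))) (I.dom i : Set X) := by
    intro x _ y _ h
    exact (Prod.mk.inj h).1
  have hΦ : DependsOn (fun g : X → A => ind (I.bad i g)) (I.dom i : Set X) := by
    intro g g' h
    have : I.bad i g ↔ I.bad i g' :=
      ⟨I.bad_congr i _ _ fun x hx => h x hx, I.bad_congr i _ _ fun x hx => (h x hx).symm⟩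
    simp only [ind, this]
  have h1 := avg_comp (fun x : X => (x, ζ (γ x))) (Subset.rfl) he hΦ s
  have hdep : DependsOn (fun s : X × Fin K → A => ind (I.bad i (fun x => s (x, ζ (γ x)))))
      (((I.dom i).image (fun x : X => (x, ζ (γ x))) : Finset (X × Fin K)) :
        Set (X × Fin K)) := by
    intro s s' h
    apply hΦ
    intro x hx
    exact h _ (mem_coe.2 (mem_image.2 ⟨x, hx, rfl⟩))
  rw [avg_filter hdep]
  refine (congrArg (fun F => avg F (fun s : X × Fin K → A =>
    ind (I.bad i (fun x => s (x, ζ (γ x))))) s) ?_).trans (h1.trans (I.samplea_p_eq i _).symm)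
  ext q
  simp only [mem_filter, mem_product, mem_coe]
  constructor
  · exact fun h => h.2
  · intro h
    refine ⟨⟨?_, mem_univ _⟩, h⟩
    obtain ⟨x, hx, rfl⟩ := mem_image.1 h
    exact hx

theorem samplea_mean2 (ζ ζ' : Fin Γ → Fin K) (hne : ∀ c, ζ c ≠ ζ' c) (s : X × Fin K → A)
    (i : ι) :
    avg (I.dom i ×ˢ (univ : Finset (Fin K)))
      (fun s => ind (I.bad i (fun x => s (x, ζ (γ x)))) *
        ind (I.bad i (fun x => s (x, ζ' (γ x))))) s = I.p i ^ 2 := by
  have hdep : ∀ ζ : Fin Γ → Fin K, DependsOn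
      (fun s : X × Fin K → A => ind (I.bad i (fun x => s (x, ζ (γ x)))))
      {q : X × Fin K | q.2 = ζ (γ q.1)} := by
    intro ζ s s' h
    have e : (fun x => s (x, ζ (γ x))) = (fun x => s' (x, ζ (γ x))) := by
      funext x
      exact h (x, ζ (γ x)) rfl
    simp only [e]
  rw [avg_mul (hdep ζ) (hdep ζ') ?_ s, I.samplea_mean, I.samplea_mean, sq]
  rintro ⟨x, z⟩ _ h1 h2
  have h1' : z = ζ (γ x) := h1
  have h2' : z = ζ' (γ x) := h2
  exact hne (γ x) (h1'.symm.trans h2')

theorem samplea_collision (hK : 0 < K) (ζ : Fin Γ → Fin K) :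
    ex (fun ζ' : Fin Γ → Fin K => ind (∃ c, ζ c = ζ' c)) ≤ Γ / K := by
  have : Nonempty (Fin K) := ⟨⟨0, hK⟩⟩
  have h1 : ex (fun ζ' : Fin Γ → Fin K => ind (∃ c ∈ (univ : Finset (Fin Γ)), ζ c = ζ' c)) ≤
      ∑ c ∈ (univ : Finset (Fin Γ)), ex (fun ζ' : Fin Γ → Fin K => ind (ζ c = ζ' c)) :=
    ex_exists univ (fun c ζ' => ζ c = ζ' c)
  have h2 : ∀ c : Fin Γ, ex (fun ζ' : Fin Γ → Fin K => ind (ζ c = ζ' c)) = 1 / K := by
    intro c
    rw [ex_update c]
    have : ∀ ζ' : Fin Γ → Fin K, (∑ a : Fin K, ind (ζ c = Function.update ζ' c a c)) /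
        (Fintype.card (Fin K) : ℝ) = 1 / K := by
      intro ζ'
      have h3 : ∑ a : Fin K, ind (ζ c = Function.update ζ' c a c) = 1 := by
        simp [ind]
      rw [h3, Fintype.card_fin]
    simp only [this]
    exact ex_const _
  calc ex (fun ζ' : Fin Γ → Fin K => ind (∃ c, ζ c = ζ' c))
      = ex (fun ζ' : Fin Γ → Fin K => ind (∃ c ∈ (univ : Finset (Fin Γ)), ζ c = ζ' c)) := by
        congr 1
        funext ζ'
        simp
    _ ≤ _ := h1
    _ = Γ / K := by
        simp only [h2]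
        rw [sum_const, card_univ, Fintype.card_fin, nsmul_eq_mul]
        ring

/-- second moment: `E (Z-p)^2 ≤ P(∃ c, ζ c = ζ' c) ≤ Γ/K` -/
theorem pot_zero (hK : 0 < K) (s : X × Fin K → A) (i : ι) :
    I.pot γ 0 s i ≤ Γ / K := by
  have : Nonempty (Fin K) := ⟨⟨0, hK⟩⟩
  unfold pot
  have hf : (I.dom i).filter (fun x => 0 ≤ (γ x : ℕ)) = I.dom i :=
    filter_true_of_mem fun x _ => Nat.zero_le _
  rw [hf]
  set F := I.dom i ×ˢ (univ : Finset (Fin K)) with hF
  set b : (Fin Γ → Fin K) → (X × Fin K → A) → ℝ :=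
    fun ζ s => ind (I.bad i (fun x => s (x, ζ (γ x)))) with hb
  have hZ : ∀ s : X × Fin K → A, I.sZ γ s i = ex (fun ζ => b ζ s) := fun s => rfl
  -- the averages as sums over `ζ`
  have hcard : (Fintype.card (Fin K) : ℝ) ^ Fintype.card (Fin Γ) ≠ 0 := avg_card_ne _
  have hexavg : ∀ Φ : (Fin Γ → Fin K) → (X × Fin K → A) → ℝ,
      avg F (fun s => ex (fun ζ => Φ ζ s)) s = ex (fun ζ => avg F (Φ ζ) s) := by
    intro Φ
    have h1 : (fun s => ex (fun ζ => Φ ζ s)) = fun s =>
        ((Fintype.card (Fin K) : ℝ) ^ Fintype.card (Fin Γ))⁻¹ *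
          ∑ ζ ∈ (univ : Finset (Fin Γ → Fin K)), Φ ζ s := by
      funext s
      unfold ex
      rw [div_eq_inv_mul]
    rw [h1, avg_mul_left, avg_sum]
    unfold ex
    rw [div_eq_inv_mul]
  have hmean : avg F (fun s => I.sZ γ s i) s = I.p i := by
    have h1 : (fun s => I.sZ γ s i) = fun s => ex (fun ζ => b ζ s) := rfl
    rw [h1, hexavg]
    have h2 : ∀ ζ, avg F (b ζ) s = I.p i := fun ζ => I.samplea_mean γ ζ s i
    simp only [h2]
    exact ex_const _
  have hsq : ∀ s : X × Fin K → A, I.sZ γ s i ^ 2 =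
      ex (fun ζ => ex (fun ζ' => b ζ s * b ζ' s)) := by
    intro s
    have h1 : ∀ ζ, ex (fun ζ' => b ζ s * b ζ' s) = b ζ s * ex (fun ζ' => b ζ' s) :=
      fun ζ => ex_mul_left _ _
    simp only [h1]
    have h2 : ex (fun ζ => b ζ s * ex (fun ζ' => b ζ' s)) =
        ex (fun ζ' => b ζ' s) * ex (fun ζ => b ζ s) := by
      rw [← ex_mul_left]
      congr 1
      funext ζ
      ring
    rw [h2, hZ, sq]
  have hsecond : avg F (fun s => I.sZ γ s i ^ 2) s ≤ I.p i ^ 2 + Γ / K := by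
    simp only [hsq]
    rw [hexavg]
    have h1 : ∀ ζ, avg F (fun s => ex (fun ζ' => b ζ s * b ζ' s)) s ≤ I.p i ^ 2 + Γ / K := by
      intro ζ
      rw [hexavg (fun ζ' s => b ζ s * b ζ' s)]
      have h2 : ∀ ζ', avg F (fun s => b ζ s * b ζ' s) s ≤
          I.p i ^ 2 + ind (∃ c, ζ c = ζ' c) := by
        intro ζ'
        by_cases hc : ∃ c, ζ c = ζ' c
        · have h3 : avg F (fun s => b ζ s * b ζ' s) s ≤ avg F (fun _ => (1 : ℝ)) s := by
            apply avg_mono
            intro g _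
            exact mul_le_one₀ (ind_le_one _) (ind_nonneg _) (ind_le_one _)
          rw [avg_const] at h3
          have h4 : ind (∃ c, ζ c = ζ' c) = 1 := by simp only [ind, if_pos hc]
          rw [h4]
          have := sq_nonneg (I.p i)
          linarith
        · push Not at hc
          have h3 := I.samplea_mean2 γ ζ ζ' hc s i
          have h4 : avg F (fun s => b ζ s * b ζ' s) s = I.p i ^ 2 := h3
          rw [h4]
          have := ind_nonneg (∃ c, ζ c = ζ' c)
          linarith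
      calc ex (fun ζ' => avg F (fun s => b ζ s * b ζ' s) s)
          ≤ ex (fun ζ' => I.p i ^ 2 + ind (∃ c, ζ c = ζ' c)) := ex_mono h2
        _ = I.p i ^ 2 + ex (fun ζ' => ind (∃ c, ζ c = ζ' c)) := by rw [ex_add, ex_const]
        _ ≤ I.p i ^ 2 + Γ / K := by
            have := samplea_collision hK ζ
            linarith
    calc ex (fun ζ => avg F (fun s => ex (fun ζ' => b ζ s * b ζ' s)) s)
        ≤ ex (fun _ : Fin Γ → Fin K => I.p i ^ 2 + (Γ : ℝ) / K) := ex_mono h1
      _ = _ := ex_const _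
  have hexp : ∀ s : X × Fin K → A, (I.sZ γ s i - I.p i) ^ 2 =
      I.sZ γ s i ^ 2 + ((-2 * I.p i) * I.sZ γ s i + I.p i ^ 2) := by
    intro s; ring
  simp only [hexp]
  rw [avg_add, avg_add, avg_mul_left, avg_const, hmean]
  linarith

/-- `pot c` only depends on the processed samples of the variables of `i` -/
theorem pot_congr {c : ℕ} {s s' : X × Fin K → A} {i : ι}
    (h : ∀ x ∈ I.dom i, (γ x : ℕ) < c → ∀ z, s (x, z) = s' (x, z)) :
    I.pot γ c s i = I.pot γ c s' i := by
  unfold pot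
  refine avg_congr (I.samplea_sZ_dep γ i) ?_
  rintro ⟨x, z⟩ hx hx'
  have hx1 : x ∈ I.dom i := hx
  apply h x hx1
  by_contra hc
  push Not at hc
  exact hx' (mem_product.2 ⟨mem_filter.2 ⟨hx1, hc⟩, mem_univ _⟩)

/-- no variable of colour `c` in `dom i` -/
theorem pot_succ_eq {c : ℕ} {s : X × Fin K → A} {i : ι}
    (h : ∀ x ∈ I.dom i, (γ x : ℕ) ≠ c) : I.pot γ (c + 1) s i = I.pot γ c s i := by
  unfold pot
  have : (I.dom i).filter (fun x => c + 1 ≤ (γ x : ℕ)) =
      (I.dom i).filter (fun x => c ≤ (γ x : ℕ)) := by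
    apply filter_congr
    intro x hx
    have := h x hx
    omega
  rw [this]

/-- averaging over the samples of a block -/
theorem samplea_pot_avg {c : ℕ} (s : X × Fin K → A) {U : Finset ι} {B : Finset X}
    (hB : ∀ x ∈ B, I.inc x = U) (hBc : ∀ x ∈ B, (γ x : ℕ) = c)
    (hU : ∀ i ∈ U, ∀ x ∈ I.dom i, (γ x : ℕ) = c → x ∈ B) {i : ι} (hi : i ∈ U) :
    I.pot γ c s i = avg (B ×ˢ (univ : Finset (Fin K))) (fun s' => I.pot γ (c + 1) s' i) s := by
  unfold pot
  have h1 : (I.dom i).filter (fun x => c ≤ (γ x : ℕ)) =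
      B ∪ (I.dom i).filter (fun x => c + 1 ≤ (γ x : ℕ)) := by
    ext x
    rw [mem_union, mem_filter, mem_filter]
    constructor
    · rintro ⟨hx, hc⟩
      rcases Nat.eq_or_lt_of_le hc with he | hlt
      · exact Or.inl (hU i hi x hx he.symm)
      · exact Or.inr ⟨hx, hlt⟩
    · rintro (hx | ⟨hx, hc⟩)
      · refine ⟨?_, (hBc x hx).ge⟩
        have := hB x hx
        exact I.mem_inc.1 (this ▸ hi)
      · exact ⟨hx, by omega⟩
  have h2 : Disjoint (B ×ˢ (univ : Finset (Fin K)))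
      (((I.dom i).filter (fun x => c + 1 ≤ (γ x : ℕ))) ×ˢ (univ : Finset (Fin K))) := by
    rw [disjoint_left]
    rintro ⟨x, z⟩ hx hx'
    have h3 := hBc x (mem_product.1 hx).1
    have h4 := (mem_filter.1 (mem_product.1 hx').1).2
    simp only at h4
    omega
  rw [h1, union_product, avg_union h2]

/-- choice of the samples of one block `B ⊆ {x | inc x = U}` (of colour `c`): averaging over the
samples of the block, `Σ_{i∈U} pot_{c+1} i / pot_c i` has mean `≤ |U|` -/
theorem exists_block {c : ℕ} (s : X × Fin K → A) {U : Finset ι} {B : Finset X}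
    (hB : ∀ x ∈ B, I.inc x = U) (hBc : ∀ x ∈ B, (γ x : ℕ) = c)
    (hU : ∀ i ∈ U, ∀ x ∈ I.dom i, (γ x : ℕ) = c → x ∈ B) :
    ∃ h : X × Fin K → A, ∀ s' : X × Fin K → A, (∀ x ∈ B, ∀ z, s' (x, z) = h (x, z)) →
      (∀ i ∈ U, ∀ x ∈ I.dom i, (γ x : ℕ) < c → ∀ z, s' (x, z) = s (x, z)) →
      ∀ i ∈ U, I.pot γ (c + 1) s' i ≤ U.card * I.pot γ c s i := by
  set F := B ×ˢ (univ : Finset (Fin K)) with hF
  set U' := U.filter (fun i => 0 < I.pot γ c s i) with hU'
  set Ψ : (X × Fin K → A) → ℝ := fun s' =>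
    ∑ i ∈ U', (I.pot γ c s i)⁻¹ * I.pot γ (c + 1) s' i with hΨ
  obtain ⟨h0, hh0⟩ := samplea_exists_le_avg F Ψ s
  have havg : avg F Ψ s = U'.card := by
    rw [hΨ, avg_sum]
    have h1 : ∀ i ∈ U', avg F (fun s' => (I.pot γ c s i)⁻¹ * I.pot γ (c + 1) s' i) s = 1 := by
      intro i hi
      obtain ⟨hi1, hi2⟩ := mem_filter.1 hi
      rw [avg_mul_left, ← I.samplea_pot_avg γ s hB hBc hU hi1, inv_mul_cancel₀ hi2.ne']
    rw [sum_congr rfl h1, sum_const, nsmul_eq_mul, mul_one]
  rw [havg] at hh0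
  have hcard : (U'.card : ℝ) ≤ U.card := by exact_mod_cast card_le_card (filter_subset _ _)
  refine ⟨ov F h0 s, ?_⟩
  intro s' hs1 hs2 i hi
  have heq : I.pot γ (c + 1) s' i = I.pot γ (c + 1) (ov F h0 s) i := by
    apply I.pot_congr γ
    intro x hx hc z
    rcases Nat.eq_or_lt_of_le (Nat.lt_succ_iff.1 hc) with he | hlt
    · exact hs1 x (hU i hi x hx he) z
    · rw [hs2 i hi x hx hlt z, ov_of_not_mem]
      intro hm
      have := hBc x (mem_product.1 hm).1
      omega
  rw [heq]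
  rcases (I.pot_nonneg γ c s i).lt_or_eq with hpos | hzero
  · have hiU' : i ∈ U' := mem_filter.2 ⟨hi, hpos⟩
    have h1 : (I.pot γ c s i)⁻¹ * I.pot γ (c + 1) (ov F h0 s) i ≤ Ψ (ov F h0 s) := by
      rw [hΨ]
      exact single_le_sum (f := fun i => (I.pot γ c s i)⁻¹ * I.pot γ (c + 1) (ov F h0 s) i)
        (fun j _ => mul_nonneg (inv_nonneg.2 (I.pot_nonneg γ c s j))
          (I.pot_nonneg γ (c + 1) _ j)) hiU'
    have h2 := (h1.trans hh0).trans hcard
    rw [inv_mul_le_iff₀ hpos] at h2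
    linarith
  · rw [← hzero, mul_zero]
    have h1 := I.samplea_pot_avg γ s hB hBc hU hi
    rw [← hzero] at h1
    have hc : 0 < (Fintype.card A : ℝ) ^ F.card := by
      have : 0 < Fintype.card A := Fintype.card_pos
      positivity
    have h2 : ∑ h : (F → A), I.pot γ (c + 1) (ov F h s) i = 0 := by
      have h3 := h1.symm
      unfold avg at h3
      rw [div_eq_zero_iff] at h3
      exact h3.resolve_right hc.ne'
    have h3 := (sum_eq_zero_iff_of_nonneg (fun h _ => I.pot_nonneg γ (c + 1) _ i)).1 h2 h0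
      (mem_univ _)
    exact h3.le

end A

end Inst

end Pool.Agent.MLLL
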