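import Pool.Agent.Lib.MP_25f38e_lc.SampleA
import Pool.Agent.Lib.MP_25f38e_lc.MeasYx

/-!
# Measurable choice of the samples

(helper75, problem MP_25f38e_lc, module SB)
-/

set_option linter.unusedSectionVars false

noncomputable section

open scoped Classical
open Finset MeasureTheory Function

namespace Pool.Agent.MLLL

universe u

/-! ### measurability of averages over a measurable finite set of coordinates -/

section sampleb

variable {W : Type u} [DecidableEq W] [MeasurableSpace W] [StandardBorelSpace W]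
  {A : Type} [Fintype A] [Nonempty A] [MeasurableSpace A] [DiscreteMeasurableSpace A]

/-- rank of `v` in `F`, as an element of `Fin (N + 1)` -/
def sbLab (F : Finset W) (N : ℕ) (v : W) : Fin (N + 1) := Fin.ofNat (N + 1) (yxRank F v)

theorem sb_lab_injOn {F : Finset W} {N : ℕ} (hN : F.card ≤ N) :
    Set.InjOn (sbLab F N) (F : Set W) := by
  intro v hv w hw hvw
  have h1 : yxRank F v < N + 1 := (yxRank_lt hv).trans_le (hN.trans (Nat.le_succ N))
  have h2 : yxRank F w < N + 1 := (yxRank_lt hw).trans_le (hN.trans (Nat.le_succ N))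
  have h3 := congrArg Fin.val hvw
  unfold sbLab at h3
  rw [Fin.val_ofNat, Fin.val_ofNat, Nat.mod_eq_of_lt h1, Nat.mod_eq_of_lt h2] at h3
  exact yxRank_injOn F hv hw h3

theorem sb_avg_eq {F : Finset W} {N : ℕ} (hN : F.card ≤ N) (Φ : (W → A) → ℝ) (g : W → A) :
    avg F Φ g = ex (fun ω : Fin (N + 1) → A =>
      Φ (fun v => if v ∈ F then ω (sbLab F N v) else g v)) := by
  have hdep : DependsOn (fun g' : W → A => Φ (fun v => if v ∈ F then g' v else g v))
      (F : Set W) := by
    intro g' g'' hg
    have : (fun v => if v ∈ F then g' v else g v) = fun v => if v ∈ F then g'' v else g v := by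
      funext v
      by_cases hv : v ∈ F
      · rw [if_pos hv, if_pos hv]; exact hg v hv
      · rw [if_neg hv, if_neg hv]
    show Φ (fun v => if v ∈ F then g' v else g v) = Φ (fun v => if v ∈ F then g'' v else g v)
    rw [this]
  have h4 := ex_comp (sbLab F N) (sb_lab_injOn hN) hdep g
  have h5 : avg F (fun g' : W → A => Φ (fun v => if v ∈ F then g' v else g v)) g =
      avg F Φ g := by
    refine avg_congr_fun ?_
    intro g' hg'
    have : (fun v => if v ∈ F then g' v else g v) = g' := by
      funext v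
      by_cases hv : v ∈ F
      · rw [if_pos hv]
      · rw [if_neg hv, hg' v hv]
    rw [this]
  rw [← h5, ← h4]

theorem sb_measurable_override {Z : Type*} [MeasurableSpace Z] {F : Z → Finset W}
    (hF : Measurable F) (N : ℕ) (ω : Fin (N + 1) → A) {g : Z → W → A}
    (hg : Measurable (uncurry g)) :
    Measurable (uncurry fun z v => if v ∈ F z then ω (sbLab (F z) N v) else g z v) := by
  have e2 : (uncurry fun z v => if v ∈ F z then ω (sbLab (F z) N v) else g z v) =
      fun q : Z × W => if q ∈ {q : Z × W | q.2 ∈ F q.1} then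
        ω (sbLab (F q.1) N q.2) else uncurry g q := rfl
  rw [e2]
  refine Measurable.ite (rel_of_measurable hF) ?_ hg
  have e3 : (fun q : Z × W => ω (sbLab (F q.1) N q.2)) =
      (fun n : ℕ => ω (Fin.ofNat (N + 1) n)) ∘ fun q : Z × W => yxRank (F q.1) q.2 := rfl
  rw [e3]
  exact measurable_from_top.comp (measurable_yxRank hF)

theorem sb_measurable_avg {Z : Type*} [MeasurableSpace Z] {F : Z → Finset W}
    (hF : Measurable F) {Φ : Z → (W → A) → ℝ}
    (hΦ : ∀ g : Z → W → A, Measurable (uncurry g) → Measurable fun z => Φ z (g z))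
    {g : Z → W → A} (hg : Measurable (uncurry g)) :
    Measurable fun z => avg (F z) (Φ z) (g z) := by
  have h1 : ∀ N : ℕ, Measurable fun z => ex (fun ω : Fin (N + 1) → A =>
      Φ z (fun v => if v ∈ F z then ω (sbLab (F z) N v) else g z v)) := by
    intro N
    unfold ex
    refine Measurable.div_const ?_ _
    refine Finset.measurable_sum _ ?_
    intro ω _
    exact hΦ (fun z v => if v ∈ F z then ω (sbLab (F z) N v) else g z v)
      (sb_measurable_override hF N ω hg)
  have h2 : Measurable fun q : Z × ℕ => ex (fun ω : Fin (q.2 + 1) → A =>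
      Φ q.1 (fun v => if v ∈ F q.1 then ω (sbLab (F q.1) q.2 v) else g q.1 v)) :=
    measurable_from_prod_countable_left h1
  have h3 : (fun z => avg (F z) (Φ z) (g z)) =
      (fun q : Z × ℕ => ex (fun ω : Fin (q.2 + 1) → A =>
        Φ q.1 (fun v => if v ∈ F q.1 then ω (sbLab (F q.1) q.2 v) else g q.1 v))) ∘
        fun z => (z, (F z).card) := by
    funext z
    exact sb_avg_eq le_rfl _ _
  rw [h3]
  exact h2.comp (measurable_id.prodMk (measurable_card' hF))

end sampleb

namespace Inst

section B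

variable {X ι : Type u} {A : Type} [DecidableEq X] [DecidableEq ι]
  [MeasurableSpace X] [StandardBorelSpace X] [MeasurableSpace ι] [StandardBorelSpace ι]
  [Fintype A] [Nonempty A] [MeasurableSpace A] [DiscreteMeasurableSpace A]
  (I : Inst X ι A)

/-- Borel instance with possibly unbounded domains -/
structure Meas' : Prop where
  dom : Measurable I.dom
  inc : Measurable I.inc
  bad : ∀ {Z : Type u} [MeasurableSpace Z] (g : Z → X → A), Measurable (uncurry g) →
    MeasurableSet {q : Z × ι | I.bad q.2 (g q.1)}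

variable {I} {K Γ : ℕ} {γ : X → Fin Γ}

theorem Meas'.sb_bad (h : I.Meas') {Z : Type u} [MeasurableSpace Z] {g : Z → X → A}
    (hg : Measurable (uncurry g)) {f : Z → ι} (hf : Measurable f) :
    Measurable fun z => ind (I.bad (f z) (g z)) := by
  have h1 : MeasurableSet {z | I.bad (f z) (g z)} :=
    (h.bad g hg).preimage (measurable_id.prodMk hf)
  exact Measurable.ite h1 measurable_const measurable_const

theorem Meas'.measurable_p (h : I.Meas') : Measurable I.p := by
  unfold Inst.p
  refine sb_measurable_avg h.dom ?_ measurable_const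
  intro g hg
  exact h.sb_bad hg measurable_id

/-- the potential with parameters -/
theorem Meas'.sb_pot (h : I.Meas') (hγ : Measurable γ) (c : ℕ) {Z : Type u}
    [MeasurableSpace Z] [StandardBorelSpace Z] {s : Z → X × Fin K → A}
    (hs : Measurable (uncurry s)) {f : Z → ι} (hf : Measurable f) :
    Measurable fun z => I.pot γ c (s z) (f z) := by
  unfold Inst.pot
  have hF : Measurable fun z =>
      ((I.dom (f z)).filter (fun x => c ≤ (γ x : ℕ))) ×ˢ (univ : Finset (Fin K)) := by
    refine mi_measurable_of_rel (b := fun z => (I.dom (f z)).card * K)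
      ((measurable_card' (h.dom.comp hf)).mul_const _) ?_ ?_
    · intro z
      rw [card_product, card_univ, Fintype.card_fin]
      exact Nat.mul_le_mul_right _ (card_filter_le _ _)
    · have : {q : Z × (X × Fin K) | q.2 ∈
          ((I.dom (f q.1)).filter (fun x => c ≤ (γ x : ℕ))) ×ˢ (univ : Finset (Fin K))} =
          {q : Z × (X × Fin K) | q.2.1 ∈ I.dom (f q.1)} ∩
            (fun q : Z × (X × Fin K) => γ q.2.1) ⁻¹' {k | c ≤ (k : ℕ)} := by
        ext q
        simp only [mem_product, mem_filter, mem_univ, and_true, Set.mem_ofPred_eq,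
          Set.mem_inter_iff, Set.mem_preimage]
      rw [this]
      refine MeasurableSet.inter ?_ ?_
      · exact (rel_of_measurable (h.dom.comp hf)).preimage
          (measurable_fst.prodMk (measurable_fst.comp measurable_snd))
      · exact (hγ.comp (measurable_fst.comp measurable_snd)) (Set.toFinite _).measurableSet
  refine sb_measurable_avg hF ?_ hs
  intro g hg
  refine Measurable.pow_const (Measurable.sub ?_ (h.measurable_p.comp hf)) 2
  unfold Inst.sZ ex
  refine Measurable.div_const ?_ _
  refine Finset.measurable_sum _ ?_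
  intro ζ _
  refine h.sb_bad (g := fun z x => g z (x, ζ (γ x))) ?_ hf
  have e : (uncurry fun z x => g z (x, ζ (γ x))) =
      uncurry g ∘ fun q : Z × X => (q.1, (q.2, ζ (γ q.2))) := rfl
  rw [e]
  refine hg.comp (measurable_fst.prodMk (measurable_snd.prodMk ?_))
  exact (Measurable.of_discrete (f := ζ)).comp (hγ.comp measurable_snd)

theorem Meas'.measurable_pot (h : I.Meas') (hγ : Measurable γ) (c : ℕ) {s : X × Fin K → A}
    (hs : Measurable s) : Measurable (fun i => I.pot γ c s i) :=
  h.sb_pot hγ c (s := fun _ : ι => s) (hs.comp measurable_snd) measurable_id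

/-- the variables of colour `c` of the block of a set of events -/
def sbB (I : Inst X ι A) (γ : X → Fin Γ) (c : ℕ) (U : Finset ι) : Finset X :=
  (U.biUnion I.dom).filter (fun x => I.inc x = U ∧ (γ x : ℕ) = c)

theorem mem_sbB {c : ℕ} {U : Finset ι} {x : X} :
    x ∈ I.sbB γ c U ↔ U.Nonempty ∧ I.inc x = U ∧ (γ x : ℕ) = c := by
  unfold sbB
  rw [mem_filter, mem_biUnion]
  constructor
  · rintro ⟨⟨i, hi, _⟩, h2⟩
    exact ⟨⟨i, hi⟩, h2⟩
  · rintro ⟨⟨i, hi⟩, h1, h2⟩
    refine ⟨⟨i, hi, ?_⟩, h1, h2⟩
    rw [← h1] at hi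
    exact I.mem_inc.1 hi

theorem Meas'.sb_B (h : I.Meas') (hγ : Measurable γ) (c : ℕ) :
    Measurable (I.sbB γ c) := by
  have hb : Measurable fun U : Finset ι => ∑ i ∈ U, (I.dom i).card := by
    have h1 : Measurable fun U : Finset ι => ∑ i ∈ U, ((I.dom i).card : ℝ) := by
      refine measurable_sum_real (F := fun U : Finset ι => U)
        (Φ := fun _ i => ((I.dom i).card : ℝ)) measurable_id ?_
      exact (measurable_from_top (f := fun n : ℕ => (n : ℝ))).comp
        ((measurable_card' h.dom).comp measurable_snd)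
    have h2 : (fun U : Finset ι => ∑ i ∈ U, (I.dom i).card) =
        fun U : Finset ι => ⌊∑ i ∈ U, ((I.dom i).card : ℝ)⌋₊ := by
      funext U
      rw [← Nat.cast_sum, Nat.floor_natCast]
    rw [h2]
    exact Nat.measurable_floor.comp h1
  refine mi_measurable_of_rel hb ?_ ?_
  · intro U
    exact (card_filter_le _ _).trans card_biUnion_le
  · have : {q : Finset ι × X | q.2 ∈ I.sbB γ c q.1} =
        ({q : Finset ι × X | ∃ i ∈ q.1, (q, i) ∈
            (Set.univ : Set ((Finset ι × X) × ι))} ∩
          {q : Finset ι × X | I.inc q.2 = q.1}) ∩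
          (fun q : Finset ι × X => γ q.2) ⁻¹' {k | (k : ℕ) = c} := by
      ext q
      simp only [mem_sbB, Set.mem_ofPred_eq, Set.mem_inter_iff, Set.mem_preimage,
        Set.mem_univ, and_true, Finset.Nonempty]
      tauto
    rw [this]
    refine MeasurableSet.inter (MeasurableSet.inter ?_ ?_) ?_
    · exact measurableSet_exists measurable_fst MeasurableSet.univ
    · exact measurableSet_eq_fun (h.inc.comp measurable_snd) measurable_fst
    · exact (hγ.comp measurable_snd) (Set.toFinite _).measurableSet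

/-- codes: finite tuples of sample vectors -/
def SbCode (K : ℕ) (A : Type) : Type := Σ N : ℕ, (Fin (N + 1) → (Fin K → A))

instance : Countable (SbCode K A) := by unfold SbCode; infer_instance

instance : Nonempty (SbCode K A) := ⟨⟨0, fun _ _ => Classical.arbitrary A⟩⟩

/-- an enumeration of the codes -/
def sbE (K : ℕ) (A : Type) [Fintype A] [Nonempty A] : ℕ → SbCode K A :=
  Classical.choose (exists_surjective_nat (SbCode K A))

theorem sbE_surj : Function.Surjective (sbE K A) :=
  Classical.choose_spec (exists_surjective_nat (SbCode K A))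

/-- value of a code for the variable of rank `r` -/
def sbV (e : SbCode K A) (r : ℕ) (z : Fin K) : A := e.2 (Fin.ofNat (e.1 + 1) r) z

/-- value of the `n`-th code for the variable of rank `r` -/
def sbVal (n r : ℕ) (z : Fin K) : A := sbV (sbE K A n) r z

/-- the samples of the block of `U` are replaced by those of the `n`-th code -/
def sbS (I : Inst X ι A) (γ : X → Fin Γ) (c : ℕ) (s : X × Fin K → A) (n : ℕ) (U : Finset ι)
    (q : X × Fin K) : A :=
  if q.1 ∈ I.sbB γ c U then sbVal n (yxRank (I.sbB γ c U) q.1) q.2 else s q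

theorem Meas'.sb_S (h : I.Meas') (hγ : Measurable γ) (c : ℕ) {s : X × Fin K → A}
    (hs : Measurable s) {Z : Type*} [MeasurableSpace Z] {n : Z → ℕ} (hn : Measurable n)
    {U : Z → Finset ι} (hU : Measurable U) :
    Measurable (uncurry fun z q => I.sbS γ c s (n z) (U z) q) := by
  have e : (uncurry fun z q => I.sbS γ c s (n z) (U z) q) =
      fun q : Z × (X × Fin K) => if q ∈ {q : Z × (X × Fin K) | q.2.1 ∈ I.sbB γ c (U q.1)} then
        (fun t : ℕ × (ℕ × Fin K) => (sbVal t.1 t.2.1 t.2.2 : A))
          (n q.1, (yxRank (I.sbB γ c (U q.1)) q.2.1, q.2.2)) else s q.2 := rfl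
  rw [e]
  have hB : Measurable fun z => I.sbB γ c (U z) := (h.sb_B hγ c).comp hU
  refine Measurable.ite ?_ ?_ (hs.comp measurable_snd)
  · exact (rel_of_measurable hB).preimage
      (measurable_fst.prodMk (measurable_fst.comp measurable_snd))
  · refine (Measurable.of_discrete (f := fun t : ℕ × (ℕ × Fin K) =>
      (sbVal t.1 t.2.1 t.2.2 : A))).comp ?_
    refine (hn.comp measurable_fst).prodMk (Measurable.prodMk ?_
      (measurable_snd.comp measurable_snd))
    exact (measurable_yxRank hB).comp
      (measurable_fst.prodMk (measurable_fst.comp measurable_snd))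

theorem Meas'.sb_S' (h : I.Meas') (hγ : Measurable γ) (c : ℕ) {s : X × Fin K → A}
    (hs : Measurable s) {N : Finset ι → ℕ} (hN : Measurable N) :
    Measurable (fun q : X × Fin K => I.sbS γ c s (N (I.inc q.1)) (I.inc q.1) q) := by
  have h1 : Measurable (uncurry fun (z : X) (q : X × Fin K) =>
      I.sbS γ c s (N (I.inc z)) (I.inc z) q) :=
    h.sb_S hγ c hs (Z := X) (n := fun z => N (I.inc z)) (hN.comp h.inc)
      (U := fun z => I.inc z) h.inc
  have h2 : Measurable (fun q : X × Fin K => (q.1, q)) := measurable_fst.prodMk measurable_id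
  exact Measurable.comp (g := uncurry fun (z : X) (q : X × Fin K) =>
      I.sbS γ c s (N (I.inc z)) (I.inc z) q) (f := fun q : X × Fin K => (q.1, q)) h1 h2

/-- the `n`-th code works for the block of `U` -/
def sbGood (I : Inst X ι A) (γ : X → Fin Γ) (c d : ℕ) (s : X × Fin K → A) (U : Finset ι)
    (n : ℕ) : Prop :=
  ∀ i ∈ U, I.pot γ (c + 1) (I.sbS γ c s n U) i ≤ (d + 1) * I.pot γ c s i

theorem Meas'.sb_good (h : I.Meas') (hγ : Measurable γ) (c d : ℕ) {s : X × Fin K → A}
    (hs : Measurable s) (n : ℕ) : MeasurableSet {U | I.sbGood γ c d s U n} := by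
  have e : {U | I.sbGood γ c d s U n} = {U : Finset ι | ∀ i ∈ U, (U, i) ∈
      {q : Finset ι × ι | I.pot γ (c + 1) (I.sbS γ c s n q.1) q.2 ≤
        (d + 1) * I.pot γ c s q.2}} := rfl
  rw [e]
  refine measurableSet_forall measurable_id ?_
  refine measurableSet_le ?_ ?_
  · exact h.sb_pot hγ (c + 1) (s := fun q : Finset ι × ι => I.sbS γ c s n q.1)
      (h.sb_S hγ c hs measurable_const measurable_fst) measurable_snd
  · exact ((h.measurable_pot hγ c hs).comp measurable_snd).const_mul _

/-- one colour: for every nonempty block `U` of colour `c` choose the first code that works. -/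
theorem Meas'.stage (h : I.Meas') (hγ : Measurable γ)
    (hγI : ∀ i, ∀ x ∈ I.dom i, ∀ y ∈ I.dom i, γ x = γ y → I.inc x = I.inc y)
    {d : ℕ} (hd : ∀ i, (I.nbr i).card ≤ d + 1) (c : ℕ) {s : X × Fin K → A}
    (hs : Measurable s) : ∃ s' : X × Fin K → A, Measurable s' ∧
      ∀ i, I.pot γ (c + 1) s' i ≤ (d + 1) * I.pot γ c s i := by
  have hpm : ∀ n, MeasurableSet {U | I.sbGood γ c d s U n} := h.sb_good hγ c d hs
  have hex : ∀ U, ∃ n, I.sbGood γ c d s U n ∨ ¬ ∃ n, I.sbGood γ c d s U n := by
    intro U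
    by_cases hU : ∃ n, I.sbGood γ c d s U n
    · obtain ⟨n, hn⟩ := hU
      exact ⟨n, Or.inl hn⟩
    · exact ⟨0, Or.inr hU⟩
  obtain ⟨N, hN, hNg⟩ : ∃ N : Finset ι → ℕ, Measurable N ∧
      ∀ U, (∃ n, I.sbGood γ c d s U n) → I.sbGood γ c d s U (N U) := by
    refine ⟨fun U => Nat.find (hex U), measurable_find hex ?_, ?_⟩
    · intro k
      have e : {U | I.sbGood γ c d s U k ∨ ¬ ∃ n, I.sbGood γ c d s U n} =
          {U | I.sbGood γ c d s U k} ∪ (⋃ n, {U | I.sbGood γ c d s U n})ᶜ := by
        ext U
        simp only [Set.mem_ofPred_eq, Set.mem_union, Set.mem_compl_iff, Set.mem_iUnion]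
      rw [e]
      exact (hpm k).union (MeasurableSet.iUnion hpm).compl
    · intro U hU
      rcases Nat.find_spec (hex U) with h1 | h1
      · exact h1
      · exact absurd hU h1
  refine ⟨fun q => I.sbS γ c s (N (I.inc q.1)) (I.inc q.1) q, h.sb_S' hγ c hs hN, ?_⟩
  · intro i
    have hnn : 0 ≤ I.pot γ c s i := I.pot_nonneg γ c s i
    have hlow : ∀ x, (γ x : ℕ) < c → ∀ (n : ℕ) (U : Finset ι) (z : Fin K),
        I.sbS γ c s n U (x, z) = s (x, z) := by
      intro x hx n U z
      unfold sbS
      rw [if_neg]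
      intro hm
      have h1 : (γ x : ℕ) = c := (mem_sbB.1 hm).2.2
      omega
    by_cases hi : ∃ x ∈ I.dom i, (γ x : ℕ) = c
    · obtain ⟨x, hx, hxc⟩ := hi
      obtain ⟨U, hU⟩ : ∃ U, I.inc x = U := ⟨_, rfl⟩
      have hiU : i ∈ U := by rw [← hU]; exact I.mem_inc.2 hx
      have hBB : ∀ i' ∈ U, ∀ y ∈ I.dom i', (γ y : ℕ) = c → y ∈ I.sbB γ c U := by
        intro i' hi' y hy hyc
        rw [mem_sbB]
        refine ⟨⟨i, hiU⟩, ?_, hyc⟩
        rw [← hU]
        rw [← hU] at hi'
        refine hγI i' y hy x (I.mem_inc.1 hi') ?_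
        exact Fin.ext (hyc.trans hxc.symm)
      have hUc : (U.card : ℝ) ≤ d + 1 := by
        have h1 : U ⊆ I.nbr i := by
          intro j hj
          rw [← hU] at hj
          exact I.mem_incS.2 ⟨x, hx, I.mem_inc.1 hj⟩
        have h2 := (card_le_card h1).trans (hd i)
        exact_mod_cast h2
      obtain ⟨g, hg⟩ := I.exists_block γ (c := c) s (U := U) (B := I.sbB γ c U)
        (fun y hy => (mem_sbB.1 hy).2.1) (fun y hy => (mem_sbB.1 hy).2.2) hBB
      -- a code for `g`
      have hgood : ∃ n, I.sbGood γ c d s U n := by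
        obtain ⟨n, hn⟩ := sbE_surj (K := K) (A := A) ⟨(I.sbB γ c U).card, fun k z =>
          if hk : ∃ y ∈ I.sbB γ c U, sbLab (I.sbB γ c U) (I.sbB γ c U).card y = k then
            g (hk.choose, z) else Classical.arbitrary A⟩
        refine ⟨n, ?_⟩
        have h1 : ∀ y ∈ I.sbB γ c U, ∀ z, I.sbS γ c s n U (y, z) = g (y, z) := by
          intro y hy z
          unfold sbS
          rw [if_pos hy]
          unfold sbVal
          rw [hn]
          have hk : ∃ y' ∈ I.sbB γ c U, sbLab (I.sbB γ c U) (I.sbB γ c U).card y' =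
              Fin.ofNat ((I.sbB γ c U).card + 1) (yxRank (I.sbB γ c U) y) := ⟨y, hy, rfl⟩
          show (if hk : ∃ y' ∈ I.sbB γ c U, sbLab (I.sbB γ c U) (I.sbB γ c U).card y' =
              Fin.ofNat ((I.sbB γ c U).card + 1) (yxRank (I.sbB γ c U) y) then
            g (hk.choose, z) else Classical.arbitrary A) = g (y, z)
          rw [dif_pos hk]
          have h2 : hk.choose = y :=
            sb_lab_injOn le_rfl (mem_coe.2 hk.choose_spec.1) (mem_coe.2 hy) hk.choose_spec.2
          rw [h2]
        intro i' hi'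
        have h2 := hg (I.sbS γ c s n U) h1
          (fun i'' _ y _ hyc z => hlow y hyc n U z) i' hi'
        exact h2.trans (mul_le_mul_of_nonneg_right hUc (I.pot_nonneg γ c s i'))
      have h3 := hNg U hgood i hiU
      have h4 : I.pot γ (c + 1) (fun q => I.sbS γ c s (N (I.inc q.1)) (I.inc q.1) q) i =
          I.pot γ (c + 1) (I.sbS γ c s (N U) U) i := by
        refine I.pot_congr γ ?_
        intro y hy hyc z
        rcases Nat.lt_succ_iff_lt_or_eq.1 hyc with h5 | h5
        · show I.sbS γ c s (N (I.inc y)) (I.inc y) (y, z) = _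
          rw [hlow y h5, hlow y h5]
        · show I.sbS γ c s (N (I.inc y)) (I.inc y) (y, z) = _
          rw [(mem_sbB.1 (hBB i hiU y hy h5)).2.1]
      rw [h4]
      exact h3
    · have h1 : ∀ x ∈ I.dom i, (γ x : ℕ) ≠ c := fun x hx hxc => hi ⟨x, hx, hxc⟩
      rw [I.pot_succ_eq γ h1]
      have h4 : I.pot γ c (fun q => I.sbS γ c s (N (I.inc q.1)) (I.inc q.1) q) i =
          I.pot γ c s i := by
        refine I.pot_congr γ ?_
        intro y _ hyc z
        exact hlow y hyc _ _ z
      rw [h4]
      have hd0 : (0 : ℝ) ≤ d := Nat.cast_nonneg d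
      nlinarith

theorem Meas'.exists_samples (h : I.Meas') (hγ : Measurable γ)
    (hγI : ∀ i, ∀ x ∈ I.dom i, ∀ y ∈ I.dom i, γ x = γ y → I.inc x = I.inc y)
    {d : ℕ} (hd : ∀ i, (I.nbr i).card ≤ d + 1) {κ : ℝ} (hκ : 0 < κ) :
    ∃ (K : ℕ) (s : X × Fin K → A), 0 < K ∧ Measurable s ∧ ∀ i, I.sZ γ s i ≤ I.p i + κ := by
  have hd0 : (0 : ℝ) < d + 1 := by positivity
  obtain ⟨K, hK⟩ := exists_nat_gt (((d : ℝ) + 1) ^ Γ * Γ / κ ^ 2)
  have hK0 : 0 < K := by
    have h1 : (0 : ℝ) ≤ ((d : ℝ) + 1) ^ Γ * Γ / κ ^ 2 := by positivity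
    exact_mod_cast h1.trans_lt hK
  have hKR : (0 : ℝ) < K := by exact_mod_cast hK0
  have key : ∀ c : ℕ, ∃ s : X × Fin K → A, Measurable s ∧
      ∀ i, I.pot γ c s i ≤ ((d : ℝ) + 1) ^ c * (Γ / K) := by
    intro c
    induction c with
    | zero =>
      refine ⟨fun _ => Classical.arbitrary A, measurable_const, fun i => ?_⟩
      rw [pow_zero, one_mul]
      exact I.pot_zero γ hK0 _ i
    | succ c ih =>
      obtain ⟨s, hs, hsi⟩ := ih
      obtain ⟨s', hs', hs'i⟩ := h.stage hγ hγI hd c hs
      refine ⟨s', hs', fun i => (hs'i i).trans ?_⟩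
      rw [pow_succ', mul_assoc]
      exact mul_le_mul_of_nonneg_left (hsi i) hd0.le
  obtain ⟨s, hs, hsi⟩ := key Γ
  refine ⟨K, s, hK0, hs, fun i => ?_⟩
  have h1 := hsi i
  rw [I.pot_end] at h1
  have h2 : ((d : ℝ) + 1) ^ Γ * (Γ / K) ≤ κ ^ 2 := by
    rw [div_lt_iff₀ (by positivity)] at hK
    rw [← mul_div_assoc, div_le_iff₀ hKR]
    linarith
  have h3 : I.sZ γ s i - I.p i ≤ κ := by
    by_contra hcon
    push Not at hcon
    nlinarith
  linarith

end B

end Inst

end Pool.Agent.MLLL
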