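import Pool.Agent.Lib.MP_25f38e_lc.MeasInst
import Pool.Agent.Lib.MP_25f38e_lc.MeasYx
import Pool.Agent.Lib.MP_25f38e_lc.Point
import Pool.Agent.Lib.MP_25f38e_lc.Param
import Pool.Agent.Lib.MP_25f38e_lc.Limit

/-!
# The states of the construction and one step

(helper43, problem MP_25f38e_lc)
-/

set_option linter.unusedSectionVars false

noncomputable section

open scoped Classical
open Finset MeasureTheory Function

namespace Pool.Agent.MLLL

universe u

/-- labels of the table entries -/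
abbrev Lb (j : ℕ) : Type := Fin (Fintype.card (Fin j → Bool))

/-- random table with labels of precision `j` -/
def tab {V : Type u} [MeasurableSpace V] [StandardBorelSpace V] {A : Type} (j : ℕ)
    (ω : Lb j → A) : V × ℕ → A := fun x => ω (lab (V × ℕ) j x)

section

variable {X ι₀ : Type u} {A : Type} [DecidableEq X] [DecidableEq ι₀] [MeasurableSpace X]
  [StandardBorelSpace X] [Fintype A] [Nonempty A] [MeasurableSpace A] [DiscreteMeasurableSpace A]

/-- a state of the construction -/
structure State (I₀ : Inst X ι₀ A) (μ μh : Measure X) where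
  V : Type u
  ι : Type u
  decV : DecidableEq V
  decι : DecidableEq ι
  msV : MeasurableSpace V
  msι : MeasurableSpace ι
  sbV : StandardBorelSpace V
  sbι : StandardBorelSpace ι
  I : Inst V ι A
  meas : I.Meas
  t : ℝ
  b : ℝ
  Cc : ℝ
  W : ι → ℝ
  K : ι → ℝ
  cls : I.Cls t b Cc W K
  col : ι → ℕ
  C : ℕ
  C_pos : 0 < C
  col_meas : Measurable col
  proper : I.Proper col C
  ν : Measure V
  fin : IsFiniteMeasure ν
  Dec : (V → A) → (X → A)
  Dec_meas : ∀ g, Measurable g → Measurable (Dec g)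
  Dec_lip : ∀ g g', Measurable g → Measurable g' →
    μh {x | Dec g x ≠ Dec g' x} ≤ ν {v | g v ≠ g' v}
  Dec_def : ∀ g, Measurable g → μ (I₀.Def (Dec g)) ≤ ν (I.Def g)
  a : X → A
  a_meas : Measurable a
  ε : ENNReal
  ε_top : ε ≠ ⊤
  stable : ∀ (M : ℕ) (η : ENNReal), 0 < η → ∀ᶠ j in Filter.atTop,
    ∑ ω : Lb j → A, μh {x | Dec (I.st col C (tab j ω) M) x ≠ a x} ≤
      (Fintype.card (Lb j → A) : ENNReal) * (ε + η)

end

/-! ### auxiliary facts on conditioned instances -/

namespace Inst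

variable {V ι : Type u} {A : Type} [DecidableEq V] [DecidableEq ι] (I : Inst V ι A)

theorem cond_inc_of_mem {Y : Set V} {σ : V → A} {v : V} (hv : v ∈ Y) :
    (I.cond Y σ).inc v = ∅ := by
  ext i
  simp only [mem_inc, cond, mem_filter, hv, not_true_eq_false, and_false, notMem_empty]

theorem cond_inc_of_not_mem {Y : Set V} {σ : V → A} {v : V} (hv : v ∉ Y) :
    (I.cond Y σ).inc v = I.inc v := by
  ext i
  simp only [mem_inc, cond, mem_filter, hv, not_false_eq_true, and_true]

section
variable [Fintype A] [Nonempty A]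

theorem cond_p_le (Y : Set V) (σ : V → A) (i : ι) : (I.cond Y σ).p i ≤ I.cp Y σ i := by
  rw [(I.cond Y σ).p_eq i σ]
  refine avg_mono fun g' hg' => ind_mono ?_
  intro hb
  refine I.bad_congr i _ _ ?_ hb.2
  intro v hv
  by_cases hy : v ∈ Y
  · simp only [hy, if_true]
    refine (hg' v ?_).symm
    simp [cond, hy]
  · simp only [hy, if_false]

theorem cond_sum_le {β : ℝ} (hβ : 0 ≤ β) (Y : Set V) (σ : V → A) {c : ℝ} (hc : 0 ≤ c)
    (h : ∀ v, v ∉ Y → I.Psi β Y σ v ≤ c) (v : V) :
    ∑ i ∈ (I.cond Y σ).inc v, (I.cond Y σ).p i * β ^ ((I.cond Y σ).dom i).card ≤ c := by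
  by_cases hv : v ∈ Y
  · rw [I.cond_inc_of_mem hv]; simpa using hc
  · rw [I.cond_inc_of_not_mem hv]
    refine le_trans (sum_le_sum fun i _ => ?_) (h v hv)
    exact mul_le_mul_of_nonneg_right (I.cond_p_le Y σ i) (pow_nonneg hβ _)

end

end Inst

end Pool.Agent.MLLL
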