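import Pool.Agent.Lib.MP_25f38e_lc.StepEst

/-!
# One step of the construction

(helper43, problem MP_25f38e_lc)
-/

set_option linter.unusedSectionVars false

noncomputable section

open scoped Classical
open Finset MeasureTheory Function

namespace Pool.Agent.MLLL

open Inst

universe u

/-- a small real number compared with a finite mass -/
theorem exists_delta {m κ : ENNReal} (hm : m ≠ ⊤) (hκ : κ ≠ 0) (hκ' : κ ≠ ⊤) :
    ∃ δ : ℝ, 0 < δ ∧ ENNReal.ofReal δ * m ≤ κ := by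
  have h1 : m + 1 ≠ ⊤ := ENNReal.add_ne_top.2 ⟨hm, ENNReal.one_ne_top⟩
  have h0 : m + 1 ≠ 0 := by simp
  have hpos : 0 < κ / (m + 1) := ENNReal.div_pos hκ h1
  have htop : κ / (m + 1) ≠ ⊤ := ENNReal.div_ne_top hκ' h0
  refine ⟨(κ / (m + 1)).toReal, ENNReal.toReal_pos hpos.ne' htop, ?_⟩
  rw [ENNReal.ofReal_toReal htop]
  calc κ / (m + 1) * m ≤ κ / (m + 1) * (m + 1) := by gcongr; exact le_self_add
    _ = κ := ENNReal.div_mul_cancel h0 h1

variable {X ι₀ : Type u} {A : Type} [DecidableEq X] [DecidableEq ι₀] [MeasurableSpace X]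
  [StandardBorelSpace X] [Fintype A] [Nonempty A] [MeasurableSpace A] [DiscreteMeasurableSpace A]
  {I₀ : Inst X ι₀ A} {μ μh : Measure X}

theorem step (hμ : ∀ S : Set X, μ {x | ∃ y ∈ I₀.nbv x, y ∈ S} ≤ μh S)
    (S : State I₀ μ μh) {κ : ENNReal} (hκ : κ ≠ 0) (hκ' : κ ≠ ⊤) :
    ∃ S' : State I₀ μ μh, S'.ε ≤ 20 * κ ∧ μh {x | S'.a x ≠ S.a x} ≤ 2 * (S.ε + 3 * κ) ∧
      μ (I₀.Def S'.a) ≤ 20 * κ := by
  obtain ⟨V, ι, decV, decι, msV, msι, sbV, sbι, I, hI, t, b, Cc, W, K, hcls, col, C, hC, hcolm,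
    hprop, ν, hfin, Dec, hDecm, hlip, hdef, a, ham, ε, hεt, hstab⟩ := S
  -- parameters
  obtain ⟨δ, hδ, hδκ⟩ := exists_delta (measure_ne_top ν Set.univ) hκ hκ'
  obtain ⟨N, hN, hN'⟩ := hI.bdd
  obtain ⟨P⟩ := I.exists_params hcls hN hN' C hδ
  have hκpos : 0 < κ := pos_iff_ne_zero.2 hκ
  -- the precision of the labels
  have hev1 : ∀ᶠ j in Filter.atTop, ν (I.gd P j)ᶜ < κ :=
    (tendsto_gd hI P ν).eventually_lt_const hκpos
  obtain ⟨j, hj1, hj2⟩ := (hev1.and (hstab (P.T * C) κ hκpos)).exists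
  have := hI.pidx (P.T * C) P.T
  -- the quantities
  let f : (Lb j → A) → ENNReal := fun ω =>
    μh {x | Dec (I.st col C (tab j ω) (P.ρ * C)) x ≠ a x}
  let g3 : (Lb j → A) → ENNReal := fun ω =>
    ν {v | I.st col C (tab j ω) (P.T * C) v ≠ I.st col C (tab j ω) (P.ρ * C) v}
  let g1 : (Lb j → A) → ENNReal := fun ω =>
    ν {v | ∃ u ∈ I.rel (P.ρ * C) v, u ∉ I.expo P j ω}
  let g2 : (Lb j → A) → ENNReal := fun ω => ∫⁻ v in I.gd P j,
        ENNReal.ofReal (I.lossB b (P.T * C) P.ρ (I.expo P j ω) (tab j ω) v) ∂ν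
  let g4 : (Lb j → A) → ENNReal := fun ω => ν (I.Def (I.st col C (tab j ω) (P.T * C)))
  have hsm : ENNReal.ofReal δ * ν Set.univ + ν (I.gd P j)ᶜ ≤ 2 * κ := by
    calc ENNReal.ofReal δ * ν Set.univ + ν (I.gd P j)ᶜ ≤ κ + κ := add_le_add hδκ hj1.le
      _ = 2 * κ := by ring
  have e1 : ∑ ω, g1 ω ≤ (Fintype.card (Lb j → A) : ENNReal) * (2 * κ) :=
    (est1 hI P hδ.le ν j).trans (by gcongr)
  have e2 : ∑ ω, g2 ω ≤ (Fintype.card (Lb j → A) : ENNReal) * κ :=
    (est2 hI hcls P hδ.le ν j).trans (by gcongr)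
  have e3 : ∑ ω, g3 ω ≤ (Fintype.card (Lb j → A) : ENNReal) * (2 * κ) :=
    (est3 hI hcls hcolm hprop P hδ.le ν j).trans (by gcongr)
  have e4 : ∑ ω, g4 ω ≤ (Fintype.card (Lb j → A) : ENNReal) * (2 * κ) :=
    (est4 hI hcls hcolm hprop P hδ.le ν j).trans (by gcongr)
  have hstm : ∀ ω m, Measurable (I.st col C (tab j ω) m) := fun ω m =>
    hI.st hcolm C (measurable_tab j ω) m
  have hf : ∀ ω, f ω ≤ μh {x | Dec (I.st col C (tab j ω) (P.T * C)) x ≠ a x} + g3 ω := by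
    intro ω
    calc f ω ≤ μh ({x | Dec (I.st col C (tab j ω) (P.T * C)) x ≠ a x} ∪
        {x | Dec (I.st col C (tab j ω) (P.T * C)) x ≠
          Dec (I.st col C (tab j ω) (P.ρ * C)) x}) := by
          refine measure_mono fun x hx => ?_
          by_cases hxa : Dec (I.st col C (tab j ω) (P.T * C)) x = a x
          · right
            intro heq
            exact hx (heq.symm.trans hxa)
          · exact Or.inl hxa
      _ ≤ _ := (measure_union_le _ _).trans (by gcongr; exact hlip _ _ (hstm _ _) (hstm _ _))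
  have ef : ∑ ω, f ω ≤ (Fintype.card (Lb j → A) : ENNReal) * (ε + 3 * κ) := by
    calc ∑ ω, f ω ≤ ∑ ω, (μh {x | Dec (I.st col C (tab j ω) (P.T * C)) x ≠ a x} + g3 ω) :=
          sum_le_sum fun ω _ => hf ω
      _ = ∑ ω, μh {x | Dec (I.st col C (tab j ω) (P.T * C)) x ≠ a x} + ∑ ω, g3 ω :=
          sum_add_distrib
      _ ≤ (Fintype.card (Lb j → A) : ENNReal) * (ε + κ) +
          (Fintype.card (Lb j → A) : ENNReal) * (2 * κ) := add_le_add hj2 e3
      _ = _ := by ring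
  have eg : ∑ ω, (g1 ω + g2 ω + g3 ω + g4 ω) ≤
      (Fintype.card (Lb j → A) : ENNReal) * (7 * κ) := by
    rw [sum_add_distrib, sum_add_distrib, sum_add_distrib]
    calc _ ≤ (Fintype.card (Lb j → A) : ENNReal) * (2 * κ) +
          (Fintype.card (Lb j → A) : ENNReal) * κ +
          (Fintype.card (Lb j → A) : ENNReal) * (2 * κ) +
          (Fintype.card (Lb j → A) : ENNReal) * (2 * κ) := by gcongr
      _ = _ := by ring
  obtain ⟨ω, hω1, hω2⟩ := exists_le_of_sum_le f (fun ω => g1 ω + g2 ω + g3 ω + g4 ω)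
    (x := ε + 3 * κ) (y := 7 * κ) (by simp [hκ]) 
    (ENNReal.add_ne_top.2 ⟨hεt, ENNReal.mul_ne_top (by simp) hκ'⟩)
    (by simp [hκ]) (ENNReal.mul_ne_top (by simp) hκ') ef eg
  -- the new state
  set Y := I.expo P j ω with hYdef
  set σ : V × ℕ → A := tab j ω with hσdef
  set J := (I.pieces (P.T * C) P.T).cond Y σ with hJdef
  have hY : MeasurableSet Y := measurableSet_expo hI P j ω
  have hσ : Measurable σ := measurable_tab j ω
  have hJ : J.Meas := (hI.pieces (P.T * C) P.T).cond hY hσ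
  have hb' : (1 : ℝ) ≤ P.b' := P.hb'.le
  have hsum : ∀ v, ∑ i ∈ J.inc v, J.p i * (P.b' ^ 4) ^ (J.dom i).card ≤ 2 * P.θ := by
    intro v
    refine (I.pieces (P.T * C) P.T).cond_sum_le (by positivity) Y σ
      (by linarith [P.hθ]) (expo_sure P j ω).1 v
  obtain ⟨hcls', hprod⟩ := P.hnext J hsum
  obtain ⟨col', C', hC', hcolm', hprop'⟩ := hJ.exists_proper
  obtain ⟨Nr, hNr⟩ : ∃ Nr : ℕ, ∀ v, (I.rel (P.T * C) v).card ≤ Nr := by
    refine ⟨(N * N + 1) ^ (P.T * C + 1) * (P.T * C + 1), fun v => ?_⟩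
    unfold Inst.rel
    rw [card_product, card_range]
    refine Nat.mul_le_mul_right _ ?_
    simpa using I.card_ball_le hN' hN (P.T * C + 1) {v}
  obtain ⟨ν', hν'fin, hν'⟩ := exists_transport ν (hI.relv (P.T * C)) hNr
  have hMg : ∀ g, Measurable g → Measurable (I.st col C (Inst.mix Y σ g) (P.T * C)) :=
    fun g hg => hI.st hcolm C (measurable_mix hY hσ hg) _
  refine ⟨⟨V × ℕ, I.PIdx (P.T * C) P.T, inferInstance, inferInstance, inferInstance,
    inferInstance, inferInstance, inferInstance, J, hJ, 2, P.b', 1, _, _, hcls', col', C', hC',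
    hcolm', hprop', ν', hν'fin, fun g => Dec (I.st col C (Inst.mix Y σ g) (P.T * C)), ?_, ?_, ?_,
    Dec (I.st col C σ (P.ρ * C)), hDecm _ (hstm ω _), g1 ω + g2 ω + ν (I.gd P j)ᶜ, ?_, ?_⟩,
    ?_, ?_, ?_⟩
  · -- measurability
    intro g hg
    exact hDecm _ (hMg g hg)
  · -- Lipschitz
    intro g g' hg hg'
    calc μh {x | Dec (I.st col C (Inst.mix Y σ g) (P.T * C)) x ≠
          Dec (I.st col C (Inst.mix Y σ g') (P.T * C)) x}
        ≤ ν {v | I.st col C (Inst.mix Y σ g) (P.T * C) v ≠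
          I.st col C (Inst.mix Y σ g') (P.T * C) v} := hlip _ _ (hMg g hg) (hMg g' hg')
      _ ≤ ν {v | ∃ u ∈ I.rel (P.T * C) v, u ∈ {u | g u ≠ g' u}} :=
          measure_mono (I.dec_ne_subset col C Y σ g g')
      _ ≤ ν' {u | g u ≠ g' u} := hν' _
  · -- defects
    intro g hg
    calc μ (I₀.Def (Dec (I.st col C (Inst.mix Y σ g) (P.T * C))))
        ≤ ν (I.Def (I.st col C (Inst.mix Y σ g) (P.T * C))) := hdef _ (hMg g hg)
      _ ≤ ν {v | ∃ u ∈ I.rel (P.T * C) v, u ∈ J.Def g} :=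
          measure_mono (I.def_subset hprop hC le_rfl Y σ g (expo_sure P j ω).2)
      _ ≤ ν' (J.Def g) := hν' _
  · -- finiteness of ε
    refine ENNReal.add_ne_top.2 ⟨?_, measure_ne_top _ _⟩
    refine ne_top_of_le_ne_top (ENNReal.mul_ne_top (a := 2) (b := 7 * κ) (by simp)
      (ENNReal.mul_ne_top (by simp) hκ')) (le_trans ?_ hω2)
    calc g1 ω + g2 ω ≤ g1 ω + g2 ω + g3 ω := le_self_add
      _ ≤ g1 ω + g2 ω + g3 ω + g4 ω := le_self_add
  · -- stability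
    intro M' η hη
    filter_upwards [est5 hI hcls hcolm hprop P ν j ω hcolm' hprop' M' η hη] with j' hj'
    refine le_trans (sum_le_sum fun ω' _ => ?_) hj'
    exact hlip _ _ (hMg _ (hJ.st hcolm' C' (measurable_tab j' ω') M')) (hstm ω _)
  · -- ε
    show g1 ω + g2 ω + ν (I.gd P j)ᶜ ≤ 20 * κ
    have h1 : g1 ω + g2 ω ≤ 2 * (7 * κ) := by
      refine le_trans ?_ hω2
      calc g1 ω + g2 ω ≤ g1 ω + g2 ω + g3 ω := le_self_add
        _ ≤ g1 ω + g2 ω + g3 ω + g4 ω := le_self_add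
    calc g1 ω + g2 ω + ν (I.gd P j)ᶜ ≤ 2 * (7 * κ) + κ := add_le_add h1 hj1.le
      _ = 15 * κ := by ring
      _ ≤ 20 * κ := by gcongr; norm_num
  · -- closeness
    exact hω1
  · -- defects of the new prediction
    show μ (I₀.Def (Dec (I.st col C σ (P.ρ * C)))) ≤ 20 * κ
    have h34 : g3 ω + g4 ω ≤ 2 * (7 * κ) := by
      refine le_trans ?_ hω2
      calc g3 ω + g4 ω ≤ (g1 ω + g2 ω) + (g3 ω + g4 ω) := le_add_self
        _ = g1 ω + g2 ω + g3 ω + g4 ω := by ring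
    calc μ (I₀.Def (Dec (I.st col C σ (P.ρ * C))))
        ≤ μ (I₀.Def (Dec (I.st col C σ (P.T * C))) ∪
          {x | ∃ y ∈ I₀.nbv x, y ∈ {y | Dec (I.st col C σ (P.T * C)) y ≠
            Dec (I.st col C σ (P.ρ * C)) y}}) := measure_mono (I₀.def_subset_union _ _)
      _ ≤ μ (I₀.Def (Dec (I.st col C σ (P.T * C)))) + μh {y | Dec (I.st col C σ (P.T * C)) y ≠
            Dec (I.st col C σ (P.ρ * C)) y} :=
          (measure_union_le _ _).trans (add_le_add le_rfl (hμ _))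
      _ ≤ g4 ω + g3 ω := add_le_add (hdef _ (hstm ω _)) (hlip _ _ (hstm ω _) (hstm ω _))
      _ = g3 ω + g4 ω := add_comm _ _
      _ ≤ 2 * (7 * κ) := h34
      _ = 14 * κ := by ring
      _ ≤ 20 * κ := by gcongr; norm_num

end Pool.Agent.MLLL
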