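import Pool.Agent.Lib.MP_25f38e_lc.StepLemmas

/-!
# Measure estimates for one step of the construction

(helper43, problem MP_25f38e_lc)
-/

set_option linter.unusedSectionVars false

noncomputable section

open scoped Classical
open Finset MeasureTheory Function

namespace Pool.Agent.MLLL

universe u

theorem measurable_tab {V : Type u} [MeasurableSpace V] [StandardBorelSpace V] {A : Type}
    [MeasurableSpace A] (j : ℕ) (ω : Lb j → A) : Measurable (tab (V := V) j ω) :=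
  (measurable_of_finite ω).comp (measurable_lab j)

namespace Inst

variable {V ι : Type u} {A : Type} [DecidableEq V] [DecidableEq ι]
  [MeasurableSpace V] [StandardBorelSpace V] [MeasurableSpace ι] [StandardBorelSpace ι]
  [Fintype A] [Nonempty A] [MeasurableSpace A] [DiscreteMeasurableSpace A]
  (I : Inst V ι A)

variable {t b Cc δ : ℝ} {W K : ι → ℝ} {col : ι → ℕ} {C : ℕ}

/-- exposed entries -/
def expo (P : I.Params t b Cc C δ) (j : ℕ) (ω : Lb j → A) : Set (V × ℕ) :=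
  (I.pieces (P.T * C) P.T).Yx (P.b' ^ 4) P.θ P.ζ (fun x => (lab (V × ℕ) j x : ℕ)) (tab j ω)
    (Fintype.card (Fin j → Bool))

/-- good variables for the labels of precision `j` -/
def gd (P : I.Params t b Cc C δ) (j : ℕ) : Set V :=
  {v | Set.InjOn (lab (V × ℕ) j) (↑((I.pieces (P.T * C) P.T).nbS
    ((I.pieces (P.T * C) P.T).nbS (I.rel (P.T * C) v))) : Set (V × ℕ))}

variable {I}

theorem injOn_rel {P : I.Params t b Cc C δ} {j : ℕ} {v : V} (hv : v ∈ I.gd P j) :
    Set.InjOn (lab (V × ℕ) j) (↑(I.rel (P.T * C) v) : Set (V × ℕ)) := by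
  refine Set.InjOn.mono ?_ hv
  intro u hu
  exact Finset.mem_coe.2 ((I.pieces (P.T * C) P.T).subset_nbS _
    ((I.pieces (P.T * C) P.T).subset_nbS _ (Finset.mem_coe.1 hu)))

theorem c1_of_gd {P : I.Params t b Cc C δ} {j : ℕ} {v : V} (hv : v ∈ I.gd P j) {u : V × ℕ}
    (hu : u ∈ I.rel (P.T * C) v) :
    (I.pieces (P.T * C) P.T).c1 (fun x => (lab (V × ℕ) j x : ℕ)) u := by
  refine (I.pieces (P.T * C) P.T).c1_of_injOn (S := I.rel (P.T * C) v) ?_ hu
  intro x hx y hy hxy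
  exact hv hx hy (Fin.ext hxy)

theorem measurableSet_gd (hI : I.Meas) (P : I.Params t b Cc C δ) (j : ℕ) :
    MeasurableSet (I.gd P j) := by
  have := hI.pidx (P.T * C) P.T
  have h := measurableSet_lab (hI.rel_nb (P.T * C) (hI.pieces (P.T * C) P.T)) j
  have := h.compl
  refine (iff_of_eq (congrArg MeasurableSet ?_)).1 this
  ext v
  simp [gd]

theorem tendsto_gd (hI : I.Meas) (P : I.Params t b Cc C δ) (ν : Measure V) [IsFiniteMeasure ν] :
    Filter.Tendsto (fun j => ν (I.gd P j)ᶜ) Filter.atTop (nhds 0) := by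
  have := hI.pidx (P.T * C) P.T
  exact tendsto_lab ν (hI.rel_nb (P.T * C) (hI.pieces (P.T * C) P.T))

theorem measurableSet_expo (hI : I.Meas) (P : I.Params t b Cc C δ) (j : ℕ) (ω : Lb j → A) :
    MeasurableSet (I.expo P j ω) := by
  have := hI.pidx (P.T * C) P.T
  refine (hI.pieces (P.T * C) P.T).yx _ _ _ ?_ (measurable_tab j ω) _
  exact (measurable_of_finite (fun i : Fin (Fintype.card (Fin j → Bool)) => (i : ℕ))).comp
    (measurable_lab j)

theorem expo_sure (P : I.Params t b Cc C δ) (j : ℕ) (ω : Lb j → A) :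
    (∀ v, v ∉ I.expo P j ω →
      (I.pieces (P.T * C) P.T).Psi (P.b' ^ 4) (I.expo P j ω) (tab j ω) v ≤ 2 * P.θ) ∧
      ∀ x, ((I.pieces (P.T * C) P.T).dom x : Set (V × ℕ)) ⊆ I.expo P j ω →
        ¬ (I.pieces (P.T * C) P.T).bad x (tab j ω) := by
  refine (I.pieces (P.T * C) P.T).yx_sure ?_ P.hθ P.hζ.le P.hkζ P.h2 ?_ _ _ _
  · exact one_lt_pow₀ P.hb' (by norm_num)
  · intro v
    refine le_trans (sum_le_sum fun x hx => ?_) ((P.hη v).trans P.hηθ)
    have hx' : v ∈ (I.pieces (P.T * C) P.T).dom x := (I.pieces (P.T * C) P.T).mem_inc.1 hx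
    have h1 : (1 : ℝ) ≤ ((I.pieces (P.T * C) P.T).dom x).card := by
      exact_mod_cast Finset.card_pos.2 ⟨v, hx'⟩
    have h2 : 0 ≤ (I.pieces (P.T * C) P.T).p x := p_nonneg _ _
    have h3 : (0 : ℝ) ≤ (P.b' ^ 4) ^ ((I.pieces (P.T * C) P.T).dom x).card :=
      pow_nonneg (pow_nonneg (by linarith [P.hb']) _) _
    calc (I.pieces (P.T * C) P.T).p x * (P.b' ^ 4) ^ ((I.pieces (P.T * C) P.T).dom x).card
        = 1 * ((P.b' ^ 4) ^ ((I.pieces (P.T * C) P.T).dom x).card *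
          (I.pieces (P.T * C) P.T).p x) := by ring
      _ ≤ ((I.pieces (P.T * C) P.T).dom x).card *
          ((P.b' ^ 4) ^ ((I.pieces (P.T * C) P.T).dom x).card *
          (I.pieces (P.T * C) P.T).p x) :=
          mul_le_mul_of_nonneg_right h1 (mul_nonneg h3 h2)
      _ = _ := by ring

theorem Params.r_le (P : I.Params t b Cc C δ) : P.ρ * C ≤ P.T * C :=
  Nat.mul_le_mul_right C P.hρT

/-- E1 : unexposed entries near `v` -/
theorem est1 (hI : I.Meas) (P : I.Params t b Cc C δ) (hδ : 0 ≤ δ) (ν : Measure V) (j : ℕ) :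
    ∑ ω : Lb j → A, ν {v | ∃ u ∈ I.rel (P.ρ * C) v, u ∉ I.expo P j ω} ≤
      (Fintype.card (Lb j → A) : ENNReal) * (ENNReal.ofReal δ * ν Set.univ + ν (I.gd P j)ᶜ) := by
  refine sum_measure_le ν ?_ _ hδ ?_
  · intro ω
    have := measurableSet_exists (hI.relv (P.ρ * C))
      (Q := {q : V × (V × ℕ) | q.2 ∉ I.expo P j ω})
      ((measurableSet_expo hI P j ω).compl.preimage measurable_snd)
    exact this
  · intro v hv
    have hv' : v ∈ I.gd P j := by simpa using hv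
    have h1 : ex (fun ω : Lb j → A => ind (v ∈ {v | ∃ u ∈ I.rel (P.ρ * C) v,
        u ∉ I.expo P j ω})) ≤ ∑ u ∈ I.rel (P.ρ * C) v,
          ex (fun ω : Lb j → A => ind (u ∉ I.expo P j ω)) :=
      ex_exists (I.rel (P.ρ * C) v) (fun u ω => u ∉ I.expo P j ω)
    refine h1.trans ?_
    have h2 : ∀ u ∈ I.rel (P.ρ * C) v, ex (fun ω : Lb j → A => ind (u ∉ I.expo P j ω)) ≤
        P.η / (P.θ * P.ζ) + P.D * Real.exp (P.lam * P.η / P.θ - P.lam) := by
      intro u hu
      refine (I.pieces (P.T * C) P.T).yx_prob ?_ P.hθ P.hζ P.hlam P.hζlam P.hη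
        (lab (V × ℕ) j) u (c1_of_gd hv' (I.rel_mono P.r_le v hu)) (P.hD u)
      exact one_lt_pow₀ P.hb' (by norm_num)
    refine (sum_le_sum h2).trans ?_
    rw [sum_const, nsmul_eq_mul]
    exact P.hloss v

/-- E2 : the loss functional -/
theorem est2 (hI : I.Meas) (h : I.Cls t b Cc W K) (P : I.Params t b Cc C δ) (hδ : 0 ≤ δ)
    (ν : Measure V) (j : ℕ) :
    ∑ ω : Lb j → A, ∫⁻ v in I.gd P j,
        ENNReal.ofReal (I.lossB b (P.T * C) P.ρ (I.expo P j ω) (tab j ω) v) ∂ν ≤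
      (Fintype.card (Lb j → A) : ENNReal) * (ENNReal.ofReal δ * ν Set.univ) := by
  refine sum_lintegral_le ν ?_ (measurableSet_gd hI P j) hδ ?_
  · intro ω v
    exact I.lossB_nonneg (by linarith [h.one_lt_b]) _ _ _ _ _
  · intro v hv
    refine le_trans (I.ex_lossB h (P.T * C) P.ρ v (I.pieces (P.T * C) P.T) (P.b' ^ 4) P.θ P.ζ
      (lab (V × ℕ) j) (injOn_rel hv)) P.hρ

/-- E3 : instability in the uniform run -/
theorem est3 (hI : I.Meas) (h : I.Cls t b Cc W K) (hcol : Measurable col)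
    (hprop : I.Proper col C) (P : I.Params t b Cc C δ) (hδ : 0 ≤ δ)
    (ν : Measure V) (j : ℕ) :
    ∑ ω : Lb j → A, ν {v | I.st col C (tab j ω) (P.T * C) v ≠
        I.st col C (tab j ω) (P.ρ * C) v} ≤
      (Fintype.card (Lb j → A) : ENNReal) * (ENNReal.ofReal δ * ν Set.univ + ν (I.gd P j)ᶜ) := by
  refine sum_measure_le ν ?_ _ hδ ?_
  · intro ω
    exact (measurableSet_eq_fun (hI.st hcol C (measurable_tab j ω) _)
      (hI.st hcol C (measurable_tab j ω) _)).compl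
  · intro v hv
    have hv' : v ∈ I.gd P j := by simpa using hv
    refine le_trans (ex_mono fun ω => ind_mono ?_) ((I.ex_unstable h hprop P.r_le le_rfl v
      (lab (V × ℕ) j) (injOn_rel hv')).trans P.hρ)
    intro hne heq
    apply hne
    have heq' : I.mt col C (tab j ω) (P.T * C) v = I.mt col C (tab j ω) (P.ρ * C) v := heq
    show I.st col C (tab j ω) (P.T * C) v = I.st col C (tab j ω) (P.ρ * C) v
    unfold st
    rw [heq']

/-- E4 : defects in the uniform run -/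
theorem est4 (hI : I.Meas) (h : I.Cls t b Cc W K) (hcol : Measurable col)
    (hprop : I.Proper col C) (P : I.Params t b Cc C δ) (hδ : 0 ≤ δ)
    (ν : Measure V) (j : ℕ) :
    ∑ ω : Lb j → A, ν (I.Def (I.st col C (tab j ω) (P.T * C))) ≤
      (Fintype.card (Lb j → A) : ENNReal) * (ENNReal.ofReal δ * ν Set.univ + ν (I.gd P j)ᶜ) := by
  refine sum_measure_le ν ?_ _ hδ ?_
  · intro ω
    exact hI.defect (hI.st hcol C (measurable_tab j ω) _)
  · intro v hv
    have hv' : v ∈ I.gd P j := by simpa using hv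
    exact (I.ex_bad h hprop le_rfl v (lab (V × ℕ) j) (injOn_rel hv')).trans P.hT

/-- E5 : stability of the next state -/
theorem est5 (hI : I.Meas) (h : I.Cls t b Cc W K) (hcol : Measurable col)
    (hprop : I.Proper col C) (P : I.Params t b Cc C δ)
    (ν : Measure V) [IsFiniteMeasure ν] (j : ℕ) (ω : Lb j → A)
    {col' : I.PIdx (P.T * C) P.T → ℕ} {C' : ℕ}
    (hcol' : Measurable col')
    (hprop' : ((I.pieces (P.T * C) P.T).cond (I.expo P j ω) (tab j ω)).Proper col' C')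
    (M' : ℕ) (η : ENNReal) (hη : 0 < η) :
    ∀ᶠ j' in Filter.atTop, ∑ ω' : Lb j' → A, ν {v |
      I.st col C (mix (I.expo P j ω) (tab j ω)
        (((I.pieces (P.T * C) P.T).cond (I.expo P j ω) (tab j ω)).st col' C'
          (tab j' ω') M')) (P.T * C) v ≠ I.st col C (tab j ω) (P.ρ * C) v} ≤
      (Fintype.card (Lb j' → A) : ENNReal) *
        (ν {v | ∃ u ∈ I.rel (P.ρ * C) v, u ∉ I.expo P j ω} +
        (∫⁻ v in I.gd P j,
          ENNReal.ofReal (I.lossB b (P.T * C) P.ρ (I.expo P j ω) (tab j ω) v) ∂ν) +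
        ν (I.gd P j)ᶜ + η) := by
  have := hI.pidx (P.T * C) P.T
  set Y := I.expo P j ω with hYdef
  set σ : V × ℕ → A := tab j ω with hσdef
  set J := (I.pieces (P.T * C) P.T).cond Y σ with hJdef
  have hY : MeasurableSet Y := measurableSet_expo hI P j ω
  have hσ : Measurable σ := measurable_tab j ω
  have hJ : J.Meas := (hI.pieces (P.T * C) P.T).cond hY hσ
  have hb' : (1 : ℝ) ≤ P.b' := P.hb'.le
  have hb : (0 : ℝ) ≤ b := by linarith [h.one_lt_b]
  -- the next class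
  have hsum : ∀ v, ∑ i ∈ J.inc v, J.p i * (P.b' ^ 4) ^ (J.dom i).card ≤ 2 * P.θ := by
    intro v
    refine (I.pieces (P.T * C) P.T).cond_sum_le (by positivity) Y σ
      (by linarith [P.hθ]) (expo_sure P j ω).1 v
  obtain ⟨hcls', hprod⟩ := P.hnext J hsum
  have hA' : ∀ i, J.p i * ∏ k ∈ J.nbr i, (1 + 2 * (P.b' ^ 2) ^ (J.dom k).card * J.p k) ≤
      2 * (P.b' ^ 2) ^ (J.dom i).card * J.p i := by
    intro i
    refine le_trans ?_ (hcls'.hA i)
    have h1 : (1 : ℝ) ≤ 2 * P.b' ^ (J.dom i).card := by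
      have : (1 : ℝ) ≤ P.b' ^ (J.dom i).card := one_le_pow₀ hb'
      linarith
    have h2 : 0 ≤ J.p i := p_nonneg _ _
    have h3 : 0 ≤ ∏ k ∈ J.nbr i, (1 + 2 * (P.b' ^ 2) ^ (J.dom k).card * J.p k) :=
      prod_nonneg fun k _ => by linarith [hcls'.W_nonneg k]
    have h4 := mul_le_mul_of_nonneg_right h1 (mul_nonneg h2 h3)
    linarith
  -- the bad set of the new labels
  have hmeas : Measurable fun v => J.ball M' (I.rel (P.T * C) v) ×ˢ range (M' + 1) :=
    hI.ball_rel (P.T * C) hJ M'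
  have htend := tendsto_lab ν hmeas
  have hev : ∀ᶠ j' in Filter.atTop, ν {v | ¬ Set.InjOn (lab ((V × ℕ) × ℕ) j')
      (↑(J.ball M' (I.rel (P.T * C) v) ×ˢ range (M' + 1)) : Set ((V × ℕ) × ℕ))} < η :=
    htend.eventually_lt_const hη
  filter_upwards [hev] with j' hj'
  set Bad : Set V := {v | ¬ Set.InjOn (lab ((V × ℕ) × ℕ) j')
      (↑(J.ball M' (I.rel (P.T * C) v) ×ˢ range (M' + 1)) : Set ((V × ℕ) × ℕ))} with hBad
  set G : (Lb j' → A) → (V × ℕ → A) := fun ω' => J.st col' C' (tab j' ω') M' with hGdef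
  have hGm : ∀ ω', Measurable (mix Y σ (G ω')) := fun ω' =>
    measurable_mix hY hσ (hJ.st hcol' C' (measurable_tab j' ω') M')
  have hkey : ∑ ω' : Lb j' → A, ν {v | I.mt col C (mix Y σ (G ω')) (P.T * C) v ≠
      I.mt col C (mix Y σ (G ω')) (P.ρ * C) v} ≤
      (Fintype.card (Lb j' → A) : ENNReal) * ((∫⁻ v in I.gd P j,
          ENNReal.ofReal (I.lossB b (P.T * C) P.ρ Y σ v) ∂ν) +
        ν (I.gd P j)ᶜ + ν Bad) := by
    refine sum_measure_le_lintegral ν (fun ω' => ?_) (measurableSet_gd hI P j) Bad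
      (fun v => I.lossB_nonneg hb _ _ _ _ _) ?_
    · exact (measurableSet_eq_fun (hI.mt hcol C (hGm ω') _) (hI.mt hcol C (hGm ω') _)).compl
    · intro v hv hvb
      have hinj : Set.InjOn (lab ((V × ℕ) × ℕ) j')
          (↑(J.ball M' (I.rel (P.T * C) v) ×ˢ range (M' + 1)) : Set ((V × ℕ) × ℕ)) := by
        by_contra hcon
        exact hvb hcon
      refine I.ex_unstable_cond h.one_lt_b.le hprop P.r_le le_rfl v Y σ G ?_
      intro S hS Φ hΦ hΦ0
      have hinj' : Set.InjOn (lab ((V × ℕ) × ℕ) j')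
          (↑(J.ball M' S ×ˢ range (M' + 1)) : Set ((V × ℕ) × ℕ)) := by
        refine Set.InjOn.mono ?_ hinj
        exact Finset.coe_subset.2 (Finset.product_subset_product_left (J.ball_mono_set hS M'))
      refine (J.domination (fun i => hcls'.W_nonneg i) hA' hprop' M' S (lab ((V × ℕ) × ℕ) j')
        hinj' hΦ hΦ0 σ).trans ?_
      refine mul_le_mul_of_nonneg_left ((hprod S).trans ?_) (avg_nonneg hΦ0)
      exact pow_le_pow_left₀ (Real.exp_pos _).le P.hexp _
  calc ∑ ω' : Lb j' → A, ν {v | I.st col C (mix Y σ (G ω')) (P.T * C) v ≠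
        I.st col C σ (P.ρ * C) v}
      ≤ ∑ ω' : Lb j' → A, (ν {v | ∃ u ∈ I.rel (P.ρ * C) v, u ∉ Y} +
        ν {v | I.mt col C (mix Y σ (G ω')) (P.T * C) v ≠
          I.mt col C (mix Y σ (G ω')) (P.ρ * C) v}) := by
        refine sum_le_sum fun ω' _ => ?_
        exact (measure_mono (I.new_ne_subset col C Y σ (G ω'))).trans (measure_union_le _ _)
    _ = (Fintype.card (Lb j' → A) : ENNReal) * ν {v | ∃ u ∈ I.rel (P.ρ * C) v, u ∉ Y} +
        ∑ ω' : Lb j' → A, ν {v | I.mt col C (mix Y σ (G ω')) (P.T * C) v ≠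
          I.mt col C (mix Y σ (G ω')) (P.ρ * C) v} := by
        rw [sum_add_distrib, sum_const, nsmul_eq_mul, Finset.card_univ]
    _ ≤ (Fintype.card (Lb j' → A) : ENNReal) * ν {v | ∃ u ∈ I.rel (P.ρ * C) v, u ∉ Y} +
        (Fintype.card (Lb j' → A) : ENNReal) * ((∫⁻ v in I.gd P j,
          ENNReal.ofReal (I.lossB b (P.T * C) P.ρ Y σ v) ∂ν) +
        ν (I.gd P j)ᶜ + ν Bad) := by gcongr
    _ ≤ (Fintype.card (Lb j' → A) : ENNReal) * ν {v | ∃ u ∈ I.rel (P.ρ * C) v, u ∉ Y} +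
        (Fintype.card (Lb j' → A) : ENNReal) * ((∫⁻ v in I.gd P j,
          ENNReal.ofReal (I.lossB b (P.T * C) P.ρ Y σ v) ∂ν) +
        ν (I.gd P j)ᶜ + η) := by gcongr
    _ = _ := by rw [← mul_add]; congr 1; ring

end Inst

end Pool.Agent.MLLL
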