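import Pool.Agent.Lib.MP_25f38e_lc.State

/-!
# Lemmas for one step of the construction

(helper43, problem MP_25f38e_lc)
-/

set_option linter.unusedSectionVars false

noncomputable section

open scoped Classical
open Finset MeasureTheory Function

namespace Pool.Agent.MLLL

universe u

namespace Inst

variable {V ι : Type u} {A : Type} [DecidableEq V] [DecidableEq ι] (I : Inst V ι A)

/-- the table equal to `σ` on `Y` and to `g` off `Y` -/
def mix (Y : Set V) (σ g : V → A) : V → A := fun x => if x ∈ Y then σ x else g x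

end Inst

theorem mix_of_mem {V : Type u} {A : Type} {Y : Set V} {σ g : V → A} {x : V} (h : x ∈ Y) :
    Inst.mix Y σ g x = σ x := by simp [Inst.mix, h]

theorem mix_of_not_mem {V : Type u} {A : Type} {Y : Set V} {σ g : V → A} {x : V} (h : x ∉ Y) :
    Inst.mix Y σ g x = g x := by simp [Inst.mix, h]

theorem measurable_mix {V : Type u} {A : Type} [MeasurableSpace V] [MeasurableSpace A]
    {Y : Set V} (hY : MeasurableSet Y) {σ g : V → A} (hσ : Measurable σ) (hg : Measurable g) :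
    Measurable (Inst.mix Y σ g) :=
  Measurable.ite hY hσ hg

namespace Inst

variable {V ι : Type u} {A : Type} [DecidableEq V] [DecidableEq ι] (I : Inst V ι A)

theorem mem_rel {m : ℕ} {v : V} {u : V × ℕ} :
    u ∈ I.rel m v ↔ u.1 ∈ I.ball (m + 1) {v} ∧ u.2 ≤ m := by
  simp [rel, mem_product]

theorem rel_mono {m m' : ℕ} (h : m ≤ m') (v : V) : I.rel m v ⊆ I.rel m' v := by
  intro u hu
  rw [mem_rel] at hu ⊢
  exact ⟨I.ball_mono (by omega) _ hu.1, by omega⟩

theorem st_congr_rel (col : ι → ℕ) (C : ℕ) {τ τ' : V × ℕ → A} {m : ℕ} {v : V}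
    (h : ∀ u ∈ I.rel m v, τ u = τ' u) : I.st col C τ m v = I.st col C τ' m v := by
  refine I.st_congr col C fun w hw i hi => h (w, i) ?_
  rw [mem_rel]
  exact ⟨I.ball_mono (Nat.le_succ m) _ hw, hi⟩

/-- the final state of the new run differs from the old prediction only near unexposed entries
or at unstable variables -/
theorem new_ne_subset (col : ι → ℕ) (C : ℕ) {r M : ℕ} (Y : Set (V × ℕ)) (σ g : V × ℕ → A) :
    {v | I.st col C (mix Y σ g) M v ≠ I.st col C σ r v} ⊆
      {v | ∃ u ∈ I.rel r v, u ∉ Y} ∪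
        {v | I.mt col C (mix Y σ g) M v ≠ I.mt col C (mix Y σ g) r v} := by
  intro v hv
  by_contra hn
  simp only [Set.mem_union, Set.mem_ofPred_eq, not_or, not_exists, not_and, not_not] at hn
  obtain ⟨h1, h2⟩ := hn
  apply hv
  have e1 : I.st col C (mix Y σ g) M v = I.st col C (mix Y σ g) r v := by
    unfold st; rw [h2]
  rw [e1]
  exact I.st_congr_rel col C fun u hu => mix_of_mem (h1 u hu)

/-- changing the unexposed entries -/
theorem dec_ne_subset (col : ι → ℕ) (C : ℕ) {M : ℕ} (Y : Set (V × ℕ)) (σ g g' : V × ℕ → A) :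
    {v | I.st col C (mix Y σ g) M v ≠ I.st col C (mix Y σ g') M v} ⊆
      {v | ∃ u ∈ I.rel M v, u ∈ {u | g u ≠ g' u}} := by
  intro v hv
  by_contra hn
  simp only [Set.mem_ofPred_eq, not_exists, not_and, not_not] at hn
  apply hv
  refine I.st_congr_rel col C fun u hu => ?_
  by_cases hy : u ∈ Y
  · rw [mix_of_mem hy, mix_of_mem hy]
  · rw [mix_of_not_mem hy, mix_of_not_mem hy]; exact hn u hu

section
variable [Fintype A] [Nonempty A]

/-- a defect of the decoded assignment comes from a defect at a relevant unexposed entry -/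
theorem def_subset {col : ι → ℕ} {C : ℕ} (hcol : I.Proper col C) (hC : 0 < C) {M T : ℕ}
    (hT : T * C ≤ M) (Y : Set (V × ℕ)) (σ g : V × ℕ → A)
    (hsure : ∀ x, ((I.pieces M T).dom x : Set (V × ℕ)) ⊆ Y → ¬ (I.pieces M T).bad x σ) :
    I.Def (I.st col C (mix Y σ g) M) ⊆
      {v | ∃ u ∈ I.rel M v, u ∈ ((I.pieces M T).cond Y σ).Def g} := by
  rintro v ⟨E, hE, hbad⟩
  obtain ⟨P, hP, hsize, hcons⟩ := I.bad_piece hcol _ le_rfl hbad
  have hTs : T ≤ size M P := le_trans ((Nat.le_div_iff_mul_le hC).2 hT) hsize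
  let x : I.PIdx M T := ⟨(E, P), hP, hTs⟩
  have hxdom : (I.pieces M T).dom x = I.entR E P := rfl
  have hxbad : (I.pieces M T).bad x (mix Y σ g) := hcons
  have hne : ((I.entR E P).filter (· ∉ Y)).Nonempty := by
    by_contra hemp
    rw [Finset.not_nonempty_iff_eq_empty, Finset.filter_eq_empty_iff] at hemp
    have hsub : ((I.pieces M T).dom x : Set (V × ℕ)) ⊆ Y := by
      intro u hu
      have := hemp (Finset.mem_coe.1 hu)
      simpa using this
    refine hsure x hsub ((I.pieces M T).bad_congr x _ _ ?_ hxbad)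
    intro u hu
    exact mix_of_mem (hsub hu)
  obtain ⟨u, hu⟩ := hne
  rw [mem_filter] at hu
  refine ⟨u, I.entR_subset_rel hE hP hu.1, x, ?_, ?_⟩
  · rw [mem_inc]
    show u ∈ ((I.pieces M T).dom x).filter (· ∉ Y)
    rw [mem_filter]
    exact ⟨hu.1, hu.2⟩
  · exact ⟨⟨u, mem_filter.2 ⟨hu.1, hu.2⟩⟩, hxbad⟩

/-- a defect of `a'` is a defect of `a''` or a nearby difference -/
theorem def_subset_union (f f' : V → A) :
    I.Def f' ⊆ I.Def f ∪ {x | ∃ y ∈ I.nbv x, y ∈ {y | f y ≠ f' y}} := by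
  rintro x ⟨i, hi, hb⟩
  by_cases h : ∃ y ∈ I.nbv x, y ∈ {y | f y ≠ f' y}
  · exact Or.inr h
  · left
    refine ⟨i, hi, I.bad_congr i _ _ ?_ hb⟩
    intro y hy
    by_contra hne
    exact h ⟨y, I.mem_nbv.2 (Or.inr ⟨i, I.mem_inc.1 hi, hy⟩), fun h => hne h.symm⟩

/-- injectivity of the labels on the second neighbourhood excludes collisions -/
theorem c1_of_injOn {ℓ : V → ℕ} {S : Finset V} (hℓ : Set.InjOn ℓ (↑(I.nbS (I.nbS S)) : Set V))
    {u : V} (hu : u ∈ S) : I.c1 ℓ u := by
  intro v hv u' hu' hne heq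
  apply hne
  refine hℓ ?_ ?_ heq
  · exact Finset.mem_coe.2 (I.mem_nbS.2 ⟨v, I.mem_nbS.2 ⟨u, hu, hv⟩, hu'⟩)
  · exact Finset.mem_coe.2 (I.subset_nbS _ (I.subset_nbS _ hu))

end

end Inst

end Pool.Agent.MLLL
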